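import Pool.Agent.Lib_helper18.PENK.Defs2
import Pool.Agent.Lib_helper61.FG.DivB

/-! the lattice lemma (helper53) and the divisor bound (helper47), in the namespace of class (i) -/

set_option autoImplicit false

namespace Pool.Agent.PNI


open Finset Pool.Agent.PENT Pool.Agent.PENK

theorem pd1_cnt (S : Finset (ℤ × ℤ)) (F : ℤ × ℤ → ℝ) {M I : ℝ} (hI : 0 < I) (hM : 0 ≤ M)
    (hF : ∀ v ∈ S, 0 ≤ F v ∧ F v ≤ M) (hsep : ∀ v ∈ S, ∀ w ∈ S, v ≠ w → I ≤ |F v - F w|) :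
    (S.card : ℝ) ≤ M / I + 1 := by
  have h : S.card ≤ (range (⌊M / I⌋₊ + 1)).card := by
    refine card_le_card_of_injOn (fun v => ⌊F v / I⌋₊) ?_ ?_
    · intro v hv
      have h1 := hF v hv
      simp only [coe_range, Set.mem_Iio]
      refine Nat.lt_succ_of_le (Nat.floor_le_floor ?_)
      exact div_le_div_of_nonneg_right h1.2 hI.le
    · intro v hv w hw hvw
      by_contra hne
      have h1 := hsep v hv w hw hne
      have h2 : |F v / I - F w / I| < 1 := by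
        have a1 := Nat.floor_le (div_nonneg (hF v hv).1 hI.le)
        have a2 := Nat.lt_floor_add_one (F v / I)
        have a3 := Nat.floor_le (div_nonneg (hF w hw).1 hI.le)
        have a4 := Nat.lt_floor_add_one (F w / I)
        have a5 : (⌊F v / I⌋₊ : ℝ) = ⌊F w / I⌋₊ := by exact_mod_cast hvw
        rw [abs_lt]
        constructor <;> linarith
      rw [← sub_div, abs_div, abs_of_pos hI, div_lt_one hI] at h2
      linarith
  rw [card_range] at h
  have h1 : (S.card : ℝ) ≤ (⌊M / I⌋₊ : ℝ) + 1 := by exact_mod_cast h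
  have h2 := Nat.floor_le (div_nonneg hM hI.le)
  linarith

theorem pd1_par {v w : ℤ × ℤ} (hv : Int.gcd v.1 v.2 = 1) (hw : Int.gcd w.1 w.2 = 1)
    (h1 : 0 < v.2) (h2 : 0 < w.2) (h : dt v w = 0) : v = w := by
  have e : v.1 * w.2 = w.1 * v.2 := by
    simp only [dt] at h; linarith
  have c1 : IsCoprime v.2 v.1 := (Int.isCoprime_iff_gcd_eq_one.2 hv).symm
  have c2 : IsCoprime w.2 w.1 := (Int.isCoprime_iff_gcd_eq_one.2 hw).symm
  have d1 : v.2 ∣ w.2 := c1.dvd_of_dvd_mul_left (e ▸ dvd_mul_left _ _)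
  have d2 : w.2 ∣ v.2 := c2.dvd_of_dvd_mul_left (e ▸ dvd_mul_left _ _)
  have e2 : v.2 = w.2 := Int.dvd_antisymm h1.le h2.le d1 d2
  have e1 : v.1 = w.1 := by
    rw [e2] at e
    exact mul_right_cancel₀ h2.ne' e
  exact Prod.ext e1 e2

theorem pd1_one (S : Finset (ℤ × ℤ)) (A B I : ℕ) (hI : 1 ≤ I)
    (hp : ∀ v ∈ S, Int.gcd v.1 v.2 = 1) (h0 : ∀ v ∈ S, 0 < v.2) (h1 : ∀ v ∈ S, v.2 ≤ B)
    (h2 : ∀ v ∈ S, |v.1| * B ≤ A * v.2) (hd : ∀ v ∈ S, ∀ w ∈ S, (I : ℤ) ∣ dt v w) :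
    (S.card : ℝ) ≤ 2 * A * B / I + 1 := by
  have hIR : (0:ℝ) < I := by exact_mod_cast hI
  refine pd1_cnt S (fun v => (B : ℝ) ^ 2 * v.1 / v.2 + A * B) hIR (by positivity) ?_ ?_
  · intro v hv
    have a0 : (0:ℝ) < v.2 := by exact_mod_cast h0 v hv
    have a2 : |(v.1 : ℝ)| * B ≤ A * v.2 := by exact_mod_cast h2 v hv
    have hB : (0:ℝ) ≤ B := Nat.cast_nonneg _
    have a3 : |(B : ℝ) ^ 2 * v.1 / v.2| ≤ A * B := by
      rw [abs_div, abs_mul, abs_of_pos a0, abs_of_nonneg (by positivity : (0:ℝ) ≤ (B:ℝ) ^ 2),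
        div_le_iff₀ a0]
      calc (B:ℝ) ^ 2 * |(v.1 : ℝ)| = B * (|(v.1 : ℝ)| * B) := by ring
        _ ≤ B * (A * v.2) := by gcongr
        _ = A * B * v.2 := by ring
    rw [abs_le] at a3
    constructor
    · show 0 ≤ (B : ℝ) ^ 2 * v.1 / v.2 + A * B
      linarith [a3.1]
    · show (B : ℝ) ^ 2 * v.1 / v.2 + A * B ≤ 2 * A * B
      linarith [a3.2]
  · intro v hv w hw hne
    have a0 : (0:ℝ) < v.2 := by exact_mod_cast h0 v hv
    have b0 : (0:ℝ) < w.2 := by exact_mod_cast h0 w hw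
    have a1 : (v.2 : ℝ) ≤ B := by exact_mod_cast h1 v hv
    have b1 : (w.2 : ℝ) ≤ B := by exact_mod_cast h1 w hw
    have e : (B : ℝ) ^ 2 * v.1 / v.2 + A * B - ((B : ℝ) ^ 2 * w.1 / w.2 + A * B) =
        (B : ℝ) ^ 2 * (dt v w : ℝ) / (v.2 * w.2) := by
      simp only [dt]
      push_cast
      field_simp
      ring
    show (I : ℝ) ≤ |(B : ℝ) ^ 2 * v.1 / v.2 + A * B - ((B : ℝ) ^ 2 * w.1 / w.2 + A * B)|
    rw [e, abs_div, abs_mul, abs_of_nonneg (by positivity : (0:ℝ) ≤ (B:ℝ) ^ 2),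
      abs_of_pos (mul_pos a0 b0), le_div_iff₀ (mul_pos a0 b0)]
    have hdt : dt v w ≠ 0 := fun h => hne (pd1_par (hp v hv) (hp w hw) (h0 v hv) (h0 w hw) h)
    have hI2 : (I : ℝ) ≤ |(dt v w : ℝ)| := by
      have := Int.le_of_dvd (abs_pos.2 hdt) ((dvd_abs _ _).2 (hd v hv w hw))
      exact_mod_cast this
    calc (I : ℝ) * (v.2 * w.2) ≤ |(dt v w : ℝ)| * (B * B) := by gcongr
      _ = (B : ℝ) ^ 2 * |(dt v w : ℝ)| := by ring

/-- a class after a linear map -/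
theorem pd1_map (S : Finset (ℤ × ℤ)) (A B I : ℕ) (hI : 1 ≤ I) (g : ℤ × ℤ → ℤ × ℤ)
    (hg : Function.Injective g)
    (hp : ∀ v ∈ S, Int.gcd (g v).1 (g v).2 = 1) (h0 : ∀ v ∈ S, 0 < (g v).2)
    (h1 : ∀ v ∈ S, (g v).2 ≤ B) (h2 : ∀ v ∈ S, |(g v).1| * B ≤ A * (g v).2)
    (hd : ∀ v ∈ S, ∀ w ∈ S, (I : ℤ) ∣ dt (g v) (g w)) : (S.card : ℝ) ≤ 2 * A * B / I + 1 := by
  classical
  rw [← card_image_of_injective S hg]
  refine pd1_one (S.image g) A B I hI ?_ ?_ ?_ ?_ ?_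
  · intro v hv
    obtain ⟨u, hu, rfl⟩ := mem_image.1 hv
    exact hp u hu
  · intro v hv
    obtain ⟨u, hu, rfl⟩ := mem_image.1 hv
    exact h0 u hu
  · intro v hv
    obtain ⟨u, hu, rfl⟩ := mem_image.1 hv
    exact h1 u hu
  · intro v hv
    obtain ⟨u, hu, rfl⟩ := mem_image.1 hv
    exact h2 u hu
  · intro v hv w hw
    obtain ⟨u, hu, rfl⟩ := mem_image.1 hv
    obtain ⟨t, ht, rfl⟩ := mem_image.1 hw
    exact hd u hu t ht

/-- BLOCK PD1: the lattice lemma. At most two vectors with `v.2 = 0`; up to sign let `b = v.2 > 0`,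
`a = v.1`. Put `F = B² a / b` if `|a| B ≤ A b`, else `F = sign(a) (2 A B - A² b / |a|)`; then
`-2AB ≤ F ≤ 2AB` and `|F(v) - F(w)| ≥ |dt v w|` (with the slopes `s = a/b < s' = a'/b'`:
`b, b' ≤ B`, `b|s|, b'|s'| ≤ A`; mixed case `|s| ≤ A/B < s'`:
`s' (F' - F - B A (s' - s)/s') = (A - B s)(B s' - A) ≥ 0`; case `s < -A/B`, `s' > A/B`:
`F' - F ≥ 2AB ≥ A (b + b')`). `|dt v w| ≥ I` for `v ≠ w`, so `v ↦ ⌊F(v)/I⌋` is injective. -/
theorem lattice_lemma (S : Finset (ℤ × ℤ)) (A B I : ℕ) (hA : 1 ≤ A) (hB : 1 ≤ B) (hI : 1 ≤ I)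
    (hp : ∀ v ∈ S, Int.gcd v.1 v.2 = 1) (h1 : ∀ v ∈ S, v.1.natAbs ≤ A)
    (h2 : ∀ v ∈ S, v.2.natAbs ≤ B) (hd : ∀ v ∈ S, ∀ w ∈ S, (I : ℤ) ∣ dt v w) :
    (S.card : ℝ) ≤ 8 * A * B / I + 6 := by
  classical
  have h1' : ∀ v ∈ S, |v.1| ≤ A := fun v hv => by
    rw [Int.abs_eq_natAbs]; exact_mod_cast h1 v hv
  have h2' : ∀ v ∈ S, |v.2| ≤ B := fun v hv => by
    rw [Int.abs_eq_natAbs]; exact_mod_cast h2 v hv
  have hAZ : (1:ℤ) ≤ A := by exact_mod_cast hA
  have hBZ : (1:ℤ) ≤ B := by exact_mod_cast hB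
  set S1 := S.filter (fun v => 0 < v.2 ∧ |v.1| * (B : ℤ) ≤ (A : ℤ) * |v.2|) with hS1
  set S2 := S.filter (fun v => v.2 < 0 ∧ |v.1| * (B : ℤ) ≤ (A : ℤ) * |v.2|) with hS2
  set S3 := S.filter (fun v => 0 < v.1 ∧ |v.2| * (A : ℤ) ≤ (B : ℤ) * |v.1|) with hS3
  set S4 := S.filter (fun v => v.1 < 0 ∧ |v.2| * (A : ℤ) ≤ (B : ℤ) * |v.1|) with hS4
  have hcov : S ⊆ (S1 ∪ S2) ∪ (S3 ∪ S4) := by
    intro v hv
    simp only [mem_union, hS1, hS2, hS3, hS4, mem_filter]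
    rcases le_total (|v.1| * (B : ℤ)) ((A : ℤ) * |v.2|) with h | h
    · rcases lt_trichotomy v.2 0 with h3 | h3 | h3
      · exact Or.inl (Or.inr ⟨hv, h3, h⟩)
      · exfalso
        rw [h3, abs_zero, mul_zero] at h
        have h4 : |v.1| = 0 := by nlinarith [abs_nonneg v.1]
        have := hp v hv
        rw [h3, abs_eq_zero.1 h4] at this
        simp at this
      · exact Or.inl (Or.inl ⟨hv, h3, h⟩)
    · have h' : |v.2| * A ≤ B * |v.1| := by linarith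
      rcases lt_trichotomy v.1 0 with h3 | h3 | h3
      · exact Or.inr (Or.inr ⟨hv, h3, h'⟩)
      · exfalso
        rw [h3, abs_zero, mul_zero] at h'
        have h4 : |v.2| = 0 := by nlinarith [abs_nonneg v.2]
        have := hp v hv
        rw [h3, abs_eq_zero.1 h4] at this
        simp at this
      · exact Or.inr (Or.inl ⟨hv, h3, h'⟩)
  have hcard : S.card ≤ S1.card + S2.card + (S3.card + S4.card) :=
    (card_le_card hcov).trans ((card_union_le _ _).trans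
      (Nat.add_le_add (card_union_le _ _) (card_union_le _ _)))
  have c1 : (S1.card : ℝ) ≤ 2 * A * B / I + 1 := by
    refine pd1_map S1 A B I hI (fun v => v) (fun _ _ h => h) ?_ ?_ ?_ ?_ ?_
    · intro v hv
      exact hp v (mem_filter.1 hv).1
    · intro v hv
      exact (mem_filter.1 hv).2.1
    · intro v hv
      exact (le_abs_self _).trans (h2' v (mem_filter.1 hv).1)
    · intro v hv
      have h := (mem_filter.1 hv).2
      rw [abs_of_pos h.1] at h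
      exact h.2
    · intro v hv w hw
      exact hd v (mem_filter.1 hv).1 w (mem_filter.1 hw).1
  have c2 : (S2.card : ℝ) ≤ 2 * A * B / I + 1 := by
    refine pd1_map S2 A B I hI (fun v => (-v.1, -v.2)) ?_ ?_ ?_ ?_ ?_ ?_
    · intro v w h
      have h := Prod.mk.inj h
      exact Prod.ext (neg_inj.1 h.1) (neg_inj.1 h.2)
    · intro v hv
      show Int.gcd (-v.1) (-v.2) = 1
      rw [Int.gcd_neg, Int.neg_gcd]
      exact hp v (mem_filter.1 hv).1
    · intro v hv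
      exact neg_pos.2 (mem_filter.1 hv).2.1
    · intro v hv
      exact (neg_le_abs _).trans (h2' v (mem_filter.1 hv).1)
    · intro v hv
      have h := (mem_filter.1 hv).2
      rw [abs_of_neg h.1] at h
      show |-v.1| * B ≤ A * -v.2
      rw [abs_neg]
      exact h.2
    · intro v hv w hw
      have h := hd v (mem_filter.1 hv).1 w (mem_filter.1 hw).1
      have e : dt (-v.1, -v.2) (-w.1, -w.2) = dt v w := by simp only [dt]; ring
      show (I : ℤ) ∣ dt (-v.1, -v.2) (-w.1, -w.2)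
      rw [e]; exact h
  have c3 : (S3.card : ℝ) ≤ 2 * B * A / I + 1 := by
    refine pd1_map S3 B A I hI (fun v => (v.2, v.1)) ?_ ?_ ?_ ?_ ?_ ?_
    · intro v w h
      have h := Prod.mk.inj h
      exact Prod.ext h.2 h.1
    · intro v hv
      show Int.gcd v.2 v.1 = 1
      rw [Int.gcd_comm]
      exact hp v (mem_filter.1 hv).1
    · intro v hv
      exact (mem_filter.1 hv).2.1
    · intro v hv
      exact (le_abs_self _).trans (h1' v (mem_filter.1 hv).1)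
    · intro v hv
      have h := (mem_filter.1 hv).2
      rw [abs_of_pos h.1] at h
      exact h.2
    · intro v hv w hw
      have h := hd v (mem_filter.1 hv).1 w (mem_filter.1 hw).1
      have e : dt (v.2, v.1) (w.2, w.1) = -dt v w := by simp only [dt]; ring
      show (I : ℤ) ∣ dt (v.2, v.1) (w.2, w.1)
      rw [e, dvd_neg]; exact h
  have c4 : (S4.card : ℝ) ≤ 2 * B * A / I + 1 := by
    refine pd1_map S4 B A I hI (fun v => (-v.2, -v.1)) ?_ ?_ ?_ ?_ ?_ ?_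
    · intro v w h
      have h := Prod.mk.inj h
      exact Prod.ext (neg_inj.1 h.2) (neg_inj.1 h.1)
    · intro v hv
      show Int.gcd (-v.2) (-v.1) = 1
      rw [Int.gcd_neg, Int.neg_gcd, Int.gcd_comm]
      exact hp v (mem_filter.1 hv).1
    · intro v hv
      exact neg_pos.2 (mem_filter.1 hv).2.1
    · intro v hv
      exact (neg_le_abs _).trans (h1' v (mem_filter.1 hv).1)
    · intro v hv
      have h := (mem_filter.1 hv).2
      rw [abs_of_neg h.1] at h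
      show |-v.2| * A ≤ B * -v.1
      rw [abs_neg]
      exact h.2
    · intro v hv w hw
      have h := hd v (mem_filter.1 hv).1 w (mem_filter.1 hw).1
      have e : dt (-v.2, -v.1) (-w.2, -w.1) = -dt v w := by simp only [dt]; ring
      show (I : ℤ) ∣ dt (-v.2, -v.1) (-w.2, -w.1)
      rw [e, dvd_neg]; exact h
  have hc : (S.card : ℝ) ≤ S1.card + S2.card + (S3.card + S4.card) := by exact_mod_cast hcard
  have e1 : (2 * B * A / I : ℝ) = 2 * A * B / I := by ring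
  have e2 : (8 * A * B / I : ℝ) = 4 * (2 * A * B / I) := by ring
  rw [e1] at c3 c4
  rw [e2]
  linarith


theorem div_le {θ : ℝ} (hθ : 0 < θ) : ∃ x₀ : ℝ, 1 ≤ x₀ ∧ ∀ x ≥ x₀, ∀ n : ℕ, 0 < n →
    (n : ℝ) ≤ x ^ 3 → (n.divisors.card : ℝ) ≤ x ^ θ := by
  obtain ⟨C, hC, hd⟩ := Pool.Agent.FG61.divisor_bound (ε := θ / 6) (by positivity)
  refine ⟨max 1 (C ^ (2 / θ)), le_max_left _ _, fun x hx n hn hnx => ?_⟩
  have hx1 : 1 ≤ x := le_trans (le_max_left _ _) hx
  have hx0 : 0 < x := by linarith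
  have hx2 : C ^ (2 / θ) ≤ x := le_trans (le_max_right _ _) hx
  have h1 : C ≤ x ^ (θ / 2) := by
    have h2 := Real.rpow_le_rpow (by positivity) hx2 (show 0 ≤ θ / 2 by positivity)
    rw [← Real.rpow_mul hC.le] at h2
    have h3 : 2 / θ * (θ / 2) = 1 := by field_simp
    rwa [h3, Real.rpow_one] at h2
  have h4 : (n : ℝ) ^ (θ / 6) ≤ x ^ (θ / 2) := by
    have h5 := Real.rpow_le_rpow (by positivity) hnx (show 0 ≤ θ / 6 by positivity)
    have h6 : (x ^ 3) ^ (θ / 6) = x ^ (θ / 2) := by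
      rw [← Real.rpow_natCast x 3, ← Real.rpow_mul hx0.le]
      congr 1
      push_cast
      ring
    rwa [h6] at h5
  calc (n.divisors.card : ℝ) ≤ C * (n : ℝ) ^ (θ / 6) := hd n hn
    _ ≤ x ^ (θ / 2) * x ^ (θ / 2) := by
        apply mul_le_mul h1 h4 (by positivity) (by positivity)
    _ = x ^ θ := by
        rw [← Real.rpow_add hx0]
        congr 1
        ring


end Pool.Agent.PNI
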