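import Pool.Agent.Lib_helper96.PNI.Defs

set_option autoImplicit false

namespace Pool.Agent.PNI

open Finset Pool.Agent.PENT Pool.Agent.PENK

theorem qc4_max (x y a c : ℝ) : max 0 (x + y - a - c) ≤ max 0 (x - a) + max 0 (y - c) := by
  have h1 := le_max_left 0 (x - a)
  have h2 := le_max_right 0 (x - a)
  have h3 := le_max_left 0 (y - c)
  have h4 := le_max_right 0 (y - c)
  apply max_le <;> linarith

theorem qc4_h (m a c : ℝ) (ha : 0 ≤ a) (hc : 0 ≤ c) (hm : 0 ≤ m) (hg : m ≤ a + c) :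
    -m + max 0 (m - a) + max 0 (m - c) ≤ 0 := by
  rcases le_total m a with h | h <;> rcases le_total m c with h' | h'
  · rw [max_eq_left (by linarith), max_eq_left (by linarith)]; linarith
  · rw [max_eq_left (by linarith), max_eq_right (by linarith)]; linarith
  · rw [max_eq_right (by linarith), max_eq_left (by linarith)]; linarith
  · rw [max_eq_right (by linarith), max_eq_right (by linarith)]; linarith

/-- the sum as a sum over all vertices -/
theorem qc4_phi (b y z : Fin 11) (e g : Fin 11 → ℝ) :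
    phi b y z e g = ∑ i : Fin 11, (g i - e i - e (i + 1)) +
      ∑ l : Fin 11, if (l ≠ b ∧ l ≠ b + 1) then max 0 (2 * e l - g (l - 1) - g l +
        if l = y ∨ l = z then e b + e (b + 1) - g b else 0) else 0 := by
  unfold phi nb
  rw [Finset.sum_filter]

theorem qc4_f1 : ∀ i b : Fin 11, i + b + 1 = i + 1 + b := by decide
theorem qc4_f2 : ∀ i b : Fin 11, i + b - 1 = i - 1 + b := by decide
theorem qc4_f3 : ∀ i b : Fin 11, (i + b ≠ b ∧ i + b ≠ b + 1) ↔ (i ≠ 0 ∧ i ≠ 0 + 1) := by decide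
theorem qc4_f4 (i b y z : Fin 11) : (i + b = y ∨ i + b = z) ↔ (i = y - b ∨ i = z - b) := by
  rw [eq_sub_iff_add_eq, eq_sub_iff_add_eq]

/-- rotation -/
theorem qc4_rot (b y z : Fin 11) (e g : Fin 11 → ℝ) :
    phi b y z e g = phi 0 (y - b) (z - b) (fun i => e (i + b)) (fun i => g (i + b)) := by
  rw [qc4_phi, qc4_phi]
  congr 1
  · rw [← Equiv.sum_comp (Equiv.addRight b)]
    apply Finset.sum_congr rfl
    intro i _
    show g (i + b) - e (i + b) - e (i + b + 1) = g (i + b) - e (i + b) - e (i + 1 + b)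
    rw [qc4_f1 i b]
  · rw [← Equiv.sum_comp (Equiv.addRight b)]
    apply Finset.sum_congr rfl
    intro i _
    show (if (i + b ≠ b ∧ i + b ≠ b + 1) then max 0 (2 * e (i + b) - g (i + b - 1) - g (i + b) +
        if i + b = y ∨ i + b = z then e b + e (b + 1) - g b else 0) else 0) =
      (if (i ≠ 0 ∧ i ≠ 0 + 1) then max 0 (2 * e (i + b) - g (i - 1 + b) - g (i + b) +
        if i = y - b ∨ i = z - b then e (0 + b) + e (0 + 1 + b) - g (0 + b) else 0) else 0)
    rw [if_congr (qc4_f3 i b) rfl rfl, if_congr (qc4_f4 i b y z) rfl rfl, qc4_f2 i b, zero_add,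
      zero_add, add_comm 1 b]

theorem qc4_exp (e g : Fin 11 → ℝ) : phi 0 10 2 e g =
    ((g 0 - e 0 - e 1) + (g 1 - e 1 - e 2) + (g 2 - e 2 - e 3) + (g 3 - e 3 - e 4) +
      (g 4 - e 4 - e 5) + (g 5 - e 5 - e 6) + (g 6 - e 6 - e 7) + (g 7 - e 7 - e 8) +
      (g 8 - e 8 - e 9) + (g 9 - e 9 - e 10) + (g 10 - e 10 - e 0)) +
    (max 0 (2 * e 2 - g 1 - g 2 + (e 0 + e 1 - g 0)) + max 0 (2 * e 3 - g 2 - g 3) +
      max 0 (2 * e 4 - g 3 - g 4) + max 0 (2 * e 5 - g 4 - g 5) + max 0 (2 * e 6 - g 5 - g 6) +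
      max 0 (2 * e 7 - g 6 - g 7) + max 0 (2 * e 8 - g 7 - g 8) + max 0 (2 * e 9 - g 8 - g 9) +
      max 0 (2 * e 10 - g 9 - g 10 + (e 0 + e 1 - g 0))) := by
  have hn : nb 0 = {2, 3, 4, 5, 6, 7, 8, 9, 10} := by decide
  have h1 : ∀ F : Fin 11 → ℝ, ∑ i, F i = F 0 + F 1 + F 2 + F 3 + F 4 + F 5 + F 6 + F 7 + F 8 +
      F 9 + F 10 := by
    intro F
    simp only [Fin.sum_univ_succ, Fin.sum_univ_zero]
    simp only [add_zero]
    ring_nf
    rfl
  unfold phi
  rw [h1, hn]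
  rw [Finset.sum_insert (by decide), Finset.sum_insert (by decide), Finset.sum_insert (by decide),
    Finset.sum_insert (by decide), Finset.sum_insert (by decide), Finset.sum_insert (by decide),
    Finset.sum_insert (by decide), Finset.sum_insert (by decide), Finset.sum_singleton]
  rw [if_pos (by decide), if_neg (by decide), if_neg (by decide), if_neg (by decide),
    if_neg (by decide), if_neg (by decide), if_neg (by decide), if_neg (by decide),
    if_pos (by decide)]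
  simp only [add_zero]
  rw [show (0 : Fin 11) + 1 = 1 by decide, show (1 : Fin 11) + 1 = 2 by decide,
    show (2 : Fin 11) + 1 = 3 by decide, show (3 : Fin 11) + 1 = 4 by decide,
    show (4 : Fin 11) + 1 = 5 by decide, show (5 : Fin 11) + 1 = 6 by decide,
    show (6 : Fin 11) + 1 = 7 by decide, show (7 : Fin 11) + 1 = 8 by decide,
    show (8 : Fin 11) + 1 = 9 by decide, show (9 : Fin 11) + 1 = 10 by decide,
    show (10 : Fin 11) + 1 = 0 by decide, show (2 : Fin 11) - 1 = 1 by decide,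
    show (3 : Fin 11) - 1 = 2 by decide, show (4 : Fin 11) - 1 = 3 by decide,
    show (5 : Fin 11) - 1 = 4 by decide, show (6 : Fin 11) - 1 = 5 by decide,
    show (7 : Fin 11) - 1 = 6 by decide, show (8 : Fin 11) - 1 = 7 by decide,
    show (9 : Fin 11) - 1 = 8 by decide, show (10 : Fin 11) - 1 = 9 by decide]
  ring

theorem qc4_zero (e g : Fin 11 → ℝ) (he : ∀ j, 0 ≤ e j) (h0 : ∀ i, 0 ≤ g i)
    (h1 : ∀ i, g i ≤ e i + e (i + 1)) : phi 0 10 2 e g ≤ 0 := by
  rw [qc4_exp]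
  have k0 := h1 0; have k1 := h1 1; have k2 := h1 2; have k3 := h1 3; have k4 := h1 4
  have k5 := h1 5; have k6 := h1 6; have k7 := h1 7; have k8 := h1 8; have k9 := h1 9
  have k10 := h1 10
  rw [show (0 : Fin 11) + 1 = 1 by decide] at k0
  rw [show (1 : Fin 11) + 1 = 2 by decide] at k1
  rw [show (2 : Fin 11) + 1 = 3 by decide] at k2
  rw [show (3 : Fin 11) + 1 = 4 by decide] at k3
  rw [show (4 : Fin 11) + 1 = 5 by decide] at k4
  rw [show (5 : Fin 11) + 1 = 6 by decide] at k5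
  rw [show (6 : Fin 11) + 1 = 7 by decide] at k6
  rw [show (7 : Fin 11) + 1 = 8 by decide] at k7
  rw [show (8 : Fin 11) + 1 = 9 by decide] at k8
  rw [show (9 : Fin 11) + 1 = 10 by decide] at k9
  rw [show (10 : Fin 11) + 1 = 0 by decide] at k10
  have hh : ∀ i j : Fin 11, g i ≤ e i + e j →
      (g i - e i - e j) + max 0 (e j - g i) + max 0 (e i - g i) ≤ 0 := by
    intro i j hij
    have := qc4_h (e i + e j - g i) (e i) (e j) (he i) (he j) (by linarith)
      (by linarith [h0 i])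
    rw [show e i + e j - g i - e i = e j - g i by ring,
      show e i + e j - g i - e j = e i - g i by ring] at this
    linarith
  have a0 := hh 0 1 k0
  have a2 := hh 2 3 k2
  have a3 := hh 3 4 k3
  have a4 := hh 4 5 k4
  have a5 := hh 5 6 k5
  have a6 := hh 6 7 k6
  have a7 := hh 7 8 k7
  have a8 := hh 8 9 k8
  have a9 := hh 9 10 k9
  -- the terms
  have mx : ∀ x y : ℝ, max 0 (x + y) ≤ max 0 x + max 0 y := by
    intro x y
    have := qc4_max x y 0 0
    simpa using this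
  have m3 := mx (e 3 - g 2) (e 3 - g 3)
  have m4 := mx (e 4 - g 3) (e 4 - g 4)
  have m5 := mx (e 5 - g 4) (e 5 - g 5)
  have m6 := mx (e 6 - g 5) (e 6 - g 6)
  have m7 := mx (e 7 - g 6) (e 7 - g 7)
  have m8 := mx (e 8 - g 7) (e 8 - g 8)
  have m9 := mx (e 9 - g 8) (e 9 - g 9)
  have n2a := mx (e 0 - g 0) ((e 1 + e 2 - g 1) + (e 2 - g 2))
  have n2b := mx (e 1 + e 2 - g 1) (e 2 - g 2)
  have n2c : max 0 (e 1 + e 2 - g 1) = e 1 + e 2 - g 1 := max_eq_right (by linarith)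
  have n10a := mx (e 1 - g 0) ((e 0 + e 10 - g 10) + (e 10 - g 9))
  have n10b := mx (e 0 + e 10 - g 10) (e 10 - g 9)
  have n10c : max 0 (e 0 + e 10 - g 10) = e 0 + e 10 - g 10 := max_eq_right (by linarith)
  rw [show 2 * e 3 - g 2 - g 3 = (e 3 - g 2) + (e 3 - g 3) by ring,
    show 2 * e 4 - g 3 - g 4 = (e 4 - g 3) + (e 4 - g 4) by ring,
    show 2 * e 5 - g 4 - g 5 = (e 5 - g 4) + (e 5 - g 5) by ring,
    show 2 * e 6 - g 5 - g 6 = (e 6 - g 5) + (e 6 - g 6) by ring,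
    show 2 * e 7 - g 6 - g 7 = (e 7 - g 6) + (e 7 - g 7) by ring,
    show 2 * e 8 - g 7 - g 8 = (e 8 - g 7) + (e 8 - g 8) by ring,
    show 2 * e 9 - g 8 - g 9 = (e 9 - g 8) + (e 9 - g 9) by ring,
    show 2 * e 2 - g 1 - g 2 + (e 0 + e 1 - g 0) =
      (e 0 - g 0) + ((e 1 + e 2 - g 1) + (e 2 - g 2)) by ring,
    show 2 * e 10 - g 9 - g 10 + (e 0 + e 1 - g 0) =
      (e 1 - g 0) + ((e 0 + e 10 - g 10) + (e 10 - g 9)) by ring]
  linarith

theorem phi_nonpos {τ : ℝ} (hτ : 0 ≤ τ) {e g : Fin 11 → ℝ} (h : Adm τ e g) (b : Fin 11) :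
    phi b (b - 1) (b + 2) e g ≤ 0 := by
  rw [qc4_rot, show b - 1 - b = 10 by revert b; decide, show b + 2 - b = 2 by revert b; decide]
  have he : ∀ j, 0 ≤ e j := by
    intro j
    by_cases h0 : j = 0
    · rw [h0, h.e0]
    · by_cases h1 : j = 10
      · rw [h1, h.e10]
      · linarith [h.e1 j h0 h1]
  refine qc4_zero _ _ (fun j => he _) (fun i => h.g0 _) (fun i => ?_)
  have := h.g1 (i + b)
  rwa [qc4_f1 i b] at this

end Pool.Agent.PNI
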