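import Pool.Agent.Lib_helper96.PNI.Defs

set_option autoImplicit false

namespace Pool.Agent.PNI

open Finset Pool.Agent.PENT Pool.Agent.PENK

theorem qc5_sum (f : Fin 11 → ℝ) : ∑ i, f i =
    f 0 + f 1 + f 2 + f 3 + f 4 + f 5 + f 6 + f 7 + f 8 + f 9 + f 10 := by
  simp only [Fin.sum_univ_castSucc, Fin.sum_univ_zero, zero_add]
  rfl

/-- the factor at the vertex `l` -/
noncomputable def qc5_N (b y z : Fin 11) (e g : Fin 11 → ℝ) (l : Fin 11) : ℝ :=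
  if l ≠ b ∧ l ≠ b + 1 then max 0 (2 * e l - g (l - 1) - g l +
    if l = y ∨ l = z then e b + e (b + 1) - g b else 0) else 0

theorem qc5_phi (b y z : Fin 11) (e g : Fin 11 → ℝ) : phi b y z e g =
    ((g 0 - e 0 - e 1) + (g 1 - e 1 - e 2) + (g 2 - e 2 - e 3) + (g 3 - e 3 - e 4) +
      (g 4 - e 4 - e 5) + (g 5 - e 5 - e 6) + (g 6 - e 6 - e 7) + (g 7 - e 7 - e 8) +
      (g 8 - e 8 - e 9) + (g 9 - e 9 - e 10) + (g 10 - e 10 - e 0)) +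
    (qc5_N b y z e g 0 + qc5_N b y z e g 1 + qc5_N b y z e g 2 + qc5_N b y z e g 3 +
      qc5_N b y z e g 4 + qc5_N b y z e g 5 + qc5_N b y z e g 6 + qc5_N b y z e g 7 +
      qc5_N b y z e g 8 + qc5_N b y z e g 9 + qc5_N b y z e g 10) := by
  unfold phi nb
  rw [Finset.sum_filter, qc5_sum, qc5_sum]
  rfl

theorem qc5_off {b y z : Fin 11} {e g : Fin 11 → ℝ} {l : Fin 11} (h : ¬ (l ≠ b ∧ l ≠ b + 1)) :
    qc5_N b y z e g l = 0 := by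
  unfold qc5_N
  rw [if_neg h]

theorem qc5_gen {b y z : Fin 11} {e g : Fin 11 → ℝ} {l : Fin 11} (p : Fin 11) (hp : l - 1 = p)
    (h : l ≠ b ∧ l ≠ b + 1) (h' : ¬ (l = y ∨ l = z)) :
    qc5_N b y z e g l = max 0 (2 * e l - g p - g l) := by
  unfold qc5_N
  rw [if_pos h, if_neg h', hp, add_zero]

theorem qc5_sp {b y z : Fin 11} {e g : Fin 11 → ℝ} {l : Fin 11} (p b1 : Fin 11) (hp : l - 1 = p)
    (hb : b + 1 = b1) (h : l ≠ b ∧ l ≠ b + 1) (h' : l = y ∨ l = z) :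
    qc5_N b y z e g l = max 0 (2 * e l - g p - g l + (e b + e b1 - g b)) := by
  unfold qc5_N
  rw [if_pos h, if_pos h', hp, hb]

theorem qc5_U (c gp gl : ℝ) : max 0 (2 * c - gp - gl) ≤ max 0 (c - gp) + max 0 (c - gl) := by
  have h1 := le_max_left 0 (c - gp)
  have h2 := le_max_right 0 (c - gp)
  have h3 := le_max_left 0 (c - gl)
  have h4 := le_max_right 0 (c - gl)
  exact max_le (by linarith) (by linarith)

theorem qc5_U2 {c gp gl eb eb1 gb : ℝ} (h : gp ≤ eb1 + c) :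
    max 0 (2 * c - gp - gl + (eb + eb1 - gb)) ≤
      max 0 (eb - gb) + (eb1 + c - gp) + max 0 (c - gl) := by
  have h1 := le_max_left 0 (eb - gb)
  have h2 := le_max_right 0 (eb - gb)
  have h3 := le_max_left 0 (c - gl)
  have h4 := le_max_right 0 (c - gl)
  exact max_le (by linarith) (by linarith)

theorem qc5_U3 {c gp gl eb eb1 gb : ℝ} (h : gl ≤ c + eb) :
    max 0 (2 * c - gp - gl + (eb + eb1 - gb)) ≤
      max 0 (eb1 - gb) + (c + eb - gl) + max 0 (c - gp) := by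
  have h1 := le_max_left 0 (eb1 - gb)
  have h2 := le_max_right 0 (eb1 - gb)
  have h3 := le_max_left 0 (c - gp)
  have h4 := le_max_right 0 (c - gp)
  exact max_le (by linarith) (by linarith)

theorem qc5_E {a c g : ℝ} (ha : 0 ≤ a) (hc : 0 ≤ c) (h0 : 0 ≤ g) (h1 : g ≤ a + c) :
    max 0 (a - g) + max 0 (c - g) ≤ a + c - g := by
  rcases le_total 0 (a - g) with h2 | h2 <;> rcases le_total 0 (c - g) with h3 | h3
  · rw [max_eq_right h2, max_eq_right h3]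
    linarith
  · rw [max_eq_right h2, max_eq_left h3]
    linarith
  · rw [max_eq_left h2, max_eq_right h3]
    linarith
  · rw [max_eq_left h2, max_eq_left h3]
    linarith

theorem qc5_state {a c g : ℝ} (ha : 0 < a) (hc : 0 < c) (h0 : 0 ≤ g) (h1 : g ≤ a + c)
    (h : a + c - g ≤ max 0 (a - g) + max 0 (c - g)) : g = 0 ∨ g = a + c := by
  rcases le_total 0 (a - g) with h2 | h2 <;> rcases le_total 0 (c - g) with h3 | h3
  · rw [max_eq_right h2, max_eq_right h3] at h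
    left
    linarith
  · rw [max_eq_right h2, max_eq_left h3] at h
    linarith
  · rw [max_eq_left h2, max_eq_right h3] at h
    linarith
  · rw [max_eq_left h2, max_eq_left h3] at h
    right
    linarith

theorem qc5_joint {a c d gp gl : ℝ} (ha : 0 < a) (hc : 0 < c) (hd : 0 < d)
    (sp : gp = 0 ∨ gp = a + c) (sl : gl = 0 ∨ gl = c + d)
    (h : max 0 (c - gp) + max 0 (c - gl) ≤ max 0 (2 * c - gp - gl)) :
    (gp = 0 → gl = 0) ∧ (gl = 0 → gp = 0) ∧ (gp = a + c → gl = c + d) ∧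
      (gl = c + d → gp = a + c) := by
  rcases sp with sp | sp <;> rcases sl with sl | sl
  · refine ⟨fun _ => sl, fun _ => sp, fun _ => ?_, fun _ => ?_⟩ <;> linarith
  · exfalso
    rw [sp, sl] at h
    rw [max_eq_right (by linarith : 0 ≤ c - 0), max_eq_left (by linarith : c - (c + d) ≤ 0)] at h
    rcases le_total 0 (2 * c - 0 - (c + d)) with h2 | h2
    · rw [max_eq_right h2] at h
      linarith
    · rw [max_eq_left h2] at h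
      linarith
  · exfalso
    rw [sp, sl] at h
    rw [max_eq_right (by linarith : 0 ≤ c - 0), max_eq_left (by linarith : c - (a + c) ≤ 0)] at h
    rcases le_total 0 (2 * c - (a + c) - 0) with h2 | h2
    · rw [max_eq_right h2] at h
      linarith
    · rw [max_eq_left h2] at h
      linarith
  · refine ⟨fun _ => ?_, fun _ => ?_, fun _ => sl, fun _ => sp⟩ <;> linarith

/-- the end `gl` full -/
theorem qc5_end1 {a d gp gl : ℝ} (hd : 0 < d) (h1 : gp ≤ a) (h2 : gl = a + d)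
    (h : max 0 (a - gp) + max 0 (a - gl) ≤ max 0 (2 * a - gp - gl)) : gp = a := by
  have h3 := le_max_left 0 (a - gl)
  rw [max_eq_right (by linarith : 0 ≤ a - gp)] at h
  rcases le_total 0 (2 * a - gp - gl) with h4 | h4
  · rw [max_eq_right h4] at h
    linarith
  · rw [max_eq_left h4] at h
    linarith

theorem qc5_end2 {a d gp gl : ℝ} (hd : 0 < d) (h1 : gl ≤ a) (h2 : gp = d + a)
    (h : max 0 (a - gp) + max 0 (a - gl) ≤ max 0 (2 * a - gp - gl)) : gl = a := by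
  have h3 := le_max_left 0 (a - gp)
  rw [max_eq_right (by linarith : 0 ≤ a - gl)] at h
  rcases le_total 0 (2 * a - gp - gl) with h4 | h4
  · rw [max_eq_right h4] at h
    linarith
  · rw [max_eq_left h4] at h
    linarith

theorem qc5_full2 {c gp gl eb eb1 gb : ℝ}
    (h : max 0 (eb - gb) + (eb1 + c - gp) + max 0 (c - gl) ≤
      max 0 (2 * c - gp - gl + (eb + eb1 - gb)))
    (hb : gb = eb + eb1) (h1 : 0 < eb1) (hm : gp ≤ eb1 + c) : gp = eb1 + c ∧ c ≤ gl := by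
  have h2 := le_max_left 0 (eb - gb)
  have h3 := le_max_left 0 (c - gl)
  have h4 := le_max_right 0 (c - gl)
  rcases le_total 0 (2 * c - gp - gl + (eb + eb1 - gb)) with h5 | h5
  · rw [max_eq_right h5] at h
    exfalso
    linarith
  · rw [max_eq_left h5] at h
    constructor <;> linarith

theorem qc5_empty2 {c gp gl eb eb1 gb : ℝ}
    (h : max 0 (eb - gb) + (eb1 + c - gp) + max 0 (c - gl) ≤
      max 0 (2 * c - gp - gl + (eb + eb1 - gb)))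
    (hb : gb = 0) (h1 : 0 < eb) (hm : gp ≤ eb1 + c) : gl ≤ c := by
  have h2 := le_max_right 0 (eb - gb)
  have h3 := le_max_left 0 (c - gl)
  have h4 := le_max_right 0 (c - gl)
  rcases le_total 0 (2 * c - gp - gl + (eb + eb1 - gb)) with h5 | h5
  · rw [max_eq_right h5] at h
    linarith
  · rw [max_eq_left h5] at h
    linarith

theorem qc5_full3 {c gp gl eb eb1 gb : ℝ}
    (h : max 0 (eb1 - gb) + (c + eb - gl) + max 0 (c - gp) ≤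
      max 0 (2 * c - gp - gl + (eb + eb1 - gb)))
    (hb : gb = eb + eb1) (h1 : 0 < eb) (hm : gl ≤ c + eb) : gl = c + eb ∧ c ≤ gp := by
  have h2 := le_max_left 0 (eb1 - gb)
  have h3 := le_max_left 0 (c - gp)
  have h4 := le_max_right 0 (c - gp)
  rcases le_total 0 (2 * c - gp - gl + (eb + eb1 - gb)) with h5 | h5
  · rw [max_eq_right h5] at h
    exfalso
    linarith
  · rw [max_eq_left h5] at h
    constructor <;> linarith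

theorem qc5_empty3 {c gp gl eb eb1 gb : ℝ}
    (h : max 0 (eb1 - gb) + (c + eb - gl) + max 0 (c - gp) ≤
      max 0 (2 * c - gp - gl + (eb + eb1 - gb)))
    (hb : gb = 0) (h1 : 0 < eb1) (hm : gl ≤ c + eb) : gp ≤ c := by
  have h2 := le_max_right 0 (eb1 - gb)
  have h3 := le_max_left 0 (c - gp)
  have h4 := le_max_right 0 (c - gp)
  rcases le_total 0 (2 * c - gp - gl + (eb + eb1 - gb)) with h5 | h5
  · rw [max_eq_right h5] at h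
    linarith
  · rw [max_eq_left h5] at h
    linarith

theorem qc5_all {P : Fin 11 → Prop} (h0 : P 0) (h1 : P 1) (h2 : P 2) (h3 : P 3) (h4 : P 4)
    (h5 : P 5) (h6 : P 6) (h7 : P 7) (h8 : P 8) (h9 : P 9) (h10 : P 10) : ∀ l, P l := by
  intro l
  fin_cases l <;> assumption

theorem qc5_b0 {τ : ℝ} (hτ : 0 < τ) {e g : Fin 11 → ℝ} (h : Adm τ e g)
    (hz : ∀ y ∈ nb 0, ∀ z ∈ nb 0, y ≠ z → 0 ≤ phi 0 y z e g) :
    (∀ l ∈ ib 0, g l = 0) ∨ (∀ l, g l = e l + e (l + 1)) := by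
  have e0z : e 0 = 0 := h.e0
  have e10z : e 10 = 0 := h.e10
  have p1 : 0 < e 1 := lt_of_lt_of_le hτ (h.e1 1 (by decide) (by decide))
  have p2 : 0 < e 2 := lt_of_lt_of_le hτ (h.e1 2 (by decide) (by decide))
  have p3 : 0 < e 3 := lt_of_lt_of_le hτ (h.e1 3 (by decide) (by decide))
  have p4 : 0 < e 4 := lt_of_lt_of_le hτ (h.e1 4 (by decide) (by decide))
  have p5 : 0 < e 5 := lt_of_lt_of_le hτ (h.e1 5 (by decide) (by decide))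
  have p6 : 0 < e 6 := lt_of_lt_of_le hτ (h.e1 6 (by decide) (by decide))
  have p7 : 0 < e 7 := lt_of_lt_of_le hτ (h.e1 7 (by decide) (by decide))
  have p8 : 0 < e 8 := lt_of_lt_of_le hτ (h.e1 8 (by decide) (by decide))
  have p9 : 0 < e 9 := lt_of_lt_of_le hτ (h.e1 9 (by decide) (by decide))
  have gz0 : 0 ≤ g 0 := h.g0 0
  have gu0 : g 0 ≤ e 0 + e 1 := h.g1 0
  have gz1 : 0 ≤ g 1 := h.g0 1
  have gu1 : g 1 ≤ e 1 + e 2 := h.g1 1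
  have gz2 : 0 ≤ g 2 := h.g0 2
  have gu2 : g 2 ≤ e 2 + e 3 := h.g1 2
  have gz3 : 0 ≤ g 3 := h.g0 3
  have gu3 : g 3 ≤ e 3 + e 4 := h.g1 3
  have gz4 : 0 ≤ g 4 := h.g0 4
  have gu4 : g 4 ≤ e 4 + e 5 := h.g1 4
  have gz5 : 0 ≤ g 5 := h.g0 5
  have gu5 : g 5 ≤ e 5 + e 6 := h.g1 5
  have gz6 : 0 ≤ g 6 := h.g0 6
  have gu6 : g 6 ≤ e 6 + e 7 := h.g1 6
  have gz7 : 0 ≤ g 7 := h.g0 7
  have gu7 : g 7 ≤ e 7 + e 8 := h.g1 7
  have gz8 : 0 ≤ g 8 := h.g0 8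
  have gu8 : g 8 ≤ e 8 + e 9 := h.g1 8
  have gz9 : 0 ≤ g 9 := h.g0 9
  have gu9 : g 9 ≤ e 9 + e 10 := h.g1 9
  have gz10 : 0 ≤ g 10 := h.g0 10
  have gu10 : g 10 ≤ e 10 + e 0 := h.g1 10
  have g10z : g 10 = 0 := by linarith
  have H := hz 10 (by decide) 2 (by decide) (by decide)
  have n0 : qc5_N 0 10 2 e g 0 = 0 := qc5_off (by decide)
  have n1 : qc5_N 0 10 2 e g 1 = 0 := qc5_off (by decide)
  have n2 : qc5_N 0 10 2 e g 2 = max 0 (2 * e 2 - g 1 - g 2 + (e 0 + e 1 - g 0)) :=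
    qc5_sp 1 1 (by decide) (by decide) (by decide) (by decide)
  have n3 : qc5_N 0 10 2 e g 3 = max 0 (2 * e 3 - g 2 - g 3) :=
    qc5_gen 2 (by decide) (by decide) (by decide)
  have n4 : qc5_N 0 10 2 e g 4 = max 0 (2 * e 4 - g 3 - g 4) :=
    qc5_gen 3 (by decide) (by decide) (by decide)
  have n5 : qc5_N 0 10 2 e g 5 = max 0 (2 * e 5 - g 4 - g 5) :=
    qc5_gen 4 (by decide) (by decide) (by decide)
  have n6 : qc5_N 0 10 2 e g 6 = max 0 (2 * e 6 - g 5 - g 6) :=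
    qc5_gen 5 (by decide) (by decide) (by decide)
  have n7 : qc5_N 0 10 2 e g 7 = max 0 (2 * e 7 - g 6 - g 7) :=
    qc5_gen 6 (by decide) (by decide) (by decide)
  have n8 : qc5_N 0 10 2 e g 8 = max 0 (2 * e 8 - g 7 - g 8) :=
    qc5_gen 7 (by decide) (by decide) (by decide)
  have n9 : qc5_N 0 10 2 e g 9 = max 0 (2 * e 9 - g 8 - g 9) :=
    qc5_gen 8 (by decide) (by decide) (by decide)
  have n10 : qc5_N 0 10 2 e g 10 = max 0 (2 * e 10 - g 9 - g 10 + (e 0 + e 1 - g 0)) :=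
    qc5_sp 9 1 (by decide) (by decide) (by decide) (by decide)
  rw [qc5_phi, n0, n1, n2, n3, n4, n5, n6, n7, n8, n9, n10] at H
  clear n0 n1 n2 n3 n4 n5 n6 n7 n8 n9 n10
  have U2 := qc5_U2 (c := e 2) (gp := g 1) (gl := g 2) (eb := e 0) (eb1 := e 1) (gb := g 0) gu1
  have U3 := qc5_U (e 3) (g 2) (g 3)
  have U4 := qc5_U (e 4) (g 3) (g 4)
  have U5 := qc5_U (e 5) (g 4) (g 5)
  have U6 := qc5_U (e 6) (g 5) (g 6)
  have U7 := qc5_U (e 7) (g 6) (g 7)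
  have U8 := qc5_U (e 8) (g 7) (g 8)
  have U9 := qc5_U (e 9) (g 8) (g 9)
  have U10 := qc5_U3 (c := e 10) (gp := g 9) (gl := g 10) (eb := e 0) (eb1 := e 1) (gb := g 0) gu10
  have E0 := qc5_E e0z.ge p1.le gz0 gu0
  have E2 := qc5_E p2.le p3.le gz2 gu2
  have E3 := qc5_E p3.le p4.le gz3 gu3
  have E4 := qc5_E p4.le p5.le gz4 gu4
  have E5 := qc5_E p5.le p6.le gz5 gu5
  have E6 := qc5_E p6.le p7.le gz6 gu6
  have E7 := qc5_E p7.le p8.le gz7 gu7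
  have E8 := qc5_E p8.le p9.le gz8 gu8
  have E9 := qc5_E p9.le e10z.ge gz9 gu9
  obtain ⟨d2, D2⟩ : ∃ d : ℝ, d = max 0 (e 0 - g 0) + (e 1 + e 2 - g 1) + max 0 (e 2 - g 2) -
      max 0 (2 * e 2 - g 1 - g 2 + (e 0 + e 1 - g 0)) := ⟨_, rfl⟩
  have hd2 : 0 ≤ d2 := by linarith only [U2, D2]
  obtain ⟨d3, D3⟩ : ∃ d : ℝ, d = max 0 (e 3 - g 2) + max 0 (e 3 - g 3) -
      max 0 (2 * e 3 - g 2 - g 3) := ⟨_, rfl⟩
  have hd3 : 0 ≤ d3 := by linarith only [U3, D3]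
  obtain ⟨d4, D4⟩ : ∃ d : ℝ, d = max 0 (e 4 - g 3) + max 0 (e 4 - g 4) -
      max 0 (2 * e 4 - g 3 - g 4) := ⟨_, rfl⟩
  have hd4 : 0 ≤ d4 := by linarith only [U4, D4]
  obtain ⟨d5, D5⟩ : ∃ d : ℝ, d = max 0 (e 5 - g 4) + max 0 (e 5 - g 5) -
      max 0 (2 * e 5 - g 4 - g 5) := ⟨_, rfl⟩
  have hd5 : 0 ≤ d5 := by linarith only [U5, D5]
  obtain ⟨d6, D6⟩ : ∃ d : ℝ, d = max 0 (e 6 - g 5) + max 0 (e 6 - g 6) -
      max 0 (2 * e 6 - g 5 - g 6) := ⟨_, rfl⟩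
  have hd6 : 0 ≤ d6 := by linarith only [U6, D6]
  obtain ⟨d7, D7⟩ : ∃ d : ℝ, d = max 0 (e 7 - g 6) + max 0 (e 7 - g 7) -
      max 0 (2 * e 7 - g 6 - g 7) := ⟨_, rfl⟩
  have hd7 : 0 ≤ d7 := by linarith only [U7, D7]
  obtain ⟨d8, D8⟩ : ∃ d : ℝ, d = max 0 (e 8 - g 7) + max 0 (e 8 - g 8) -
      max 0 (2 * e 8 - g 7 - g 8) := ⟨_, rfl⟩
  have hd8 : 0 ≤ d8 := by linarith only [U8, D8]
  obtain ⟨d9, D9⟩ : ∃ d : ℝ, d = max 0 (e 9 - g 8) + max 0 (e 9 - g 9) -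
      max 0 (2 * e 9 - g 8 - g 9) := ⟨_, rfl⟩
  have hd9 : 0 ≤ d9 := by linarith only [U9, D9]
  obtain ⟨d10, D10⟩ : ∃ d : ℝ, d = max 0 (e 1 - g 0) + (e 10 + e 0 - g 10) + max 0 (e 10 - g 9) -
      max 0 (2 * e 10 - g 9 - g 10 + (e 0 + e 1 - g 0)) := ⟨_, rfl⟩
  have hd10 : 0 ≤ d10 := by linarith only [U10, D10]
  obtain ⟨c0, C0⟩ : ∃ c : ℝ, c = e 0 + e 1 - g 0 - (max 0 (e 0 - g 0) + max 0 (e 1 - g 0)) := ⟨_, rfl⟩
  have hc0 : 0 ≤ c0 := by linarith only [E0, C0]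
  obtain ⟨c2, C2⟩ : ∃ c : ℝ, c = e 2 + e 3 - g 2 - (max 0 (e 2 - g 2) + max 0 (e 3 - g 2)) := ⟨_, rfl⟩
  have hc2 : 0 ≤ c2 := by linarith only [E2, C2]
  obtain ⟨c3, C3⟩ : ∃ c : ℝ, c = e 3 + e 4 - g 3 - (max 0 (e 3 - g 3) + max 0 (e 4 - g 3)) := ⟨_, rfl⟩
  have hc3 : 0 ≤ c3 := by linarith only [E3, C3]
  obtain ⟨c4, C4⟩ : ∃ c : ℝ, c = e 4 + e 5 - g 4 - (max 0 (e 4 - g 4) + max 0 (e 5 - g 4)) := ⟨_, rfl⟩
  have hc4 : 0 ≤ c4 := by linarith only [E4, C4]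
  obtain ⟨c5, C5⟩ : ∃ c : ℝ, c = e 5 + e 6 - g 5 - (max 0 (e 5 - g 5) + max 0 (e 6 - g 5)) := ⟨_, rfl⟩
  have hc5 : 0 ≤ c5 := by linarith only [E5, C5]
  obtain ⟨c6, C6⟩ : ∃ c : ℝ, c = e 6 + e 7 - g 6 - (max 0 (e 6 - g 6) + max 0 (e 7 - g 6)) := ⟨_, rfl⟩
  have hc6 : 0 ≤ c6 := by linarith only [E6, C6]
  obtain ⟨c7, C7⟩ : ∃ c : ℝ, c = e 7 + e 8 - g 7 - (max 0 (e 7 - g 7) + max 0 (e 8 - g 7)) := ⟨_, rfl⟩
  have hc7 : 0 ≤ c7 := by linarith only [E7, C7]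
  obtain ⟨c8, C8⟩ : ∃ c : ℝ, c = e 8 + e 9 - g 8 - (max 0 (e 8 - g 8) + max 0 (e 9 - g 8)) := ⟨_, rfl⟩
  have hc8 : 0 ≤ c8 := by linarith only [E8, C8]
  obtain ⟨c9, C9⟩ : ∃ c : ℝ, c = e 9 + e 10 - g 9 - (max 0 (e 9 - g 9) + max 0 (e 10 - g 9)) := ⟨_, rfl⟩
  have hc9 : 0 ≤ c9 := by linarith only [E9, C9]
  have K0 : d2 + d3 + d4 + d5 + d6 + d7 + d8 + d9 + d10 + c0 + c2 + c3 + c4 + c5 + c6 + c7 + c8 + c9 ≤ 0 := by
    linarith only [H, D2, D3, D4, D5, D6, D7, D8, D9, D10, C0, C2, C3, C4, C5, C6, C7, C8, C9]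
  have s2 : g 2 = 0 ∨ g 2 = e 2 + e 3 := qc5_state p2 p3 gz2 gu2 (by
    linarith only [K0, hd2, hd3, hd4, hd5, hd6, hd7, hd8, hd9, hd10, hc0, hc2, hc3, hc4, hc5, hc6, hc7, hc8, hc9, C2])
  have s3 : g 3 = 0 ∨ g 3 = e 3 + e 4 := qc5_state p3 p4 gz3 gu3 (by
    linarith only [K0, hd2, hd3, hd4, hd5, hd6, hd7, hd8, hd9, hd10, hc0, hc2, hc3, hc4, hc5, hc6, hc7, hc8, hc9, C3])
  have s4 : g 4 = 0 ∨ g 4 = e 4 + e 5 := qc5_state p4 p5 gz4 gu4 (by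
    linarith only [K0, hd2, hd3, hd4, hd5, hd6, hd7, hd8, hd9, hd10, hc0, hc2, hc3, hc4, hc5, hc6, hc7, hc8, hc9, C4])
  have s5 : g 5 = 0 ∨ g 5 = e 5 + e 6 := qc5_state p5 p6 gz5 gu5 (by
    linarith only [K0, hd2, hd3, hd4, hd5, hd6, hd7, hd8, hd9, hd10, hc0, hc2, hc3, hc4, hc5, hc6, hc7, hc8, hc9, C5])
  have s6 : g 6 = 0 ∨ g 6 = e 6 + e 7 := qc5_state p6 p7 gz6 gu6 (by
    linarith only [K0, hd2, hd3, hd4, hd5, hd6, hd7, hd8, hd9, hd10, hc0, hc2, hc3, hc4, hc5, hc6, hc7, hc8, hc9, C6])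
  have s7 : g 7 = 0 ∨ g 7 = e 7 + e 8 := qc5_state p7 p8 gz7 gu7 (by
    linarith only [K0, hd2, hd3, hd4, hd5, hd6, hd7, hd8, hd9, hd10, hc0, hc2, hc3, hc4, hc5, hc6, hc7, hc8, hc9, C7])
  have s8 : g 8 = 0 ∨ g 8 = e 8 + e 9 := qc5_state p8 p9 gz8 gu8 (by
    linarith only [K0, hd2, hd3, hd4, hd5, hd6, hd7, hd8, hd9, hd10, hc0, hc2, hc3, hc4, hc5, hc6, hc7, hc8, hc9, C8])
  have t2 : max 0 (e 0 - g 0) + (e 1 + e 2 - g 1) + max 0 (e 2 - g 2) ≤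
      max 0 (2 * e 2 - g 1 - g 2 + (e 0 + e 1 - g 0)) := by
    linarith only [K0, hd2, hd3, hd4, hd5, hd6, hd7, hd8, hd9, hd10, hc0, hc2, hc3, hc4, hc5, hc6, hc7, hc8, hc9, D2]
  have t3 : max 0 (e 3 - g 2) + max 0 (e 3 - g 3) ≤ max 0 (2 * e 3 - g 2 - g 3) := by
    linarith only [K0, hd2, hd3, hd4, hd5, hd6, hd7, hd8, hd9, hd10, hc0, hc2, hc3, hc4, hc5, hc6, hc7, hc8, hc9, D3]
  have j3 := qc5_joint p2 p3 p4 s2 s3 t3
  have t4 : max 0 (e 4 - g 3) + max 0 (e 4 - g 4) ≤ max 0 (2 * e 4 - g 3 - g 4) := by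
    linarith only [K0, hd2, hd3, hd4, hd5, hd6, hd7, hd8, hd9, hd10, hc0, hc2, hc3, hc4, hc5, hc6, hc7, hc8, hc9, D4]
  have j4 := qc5_joint p3 p4 p5 s3 s4 t4
  have t5 : max 0 (e 5 - g 4) + max 0 (e 5 - g 5) ≤ max 0 (2 * e 5 - g 4 - g 5) := by
    linarith only [K0, hd2, hd3, hd4, hd5, hd6, hd7, hd8, hd9, hd10, hc0, hc2, hc3, hc4, hc5, hc6, hc7, hc8, hc9, D5]
  have j5 := qc5_joint p4 p5 p6 s4 s5 t5
  have t6 : max 0 (e 6 - g 5) + max 0 (e 6 - g 6) ≤ max 0 (2 * e 6 - g 5 - g 6) := by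
    linarith only [K0, hd2, hd3, hd4, hd5, hd6, hd7, hd8, hd9, hd10, hc0, hc2, hc3, hc4, hc5, hc6, hc7, hc8, hc9, D6]
  have j6 := qc5_joint p5 p6 p7 s5 s6 t6
  have t7 : max 0 (e 7 - g 6) + max 0 (e 7 - g 7) ≤ max 0 (2 * e 7 - g 6 - g 7) := by
    linarith only [K0, hd2, hd3, hd4, hd5, hd6, hd7, hd8, hd9, hd10, hc0, hc2, hc3, hc4, hc5, hc6, hc7, hc8, hc9, D7]
  have j7 := qc5_joint p6 p7 p8 s6 s7 t7
  have t8 : max 0 (e 8 - g 7) + max 0 (e 8 - g 8) ≤ max 0 (2 * e 8 - g 7 - g 8) := by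
    linarith only [K0, hd2, hd3, hd4, hd5, hd6, hd7, hd8, hd9, hd10, hc0, hc2, hc3, hc4, hc5, hc6, hc7, hc8, hc9, D8]
  have j8 := qc5_joint p7 p8 p9 s7 s8 t8
  have t9 : max 0 (e 9 - g 8) + max 0 (e 9 - g 9) ≤ max 0 (2 * e 9 - g 8 - g 9) := by
    linarith only [K0, hd2, hd3, hd4, hd5, hd6, hd7, hd8, hd9, hd10, hc0, hc2, hc3, hc4, hc5, hc6, hc7, hc8, hc9, D9]
  have t10 : max 0 (e 1 - g 0) + (e 10 + e 0 - g 10) + max 0 (e 10 - g 9) ≤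
      max 0 (2 * e 10 - g 9 - g 10 + (e 0 + e 1 - g 0)) := by
    linarith only [K0, hd2, hd3, hd4, hd5, hd6, hd7, hd8, hd9, hd10, hc0, hc2, hc3, hc4, hc5, hc6, hc7, hc8, hc9, D10]
  clear K0 H U2 U3 U4 U5 U6 U7 U8 U9 U10 E0 E2 E3 E4 E5 E6 E7 E8 E9 D2 D3 D4 D5 D6 D7 D8 D9 D10 C0 C2 C3 C4 C5 C6 C7 C8 C9 hd2 hd3 hd4 hd5 hd6 hd7 hd8 hd9 hd10 hc0 hc2 hc3 hc4 hc5 hc6 hc7 hc8 hc9
  have o21 : 4 * e 2 ≤ e 1 := h.eo 2 1 (by decide) (by decide)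
  have o23 : 4 * e 2 ≤ e 3 := h.eo 2 3 (by decide) (by decide)
  have o43 : 4 * e 4 ≤ e 3 := h.eo 4 3 (by decide) (by decide)
  have o45 : 4 * e 4 ≤ e 5 := h.eo 4 5 (by decide) (by decide)
  have o65 : 4 * e 6 ≤ e 5 := h.eo 6 5 (by decide) (by decide)
  have o67 : 4 * e 6 ≤ e 7 := h.eo 6 7 (by decide) (by decide)
  have o87 : 4 * e 8 ≤ e 7 := h.eo 8 7 (by decide) (by decide)
  have o89 : 4 * e 8 ≤ e 9 := h.eo 8 9 (by decide) (by decide)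
  rcases s2 with z2 | f2
  · have z3 : g 3 = 0 := j3.1 z2
    have z4 : g 4 = 0 := j4.1 z3
    have z5 : g 5 = 0 := j5.1 z4
    have z6 : g 6 = 0 := j6.1 z5
    have z7 : g 7 = 0 := j7.1 z6
    have z8 : g 8 = 0 := j8.1 z7
    have z0 : g 0 = 0 := by
      have r1 := le_max_left 0 (e 0 - g 0)
      have r2 := le_max_right 0 (e 2 - g 2)
      rcases le_total 0 (2 * e 2 - g 1 - g 2 + (e 0 + e 1 - g 0)) with r | r
      · rw [max_eq_right r] at t2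
        linarith
      · rw [max_eq_left r] at t2
        linarith
    have z9 : g 9 = 0 := by
      have r1 := le_max_left 0 (e 10 - g 9)
      have r2 := le_max_right 0 (e 1 - g 0)
      rcases le_total 0 (2 * e 10 - g 9 - g 10 + (e 0 + e 1 - g 0)) with r | r
      · rw [max_eq_right r] at t10
        linarith
      · rw [max_eq_left r] at t10
        linarith
    have z10 := g10z
    left
    exact qc5_all (P := fun l => l ∈ ib 0 → g l = 0) (fun _ => z0) (fun hh => absurd hh (by decide)) (fun _ => z2) (fun _ => z3) (fun _ => z4) (fun _ => z5) (fun _ => z6) (fun _ => z7) (fun _ => z8) (fun _ => z9) (fun hh => absurd hh (by decide))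
  · have f3 : g 3 = e 3 + e 4 := j3.2.2.1 f2
    have f4 : g 4 = e 4 + e 5 := j4.2.2.1 f3
    have f5 : g 5 = e 5 + e 6 := j5.2.2.1 f4
    have f6 : g 6 = e 6 + e 7 := j6.2.2.1 f5
    have f7 : g 7 = e 7 + e 8 := j7.2.2.1 f6
    have f8 : g 8 = e 8 + e 9 := j8.2.2.1 f7
    have f9' : g 9 = e 9 := qc5_end2 p8 (by linarith) f8 t9
    have f9 : g 9 = e 9 + e 10 := by linarith
    have f1 : g 1 = e 1 + e 2 := by
      have r1 := le_max_left 0 (e 0 - g 0)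
      have r2 := le_max_left 0 (e 2 - g 2)
      rcases le_total 0 (2 * e 2 - g 1 - g 2 + (e 0 + e 1 - g 0)) with r | r
      · rw [max_eq_right r] at t2
        linarith
      · rw [max_eq_left r] at t2
        linarith
    have f0 : g 0 = e 0 + e 1 := by
      have r1 := le_max_left 0 (e 10 - g 9)
      have r2 := le_max_right 0 (e 1 - g 0)
      rcases le_total 0 (2 * e 10 - g 9 - g 10 + (e 0 + e 1 - g 0)) with r | r
      · rw [max_eq_right r] at t10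
        linarith
      · rw [max_eq_left r] at t10
        linarith
    have f10 : g 10 = e 10 + e 0 := by linarith
    right
    exact qc5_all f0 f1 f2 f3 f4 f5 f6 f7 f8 f9 f10

theorem qc5_b1 {τ : ℝ} (hτ : 0 < τ) {e g : Fin 11 → ℝ} (h : Adm τ e g)
    (hz : ∀ y ∈ nb 1, ∀ z ∈ nb 1, y ≠ z → 0 ≤ phi 1 y z e g) :
    (∀ l ∈ ib 1, g l = 0) ∨ (∀ l, g l = e l + e (l + 1)) := by
  have e0z : e 0 = 0 := h.e0
  have e10z : e 10 = 0 := h.e10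
  have p1 : 0 < e 1 := lt_of_lt_of_le hτ (h.e1 1 (by decide) (by decide))
  have p2 : 0 < e 2 := lt_of_lt_of_le hτ (h.e1 2 (by decide) (by decide))
  have p3 : 0 < e 3 := lt_of_lt_of_le hτ (h.e1 3 (by decide) (by decide))
  have p4 : 0 < e 4 := lt_of_lt_of_le hτ (h.e1 4 (by decide) (by decide))
  have p5 : 0 < e 5 := lt_of_lt_of_le hτ (h.e1 5 (by decide) (by decide))
  have p6 : 0 < e 6 := lt_of_lt_of_le hτ (h.e1 6 (by decide) (by decide))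
  have p7 : 0 < e 7 := lt_of_lt_of_le hτ (h.e1 7 (by decide) (by decide))
  have p8 : 0 < e 8 := lt_of_lt_of_le hτ (h.e1 8 (by decide) (by decide))
  have p9 : 0 < e 9 := lt_of_lt_of_le hτ (h.e1 9 (by decide) (by decide))
  have gz0 : 0 ≤ g 0 := h.g0 0
  have gu0 : g 0 ≤ e 0 + e 1 := h.g1 0
  have gz1 : 0 ≤ g 1 := h.g0 1
  have gu1 : g 1 ≤ e 1 + e 2 := h.g1 1
  have gz2 : 0 ≤ g 2 := h.g0 2
  have gu2 : g 2 ≤ e 2 + e 3 := h.g1 2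
  have gz3 : 0 ≤ g 3 := h.g0 3
  have gu3 : g 3 ≤ e 3 + e 4 := h.g1 3
  have gz4 : 0 ≤ g 4 := h.g0 4
  have gu4 : g 4 ≤ e 4 + e 5 := h.g1 4
  have gz5 : 0 ≤ g 5 := h.g0 5
  have gu5 : g 5 ≤ e 5 + e 6 := h.g1 5
  have gz6 : 0 ≤ g 6 := h.g0 6
  have gu6 : g 6 ≤ e 6 + e 7 := h.g1 6
  have gz7 : 0 ≤ g 7 := h.g0 7
  have gu7 : g 7 ≤ e 7 + e 8 := h.g1 7
  have gz8 : 0 ≤ g 8 := h.g0 8
  have gu8 : g 8 ≤ e 8 + e 9 := h.g1 8
  have gz9 : 0 ≤ g 9 := h.g0 9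
  have gu9 : g 9 ≤ e 9 + e 10 := h.g1 9
  have gz10 : 0 ≤ g 10 := h.g0 10
  have gu10 : g 10 ≤ e 10 + e 0 := h.g1 10
  have g10z : g 10 = 0 := by linarith
  have H := hz 0 (by decide) 3 (by decide) (by decide)
  have n0 : qc5_N 1 0 3 e g 0 = max 0 (2 * e 0 - g 10 - g 0 + (e 1 + e 2 - g 1)) :=
    qc5_sp 10 2 (by decide) (by decide) (by decide) (by decide)
  have n1 : qc5_N 1 0 3 e g 1 = 0 := qc5_off (by decide)
  have n2 : qc5_N 1 0 3 e g 2 = 0 := qc5_off (by decide)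
  have n3 : qc5_N 1 0 3 e g 3 = max 0 (2 * e 3 - g 2 - g 3 + (e 1 + e 2 - g 1)) :=
    qc5_sp 2 2 (by decide) (by decide) (by decide) (by decide)
  have n4 : qc5_N 1 0 3 e g 4 = max 0 (2 * e 4 - g 3 - g 4) :=
    qc5_gen 3 (by decide) (by decide) (by decide)
  have n5 : qc5_N 1 0 3 e g 5 = max 0 (2 * e 5 - g 4 - g 5) :=
    qc5_gen 4 (by decide) (by decide) (by decide)
  have n6 : qc5_N 1 0 3 e g 6 = max 0 (2 * e 6 - g 5 - g 6) :=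
    qc5_gen 5 (by decide) (by decide) (by decide)
  have n7 : qc5_N 1 0 3 e g 7 = max 0 (2 * e 7 - g 6 - g 7) :=
    qc5_gen 6 (by decide) (by decide) (by decide)
  have n8 : qc5_N 1 0 3 e g 8 = max 0 (2 * e 8 - g 7 - g 8) :=
    qc5_gen 7 (by decide) (by decide) (by decide)
  have n9 : qc5_N 1 0 3 e g 9 = max 0 (2 * e 9 - g 8 - g 9) :=
    qc5_gen 8 (by decide) (by decide) (by decide)
  have n10 : qc5_N 1 0 3 e g 10 = max 0 (2 * e 10 - g 9 - g 10) :=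
    qc5_gen 9 (by decide) (by decide) (by decide)
  rw [qc5_phi, n0, n1, n2, n3, n4, n5, n6, n7, n8, n9, n10] at H
  clear n0 n1 n2 n3 n4 n5 n6 n7 n8 n9 n10
  have U0 := qc5_U3 (c := e 0) (gp := g 10) (gl := g 0) (eb := e 1) (eb1 := e 2) (gb := g 1) gu0
  have U3 := qc5_U2 (c := e 3) (gp := g 2) (gl := g 3) (eb := e 1) (eb1 := e 2) (gb := g 1) gu2
  have U4 := qc5_U (e 4) (g 3) (g 4)
  have U5 := qc5_U (e 5) (g 4) (g 5)
  have U6 := qc5_U (e 6) (g 5) (g 6)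
  have U7 := qc5_U (e 7) (g 6) (g 7)
  have U8 := qc5_U (e 8) (g 7) (g 8)
  have U9 := qc5_U (e 9) (g 8) (g 9)
  have U10 := qc5_U (e 10) (g 9) (g 10)
  have E1 := qc5_E p1.le p2.le gz1 gu1
  have E3 := qc5_E p3.le p4.le gz3 gu3
  have E4 := qc5_E p4.le p5.le gz4 gu4
  have E5 := qc5_E p5.le p6.le gz5 gu5
  have E6 := qc5_E p6.le p7.le gz6 gu6
  have E7 := qc5_E p7.le p8.le gz7 gu7
  have E8 := qc5_E p8.le p9.le gz8 gu8
  have E9 := qc5_E p9.le e10z.ge gz9 gu9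
  have E10 := qc5_E e10z.ge e0z.ge gz10 gu10
  obtain ⟨d0, D0⟩ : ∃ d : ℝ, d = max 0 (e 2 - g 1) + (e 0 + e 1 - g 0) + max 0 (e 0 - g 10) -
      max 0 (2 * e 0 - g 10 - g 0 + (e 1 + e 2 - g 1)) := ⟨_, rfl⟩
  have hd0 : 0 ≤ d0 := by linarith only [U0, D0]
  obtain ⟨d3, D3⟩ : ∃ d : ℝ, d = max 0 (e 1 - g 1) + (e 2 + e 3 - g 2) + max 0 (e 3 - g 3) -
      max 0 (2 * e 3 - g 2 - g 3 + (e 1 + e 2 - g 1)) := ⟨_, rfl⟩
  have hd3 : 0 ≤ d3 := by linarith only [U3, D3]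
  obtain ⟨d4, D4⟩ : ∃ d : ℝ, d = max 0 (e 4 - g 3) + max 0 (e 4 - g 4) -
      max 0 (2 * e 4 - g 3 - g 4) := ⟨_, rfl⟩
  have hd4 : 0 ≤ d4 := by linarith only [U4, D4]
  obtain ⟨d5, D5⟩ : ∃ d : ℝ, d = max 0 (e 5 - g 4) + max 0 (e 5 - g 5) -
      max 0 (2 * e 5 - g 4 - g 5) := ⟨_, rfl⟩
  have hd5 : 0 ≤ d5 := by linarith only [U5, D5]
  obtain ⟨d6, D6⟩ : ∃ d : ℝ, d = max 0 (e 6 - g 5) + max 0 (e 6 - g 6) -
      max 0 (2 * e 6 - g 5 - g 6) := ⟨_, rfl⟩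
  have hd6 : 0 ≤ d6 := by linarith only [U6, D6]
  obtain ⟨d7, D7⟩ : ∃ d : ℝ, d = max 0 (e 7 - g 6) + max 0 (e 7 - g 7) -
      max 0 (2 * e 7 - g 6 - g 7) := ⟨_, rfl⟩
  have hd7 : 0 ≤ d7 := by linarith only [U7, D7]
  obtain ⟨d8, D8⟩ : ∃ d : ℝ, d = max 0 (e 8 - g 7) + max 0 (e 8 - g 8) -
      max 0 (2 * e 8 - g 7 - g 8) := ⟨_, rfl⟩
  have hd8 : 0 ≤ d8 := by linarith only [U8, D8]
  obtain ⟨d9, D9⟩ : ∃ d : ℝ, d = max 0 (e 9 - g 8) + max 0 (e 9 - g 9) -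
      max 0 (2 * e 9 - g 8 - g 9) := ⟨_, rfl⟩
  have hd9 : 0 ≤ d9 := by linarith only [U9, D9]
  obtain ⟨d10, D10⟩ : ∃ d : ℝ, d = max 0 (e 10 - g 9) + max 0 (e 10 - g 10) -
      max 0 (2 * e 10 - g 9 - g 10) := ⟨_, rfl⟩
  have hd10 : 0 ≤ d10 := by linarith only [U10, D10]
  obtain ⟨c1, C1⟩ : ∃ c : ℝ, c = e 1 + e 2 - g 1 - (max 0 (e 1 - g 1) + max 0 (e 2 - g 1)) := ⟨_, rfl⟩
  have hc1 : 0 ≤ c1 := by linarith only [E1, C1]
  obtain ⟨c3, C3⟩ : ∃ c : ℝ, c = e 3 + e 4 - g 3 - (max 0 (e 3 - g 3) + max 0 (e 4 - g 3)) := ⟨_, rfl⟩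
  have hc3 : 0 ≤ c3 := by linarith only [E3, C3]
  obtain ⟨c4, C4⟩ : ∃ c : ℝ, c = e 4 + e 5 - g 4 - (max 0 (e 4 - g 4) + max 0 (e 5 - g 4)) := ⟨_, rfl⟩
  have hc4 : 0 ≤ c4 := by linarith only [E4, C4]
  obtain ⟨c5, C5⟩ : ∃ c : ℝ, c = e 5 + e 6 - g 5 - (max 0 (e 5 - g 5) + max 0 (e 6 - g 5)) := ⟨_, rfl⟩
  have hc5 : 0 ≤ c5 := by linarith only [E5, C5]
  obtain ⟨c6, C6⟩ : ∃ c : ℝ, c = e 6 + e 7 - g 6 - (max 0 (e 6 - g 6) + max 0 (e 7 - g 6)) := ⟨_, rfl⟩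
  have hc6 : 0 ≤ c6 := by linarith only [E6, C6]
  obtain ⟨c7, C7⟩ : ∃ c : ℝ, c = e 7 + e 8 - g 7 - (max 0 (e 7 - g 7) + max 0 (e 8 - g 7)) := ⟨_, rfl⟩
  have hc7 : 0 ≤ c7 := by linarith only [E7, C7]
  obtain ⟨c8, C8⟩ : ∃ c : ℝ, c = e 8 + e 9 - g 8 - (max 0 (e 8 - g 8) + max 0 (e 9 - g 8)) := ⟨_, rfl⟩
  have hc8 : 0 ≤ c8 := by linarith only [E8, C8]
  obtain ⟨c9, C9⟩ : ∃ c : ℝ, c = e 9 + e 10 - g 9 - (max 0 (e 9 - g 9) + max 0 (e 10 - g 9)) := ⟨_, rfl⟩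
  have hc9 : 0 ≤ c9 := by linarith only [E9, C9]
  obtain ⟨c10, C10⟩ : ∃ c : ℝ, c = e 10 + e 0 - g 10 - (max 0 (e 10 - g 10) + max 0 (e 0 - g 10)) := ⟨_, rfl⟩
  have hc10 : 0 ≤ c10 := by linarith only [E10, C10]
  have K0 : d0 + d3 + d4 + d5 + d6 + d7 + d8 + d9 + d10 + c1 + c3 + c4 + c5 + c6 + c7 + c8 + c9 + c10 ≤ 0 := by
    linarith only [H, D0, D3, D4, D5, D6, D7, D8, D9, D10, C1, C3, C4, C5, C6, C7, C8, C9, C10]
  have s1 : g 1 = 0 ∨ g 1 = e 1 + e 2 := qc5_state p1 p2 gz1 gu1 (by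
    linarith only [K0, hd0, hd3, hd4, hd5, hd6, hd7, hd8, hd9, hd10, hc1, hc3, hc4, hc5, hc6, hc7, hc8, hc9, hc10, C1])
  have s3 : g 3 = 0 ∨ g 3 = e 3 + e 4 := qc5_state p3 p4 gz3 gu3 (by
    linarith only [K0, hd0, hd3, hd4, hd5, hd6, hd7, hd8, hd9, hd10, hc1, hc3, hc4, hc5, hc6, hc7, hc8, hc9, hc10, C3])
  have s4 : g 4 = 0 ∨ g 4 = e 4 + e 5 := qc5_state p4 p5 gz4 gu4 (by
    linarith only [K0, hd0, hd3, hd4, hd5, hd6, hd7, hd8, hd9, hd10, hc1, hc3, hc4, hc5, hc6, hc7, hc8, hc9, hc10, C4])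
  have s5 : g 5 = 0 ∨ g 5 = e 5 + e 6 := qc5_state p5 p6 gz5 gu5 (by
    linarith only [K0, hd0, hd3, hd4, hd5, hd6, hd7, hd8, hd9, hd10, hc1, hc3, hc4, hc5, hc6, hc7, hc8, hc9, hc10, C5])
  have s6 : g 6 = 0 ∨ g 6 = e 6 + e 7 := qc5_state p6 p7 gz6 gu6 (by
    linarith only [K0, hd0, hd3, hd4, hd5, hd6, hd7, hd8, hd9, hd10, hc1, hc3, hc4, hc5, hc6, hc7, hc8, hc9, hc10, C6])
  have s7 : g 7 = 0 ∨ g 7 = e 7 + e 8 := qc5_state p7 p8 gz7 gu7 (by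
    linarith only [K0, hd0, hd3, hd4, hd5, hd6, hd7, hd8, hd9, hd10, hc1, hc3, hc4, hc5, hc6, hc7, hc8, hc9, hc10, C7])
  have s8 : g 8 = 0 ∨ g 8 = e 8 + e 9 := qc5_state p8 p9 gz8 gu8 (by
    linarith only [K0, hd0, hd3, hd4, hd5, hd6, hd7, hd8, hd9, hd10, hc1, hc3, hc4, hc5, hc6, hc7, hc8, hc9, hc10, C8])
  have t0 : max 0 (e 2 - g 1) + (e 0 + e 1 - g 0) + max 0 (e 0 - g 10) ≤
      max 0 (2 * e 0 - g 10 - g 0 + (e 1 + e 2 - g 1)) := by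
    linarith only [K0, hd0, hd3, hd4, hd5, hd6, hd7, hd8, hd9, hd10, hc1, hc3, hc4, hc5, hc6, hc7, hc8, hc9, hc10, D0]
  have t3 : max 0 (e 1 - g 1) + (e 2 + e 3 - g 2) + max 0 (e 3 - g 3) ≤
      max 0 (2 * e 3 - g 2 - g 3 + (e 1 + e 2 - g 1)) := by
    linarith only [K0, hd0, hd3, hd4, hd5, hd6, hd7, hd8, hd9, hd10, hc1, hc3, hc4, hc5, hc6, hc7, hc8, hc9, hc10, D3]
  have t4 : max 0 (e 4 - g 3) + max 0 (e 4 - g 4) ≤ max 0 (2 * e 4 - g 3 - g 4) := by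
    linarith only [K0, hd0, hd3, hd4, hd5, hd6, hd7, hd8, hd9, hd10, hc1, hc3, hc4, hc5, hc6, hc7, hc8, hc9, hc10, D4]
  have j4 := qc5_joint p3 p4 p5 s3 s4 t4
  have t5 : max 0 (e 5 - g 4) + max 0 (e 5 - g 5) ≤ max 0 (2 * e 5 - g 4 - g 5) := by
    linarith only [K0, hd0, hd3, hd4, hd5, hd6, hd7, hd8, hd9, hd10, hc1, hc3, hc4, hc5, hc6, hc7, hc8, hc9, hc10, D5]
  have j5 := qc5_joint p4 p5 p6 s4 s5 t5
  have t6 : max 0 (e 6 - g 5) + max 0 (e 6 - g 6) ≤ max 0 (2 * e 6 - g 5 - g 6) := by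
    linarith only [K0, hd0, hd3, hd4, hd5, hd6, hd7, hd8, hd9, hd10, hc1, hc3, hc4, hc5, hc6, hc7, hc8, hc9, hc10, D6]
  have j6 := qc5_joint p5 p6 p7 s5 s6 t6
  have t7 : max 0 (e 7 - g 6) + max 0 (e 7 - g 7) ≤ max 0 (2 * e 7 - g 6 - g 7) := by
    linarith only [K0, hd0, hd3, hd4, hd5, hd6, hd7, hd8, hd9, hd10, hc1, hc3, hc4, hc5, hc6, hc7, hc8, hc9, hc10, D7]
  have j7 := qc5_joint p6 p7 p8 s6 s7 t7
  have t8 : max 0 (e 8 - g 7) + max 0 (e 8 - g 8) ≤ max 0 (2 * e 8 - g 7 - g 8) := by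
    linarith only [K0, hd0, hd3, hd4, hd5, hd6, hd7, hd8, hd9, hd10, hc1, hc3, hc4, hc5, hc6, hc7, hc8, hc9, hc10, D8]
  have j8 := qc5_joint p7 p8 p9 s7 s8 t8
  have t9 : max 0 (e 9 - g 8) + max 0 (e 9 - g 9) ≤ max 0 (2 * e 9 - g 8 - g 9) := by
    linarith only [K0, hd0, hd3, hd4, hd5, hd6, hd7, hd8, hd9, hd10, hc1, hc3, hc4, hc5, hc6, hc7, hc8, hc9, hc10, D9]
  clear K0 H U0 U3 U4 U5 U6 U7 U8 U9 U10 E1 E3 E4 E5 E6 E7 E8 E9 E10 D0 D3 D4 D5 D6 D7 D8 D9 D10 C1 C3 C4 C5 C6 C7 C8 C9 C10 hd0 hd3 hd4 hd5 hd6 hd7 hd8 hd9 hd10 hc1 hc3 hc4 hc5 hc6 hc7 hc8 hc9 hc10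
  have o21 : 4 * e 2 ≤ e 1 := h.eo 2 1 (by decide) (by decide)
  have o23 : 4 * e 2 ≤ e 3 := h.eo 2 3 (by decide) (by decide)
  have o43 : 4 * e 4 ≤ e 3 := h.eo 4 3 (by decide) (by decide)
  have o45 : 4 * e 4 ≤ e 5 := h.eo 4 5 (by decide) (by decide)
  have o65 : 4 * e 6 ≤ e 5 := h.eo 6 5 (by decide) (by decide)
  have o67 : 4 * e 6 ≤ e 7 := h.eo 6 7 (by decide) (by decide)
  have o87 : 4 * e 8 ≤ e 7 := h.eo 8 7 (by decide) (by decide)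
  have o89 : 4 * e 8 ≤ e 9 := h.eo 8 9 (by decide) (by decide)
  rcases s1 with z1 | f1
  · have w3 := qc5_empty2 t3 z1 p1 gu2
    have z3 : g 3 = 0 := s3.resolve_right (fun hh => by linarith)
    have z4 : g 4 = 0 := j4.1 z3
    have z5 : g 5 = 0 := j5.1 z4
    have z6 : g 6 = 0 := j6.1 z5
    have z7 : g 7 = 0 := j7.1 z6
    have z8 : g 8 = 0 := j8.1 z7
    have z10 := g10z
    have z9 : g 9 = 0 := by
      have K := hz 0 (by decide) 10 (by decide) (by decide)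
      have k0 : qc5_N 1 0 10 e g 0 = max 0 (2 * e 0 - g 10 - g 0 + (e 1 + e 2 - g 1)) :=
        qc5_sp 10 2 (by decide) (by decide) (by decide) (by decide)
      have k1 : qc5_N 1 0 10 e g 1 = 0 := qc5_off (by decide)
      have k2 : qc5_N 1 0 10 e g 2 = 0 := qc5_off (by decide)
      have k3 : qc5_N 1 0 10 e g 3 = max 0 (2 * e 3 - g 2 - g 3) :=
        qc5_gen 2 (by decide) (by decide) (by decide)
      have k4 : qc5_N 1 0 10 e g 4 = max 0 (2 * e 4 - g 3 - g 4) :=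
        qc5_gen 3 (by decide) (by decide) (by decide)
      have k5 : qc5_N 1 0 10 e g 5 = max 0 (2 * e 5 - g 4 - g 5) :=
        qc5_gen 4 (by decide) (by decide) (by decide)
      have k6 : qc5_N 1 0 10 e g 6 = max 0 (2 * e 6 - g 5 - g 6) :=
        qc5_gen 5 (by decide) (by decide) (by decide)
      have k7 : qc5_N 1 0 10 e g 7 = max 0 (2 * e 7 - g 6 - g 7) :=
        qc5_gen 6 (by decide) (by decide) (by decide)
      have k8 : qc5_N 1 0 10 e g 8 = max 0 (2 * e 8 - g 7 - g 8) :=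
        qc5_gen 7 (by decide) (by decide) (by decide)
      have k9 : qc5_N 1 0 10 e g 9 = max 0 (2 * e 9 - g 8 - g 9) :=
        qc5_gen 8 (by decide) (by decide) (by decide)
      have k10 : qc5_N 1 0 10 e g 10 = max 0 (2 * e 10 - g 9 - g 10 + (e 1 + e 2 - g 1)) :=
        qc5_sp 9 2 (by decide) (by decide) (by decide) (by decide)
      rw [qc5_phi, k0, k1, k2, k3, k4, k5, k6, k7, k8, k9, k10] at K
      clear k0 k1 k2 k3 k4 k5 k6 k7 k8 k9 k10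
      have m0 : max 0 (2 * e 0 - g 10 - g 0 + (e 1 + e 2 - g 1)) ≤ 2 * e 0 - g 10 - g 0 + (e 1 + e 2 - g 1) := max_le (by linarith) (le_refl _)
      have m3 : max 0 (2 * e 3 - g 2 - g 3) ≤ 2 * e 3 - g 2 - g 3 := max_le (by linarith) (le_refl _)
      have m4 : max 0 (2 * e 4 - g 3 - g 4) ≤ 2 * e 4 - g 3 - g 4 := max_le (by linarith) (le_refl _)
      have m5 : max 0 (2 * e 5 - g 4 - g 5) ≤ 2 * e 5 - g 4 - g 5 := max_le (by linarith) (le_refl _)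
      have m6 : max 0 (2 * e 6 - g 5 - g 6) ≤ 2 * e 6 - g 5 - g 6 := max_le (by linarith) (le_refl _)
      have m7 : max 0 (2 * e 7 - g 6 - g 7) ≤ 2 * e 7 - g 6 - g 7 := max_le (by linarith) (le_refl _)
      have m8 : max 0 (2 * e 8 - g 7 - g 8) ≤ 2 * e 8 - g 7 - g 8 := max_le (by linarith) (le_refl _)
      have m9 : max 0 (2 * e 9 - g 8 - g 9) ≤ 2 * e 9 - g 8 - g 9 := max_le (by linarith) (le_refl _)
      rcases le_total 0 (2 * e 10 - g 9 - g 10 + (e 1 + e 2 - g 1)) with r2 | r2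
      · rw [max_eq_right r2] at K
        linarith
      · rw [max_eq_left r2] at K
        linarith
    left
    exact qc5_all (P := fun l => l ∈ ib 1 → g l = 0) (fun hh => absurd hh (by decide)) (fun _ => z1) (fun hh => absurd hh (by decide)) (fun _ => z3) (fun _ => z4) (fun _ => z5) (fun _ => z6) (fun _ => z7) (fun _ => z8) (fun _ => z9) (fun _ => z10)
  · obtain ⟨f2', w3⟩ := qc5_full2 t3 f1 p2 gu2
    have f2 : g 2 = e 2 + e 3 := f2'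
    have f3 : g 3 = e 3 + e 4 := s3.resolve_left (fun hh => by linarith)
    have f4 : g 4 = e 4 + e 5 := j4.2.2.1 f3
    have f5 : g 5 = e 5 + e 6 := j5.2.2.1 f4
    have f6 : g 6 = e 6 + e 7 := j6.2.2.1 f5
    have f7 : g 7 = e 7 + e 8 := j7.2.2.1 f6
    have f8 : g 8 = e 8 + e 9 := j8.2.2.1 f7
    have f9' : g 9 = e 9 := qc5_end2 p8 (by linarith) f8 t9
    have f9 : g 9 = e 9 + e 10 := by linarith
    obtain ⟨f0, w10⟩ := qc5_full3 t0 f1 p1 gu0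
    have f10 : g 10 = e 10 + e 0 := by linarith
    right
    exact qc5_all f0 f1 f2 f3 f4 f5 f6 f7 f8 f9 f10

theorem qc5_b2 {τ : ℝ} (hτ : 0 < τ) {e g : Fin 11 → ℝ} (h : Adm τ e g)
    (hz : ∀ y ∈ nb 2, ∀ z ∈ nb 2, y ≠ z → 0 ≤ phi 2 y z e g) :
    (∀ l ∈ ib 2, g l = 0) ∨ (∀ l, g l = e l + e (l + 1)) := by
  have e0z : e 0 = 0 := h.e0
  have e10z : e 10 = 0 := h.e10
  have p1 : 0 < e 1 := lt_of_lt_of_le hτ (h.e1 1 (by decide) (by decide))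
  have p2 : 0 < e 2 := lt_of_lt_of_le hτ (h.e1 2 (by decide) (by decide))
  have p3 : 0 < e 3 := lt_of_lt_of_le hτ (h.e1 3 (by decide) (by decide))
  have p4 : 0 < e 4 := lt_of_lt_of_le hτ (h.e1 4 (by decide) (by decide))
  have p5 : 0 < e 5 := lt_of_lt_of_le hτ (h.e1 5 (by decide) (by decide))
  have p6 : 0 < e 6 := lt_of_lt_of_le hτ (h.e1 6 (by decide) (by decide))
  have p7 : 0 < e 7 := lt_of_lt_of_le hτ (h.e1 7 (by decide) (by decide))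
  have p8 : 0 < e 8 := lt_of_lt_of_le hτ (h.e1 8 (by decide) (by decide))
  have p9 : 0 < e 9 := lt_of_lt_of_le hτ (h.e1 9 (by decide) (by decide))
  have gz0 : 0 ≤ g 0 := h.g0 0
  have gu0 : g 0 ≤ e 0 + e 1 := h.g1 0
  have gz1 : 0 ≤ g 1 := h.g0 1
  have gu1 : g 1 ≤ e 1 + e 2 := h.g1 1
  have gz2 : 0 ≤ g 2 := h.g0 2
  have gu2 : g 2 ≤ e 2 + e 3 := h.g1 2
  have gz3 : 0 ≤ g 3 := h.g0 3
  have gu3 : g 3 ≤ e 3 + e 4 := h.g1 3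
  have gz4 : 0 ≤ g 4 := h.g0 4
  have gu4 : g 4 ≤ e 4 + e 5 := h.g1 4
  have gz5 : 0 ≤ g 5 := h.g0 5
  have gu5 : g 5 ≤ e 5 + e 6 := h.g1 5
  have gz6 : 0 ≤ g 6 := h.g0 6
  have gu6 : g 6 ≤ e 6 + e 7 := h.g1 6
  have gz7 : 0 ≤ g 7 := h.g0 7
  have gu7 : g 7 ≤ e 7 + e 8 := h.g1 7
  have gz8 : 0 ≤ g 8 := h.g0 8
  have gu8 : g 8 ≤ e 8 + e 9 := h.g1 8
  have gz9 : 0 ≤ g 9 := h.g0 9
  have gu9 : g 9 ≤ e 9 + e 10 := h.g1 9
  have gz10 : 0 ≤ g 10 := h.g0 10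
  have gu10 : g 10 ≤ e 10 + e 0 := h.g1 10
  have g10z : g 10 = 0 := by linarith
  have H := hz 1 (by decide) 4 (by decide) (by decide)
  have n0 : qc5_N 2 1 4 e g 0 = max 0 (2 * e 0 - g 10 - g 0) :=
    qc5_gen 10 (by decide) (by decide) (by decide)
  have n1 : qc5_N 2 1 4 e g 1 = max 0 (2 * e 1 - g 0 - g 1 + (e 2 + e 3 - g 2)) :=
    qc5_sp 0 3 (by decide) (by decide) (by decide) (by decide)
  have n2 : qc5_N 2 1 4 e g 2 = 0 := qc5_off (by decide)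
  have n3 : qc5_N 2 1 4 e g 3 = 0 := qc5_off (by decide)
  have n4 : qc5_N 2 1 4 e g 4 = max 0 (2 * e 4 - g 3 - g 4 + (e 2 + e 3 - g 2)) :=
    qc5_sp 3 3 (by decide) (by decide) (by decide) (by decide)
  have n5 : qc5_N 2 1 4 e g 5 = max 0 (2 * e 5 - g 4 - g 5) :=
    qc5_gen 4 (by decide) (by decide) (by decide)
  have n6 : qc5_N 2 1 4 e g 6 = max 0 (2 * e 6 - g 5 - g 6) :=
    qc5_gen 5 (by decide) (by decide) (by decide)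
  have n7 : qc5_N 2 1 4 e g 7 = max 0 (2 * e 7 - g 6 - g 7) :=
    qc5_gen 6 (by decide) (by decide) (by decide)
  have n8 : qc5_N 2 1 4 e g 8 = max 0 (2 * e 8 - g 7 - g 8) :=
    qc5_gen 7 (by decide) (by decide) (by decide)
  have n9 : qc5_N 2 1 4 e g 9 = max 0 (2 * e 9 - g 8 - g 9) :=
    qc5_gen 8 (by decide) (by decide) (by decide)
  have n10 : qc5_N 2 1 4 e g 10 = max 0 (2 * e 10 - g 9 - g 10) :=
    qc5_gen 9 (by decide) (by decide) (by decide)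
  rw [qc5_phi, n0, n1, n2, n3, n4, n5, n6, n7, n8, n9, n10] at H
  clear n0 n1 n2 n3 n4 n5 n6 n7 n8 n9 n10
  have U0 := qc5_U (e 0) (g 10) (g 0)
  have U1 := qc5_U3 (c := e 1) (gp := g 0) (gl := g 1) (eb := e 2) (eb1 := e 3) (gb := g 2) gu1
  have U4 := qc5_U2 (c := e 4) (gp := g 3) (gl := g 4) (eb := e 2) (eb1 := e 3) (gb := g 2) gu3
  have U5 := qc5_U (e 5) (g 4) (g 5)
  have U6 := qc5_U (e 6) (g 5) (g 6)
  have U7 := qc5_U (e 7) (g 6) (g 7)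
  have U8 := qc5_U (e 8) (g 7) (g 8)
  have U9 := qc5_U (e 9) (g 8) (g 9)
  have U10 := qc5_U (e 10) (g 9) (g 10)
  have E0 := qc5_E e0z.ge p1.le gz0 gu0
  have E2 := qc5_E p2.le p3.le gz2 gu2
  have E4 := qc5_E p4.le p5.le gz4 gu4
  have E5 := qc5_E p5.le p6.le gz5 gu5
  have E6 := qc5_E p6.le p7.le gz6 gu6
  have E7 := qc5_E p7.le p8.le gz7 gu7
  have E8 := qc5_E p8.le p9.le gz8 gu8
  have E9 := qc5_E p9.le e10z.ge gz9 gu9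
  have E10 := qc5_E e10z.ge e0z.ge gz10 gu10
  obtain ⟨d0, D0⟩ : ∃ d : ℝ, d = max 0 (e 0 - g 10) + max 0 (e 0 - g 0) -
      max 0 (2 * e 0 - g 10 - g 0) := ⟨_, rfl⟩
  have hd0 : 0 ≤ d0 := by linarith only [U0, D0]
  obtain ⟨d1, D1⟩ : ∃ d : ℝ, d = max 0 (e 3 - g 2) + (e 1 + e 2 - g 1) + max 0 (e 1 - g 0) -
      max 0 (2 * e 1 - g 0 - g 1 + (e 2 + e 3 - g 2)) := ⟨_, rfl⟩
  have hd1 : 0 ≤ d1 := by linarith only [U1, D1]
  obtain ⟨d4, D4⟩ : ∃ d : ℝ, d = max 0 (e 2 - g 2) + (e 3 + e 4 - g 3) + max 0 (e 4 - g 4) -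
      max 0 (2 * e 4 - g 3 - g 4 + (e 2 + e 3 - g 2)) := ⟨_, rfl⟩
  have hd4 : 0 ≤ d4 := by linarith only [U4, D4]
  obtain ⟨d5, D5⟩ : ∃ d : ℝ, d = max 0 (e 5 - g 4) + max 0 (e 5 - g 5) -
      max 0 (2 * e 5 - g 4 - g 5) := ⟨_, rfl⟩
  have hd5 : 0 ≤ d5 := by linarith only [U5, D5]
  obtain ⟨d6, D6⟩ : ∃ d : ℝ, d = max 0 (e 6 - g 5) + max 0 (e 6 - g 6) -
      max 0 (2 * e 6 - g 5 - g 6) := ⟨_, rfl⟩
  have hd6 : 0 ≤ d6 := by linarith only [U6, D6]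
  obtain ⟨d7, D7⟩ : ∃ d : ℝ, d = max 0 (e 7 - g 6) + max 0 (e 7 - g 7) -
      max 0 (2 * e 7 - g 6 - g 7) := ⟨_, rfl⟩
  have hd7 : 0 ≤ d7 := by linarith only [U7, D7]
  obtain ⟨d8, D8⟩ : ∃ d : ℝ, d = max 0 (e 8 - g 7) + max 0 (e 8 - g 8) -
      max 0 (2 * e 8 - g 7 - g 8) := ⟨_, rfl⟩
  have hd8 : 0 ≤ d8 := by linarith only [U8, D8]
  obtain ⟨d9, D9⟩ : ∃ d : ℝ, d = max 0 (e 9 - g 8) + max 0 (e 9 - g 9) -
      max 0 (2 * e 9 - g 8 - g 9) := ⟨_, rfl⟩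
  have hd9 : 0 ≤ d9 := by linarith only [U9, D9]
  obtain ⟨d10, D10⟩ : ∃ d : ℝ, d = max 0 (e 10 - g 9) + max 0 (e 10 - g 10) -
      max 0 (2 * e 10 - g 9 - g 10) := ⟨_, rfl⟩
  have hd10 : 0 ≤ d10 := by linarith only [U10, D10]
  obtain ⟨c0, C0⟩ : ∃ c : ℝ, c = e 0 + e 1 - g 0 - (max 0 (e 0 - g 0) + max 0 (e 1 - g 0)) := ⟨_, rfl⟩
  have hc0 : 0 ≤ c0 := by linarith only [E0, C0]
  obtain ⟨c2, C2⟩ : ∃ c : ℝ, c = e 2 + e 3 - g 2 - (max 0 (e 2 - g 2) + max 0 (e 3 - g 2)) := ⟨_, rfl⟩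
  have hc2 : 0 ≤ c2 := by linarith only [E2, C2]
  obtain ⟨c4, C4⟩ : ∃ c : ℝ, c = e 4 + e 5 - g 4 - (max 0 (e 4 - g 4) + max 0 (e 5 - g 4)) := ⟨_, rfl⟩
  have hc4 : 0 ≤ c4 := by linarith only [E4, C4]
  obtain ⟨c5, C5⟩ : ∃ c : ℝ, c = e 5 + e 6 - g 5 - (max 0 (e 5 - g 5) + max 0 (e 6 - g 5)) := ⟨_, rfl⟩
  have hc5 : 0 ≤ c5 := by linarith only [E5, C5]
  obtain ⟨c6, C6⟩ : ∃ c : ℝ, c = e 6 + e 7 - g 6 - (max 0 (e 6 - g 6) + max 0 (e 7 - g 6)) := ⟨_, rfl⟩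
  have hc6 : 0 ≤ c6 := by linarith only [E6, C6]
  obtain ⟨c7, C7⟩ : ∃ c : ℝ, c = e 7 + e 8 - g 7 - (max 0 (e 7 - g 7) + max 0 (e 8 - g 7)) := ⟨_, rfl⟩
  have hc7 : 0 ≤ c7 := by linarith only [E7, C7]
  obtain ⟨c8, C8⟩ : ∃ c : ℝ, c = e 8 + e 9 - g 8 - (max 0 (e 8 - g 8) + max 0 (e 9 - g 8)) := ⟨_, rfl⟩
  have hc8 : 0 ≤ c8 := by linarith only [E8, C8]
  obtain ⟨c9, C9⟩ : ∃ c : ℝ, c = e 9 + e 10 - g 9 - (max 0 (e 9 - g 9) + max 0 (e 10 - g 9)) := ⟨_, rfl⟩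
  have hc9 : 0 ≤ c9 := by linarith only [E9, C9]
  obtain ⟨c10, C10⟩ : ∃ c : ℝ, c = e 10 + e 0 - g 10 - (max 0 (e 10 - g 10) + max 0 (e 0 - g 10)) := ⟨_, rfl⟩
  have hc10 : 0 ≤ c10 := by linarith only [E10, C10]
  have K0 : d0 + d1 + d4 + d5 + d6 + d7 + d8 + d9 + d10 + c0 + c2 + c4 + c5 + c6 + c7 + c8 + c9 + c10 ≤ 0 := by
    linarith only [H, D0, D1, D4, D5, D6, D7, D8, D9, D10, C0, C2, C4, C5, C6, C7, C8, C9, C10]
  have s2 : g 2 = 0 ∨ g 2 = e 2 + e 3 := qc5_state p2 p3 gz2 gu2 (by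
    linarith only [K0, hd0, hd1, hd4, hd5, hd6, hd7, hd8, hd9, hd10, hc0, hc2, hc4, hc5, hc6, hc7, hc8, hc9, hc10, C2])
  have s4 : g 4 = 0 ∨ g 4 = e 4 + e 5 := qc5_state p4 p5 gz4 gu4 (by
    linarith only [K0, hd0, hd1, hd4, hd5, hd6, hd7, hd8, hd9, hd10, hc0, hc2, hc4, hc5, hc6, hc7, hc8, hc9, hc10, C4])
  have s5 : g 5 = 0 ∨ g 5 = e 5 + e 6 := qc5_state p5 p6 gz5 gu5 (by
    linarith only [K0, hd0, hd1, hd4, hd5, hd6, hd7, hd8, hd9, hd10, hc0, hc2, hc4, hc5, hc6, hc7, hc8, hc9, hc10, C5])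
  have s6 : g 6 = 0 ∨ g 6 = e 6 + e 7 := qc5_state p6 p7 gz6 gu6 (by
    linarith only [K0, hd0, hd1, hd4, hd5, hd6, hd7, hd8, hd9, hd10, hc0, hc2, hc4, hc5, hc6, hc7, hc8, hc9, hc10, C6])
  have s7 : g 7 = 0 ∨ g 7 = e 7 + e 8 := qc5_state p7 p8 gz7 gu7 (by
    linarith only [K0, hd0, hd1, hd4, hd5, hd6, hd7, hd8, hd9, hd10, hc0, hc2, hc4, hc5, hc6, hc7, hc8, hc9, hc10, C7])
  have s8 : g 8 = 0 ∨ g 8 = e 8 + e 9 := qc5_state p8 p9 gz8 gu8 (by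
    linarith only [K0, hd0, hd1, hd4, hd5, hd6, hd7, hd8, hd9, hd10, hc0, hc2, hc4, hc5, hc6, hc7, hc8, hc9, hc10, C8])
  have t1 : max 0 (e 3 - g 2) + (e 1 + e 2 - g 1) + max 0 (e 1 - g 0) ≤
      max 0 (2 * e 1 - g 0 - g 1 + (e 2 + e 3 - g 2)) := by
    linarith only [K0, hd0, hd1, hd4, hd5, hd6, hd7, hd8, hd9, hd10, hc0, hc2, hc4, hc5, hc6, hc7, hc8, hc9, hc10, D1]
  have t4 : max 0 (e 2 - g 2) + (e 3 + e 4 - g 3) + max 0 (e 4 - g 4) ≤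
      max 0 (2 * e 4 - g 3 - g 4 + (e 2 + e 3 - g 2)) := by
    linarith only [K0, hd0, hd1, hd4, hd5, hd6, hd7, hd8, hd9, hd10, hc0, hc2, hc4, hc5, hc6, hc7, hc8, hc9, hc10, D4]
  have t5 : max 0 (e 5 - g 4) + max 0 (e 5 - g 5) ≤ max 0 (2 * e 5 - g 4 - g 5) := by
    linarith only [K0, hd0, hd1, hd4, hd5, hd6, hd7, hd8, hd9, hd10, hc0, hc2, hc4, hc5, hc6, hc7, hc8, hc9, hc10, D5]
  have j5 := qc5_joint p4 p5 p6 s4 s5 t5
  have t6 : max 0 (e 6 - g 5) + max 0 (e 6 - g 6) ≤ max 0 (2 * e 6 - g 5 - g 6) := by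
    linarith only [K0, hd0, hd1, hd4, hd5, hd6, hd7, hd8, hd9, hd10, hc0, hc2, hc4, hc5, hc6, hc7, hc8, hc9, hc10, D6]
  have j6 := qc5_joint p5 p6 p7 s5 s6 t6
  have t7 : max 0 (e 7 - g 6) + max 0 (e 7 - g 7) ≤ max 0 (2 * e 7 - g 6 - g 7) := by
    linarith only [K0, hd0, hd1, hd4, hd5, hd6, hd7, hd8, hd9, hd10, hc0, hc2, hc4, hc5, hc6, hc7, hc8, hc9, hc10, D7]
  have j7 := qc5_joint p6 p7 p8 s6 s7 t7
  have t8 : max 0 (e 8 - g 7) + max 0 (e 8 - g 8) ≤ max 0 (2 * e 8 - g 7 - g 8) := by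
    linarith only [K0, hd0, hd1, hd4, hd5, hd6, hd7, hd8, hd9, hd10, hc0, hc2, hc4, hc5, hc6, hc7, hc8, hc9, hc10, D8]
  have j8 := qc5_joint p7 p8 p9 s7 s8 t8
  have t9 : max 0 (e 9 - g 8) + max 0 (e 9 - g 9) ≤ max 0 (2 * e 9 - g 8 - g 9) := by
    linarith only [K0, hd0, hd1, hd4, hd5, hd6, hd7, hd8, hd9, hd10, hc0, hc2, hc4, hc5, hc6, hc7, hc8, hc9, hc10, D9]
  clear K0 H U0 U1 U4 U5 U6 U7 U8 U9 U10 E0 E2 E4 E5 E6 E7 E8 E9 E10 D0 D1 D4 D5 D6 D7 D8 D9 D10 C0 C2 C4 C5 C6 C7 C8 C9 C10 hd0 hd1 hd4 hd5 hd6 hd7 hd8 hd9 hd10 hc0 hc2 hc4 hc5 hc6 hc7 hc8 hc9 hc10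
  have o21 : 4 * e 2 ≤ e 1 := h.eo 2 1 (by decide) (by decide)
  have o23 : 4 * e 2 ≤ e 3 := h.eo 2 3 (by decide) (by decide)
  have o43 : 4 * e 4 ≤ e 3 := h.eo 4 3 (by decide) (by decide)
  have o45 : 4 * e 4 ≤ e 5 := h.eo 4 5 (by decide) (by decide)
  have o65 : 4 * e 6 ≤ e 5 := h.eo 6 5 (by decide) (by decide)
  have o67 : 4 * e 6 ≤ e 7 := h.eo 6 7 (by decide) (by decide)
  have o87 : 4 * e 8 ≤ e 7 := h.eo 8 7 (by decide) (by decide)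
  have o89 : 4 * e 8 ≤ e 9 := h.eo 8 9 (by decide) (by decide)
  rcases s2 with z2 | f2
  · have w4 := qc5_empty2 t4 z2 p2 gu3
    have z4 : g 4 = 0 := s4.resolve_right (fun hh => by linarith)
    have z5 : g 5 = 0 := j5.1 z4
    have z6 : g 6 = 0 := j6.1 z5
    have z7 : g 7 = 0 := j7.1 z6
    have z8 : g 8 = 0 := j8.1 z7
    have z10 := g10z
    have z0 : g 0 = 0 := by
      have K := hz 4 (by decide) 0 (by decide) (by decide)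
      have k0 : qc5_N 2 4 0 e g 0 = max 0 (2 * e 0 - g 10 - g 0 + (e 2 + e 3 - g 2)) :=
        qc5_sp 10 3 (by decide) (by decide) (by decide) (by decide)
      have k1 : qc5_N 2 4 0 e g 1 = max 0 (2 * e 1 - g 0 - g 1) :=
        qc5_gen 0 (by decide) (by decide) (by decide)
      have k2 : qc5_N 2 4 0 e g 2 = 0 := qc5_off (by decide)
      have k3 : qc5_N 2 4 0 e g 3 = 0 := qc5_off (by decide)
      have k4 : qc5_N 2 4 0 e g 4 = max 0 (2 * e 4 - g 3 - g 4 + (e 2 + e 3 - g 2)) :=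
        qc5_sp 3 3 (by decide) (by decide) (by decide) (by decide)
      have k5 : qc5_N 2 4 0 e g 5 = max 0 (2 * e 5 - g 4 - g 5) :=
        qc5_gen 4 (by decide) (by decide) (by decide)
      have k6 : qc5_N 2 4 0 e g 6 = max 0 (2 * e 6 - g 5 - g 6) :=
        qc5_gen 5 (by decide) (by decide) (by decide)
      have k7 : qc5_N 2 4 0 e g 7 = max 0 (2 * e 7 - g 6 - g 7) :=
        qc5_gen 6 (by decide) (by decide) (by decide)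
      have k8 : qc5_N 2 4 0 e g 8 = max 0 (2 * e 8 - g 7 - g 8) :=
        qc5_gen 7 (by decide) (by decide) (by decide)
      have k9 : qc5_N 2 4 0 e g 9 = max 0 (2 * e 9 - g 8 - g 9) :=
        qc5_gen 8 (by decide) (by decide) (by decide)
      have k10 : qc5_N 2 4 0 e g 10 = max 0 (2 * e 10 - g 9 - g 10) :=
        qc5_gen 9 (by decide) (by decide) (by decide)
      rw [qc5_phi, k0, k1, k2, k3, k4, k5, k6, k7, k8, k9, k10] at K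
      clear k0 k1 k2 k3 k4 k5 k6 k7 k8 k9 k10
      have m4 : max 0 (2 * e 4 - g 3 - g 4 + (e 2 + e 3 - g 2)) ≤ 2 * e 4 - g 3 - g 4 + (e 2 + e 3 - g 2) := max_le (by linarith) (le_refl _)
      have m5 : max 0 (2 * e 5 - g 4 - g 5) ≤ 2 * e 5 - g 4 - g 5 := max_le (by linarith) (le_refl _)
      have m6 : max 0 (2 * e 6 - g 5 - g 6) ≤ 2 * e 6 - g 5 - g 6 := max_le (by linarith) (le_refl _)
      have m7 : max 0 (2 * e 7 - g 6 - g 7) ≤ 2 * e 7 - g 6 - g 7 := max_le (by linarith) (le_refl _)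
      have m8 : max 0 (2 * e 8 - g 7 - g 8) ≤ 2 * e 8 - g 7 - g 8 := max_le (by linarith) (le_refl _)
      have m9 : max 0 (2 * e 9 - g 8 - g 9) ≤ 2 * e 9 - g 8 - g 9 := max_le (by linarith) (le_refl _)
      have m10 : max 0 (2 * e 10 - g 9 - g 10) ≤ 0 := max_le (le_refl _) (by linarith)
      rcases le_total 0 (2 * e 1 - g 0 - g 1) with r | r
      · rw [max_eq_right r] at K
        rcases le_total 0 (2 * e 0 - g 10 - g 0 + (e 2 + e 3 - g 2)) with r2 | r2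
        · rw [max_eq_right r2] at K
          linarith
        · rw [max_eq_left r2] at K
          linarith
      · rw [max_eq_left r] at K
        rcases le_total 0 (2 * e 0 - g 10 - g 0 + (e 2 + e 3 - g 2)) with r2 | r2
        · rw [max_eq_right r2] at K
          linarith
        · rw [max_eq_left r2] at K
          linarith
    have z9 : g 9 = 0 := by
      have K := hz 4 (by decide) 10 (by decide) (by decide)
      have k0 : qc5_N 2 4 10 e g 0 = max 0 (2 * e 0 - g 10 - g 0) :=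
        qc5_gen 10 (by decide) (by decide) (by decide)
      have k1 : qc5_N 2 4 10 e g 1 = max 0 (2 * e 1 - g 0 - g 1) :=
        qc5_gen 0 (by decide) (by decide) (by decide)
      have k2 : qc5_N 2 4 10 e g 2 = 0 := qc5_off (by decide)
      have k3 : qc5_N 2 4 10 e g 3 = 0 := qc5_off (by decide)
      have k4 : qc5_N 2 4 10 e g 4 = max 0 (2 * e 4 - g 3 - g 4 + (e 2 + e 3 - g 2)) :=
        qc5_sp 3 3 (by decide) (by decide) (by decide) (by decide)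
      have k5 : qc5_N 2 4 10 e g 5 = max 0 (2 * e 5 - g 4 - g 5) :=
        qc5_gen 4 (by decide) (by decide) (by decide)
      have k6 : qc5_N 2 4 10 e g 6 = max 0 (2 * e 6 - g 5 - g 6) :=
        qc5_gen 5 (by decide) (by decide) (by decide)
      have k7 : qc5_N 2 4 10 e g 7 = max 0 (2 * e 7 - g 6 - g 7) :=
        qc5_gen 6 (by decide) (by decide) (by decide)
      have k8 : qc5_N 2 4 10 e g 8 = max 0 (2 * e 8 - g 7 - g 8) :=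
        qc5_gen 7 (by decide) (by decide) (by decide)
      have k9 : qc5_N 2 4 10 e g 9 = max 0 (2 * e 9 - g 8 - g 9) :=
        qc5_gen 8 (by decide) (by decide) (by decide)
      have k10 : qc5_N 2 4 10 e g 10 = max 0 (2 * e 10 - g 9 - g 10 + (e 2 + e 3 - g 2)) :=
        qc5_sp 9 3 (by decide) (by decide) (by decide) (by decide)
      rw [qc5_phi, k0, k1, k2, k3, k4, k5, k6, k7, k8, k9, k10] at K
      clear k0 k1 k2 k3 k4 k5 k6 k7 k8 k9 k10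
      have m0 : max 0 (2 * e 0 - g 10 - g 0) ≤ 0 := max_le (le_refl _) (by linarith)
      have m1 : max 0 (2 * e 1 - g 0 - g 1) ≤ 2 * e 1 - g 0 - g 1 := max_le (by linarith) (le_refl _)
      have m4 : max 0 (2 * e 4 - g 3 - g 4 + (e 2 + e 3 - g 2)) ≤ 2 * e 4 - g 3 - g 4 + (e 2 + e 3 - g 2) := max_le (by linarith) (le_refl _)
      have m5 : max 0 (2 * e 5 - g 4 - g 5) ≤ 2 * e 5 - g 4 - g 5 := max_le (by linarith) (le_refl _)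
      have m6 : max 0 (2 * e 6 - g 5 - g 6) ≤ 2 * e 6 - g 5 - g 6 := max_le (by linarith) (le_refl _)
      have m7 : max 0 (2 * e 7 - g 6 - g 7) ≤ 2 * e 7 - g 6 - g 7 := max_le (by linarith) (le_refl _)
      have m8 : max 0 (2 * e 8 - g 7 - g 8) ≤ 2 * e 8 - g 7 - g 8 := max_le (by linarith) (le_refl _)
      have m9 : max 0 (2 * e 9 - g 8 - g 9) ≤ 2 * e 9 - g 8 - g 9 := max_le (by linarith) (le_refl _)
      rcases le_total 0 (2 * e 10 - g 9 - g 10 + (e 2 + e 3 - g 2)) with r2 | r2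
      · rw [max_eq_right r2] at K
        linarith
      · rw [max_eq_left r2] at K
        linarith
    left
    exact qc5_all (P := fun l => l ∈ ib 2 → g l = 0) (fun _ => z0) (fun hh => absurd hh (by decide)) (fun _ => z2) (fun hh => absurd hh (by decide)) (fun _ => z4) (fun _ => z5) (fun _ => z6) (fun _ => z7) (fun _ => z8) (fun _ => z9) (fun _ => z10)
  · obtain ⟨f3', w4⟩ := qc5_full2 t4 f2 p3 gu3
    have f3 : g 3 = e 3 + e 4 := f3'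
    have f4 : g 4 = e 4 + e 5 := s4.resolve_left (fun hh => by linarith)
    have f5 : g 5 = e 5 + e 6 := j5.2.2.1 f4
    have f6 : g 6 = e 6 + e 7 := j6.2.2.1 f5
    have f7 : g 7 = e 7 + e 8 := j7.2.2.1 f6
    have f8 : g 8 = e 8 + e 9 := j8.2.2.1 f7
    have f9' : g 9 = e 9 := qc5_end2 p8 (by linarith) f8 t9
    have f9 : g 9 = e 9 + e 10 := by linarith
    obtain ⟨f1', w0⟩ := qc5_full3 t1 f2 p2 gu1
    have f1 : g 1 = e 1 + e 2 := f1'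
    have f0 : g 0 = e 0 + e 1 := by linarith
    have f10 : g 10 = e 10 + e 0 := by linarith
    right
    exact qc5_all f0 f1 f2 f3 f4 f5 f6 f7 f8 f9 f10

theorem qc5_b3 {τ : ℝ} (hτ : 0 < τ) {e g : Fin 11 → ℝ} (h : Adm τ e g)
    (hz : ∀ y ∈ nb 3, ∀ z ∈ nb 3, y ≠ z → 0 ≤ phi 3 y z e g) :
    (∀ l ∈ ib 3, g l = 0) ∨ (∀ l, g l = e l + e (l + 1)) := by
  have e0z : e 0 = 0 := h.e0
  have e10z : e 10 = 0 := h.e10
  have p1 : 0 < e 1 := lt_of_lt_of_le hτ (h.e1 1 (by decide) (by decide))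
  have p2 : 0 < e 2 := lt_of_lt_of_le hτ (h.e1 2 (by decide) (by decide))
  have p3 : 0 < e 3 := lt_of_lt_of_le hτ (h.e1 3 (by decide) (by decide))
  have p4 : 0 < e 4 := lt_of_lt_of_le hτ (h.e1 4 (by decide) (by decide))
  have p5 : 0 < e 5 := lt_of_lt_of_le hτ (h.e1 5 (by decide) (by decide))
  have p6 : 0 < e 6 := lt_of_lt_of_le hτ (h.e1 6 (by decide) (by decide))
  have p7 : 0 < e 7 := lt_of_lt_of_le hτ (h.e1 7 (by decide) (by decide))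
  have p8 : 0 < e 8 := lt_of_lt_of_le hτ (h.e1 8 (by decide) (by decide))
  have p9 : 0 < e 9 := lt_of_lt_of_le hτ (h.e1 9 (by decide) (by decide))
  have gz0 : 0 ≤ g 0 := h.g0 0
  have gu0 : g 0 ≤ e 0 + e 1 := h.g1 0
  have gz1 : 0 ≤ g 1 := h.g0 1
  have gu1 : g 1 ≤ e 1 + e 2 := h.g1 1
  have gz2 : 0 ≤ g 2 := h.g0 2
  have gu2 : g 2 ≤ e 2 + e 3 := h.g1 2
  have gz3 : 0 ≤ g 3 := h.g0 3
  have gu3 : g 3 ≤ e 3 + e 4 := h.g1 3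
  have gz4 : 0 ≤ g 4 := h.g0 4
  have gu4 : g 4 ≤ e 4 + e 5 := h.g1 4
  have gz5 : 0 ≤ g 5 := h.g0 5
  have gu5 : g 5 ≤ e 5 + e 6 := h.g1 5
  have gz6 : 0 ≤ g 6 := h.g0 6
  have gu6 : g 6 ≤ e 6 + e 7 := h.g1 6
  have gz7 : 0 ≤ g 7 := h.g0 7
  have gu7 : g 7 ≤ e 7 + e 8 := h.g1 7
  have gz8 : 0 ≤ g 8 := h.g0 8
  have gu8 : g 8 ≤ e 8 + e 9 := h.g1 8
  have gz9 : 0 ≤ g 9 := h.g0 9
  have gu9 : g 9 ≤ e 9 + e 10 := h.g1 9
  have gz10 : 0 ≤ g 10 := h.g0 10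
  have gu10 : g 10 ≤ e 10 + e 0 := h.g1 10
  have g10z : g 10 = 0 := by linarith
  have H := hz 2 (by decide) 5 (by decide) (by decide)
  have n0 : qc5_N 3 2 5 e g 0 = max 0 (2 * e 0 - g 10 - g 0) :=
    qc5_gen 10 (by decide) (by decide) (by decide)
  have n1 : qc5_N 3 2 5 e g 1 = max 0 (2 * e 1 - g 0 - g 1) :=
    qc5_gen 0 (by decide) (by decide) (by decide)
  have n2 : qc5_N 3 2 5 e g 2 = max 0 (2 * e 2 - g 1 - g 2 + (e 3 + e 4 - g 3)) :=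
    qc5_sp 1 4 (by decide) (by decide) (by decide) (by decide)
  have n3 : qc5_N 3 2 5 e g 3 = 0 := qc5_off (by decide)
  have n4 : qc5_N 3 2 5 e g 4 = 0 := qc5_off (by decide)
  have n5 : qc5_N 3 2 5 e g 5 = max 0 (2 * e 5 - g 4 - g 5 + (e 3 + e 4 - g 3)) :=
    qc5_sp 4 4 (by decide) (by decide) (by decide) (by decide)
  have n6 : qc5_N 3 2 5 e g 6 = max 0 (2 * e 6 - g 5 - g 6) :=
    qc5_gen 5 (by decide) (by decide) (by decide)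
  have n7 : qc5_N 3 2 5 e g 7 = max 0 (2 * e 7 - g 6 - g 7) :=
    qc5_gen 6 (by decide) (by decide) (by decide)
  have n8 : qc5_N 3 2 5 e g 8 = max 0 (2 * e 8 - g 7 - g 8) :=
    qc5_gen 7 (by decide) (by decide) (by decide)
  have n9 : qc5_N 3 2 5 e g 9 = max 0 (2 * e 9 - g 8 - g 9) :=
    qc5_gen 8 (by decide) (by decide) (by decide)
  have n10 : qc5_N 3 2 5 e g 10 = max 0 (2 * e 10 - g 9 - g 10) :=
    qc5_gen 9 (by decide) (by decide) (by decide)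
  rw [qc5_phi, n0, n1, n2, n3, n4, n5, n6, n7, n8, n9, n10] at H
  clear n0 n1 n2 n3 n4 n5 n6 n7 n8 n9 n10
  have U0 := qc5_U (e 0) (g 10) (g 0)
  have U1 := qc5_U (e 1) (g 0) (g 1)
  have U2 := qc5_U3 (c := e 2) (gp := g 1) (gl := g 2) (eb := e 3) (eb1 := e 4) (gb := g 3) gu2
  have U5 := qc5_U2 (c := e 5) (gp := g 4) (gl := g 5) (eb := e 3) (eb1 := e 4) (gb := g 3) gu4
  have U6 := qc5_U (e 6) (g 5) (g 6)
  have U7 := qc5_U (e 7) (g 6) (g 7)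
  have U8 := qc5_U (e 8) (g 7) (g 8)
  have U9 := qc5_U (e 9) (g 8) (g 9)
  have U10 := qc5_U (e 10) (g 9) (g 10)
  have E0 := qc5_E e0z.ge p1.le gz0 gu0
  have E1 := qc5_E p1.le p2.le gz1 gu1
  have E3 := qc5_E p3.le p4.le gz3 gu3
  have E5 := qc5_E p5.le p6.le gz5 gu5
  have E6 := qc5_E p6.le p7.le gz6 gu6
  have E7 := qc5_E p7.le p8.le gz7 gu7
  have E8 := qc5_E p8.le p9.le gz8 gu8
  have E9 := qc5_E p9.le e10z.ge gz9 gu9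
  have E10 := qc5_E e10z.ge e0z.ge gz10 gu10
  obtain ⟨d0, D0⟩ : ∃ d : ℝ, d = max 0 (e 0 - g 10) + max 0 (e 0 - g 0) -
      max 0 (2 * e 0 - g 10 - g 0) := ⟨_, rfl⟩
  have hd0 : 0 ≤ d0 := by linarith only [U0, D0]
  obtain ⟨d1, D1⟩ : ∃ d : ℝ, d = max 0 (e 1 - g 0) + max 0 (e 1 - g 1) -
      max 0 (2 * e 1 - g 0 - g 1) := ⟨_, rfl⟩
  have hd1 : 0 ≤ d1 := by linarith only [U1, D1]
  obtain ⟨d2, D2⟩ : ∃ d : ℝ, d = max 0 (e 4 - g 3) + (e 2 + e 3 - g 2) + max 0 (e 2 - g 1) -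
      max 0 (2 * e 2 - g 1 - g 2 + (e 3 + e 4 - g 3)) := ⟨_, rfl⟩
  have hd2 : 0 ≤ d2 := by linarith only [U2, D2]
  obtain ⟨d5, D5⟩ : ∃ d : ℝ, d = max 0 (e 3 - g 3) + (e 4 + e 5 - g 4) + max 0 (e 5 - g 5) -
      max 0 (2 * e 5 - g 4 - g 5 + (e 3 + e 4 - g 3)) := ⟨_, rfl⟩
  have hd5 : 0 ≤ d5 := by linarith only [U5, D5]
  obtain ⟨d6, D6⟩ : ∃ d : ℝ, d = max 0 (e 6 - g 5) + max 0 (e 6 - g 6) -
      max 0 (2 * e 6 - g 5 - g 6) := ⟨_, rfl⟩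
  have hd6 : 0 ≤ d6 := by linarith only [U6, D6]
  obtain ⟨d7, D7⟩ : ∃ d : ℝ, d = max 0 (e 7 - g 6) + max 0 (e 7 - g 7) -
      max 0 (2 * e 7 - g 6 - g 7) := ⟨_, rfl⟩
  have hd7 : 0 ≤ d7 := by linarith only [U7, D7]
  obtain ⟨d8, D8⟩ : ∃ d : ℝ, d = max 0 (e 8 - g 7) + max 0 (e 8 - g 8) -
      max 0 (2 * e 8 - g 7 - g 8) := ⟨_, rfl⟩
  have hd8 : 0 ≤ d8 := by linarith only [U8, D8]
  obtain ⟨d9, D9⟩ : ∃ d : ℝ, d = max 0 (e 9 - g 8) + max 0 (e 9 - g 9) -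
      max 0 (2 * e 9 - g 8 - g 9) := ⟨_, rfl⟩
  have hd9 : 0 ≤ d9 := by linarith only [U9, D9]
  obtain ⟨d10, D10⟩ : ∃ d : ℝ, d = max 0 (e 10 - g 9) + max 0 (e 10 - g 10) -
      max 0 (2 * e 10 - g 9 - g 10) := ⟨_, rfl⟩
  have hd10 : 0 ≤ d10 := by linarith only [U10, D10]
  obtain ⟨c0, C0⟩ : ∃ c : ℝ, c = e 0 + e 1 - g 0 - (max 0 (e 0 - g 0) + max 0 (e 1 - g 0)) := ⟨_, rfl⟩
  have hc0 : 0 ≤ c0 := by linarith only [E0, C0]
  obtain ⟨c1, C1⟩ : ∃ c : ℝ, c = e 1 + e 2 - g 1 - (max 0 (e 1 - g 1) + max 0 (e 2 - g 1)) := ⟨_, rfl⟩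
  have hc1 : 0 ≤ c1 := by linarith only [E1, C1]
  obtain ⟨c3, C3⟩ : ∃ c : ℝ, c = e 3 + e 4 - g 3 - (max 0 (e 3 - g 3) + max 0 (e 4 - g 3)) := ⟨_, rfl⟩
  have hc3 : 0 ≤ c3 := by linarith only [E3, C3]
  obtain ⟨c5, C5⟩ : ∃ c : ℝ, c = e 5 + e 6 - g 5 - (max 0 (e 5 - g 5) + max 0 (e 6 - g 5)) := ⟨_, rfl⟩
  have hc5 : 0 ≤ c5 := by linarith only [E5, C5]
  obtain ⟨c6, C6⟩ : ∃ c : ℝ, c = e 6 + e 7 - g 6 - (max 0 (e 6 - g 6) + max 0 (e 7 - g 6)) := ⟨_, rfl⟩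
  have hc6 : 0 ≤ c6 := by linarith only [E6, C6]
  obtain ⟨c7, C7⟩ : ∃ c : ℝ, c = e 7 + e 8 - g 7 - (max 0 (e 7 - g 7) + max 0 (e 8 - g 7)) := ⟨_, rfl⟩
  have hc7 : 0 ≤ c7 := by linarith only [E7, C7]
  obtain ⟨c8, C8⟩ : ∃ c : ℝ, c = e 8 + e 9 - g 8 - (max 0 (e 8 - g 8) + max 0 (e 9 - g 8)) := ⟨_, rfl⟩
  have hc8 : 0 ≤ c8 := by linarith only [E8, C8]
  obtain ⟨c9, C9⟩ : ∃ c : ℝ, c = e 9 + e 10 - g 9 - (max 0 (e 9 - g 9) + max 0 (e 10 - g 9)) := ⟨_, rfl⟩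
  have hc9 : 0 ≤ c9 := by linarith only [E9, C9]
  obtain ⟨c10, C10⟩ : ∃ c : ℝ, c = e 10 + e 0 - g 10 - (max 0 (e 10 - g 10) + max 0 (e 0 - g 10)) := ⟨_, rfl⟩
  have hc10 : 0 ≤ c10 := by linarith only [E10, C10]
  have K0 : d0 + d1 + d2 + d5 + d6 + d7 + d8 + d9 + d10 + c0 + c1 + c3 + c5 + c6 + c7 + c8 + c9 + c10 ≤ 0 := by
    linarith only [H, D0, D1, D2, D5, D6, D7, D8, D9, D10, C0, C1, C3, C5, C6, C7, C8, C9, C10]
  have s1 : g 1 = 0 ∨ g 1 = e 1 + e 2 := qc5_state p1 p2 gz1 gu1 (by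
    linarith only [K0, hd0, hd1, hd2, hd5, hd6, hd7, hd8, hd9, hd10, hc0, hc1, hc3, hc5, hc6, hc7, hc8, hc9, hc10, C1])
  have s3 : g 3 = 0 ∨ g 3 = e 3 + e 4 := qc5_state p3 p4 gz3 gu3 (by
    linarith only [K0, hd0, hd1, hd2, hd5, hd6, hd7, hd8, hd9, hd10, hc0, hc1, hc3, hc5, hc6, hc7, hc8, hc9, hc10, C3])
  have s5 : g 5 = 0 ∨ g 5 = e 5 + e 6 := qc5_state p5 p6 gz5 gu5 (by
    linarith only [K0, hd0, hd1, hd2, hd5, hd6, hd7, hd8, hd9, hd10, hc0, hc1, hc3, hc5, hc6, hc7, hc8, hc9, hc10, C5])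
  have s6 : g 6 = 0 ∨ g 6 = e 6 + e 7 := qc5_state p6 p7 gz6 gu6 (by
    linarith only [K0, hd0, hd1, hd2, hd5, hd6, hd7, hd8, hd9, hd10, hc0, hc1, hc3, hc5, hc6, hc7, hc8, hc9, hc10, C6])
  have s7 : g 7 = 0 ∨ g 7 = e 7 + e 8 := qc5_state p7 p8 gz7 gu7 (by
    linarith only [K0, hd0, hd1, hd2, hd5, hd6, hd7, hd8, hd9, hd10, hc0, hc1, hc3, hc5, hc6, hc7, hc8, hc9, hc10, C7])
  have s8 : g 8 = 0 ∨ g 8 = e 8 + e 9 := qc5_state p8 p9 gz8 gu8 (by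
    linarith only [K0, hd0, hd1, hd2, hd5, hd6, hd7, hd8, hd9, hd10, hc0, hc1, hc3, hc5, hc6, hc7, hc8, hc9, hc10, C8])
  have t1 : max 0 (e 1 - g 0) + max 0 (e 1 - g 1) ≤ max 0 (2 * e 1 - g 0 - g 1) := by
    linarith only [K0, hd0, hd1, hd2, hd5, hd6, hd7, hd8, hd9, hd10, hc0, hc1, hc3, hc5, hc6, hc7, hc8, hc9, hc10, D1]
  have t2 : max 0 (e 4 - g 3) + (e 2 + e 3 - g 2) + max 0 (e 2 - g 1) ≤
      max 0 (2 * e 2 - g 1 - g 2 + (e 3 + e 4 - g 3)) := by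
    linarith only [K0, hd0, hd1, hd2, hd5, hd6, hd7, hd8, hd9, hd10, hc0, hc1, hc3, hc5, hc6, hc7, hc8, hc9, hc10, D2]
  have t5 : max 0 (e 3 - g 3) + (e 4 + e 5 - g 4) + max 0 (e 5 - g 5) ≤
      max 0 (2 * e 5 - g 4 - g 5 + (e 3 + e 4 - g 3)) := by
    linarith only [K0, hd0, hd1, hd2, hd5, hd6, hd7, hd8, hd9, hd10, hc0, hc1, hc3, hc5, hc6, hc7, hc8, hc9, hc10, D5]
  have t6 : max 0 (e 6 - g 5) + max 0 (e 6 - g 6) ≤ max 0 (2 * e 6 - g 5 - g 6) := by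
    linarith only [K0, hd0, hd1, hd2, hd5, hd6, hd7, hd8, hd9, hd10, hc0, hc1, hc3, hc5, hc6, hc7, hc8, hc9, hc10, D6]
  have j6 := qc5_joint p5 p6 p7 s5 s6 t6
  have t7 : max 0 (e 7 - g 6) + max 0 (e 7 - g 7) ≤ max 0 (2 * e 7 - g 6 - g 7) := by
    linarith only [K0, hd0, hd1, hd2, hd5, hd6, hd7, hd8, hd9, hd10, hc0, hc1, hc3, hc5, hc6, hc7, hc8, hc9, hc10, D7]
  have j7 := qc5_joint p6 p7 p8 s6 s7 t7
  have t8 : max 0 (e 8 - g 7) + max 0 (e 8 - g 8) ≤ max 0 (2 * e 8 - g 7 - g 8) := by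
    linarith only [K0, hd0, hd1, hd2, hd5, hd6, hd7, hd8, hd9, hd10, hc0, hc1, hc3, hc5, hc6, hc7, hc8, hc9, hc10, D8]
  have j8 := qc5_joint p7 p8 p9 s7 s8 t8
  have t9 : max 0 (e 9 - g 8) + max 0 (e 9 - g 9) ≤ max 0 (2 * e 9 - g 8 - g 9) := by
    linarith only [K0, hd0, hd1, hd2, hd5, hd6, hd7, hd8, hd9, hd10, hc0, hc1, hc3, hc5, hc6, hc7, hc8, hc9, hc10, D9]
  clear K0 H U0 U1 U2 U5 U6 U7 U8 U9 U10 E0 E1 E3 E5 E6 E7 E8 E9 E10 D0 D1 D2 D5 D6 D7 D8 D9 D10 C0 C1 C3 C5 C6 C7 C8 C9 C10 hd0 hd1 hd2 hd5 hd6 hd7 hd8 hd9 hd10 hc0 hc1 hc3 hc5 hc6 hc7 hc8 hc9 hc10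
  have o21 : 4 * e 2 ≤ e 1 := h.eo 2 1 (by decide) (by decide)
  have o23 : 4 * e 2 ≤ e 3 := h.eo 2 3 (by decide) (by decide)
  have o43 : 4 * e 4 ≤ e 3 := h.eo 4 3 (by decide) (by decide)
  have o45 : 4 * e 4 ≤ e 5 := h.eo 4 5 (by decide) (by decide)
  have o65 : 4 * e 6 ≤ e 5 := h.eo 6 5 (by decide) (by decide)
  have o67 : 4 * e 6 ≤ e 7 := h.eo 6 7 (by decide) (by decide)
  have o87 : 4 * e 8 ≤ e 7 := h.eo 8 7 (by decide) (by decide)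
  have o89 : 4 * e 8 ≤ e 9 := h.eo 8 9 (by decide) (by decide)
  rcases s3 with z3 | f3
  · have w5 := qc5_empty2 t5 z3 p3 gu4
    have z5 : g 5 = 0 := s5.resolve_right (fun hh => by linarith)
    have z6 : g 6 = 0 := j6.1 z5
    have z7 : g 7 = 0 := j7.1 z6
    have z8 : g 8 = 0 := j8.1 z7
    have w1 := qc5_empty3 t2 z3 p4 gu2
    have z1 : g 1 = 0 := s1.resolve_right (fun hh => by linarith)
    have z10 := g10z
    have z0 : g 0 = 0 := by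
      have K := hz 2 (by decide) 0 (by decide) (by decide)
      have k0 : qc5_N 3 2 0 e g 0 = max 0 (2 * e 0 - g 10 - g 0 + (e 3 + e 4 - g 3)) :=
        qc5_sp 10 4 (by decide) (by decide) (by decide) (by decide)
      have k1 : qc5_N 3 2 0 e g 1 = max 0 (2 * e 1 - g 0 - g 1) :=
        qc5_gen 0 (by decide) (by decide) (by decide)
      have k2 : qc5_N 3 2 0 e g 2 = max 0 (2 * e 2 - g 1 - g 2 + (e 3 + e 4 - g 3)) :=
        qc5_sp 1 4 (by decide) (by decide) (by decide) (by decide)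
      have k3 : qc5_N 3 2 0 e g 3 = 0 := qc5_off (by decide)
      have k4 : qc5_N 3 2 0 e g 4 = 0 := qc5_off (by decide)
      have k5 : qc5_N 3 2 0 e g 5 = max 0 (2 * e 5 - g 4 - g 5) :=
        qc5_gen 4 (by decide) (by decide) (by decide)
      have k6 : qc5_N 3 2 0 e g 6 = max 0 (2 * e 6 - g 5 - g 6) :=
        qc5_gen 5 (by decide) (by decide) (by decide)
      have k7 : qc5_N 3 2 0 e g 7 = max 0 (2 * e 7 - g 6 - g 7) :=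
        qc5_gen 6 (by decide) (by decide) (by decide)
      have k8 : qc5_N 3 2 0 e g 8 = max 0 (2 * e 8 - g 7 - g 8) :=
        qc5_gen 7 (by decide) (by decide) (by decide)
      have k9 : qc5_N 3 2 0 e g 9 = max 0 (2 * e 9 - g 8 - g 9) :=
        qc5_gen 8 (by decide) (by decide) (by decide)
      have k10 : qc5_N 3 2 0 e g 10 = max 0 (2 * e 10 - g 9 - g 10) :=
        qc5_gen 9 (by decide) (by decide) (by decide)
      rw [qc5_phi, k0, k1, k2, k3, k4, k5, k6, k7, k8, k9, k10] at K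
      clear k0 k1 k2 k3 k4 k5 k6 k7 k8 k9 k10
      have m1 : max 0 (2 * e 1 - g 0 - g 1) ≤ 2 * e 1 - g 0 - g 1 := max_le (by linarith) (le_refl _)
      have m2 : max 0 (2 * e 2 - g 1 - g 2 + (e 3 + e 4 - g 3)) ≤ 2 * e 2 - g 1 - g 2 + (e 3 + e 4 - g 3) := max_le (by linarith) (le_refl _)
      have m5 : max 0 (2 * e 5 - g 4 - g 5) ≤ 2 * e 5 - g 4 - g 5 := max_le (by linarith) (le_refl _)
      have m6 : max 0 (2 * e 6 - g 5 - g 6) ≤ 2 * e 6 - g 5 - g 6 := max_le (by linarith) (le_refl _)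
      have m7 : max 0 (2 * e 7 - g 6 - g 7) ≤ 2 * e 7 - g 6 - g 7 := max_le (by linarith) (le_refl _)
      have m8 : max 0 (2 * e 8 - g 7 - g 8) ≤ 2 * e 8 - g 7 - g 8 := max_le (by linarith) (le_refl _)
      have m9 : max 0 (2 * e 9 - g 8 - g 9) ≤ 2 * e 9 - g 8 - g 9 := max_le (by linarith) (le_refl _)
      have m10 : max 0 (2 * e 10 - g 9 - g 10) ≤ 0 := max_le (le_refl _) (by linarith)
      rcases le_total 0 (2 * e 0 - g 10 - g 0 + (e 3 + e 4 - g 3)) with r2 | r2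
      · rw [max_eq_right r2] at K
        linarith
      · rw [max_eq_left r2] at K
        linarith
    have z9 : g 9 = 0 := by
      have K := hz 2 (by decide) 10 (by decide) (by decide)
      have k0 : qc5_N 3 2 10 e g 0 = max 0 (2 * e 0 - g 10 - g 0) :=
        qc5_gen 10 (by decide) (by decide) (by decide)
      have k1 : qc5_N 3 2 10 e g 1 = max 0 (2 * e 1 - g 0 - g 1) :=
        qc5_gen 0 (by decide) (by decide) (by decide)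
      have k2 : qc5_N 3 2 10 e g 2 = max 0 (2 * e 2 - g 1 - g 2 + (e 3 + e 4 - g 3)) :=
        qc5_sp 1 4 (by decide) (by decide) (by decide) (by decide)
      have k3 : qc5_N 3 2 10 e g 3 = 0 := qc5_off (by decide)
      have k4 : qc5_N 3 2 10 e g 4 = 0 := qc5_off (by decide)
      have k5 : qc5_N 3 2 10 e g 5 = max 0 (2 * e 5 - g 4 - g 5) :=
        qc5_gen 4 (by decide) (by decide) (by decide)
      have k6 : qc5_N 3 2 10 e g 6 = max 0 (2 * e 6 - g 5 - g 6) :=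
        qc5_gen 5 (by decide) (by decide) (by decide)
      have k7 : qc5_N 3 2 10 e g 7 = max 0 (2 * e 7 - g 6 - g 7) :=
        qc5_gen 6 (by decide) (by decide) (by decide)
      have k8 : qc5_N 3 2 10 e g 8 = max 0 (2 * e 8 - g 7 - g 8) :=
        qc5_gen 7 (by decide) (by decide) (by decide)
      have k9 : qc5_N 3 2 10 e g 9 = max 0 (2 * e 9 - g 8 - g 9) :=
        qc5_gen 8 (by decide) (by decide) (by decide)
      have k10 : qc5_N 3 2 10 e g 10 = max 0 (2 * e 10 - g 9 - g 10 + (e 3 + e 4 - g 3)) :=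
        qc5_sp 9 4 (by decide) (by decide) (by decide) (by decide)
      rw [qc5_phi, k0, k1, k2, k3, k4, k5, k6, k7, k8, k9, k10] at K
      clear k0 k1 k2 k3 k4 k5 k6 k7 k8 k9 k10
      have m0 : max 0 (2 * e 0 - g 10 - g 0) ≤ 0 := max_le (le_refl _) (by linarith)
      have m1 : max 0 (2 * e 1 - g 0 - g 1) ≤ 2 * e 1 - g 0 - g 1 := max_le (by linarith) (le_refl _)
      have m2 : max 0 (2 * e 2 - g 1 - g 2 + (e 3 + e 4 - g 3)) ≤ 2 * e 2 - g 1 - g 2 + (e 3 + e 4 - g 3) := max_le (by linarith) (le_refl _)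
      have m5 : max 0 (2 * e 5 - g 4 - g 5) ≤ 2 * e 5 - g 4 - g 5 := max_le (by linarith) (le_refl _)
      have m6 : max 0 (2 * e 6 - g 5 - g 6) ≤ 2 * e 6 - g 5 - g 6 := max_le (by linarith) (le_refl _)
      have m7 : max 0 (2 * e 7 - g 6 - g 7) ≤ 2 * e 7 - g 6 - g 7 := max_le (by linarith) (le_refl _)
      have m8 : max 0 (2 * e 8 - g 7 - g 8) ≤ 2 * e 8 - g 7 - g 8 := max_le (by linarith) (le_refl _)
      have m9 : max 0 (2 * e 9 - g 8 - g 9) ≤ 2 * e 9 - g 8 - g 9 := max_le (by linarith) (le_refl _)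
      rcases le_total 0 (2 * e 10 - g 9 - g 10 + (e 3 + e 4 - g 3)) with r2 | r2
      · rw [max_eq_right r2] at K
        linarith
      · rw [max_eq_left r2] at K
        linarith
    left
    exact qc5_all (P := fun l => l ∈ ib 3 → g l = 0) (fun _ => z0) (fun _ => z1) (fun hh => absurd hh (by decide)) (fun _ => z3) (fun hh => absurd hh (by decide)) (fun _ => z5) (fun _ => z6) (fun _ => z7) (fun _ => z8) (fun _ => z9) (fun _ => z10)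
  · obtain ⟨f4', w5⟩ := qc5_full2 t5 f3 p4 gu4
    have f4 : g 4 = e 4 + e 5 := f4'
    have f5 : g 5 = e 5 + e 6 := s5.resolve_left (fun hh => by linarith)
    have f6 : g 6 = e 6 + e 7 := j6.2.2.1 f5
    have f7 : g 7 = e 7 + e 8 := j7.2.2.1 f6
    have f8 : g 8 = e 8 + e 9 := j8.2.2.1 f7
    have f9' : g 9 = e 9 := qc5_end2 p8 (by linarith) f8 t9
    have f9 : g 9 = e 9 + e 10 := by linarith
    obtain ⟨f2', w1⟩ := qc5_full3 t2 f3 p3 gu2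
    have f2 : g 2 = e 2 + e 3 := f2'
    have f1 : g 1 = e 1 + e 2 := s1.resolve_left (fun hh => by linarith)
    have f0' : g 0 = e 1 := qc5_end1 p2 (by linarith) f1 t1
    have f0 : g 0 = e 0 + e 1 := by linarith
    have f10 : g 10 = e 10 + e 0 := by linarith
    right
    exact qc5_all f0 f1 f2 f3 f4 f5 f6 f7 f8 f9 f10

theorem qc5_b4 {τ : ℝ} (hτ : 0 < τ) {e g : Fin 11 → ℝ} (h : Adm τ e g)
    (hz : ∀ y ∈ nb 4, ∀ z ∈ nb 4, y ≠ z → 0 ≤ phi 4 y z e g) :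
    (∀ l ∈ ib 4, g l = 0) ∨ (∀ l, g l = e l + e (l + 1)) := by
  have e0z : e 0 = 0 := h.e0
  have e10z : e 10 = 0 := h.e10
  have p1 : 0 < e 1 := lt_of_lt_of_le hτ (h.e1 1 (by decide) (by decide))
  have p2 : 0 < e 2 := lt_of_lt_of_le hτ (h.e1 2 (by decide) (by decide))
  have p3 : 0 < e 3 := lt_of_lt_of_le hτ (h.e1 3 (by decide) (by decide))
  have p4 : 0 < e 4 := lt_of_lt_of_le hτ (h.e1 4 (by decide) (by decide))
  have p5 : 0 < e 5 := lt_of_lt_of_le hτ (h.e1 5 (by decide) (by decide))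
  have p6 : 0 < e 6 := lt_of_lt_of_le hτ (h.e1 6 (by decide) (by decide))
  have p7 : 0 < e 7 := lt_of_lt_of_le hτ (h.e1 7 (by decide) (by decide))
  have p8 : 0 < e 8 := lt_of_lt_of_le hτ (h.e1 8 (by decide) (by decide))
  have p9 : 0 < e 9 := lt_of_lt_of_le hτ (h.e1 9 (by decide) (by decide))
  have gz0 : 0 ≤ g 0 := h.g0 0
  have gu0 : g 0 ≤ e 0 + e 1 := h.g1 0
  have gz1 : 0 ≤ g 1 := h.g0 1
  have gu1 : g 1 ≤ e 1 + e 2 := h.g1 1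
  have gz2 : 0 ≤ g 2 := h.g0 2
  have gu2 : g 2 ≤ e 2 + e 3 := h.g1 2
  have gz3 : 0 ≤ g 3 := h.g0 3
  have gu3 : g 3 ≤ e 3 + e 4 := h.g1 3
  have gz4 : 0 ≤ g 4 := h.g0 4
  have gu4 : g 4 ≤ e 4 + e 5 := h.g1 4
  have gz5 : 0 ≤ g 5 := h.g0 5
  have gu5 : g 5 ≤ e 5 + e 6 := h.g1 5
  have gz6 : 0 ≤ g 6 := h.g0 6
  have gu6 : g 6 ≤ e 6 + e 7 := h.g1 6
  have gz7 : 0 ≤ g 7 := h.g0 7
  have gu7 : g 7 ≤ e 7 + e 8 := h.g1 7
  have gz8 : 0 ≤ g 8 := h.g0 8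
  have gu8 : g 8 ≤ e 8 + e 9 := h.g1 8
  have gz9 : 0 ≤ g 9 := h.g0 9
  have gu9 : g 9 ≤ e 9 + e 10 := h.g1 9
  have gz10 : 0 ≤ g 10 := h.g0 10
  have gu10 : g 10 ≤ e 10 + e 0 := h.g1 10
  have g10z : g 10 = 0 := by linarith
  have H := hz 3 (by decide) 6 (by decide) (by decide)
  have n0 : qc5_N 4 3 6 e g 0 = max 0 (2 * e 0 - g 10 - g 0) :=
    qc5_gen 10 (by decide) (by decide) (by decide)
  have n1 : qc5_N 4 3 6 e g 1 = max 0 (2 * e 1 - g 0 - g 1) :=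
    qc5_gen 0 (by decide) (by decide) (by decide)
  have n2 : qc5_N 4 3 6 e g 2 = max 0 (2 * e 2 - g 1 - g 2) :=
    qc5_gen 1 (by decide) (by decide) (by decide)
  have n3 : qc5_N 4 3 6 e g 3 = max 0 (2 * e 3 - g 2 - g 3 + (e 4 + e 5 - g 4)) :=
    qc5_sp 2 5 (by decide) (by decide) (by decide) (by decide)
  have n4 : qc5_N 4 3 6 e g 4 = 0 := qc5_off (by decide)
  have n5 : qc5_N 4 3 6 e g 5 = 0 := qc5_off (by decide)
  have n6 : qc5_N 4 3 6 e g 6 = max 0 (2 * e 6 - g 5 - g 6 + (e 4 + e 5 - g 4)) :=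
    qc5_sp 5 5 (by decide) (by decide) (by decide) (by decide)
  have n7 : qc5_N 4 3 6 e g 7 = max 0 (2 * e 7 - g 6 - g 7) :=
    qc5_gen 6 (by decide) (by decide) (by decide)
  have n8 : qc5_N 4 3 6 e g 8 = max 0 (2 * e 8 - g 7 - g 8) :=
    qc5_gen 7 (by decide) (by decide) (by decide)
  have n9 : qc5_N 4 3 6 e g 9 = max 0 (2 * e 9 - g 8 - g 9) :=
    qc5_gen 8 (by decide) (by decide) (by decide)
  have n10 : qc5_N 4 3 6 e g 10 = max 0 (2 * e 10 - g 9 - g 10) :=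
    qc5_gen 9 (by decide) (by decide) (by decide)
  rw [qc5_phi, n0, n1, n2, n3, n4, n5, n6, n7, n8, n9, n10] at H
  clear n0 n1 n2 n3 n4 n5 n6 n7 n8 n9 n10
  have U0 := qc5_U (e 0) (g 10) (g 0)
  have U1 := qc5_U (e 1) (g 0) (g 1)
  have U2 := qc5_U (e 2) (g 1) (g 2)
  have U3 := qc5_U3 (c := e 3) (gp := g 2) (gl := g 3) (eb := e 4) (eb1 := e 5) (gb := g 4) gu3
  have U6 := qc5_U2 (c := e 6) (gp := g 5) (gl := g 6) (eb := e 4) (eb1 := e 5) (gb := g 4) gu5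
  have U7 := qc5_U (e 7) (g 6) (g 7)
  have U8 := qc5_U (e 8) (g 7) (g 8)
  have U9 := qc5_U (e 9) (g 8) (g 9)
  have U10 := qc5_U (e 10) (g 9) (g 10)
  have E0 := qc5_E e0z.ge p1.le gz0 gu0
  have E1 := qc5_E p1.le p2.le gz1 gu1
  have E2 := qc5_E p2.le p3.le gz2 gu2
  have E4 := qc5_E p4.le p5.le gz4 gu4
  have E6 := qc5_E p6.le p7.le gz6 gu6
  have E7 := qc5_E p7.le p8.le gz7 gu7
  have E8 := qc5_E p8.le p9.le gz8 gu8
  have E9 := qc5_E p9.le e10z.ge gz9 gu9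
  have E10 := qc5_E e10z.ge e0z.ge gz10 gu10
  obtain ⟨d0, D0⟩ : ∃ d : ℝ, d = max 0 (e 0 - g 10) + max 0 (e 0 - g 0) -
      max 0 (2 * e 0 - g 10 - g 0) := ⟨_, rfl⟩
  have hd0 : 0 ≤ d0 := by linarith only [U0, D0]
  obtain ⟨d1, D1⟩ : ∃ d : ℝ, d = max 0 (e 1 - g 0) + max 0 (e 1 - g 1) -
      max 0 (2 * e 1 - g 0 - g 1) := ⟨_, rfl⟩
  have hd1 : 0 ≤ d1 := by linarith only [U1, D1]
  obtain ⟨d2, D2⟩ : ∃ d : ℝ, d = max 0 (e 2 - g 1) + max 0 (e 2 - g 2) -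
      max 0 (2 * e 2 - g 1 - g 2) := ⟨_, rfl⟩
  have hd2 : 0 ≤ d2 := by linarith only [U2, D2]
  obtain ⟨d3, D3⟩ : ∃ d : ℝ, d = max 0 (e 5 - g 4) + (e 3 + e 4 - g 3) + max 0 (e 3 - g 2) -
      max 0 (2 * e 3 - g 2 - g 3 + (e 4 + e 5 - g 4)) := ⟨_, rfl⟩
  have hd3 : 0 ≤ d3 := by linarith only [U3, D3]
  obtain ⟨d6, D6⟩ : ∃ d : ℝ, d = max 0 (e 4 - g 4) + (e 5 + e 6 - g 5) + max 0 (e 6 - g 6) -
      max 0 (2 * e 6 - g 5 - g 6 + (e 4 + e 5 - g 4)) := ⟨_, rfl⟩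
  have hd6 : 0 ≤ d6 := by linarith only [U6, D6]
  obtain ⟨d7, D7⟩ : ∃ d : ℝ, d = max 0 (e 7 - g 6) + max 0 (e 7 - g 7) -
      max 0 (2 * e 7 - g 6 - g 7) := ⟨_, rfl⟩
  have hd7 : 0 ≤ d7 := by linarith only [U7, D7]
  obtain ⟨d8, D8⟩ : ∃ d : ℝ, d = max 0 (e 8 - g 7) + max 0 (e 8 - g 8) -
      max 0 (2 * e 8 - g 7 - g 8) := ⟨_, rfl⟩
  have hd8 : 0 ≤ d8 := by linarith only [U8, D8]
  obtain ⟨d9, D9⟩ : ∃ d : ℝ, d = max 0 (e 9 - g 8) + max 0 (e 9 - g 9) -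
      max 0 (2 * e 9 - g 8 - g 9) := ⟨_, rfl⟩
  have hd9 : 0 ≤ d9 := by linarith only [U9, D9]
  obtain ⟨d10, D10⟩ : ∃ d : ℝ, d = max 0 (e 10 - g 9) + max 0 (e 10 - g 10) -
      max 0 (2 * e 10 - g 9 - g 10) := ⟨_, rfl⟩
  have hd10 : 0 ≤ d10 := by linarith only [U10, D10]
  obtain ⟨c0, C0⟩ : ∃ c : ℝ, c = e 0 + e 1 - g 0 - (max 0 (e 0 - g 0) + max 0 (e 1 - g 0)) := ⟨_, rfl⟩
  have hc0 : 0 ≤ c0 := by linarith only [E0, C0]
  obtain ⟨c1, C1⟩ : ∃ c : ℝ, c = e 1 + e 2 - g 1 - (max 0 (e 1 - g 1) + max 0 (e 2 - g 1)) := ⟨_, rfl⟩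
  have hc1 : 0 ≤ c1 := by linarith only [E1, C1]
  obtain ⟨c2, C2⟩ : ∃ c : ℝ, c = e 2 + e 3 - g 2 - (max 0 (e 2 - g 2) + max 0 (e 3 - g 2)) := ⟨_, rfl⟩
  have hc2 : 0 ≤ c2 := by linarith only [E2, C2]
  obtain ⟨c4, C4⟩ : ∃ c : ℝ, c = e 4 + e 5 - g 4 - (max 0 (e 4 - g 4) + max 0 (e 5 - g 4)) := ⟨_, rfl⟩
  have hc4 : 0 ≤ c4 := by linarith only [E4, C4]
  obtain ⟨c6, C6⟩ : ∃ c : ℝ, c = e 6 + e 7 - g 6 - (max 0 (e 6 - g 6) + max 0 (e 7 - g 6)) := ⟨_, rfl⟩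
  have hc6 : 0 ≤ c6 := by linarith only [E6, C6]
  obtain ⟨c7, C7⟩ : ∃ c : ℝ, c = e 7 + e 8 - g 7 - (max 0 (e 7 - g 7) + max 0 (e 8 - g 7)) := ⟨_, rfl⟩
  have hc7 : 0 ≤ c7 := by linarith only [E7, C7]
  obtain ⟨c8, C8⟩ : ∃ c : ℝ, c = e 8 + e 9 - g 8 - (max 0 (e 8 - g 8) + max 0 (e 9 - g 8)) := ⟨_, rfl⟩
  have hc8 : 0 ≤ c8 := by linarith only [E8, C8]
  obtain ⟨c9, C9⟩ : ∃ c : ℝ, c = e 9 + e 10 - g 9 - (max 0 (e 9 - g 9) + max 0 (e 10 - g 9)) := ⟨_, rfl⟩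
  have hc9 : 0 ≤ c9 := by linarith only [E9, C9]
  obtain ⟨c10, C10⟩ : ∃ c : ℝ, c = e 10 + e 0 - g 10 - (max 0 (e 10 - g 10) + max 0 (e 0 - g 10)) := ⟨_, rfl⟩
  have hc10 : 0 ≤ c10 := by linarith only [E10, C10]
  have K0 : d0 + d1 + d2 + d3 + d6 + d7 + d8 + d9 + d10 + c0 + c1 + c2 + c4 + c6 + c7 + c8 + c9 + c10 ≤ 0 := by
    linarith only [H, D0, D1, D2, D3, D6, D7, D8, D9, D10, C0, C1, C2, C4, C6, C7, C8, C9, C10]
  have s1 : g 1 = 0 ∨ g 1 = e 1 + e 2 := qc5_state p1 p2 gz1 gu1 (by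
    linarith only [K0, hd0, hd1, hd2, hd3, hd6, hd7, hd8, hd9, hd10, hc0, hc1, hc2, hc4, hc6, hc7, hc8, hc9, hc10, C1])
  have s2 : g 2 = 0 ∨ g 2 = e 2 + e 3 := qc5_state p2 p3 gz2 gu2 (by
    linarith only [K0, hd0, hd1, hd2, hd3, hd6, hd7, hd8, hd9, hd10, hc0, hc1, hc2, hc4, hc6, hc7, hc8, hc9, hc10, C2])
  have s4 : g 4 = 0 ∨ g 4 = e 4 + e 5 := qc5_state p4 p5 gz4 gu4 (by
    linarith only [K0, hd0, hd1, hd2, hd3, hd6, hd7, hd8, hd9, hd10, hc0, hc1, hc2, hc4, hc6, hc7, hc8, hc9, hc10, C4])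
  have s6 : g 6 = 0 ∨ g 6 = e 6 + e 7 := qc5_state p6 p7 gz6 gu6 (by
    linarith only [K0, hd0, hd1, hd2, hd3, hd6, hd7, hd8, hd9, hd10, hc0, hc1, hc2, hc4, hc6, hc7, hc8, hc9, hc10, C6])
  have s7 : g 7 = 0 ∨ g 7 = e 7 + e 8 := qc5_state p7 p8 gz7 gu7 (by
    linarith only [K0, hd0, hd1, hd2, hd3, hd6, hd7, hd8, hd9, hd10, hc0, hc1, hc2, hc4, hc6, hc7, hc8, hc9, hc10, C7])
  have s8 : g 8 = 0 ∨ g 8 = e 8 + e 9 := qc5_state p8 p9 gz8 gu8 (by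
    linarith only [K0, hd0, hd1, hd2, hd3, hd6, hd7, hd8, hd9, hd10, hc0, hc1, hc2, hc4, hc6, hc7, hc8, hc9, hc10, C8])
  have t1 : max 0 (e 1 - g 0) + max 0 (e 1 - g 1) ≤ max 0 (2 * e 1 - g 0 - g 1) := by
    linarith only [K0, hd0, hd1, hd2, hd3, hd6, hd7, hd8, hd9, hd10, hc0, hc1, hc2, hc4, hc6, hc7, hc8, hc9, hc10, D1]
  have t2 : max 0 (e 2 - g 1) + max 0 (e 2 - g 2) ≤ max 0 (2 * e 2 - g 1 - g 2) := by
    linarith only [K0, hd0, hd1, hd2, hd3, hd6, hd7, hd8, hd9, hd10, hc0, hc1, hc2, hc4, hc6, hc7, hc8, hc9, hc10, D2]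
  have j2 := qc5_joint p1 p2 p3 s1 s2 t2
  have t3 : max 0 (e 5 - g 4) + (e 3 + e 4 - g 3) + max 0 (e 3 - g 2) ≤
      max 0 (2 * e 3 - g 2 - g 3 + (e 4 + e 5 - g 4)) := by
    linarith only [K0, hd0, hd1, hd2, hd3, hd6, hd7, hd8, hd9, hd10, hc0, hc1, hc2, hc4, hc6, hc7, hc8, hc9, hc10, D3]
  have t6 : max 0 (e 4 - g 4) + (e 5 + e 6 - g 5) + max 0 (e 6 - g 6) ≤
      max 0 (2 * e 6 - g 5 - g 6 + (e 4 + e 5 - g 4)) := by
    linarith only [K0, hd0, hd1, hd2, hd3, hd6, hd7, hd8, hd9, hd10, hc0, hc1, hc2, hc4, hc6, hc7, hc8, hc9, hc10, D6]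
  have t7 : max 0 (e 7 - g 6) + max 0 (e 7 - g 7) ≤ max 0 (2 * e 7 - g 6 - g 7) := by
    linarith only [K0, hd0, hd1, hd2, hd3, hd6, hd7, hd8, hd9, hd10, hc0, hc1, hc2, hc4, hc6, hc7, hc8, hc9, hc10, D7]
  have j7 := qc5_joint p6 p7 p8 s6 s7 t7
  have t8 : max 0 (e 8 - g 7) + max 0 (e 8 - g 8) ≤ max 0 (2 * e 8 - g 7 - g 8) := by
    linarith only [K0, hd0, hd1, hd2, hd3, hd6, hd7, hd8, hd9, hd10, hc0, hc1, hc2, hc4, hc6, hc7, hc8, hc9, hc10, D8]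
  have j8 := qc5_joint p7 p8 p9 s7 s8 t8
  have t9 : max 0 (e 9 - g 8) + max 0 (e 9 - g 9) ≤ max 0 (2 * e 9 - g 8 - g 9) := by
    linarith only [K0, hd0, hd1, hd2, hd3, hd6, hd7, hd8, hd9, hd10, hc0, hc1, hc2, hc4, hc6, hc7, hc8, hc9, hc10, D9]
  clear K0 H U0 U1 U2 U3 U6 U7 U8 U9 U10 E0 E1 E2 E4 E6 E7 E8 E9 E10 D0 D1 D2 D3 D6 D7 D8 D9 D10 C0 C1 C2 C4 C6 C7 C8 C9 C10 hd0 hd1 hd2 hd3 hd6 hd7 hd8 hd9 hd10 hc0 hc1 hc2 hc4 hc6 hc7 hc8 hc9 hc10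
  have o21 : 4 * e 2 ≤ e 1 := h.eo 2 1 (by decide) (by decide)
  have o23 : 4 * e 2 ≤ e 3 := h.eo 2 3 (by decide) (by decide)
  have o43 : 4 * e 4 ≤ e 3 := h.eo 4 3 (by decide) (by decide)
  have o45 : 4 * e 4 ≤ e 5 := h.eo 4 5 (by decide) (by decide)
  have o65 : 4 * e 6 ≤ e 5 := h.eo 6 5 (by decide) (by decide)
  have o67 : 4 * e 6 ≤ e 7 := h.eo 6 7 (by decide) (by decide)
  have o87 : 4 * e 8 ≤ e 7 := h.eo 8 7 (by decide) (by decide)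
  have o89 : 4 * e 8 ≤ e 9 := h.eo 8 9 (by decide) (by decide)
  rcases s4 with z4 | f4
  · have w6 := qc5_empty2 t6 z4 p4 gu5
    have z6 : g 6 = 0 := s6.resolve_right (fun hh => by linarith)
    have z7 : g 7 = 0 := j7.1 z6
    have z8 : g 8 = 0 := j8.1 z7
    have w2 := qc5_empty3 t3 z4 p5 gu3
    have z2 : g 2 = 0 := s2.resolve_right (fun hh => by linarith)
    have z1 : g 1 = 0 := j2.2.1 z2
    have z10 := g10z
    have z0 : g 0 = 0 := by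
      have K := hz 6 (by decide) 0 (by decide) (by decide)
      have k0 : qc5_N 4 6 0 e g 0 = max 0 (2 * e 0 - g 10 - g 0 + (e 4 + e 5 - g 4)) :=
        qc5_sp 10 5 (by decide) (by decide) (by decide) (by decide)
      have k1 : qc5_N 4 6 0 e g 1 = max 0 (2 * e 1 - g 0 - g 1) :=
        qc5_gen 0 (by decide) (by decide) (by decide)
      have k2 : qc5_N 4 6 0 e g 2 = max 0 (2 * e 2 - g 1 - g 2) :=
        qc5_gen 1 (by decide) (by decide) (by decide)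
      have k3 : qc5_N 4 6 0 e g 3 = max 0 (2 * e 3 - g 2 - g 3) :=
        qc5_gen 2 (by decide) (by decide) (by decide)
      have k4 : qc5_N 4 6 0 e g 4 = 0 := qc5_off (by decide)
      have k5 : qc5_N 4 6 0 e g 5 = 0 := qc5_off (by decide)
      have k6 : qc5_N 4 6 0 e g 6 = max 0 (2 * e 6 - g 5 - g 6 + (e 4 + e 5 - g 4)) :=
        qc5_sp 5 5 (by decide) (by decide) (by decide) (by decide)
      have k7 : qc5_N 4 6 0 e g 7 = max 0 (2 * e 7 - g 6 - g 7) :=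
        qc5_gen 6 (by decide) (by decide) (by decide)
      have k8 : qc5_N 4 6 0 e g 8 = max 0 (2 * e 8 - g 7 - g 8) :=
        qc5_gen 7 (by decide) (by decide) (by decide)
      have k9 : qc5_N 4 6 0 e g 9 = max 0 (2 * e 9 - g 8 - g 9) :=
        qc5_gen 8 (by decide) (by decide) (by decide)
      have k10 : qc5_N 4 6 0 e g 10 = max 0 (2 * e 10 - g 9 - g 10) :=
        qc5_gen 9 (by decide) (by decide) (by decide)
      rw [qc5_phi, k0, k1, k2, k3, k4, k5, k6, k7, k8, k9, k10] at K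
      clear k0 k1 k2 k3 k4 k5 k6 k7 k8 k9 k10
      have m1 : max 0 (2 * e 1 - g 0 - g 1) ≤ 2 * e 1 - g 0 - g 1 := max_le (by linarith) (le_refl _)
      have m2 : max 0 (2 * e 2 - g 1 - g 2) ≤ 2 * e 2 - g 1 - g 2 := max_le (by linarith) (le_refl _)
      have m3 : max 0 (2 * e 3 - g 2 - g 3) ≤ 2 * e 3 - g 2 - g 3 := max_le (by linarith) (le_refl _)
      have m6 : max 0 (2 * e 6 - g 5 - g 6 + (e 4 + e 5 - g 4)) ≤ 2 * e 6 - g 5 - g 6 + (e 4 + e 5 - g 4) := max_le (by linarith) (le_refl _)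
      have m7 : max 0 (2 * e 7 - g 6 - g 7) ≤ 2 * e 7 - g 6 - g 7 := max_le (by linarith) (le_refl _)
      have m8 : max 0 (2 * e 8 - g 7 - g 8) ≤ 2 * e 8 - g 7 - g 8 := max_le (by linarith) (le_refl _)
      have m9 : max 0 (2 * e 9 - g 8 - g 9) ≤ 2 * e 9 - g 8 - g 9 := max_le (by linarith) (le_refl _)
      have m10 : max 0 (2 * e 10 - g 9 - g 10) ≤ 0 := max_le (le_refl _) (by linarith)
      rcases le_total 0 (2 * e 0 - g 10 - g 0 + (e 4 + e 5 - g 4)) with r2 | r2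
      · rw [max_eq_right r2] at K
        linarith
      · rw [max_eq_left r2] at K
        linarith
    have z9 : g 9 = 0 := by
      have K := hz 6 (by decide) 10 (by decide) (by decide)
      have k0 : qc5_N 4 6 10 e g 0 = max 0 (2 * e 0 - g 10 - g 0) :=
        qc5_gen 10 (by decide) (by decide) (by decide)
      have k1 : qc5_N 4 6 10 e g 1 = max 0 (2 * e 1 - g 0 - g 1) :=
        qc5_gen 0 (by decide) (by decide) (by decide)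
      have k2 : qc5_N 4 6 10 e g 2 = max 0 (2 * e 2 - g 1 - g 2) :=
        qc5_gen 1 (by decide) (by decide) (by decide)
      have k3 : qc5_N 4 6 10 e g 3 = max 0 (2 * e 3 - g 2 - g 3) :=
        qc5_gen 2 (by decide) (by decide) (by decide)
      have k4 : qc5_N 4 6 10 e g 4 = 0 := qc5_off (by decide)
      have k5 : qc5_N 4 6 10 e g 5 = 0 := qc5_off (by decide)
      have k6 : qc5_N 4 6 10 e g 6 = max 0 (2 * e 6 - g 5 - g 6 + (e 4 + e 5 - g 4)) :=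
        qc5_sp 5 5 (by decide) (by decide) (by decide) (by decide)
      have k7 : qc5_N 4 6 10 e g 7 = max 0 (2 * e 7 - g 6 - g 7) :=
        qc5_gen 6 (by decide) (by decide) (by decide)
      have k8 : qc5_N 4 6 10 e g 8 = max 0 (2 * e 8 - g 7 - g 8) :=
        qc5_gen 7 (by decide) (by decide) (by decide)
      have k9 : qc5_N 4 6 10 e g 9 = max 0 (2 * e 9 - g 8 - g 9) :=
        qc5_gen 8 (by decide) (by decide) (by decide)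
      have k10 : qc5_N 4 6 10 e g 10 = max 0 (2 * e 10 - g 9 - g 10 + (e 4 + e 5 - g 4)) :=
        qc5_sp 9 5 (by decide) (by decide) (by decide) (by decide)
      rw [qc5_phi, k0, k1, k2, k3, k4, k5, k6, k7, k8, k9, k10] at K
      clear k0 k1 k2 k3 k4 k5 k6 k7 k8 k9 k10
      have m0 : max 0 (2 * e 0 - g 10 - g 0) ≤ 0 := max_le (le_refl _) (by linarith)
      have m1 : max 0 (2 * e 1 - g 0 - g 1) ≤ 2 * e 1 - g 0 - g 1 := max_le (by linarith) (le_refl _)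
      have m2 : max 0 (2 * e 2 - g 1 - g 2) ≤ 2 * e 2 - g 1 - g 2 := max_le (by linarith) (le_refl _)
      have m3 : max 0 (2 * e 3 - g 2 - g 3) ≤ 2 * e 3 - g 2 - g 3 := max_le (by linarith) (le_refl _)
      have m6 : max 0 (2 * e 6 - g 5 - g 6 + (e 4 + e 5 - g 4)) ≤ 2 * e 6 - g 5 - g 6 + (e 4 + e 5 - g 4) := max_le (by linarith) (le_refl _)
      have m7 : max 0 (2 * e 7 - g 6 - g 7) ≤ 2 * e 7 - g 6 - g 7 := max_le (by linarith) (le_refl _)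
      have m8 : max 0 (2 * e 8 - g 7 - g 8) ≤ 2 * e 8 - g 7 - g 8 := max_le (by linarith) (le_refl _)
      have m9 : max 0 (2 * e 9 - g 8 - g 9) ≤ 2 * e 9 - g 8 - g 9 := max_le (by linarith) (le_refl _)
      rcases le_total 0 (2 * e 10 - g 9 - g 10 + (e 4 + e 5 - g 4)) with r2 | r2
      · rw [max_eq_right r2] at K
        linarith
      · rw [max_eq_left r2] at K
        linarith
    left
    exact qc5_all (P := fun l => l ∈ ib 4 → g l = 0) (fun _ => z0) (fun _ => z1) (fun _ => z2) (fun hh => absurd hh (by decide)) (fun _ => z4) (fun hh => absurd hh (by decide)) (fun _ => z6) (fun _ => z7) (fun _ => z8) (fun _ => z9) (fun _ => z10)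
  · obtain ⟨f5', w6⟩ := qc5_full2 t6 f4 p5 gu5
    have f5 : g 5 = e 5 + e 6 := f5'
    have f6 : g 6 = e 6 + e 7 := s6.resolve_left (fun hh => by linarith)
    have f7 : g 7 = e 7 + e 8 := j7.2.2.1 f6
    have f8 : g 8 = e 8 + e 9 := j8.2.2.1 f7
    have f9' : g 9 = e 9 := qc5_end2 p8 (by linarith) f8 t9
    have f9 : g 9 = e 9 + e 10 := by linarith
    obtain ⟨f3', w2⟩ := qc5_full3 t3 f4 p4 gu3
    have f3 : g 3 = e 3 + e 4 := f3'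
    have f2 : g 2 = e 2 + e 3 := s2.resolve_left (fun hh => by linarith)
    have f1 : g 1 = e 1 + e 2 := j2.2.2.2 f2
    have f0' : g 0 = e 1 := qc5_end1 p2 (by linarith) f1 t1
    have f0 : g 0 = e 0 + e 1 := by linarith
    have f10 : g 10 = e 10 + e 0 := by linarith
    right
    exact qc5_all f0 f1 f2 f3 f4 f5 f6 f7 f8 f9 f10

theorem qc5_b5 {τ : ℝ} (hτ : 0 < τ) {e g : Fin 11 → ℝ} (h : Adm τ e g)
    (hz : ∀ y ∈ nb 5, ∀ z ∈ nb 5, y ≠ z → 0 ≤ phi 5 y z e g) :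
    (∀ l ∈ ib 5, g l = 0) ∨ (∀ l, g l = e l + e (l + 1)) := by
  have e0z : e 0 = 0 := h.e0
  have e10z : e 10 = 0 := h.e10
  have p1 : 0 < e 1 := lt_of_lt_of_le hτ (h.e1 1 (by decide) (by decide))
  have p2 : 0 < e 2 := lt_of_lt_of_le hτ (h.e1 2 (by decide) (by decide))
  have p3 : 0 < e 3 := lt_of_lt_of_le hτ (h.e1 3 (by decide) (by decide))
  have p4 : 0 < e 4 := lt_of_lt_of_le hτ (h.e1 4 (by decide) (by decide))
  have p5 : 0 < e 5 := lt_of_lt_of_le hτ (h.e1 5 (by decide) (by decide))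
  have p6 : 0 < e 6 := lt_of_lt_of_le hτ (h.e1 6 (by decide) (by decide))
  have p7 : 0 < e 7 := lt_of_lt_of_le hτ (h.e1 7 (by decide) (by decide))
  have p8 : 0 < e 8 := lt_of_lt_of_le hτ (h.e1 8 (by decide) (by decide))
  have p9 : 0 < e 9 := lt_of_lt_of_le hτ (h.e1 9 (by decide) (by decide))
  have gz0 : 0 ≤ g 0 := h.g0 0
  have gu0 : g 0 ≤ e 0 + e 1 := h.g1 0
  have gz1 : 0 ≤ g 1 := h.g0 1
  have gu1 : g 1 ≤ e 1 + e 2 := h.g1 1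
  have gz2 : 0 ≤ g 2 := h.g0 2
  have gu2 : g 2 ≤ e 2 + e 3 := h.g1 2
  have gz3 : 0 ≤ g 3 := h.g0 3
  have gu3 : g 3 ≤ e 3 + e 4 := h.g1 3
  have gz4 : 0 ≤ g 4 := h.g0 4
  have gu4 : g 4 ≤ e 4 + e 5 := h.g1 4
  have gz5 : 0 ≤ g 5 := h.g0 5
  have gu5 : g 5 ≤ e 5 + e 6 := h.g1 5
  have gz6 : 0 ≤ g 6 := h.g0 6
  have gu6 : g 6 ≤ e 6 + e 7 := h.g1 6
  have gz7 : 0 ≤ g 7 := h.g0 7
  have gu7 : g 7 ≤ e 7 + e 8 := h.g1 7
  have gz8 : 0 ≤ g 8 := h.g0 8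
  have gu8 : g 8 ≤ e 8 + e 9 := h.g1 8
  have gz9 : 0 ≤ g 9 := h.g0 9
  have gu9 : g 9 ≤ e 9 + e 10 := h.g1 9
  have gz10 : 0 ≤ g 10 := h.g0 10
  have gu10 : g 10 ≤ e 10 + e 0 := h.g1 10
  have g10z : g 10 = 0 := by linarith
  have H := hz 4 (by decide) 7 (by decide) (by decide)
  have n0 : qc5_N 5 4 7 e g 0 = max 0 (2 * e 0 - g 10 - g 0) :=
    qc5_gen 10 (by decide) (by decide) (by decide)
  have n1 : qc5_N 5 4 7 e g 1 = max 0 (2 * e 1 - g 0 - g 1) :=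
    qc5_gen 0 (by decide) (by decide) (by decide)
  have n2 : qc5_N 5 4 7 e g 2 = max 0 (2 * e 2 - g 1 - g 2) :=
    qc5_gen 1 (by decide) (by decide) (by decide)
  have n3 : qc5_N 5 4 7 e g 3 = max 0 (2 * e 3 - g 2 - g 3) :=
    qc5_gen 2 (by decide) (by decide) (by decide)
  have n4 : qc5_N 5 4 7 e g 4 = max 0 (2 * e 4 - g 3 - g 4 + (e 5 + e 6 - g 5)) :=
    qc5_sp 3 6 (by decide) (by decide) (by decide) (by decide)
  have n5 : qc5_N 5 4 7 e g 5 = 0 := qc5_off (by decide)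
  have n6 : qc5_N 5 4 7 e g 6 = 0 := qc5_off (by decide)
  have n7 : qc5_N 5 4 7 e g 7 = max 0 (2 * e 7 - g 6 - g 7 + (e 5 + e 6 - g 5)) :=
    qc5_sp 6 6 (by decide) (by decide) (by decide) (by decide)
  have n8 : qc5_N 5 4 7 e g 8 = max 0 (2 * e 8 - g 7 - g 8) :=
    qc5_gen 7 (by decide) (by decide) (by decide)
  have n9 : qc5_N 5 4 7 e g 9 = max 0 (2 * e 9 - g 8 - g 9) :=
    qc5_gen 8 (by decide) (by decide) (by decide)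
  have n10 : qc5_N 5 4 7 e g 10 = max 0 (2 * e 10 - g 9 - g 10) :=
    qc5_gen 9 (by decide) (by decide) (by decide)
  rw [qc5_phi, n0, n1, n2, n3, n4, n5, n6, n7, n8, n9, n10] at H
  clear n0 n1 n2 n3 n4 n5 n6 n7 n8 n9 n10
  have U0 := qc5_U (e 0) (g 10) (g 0)
  have U1 := qc5_U (e 1) (g 0) (g 1)
  have U2 := qc5_U (e 2) (g 1) (g 2)
  have U3 := qc5_U (e 3) (g 2) (g 3)
  have U4 := qc5_U3 (c := e 4) (gp := g 3) (gl := g 4) (eb := e 5) (eb1 := e 6) (gb := g 5) gu4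
  have U7 := qc5_U2 (c := e 7) (gp := g 6) (gl := g 7) (eb := e 5) (eb1 := e 6) (gb := g 5) gu6
  have U8 := qc5_U (e 8) (g 7) (g 8)
  have U9 := qc5_U (e 9) (g 8) (g 9)
  have U10 := qc5_U (e 10) (g 9) (g 10)
  have E0 := qc5_E e0z.ge p1.le gz0 gu0
  have E1 := qc5_E p1.le p2.le gz1 gu1
  have E2 := qc5_E p2.le p3.le gz2 gu2
  have E3 := qc5_E p3.le p4.le gz3 gu3
  have E5 := qc5_E p5.le p6.le gz5 gu5
  have E7 := qc5_E p7.le p8.le gz7 gu7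
  have E8 := qc5_E p8.le p9.le gz8 gu8
  have E9 := qc5_E p9.le e10z.ge gz9 gu9
  have E10 := qc5_E e10z.ge e0z.ge gz10 gu10
  obtain ⟨d0, D0⟩ : ∃ d : ℝ, d = max 0 (e 0 - g 10) + max 0 (e 0 - g 0) -
      max 0 (2 * e 0 - g 10 - g 0) := ⟨_, rfl⟩
  have hd0 : 0 ≤ d0 := by linarith only [U0, D0]
  obtain ⟨d1, D1⟩ : ∃ d : ℝ, d = max 0 (e 1 - g 0) + max 0 (e 1 - g 1) -
      max 0 (2 * e 1 - g 0 - g 1) := ⟨_, rfl⟩
  have hd1 : 0 ≤ d1 := by linarith only [U1, D1]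
  obtain ⟨d2, D2⟩ : ∃ d : ℝ, d = max 0 (e 2 - g 1) + max 0 (e 2 - g 2) -
      max 0 (2 * e 2 - g 1 - g 2) := ⟨_, rfl⟩
  have hd2 : 0 ≤ d2 := by linarith only [U2, D2]
  obtain ⟨d3, D3⟩ : ∃ d : ℝ, d = max 0 (e 3 - g 2) + max 0 (e 3 - g 3) -
      max 0 (2 * e 3 - g 2 - g 3) := ⟨_, rfl⟩
  have hd3 : 0 ≤ d3 := by linarith only [U3, D3]
  obtain ⟨d4, D4⟩ : ∃ d : ℝ, d = max 0 (e 6 - g 5) + (e 4 + e 5 - g 4) + max 0 (e 4 - g 3) -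
      max 0 (2 * e 4 - g 3 - g 4 + (e 5 + e 6 - g 5)) := ⟨_, rfl⟩
  have hd4 : 0 ≤ d4 := by linarith only [U4, D4]
  obtain ⟨d7, D7⟩ : ∃ d : ℝ, d = max 0 (e 5 - g 5) + (e 6 + e 7 - g 6) + max 0 (e 7 - g 7) -
      max 0 (2 * e 7 - g 6 - g 7 + (e 5 + e 6 - g 5)) := ⟨_, rfl⟩
  have hd7 : 0 ≤ d7 := by linarith only [U7, D7]
  obtain ⟨d8, D8⟩ : ∃ d : ℝ, d = max 0 (e 8 - g 7) + max 0 (e 8 - g 8) -
      max 0 (2 * e 8 - g 7 - g 8) := ⟨_, rfl⟩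
  have hd8 : 0 ≤ d8 := by linarith only [U8, D8]
  obtain ⟨d9, D9⟩ : ∃ d : ℝ, d = max 0 (e 9 - g 8) + max 0 (e 9 - g 9) -
      max 0 (2 * e 9 - g 8 - g 9) := ⟨_, rfl⟩
  have hd9 : 0 ≤ d9 := by linarith only [U9, D9]
  obtain ⟨d10, D10⟩ : ∃ d : ℝ, d = max 0 (e 10 - g 9) + max 0 (e 10 - g 10) -
      max 0 (2 * e 10 - g 9 - g 10) := ⟨_, rfl⟩
  have hd10 : 0 ≤ d10 := by linarith only [U10, D10]
  obtain ⟨c0, C0⟩ : ∃ c : ℝ, c = e 0 + e 1 - g 0 - (max 0 (e 0 - g 0) + max 0 (e 1 - g 0)) := ⟨_, rfl⟩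
  have hc0 : 0 ≤ c0 := by linarith only [E0, C0]
  obtain ⟨c1, C1⟩ : ∃ c : ℝ, c = e 1 + e 2 - g 1 - (max 0 (e 1 - g 1) + max 0 (e 2 - g 1)) := ⟨_, rfl⟩
  have hc1 : 0 ≤ c1 := by linarith only [E1, C1]
  obtain ⟨c2, C2⟩ : ∃ c : ℝ, c = e 2 + e 3 - g 2 - (max 0 (e 2 - g 2) + max 0 (e 3 - g 2)) := ⟨_, rfl⟩
  have hc2 : 0 ≤ c2 := by linarith only [E2, C2]
  obtain ⟨c3, C3⟩ : ∃ c : ℝ, c = e 3 + e 4 - g 3 - (max 0 (e 3 - g 3) + max 0 (e 4 - g 3)) := ⟨_, rfl⟩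
  have hc3 : 0 ≤ c3 := by linarith only [E3, C3]
  obtain ⟨c5, C5⟩ : ∃ c : ℝ, c = e 5 + e 6 - g 5 - (max 0 (e 5 - g 5) + max 0 (e 6 - g 5)) := ⟨_, rfl⟩
  have hc5 : 0 ≤ c5 := by linarith only [E5, C5]
  obtain ⟨c7, C7⟩ : ∃ c : ℝ, c = e 7 + e 8 - g 7 - (max 0 (e 7 - g 7) + max 0 (e 8 - g 7)) := ⟨_, rfl⟩
  have hc7 : 0 ≤ c7 := by linarith only [E7, C7]
  obtain ⟨c8, C8⟩ : ∃ c : ℝ, c = e 8 + e 9 - g 8 - (max 0 (e 8 - g 8) + max 0 (e 9 - g 8)) := ⟨_, rfl⟩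
  have hc8 : 0 ≤ c8 := by linarith only [E8, C8]
  obtain ⟨c9, C9⟩ : ∃ c : ℝ, c = e 9 + e 10 - g 9 - (max 0 (e 9 - g 9) + max 0 (e 10 - g 9)) := ⟨_, rfl⟩
  have hc9 : 0 ≤ c9 := by linarith only [E9, C9]
  obtain ⟨c10, C10⟩ : ∃ c : ℝ, c = e 10 + e 0 - g 10 - (max 0 (e 10 - g 10) + max 0 (e 0 - g 10)) := ⟨_, rfl⟩
  have hc10 : 0 ≤ c10 := by linarith only [E10, C10]
  have K0 : d0 + d1 + d2 + d3 + d4 + d7 + d8 + d9 + d10 + c0 + c1 + c2 + c3 + c5 + c7 + c8 + c9 + c10 ≤ 0 := by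
    linarith only [H, D0, D1, D2, D3, D4, D7, D8, D9, D10, C0, C1, C2, C3, C5, C7, C8, C9, C10]
  have s1 : g 1 = 0 ∨ g 1 = e 1 + e 2 := qc5_state p1 p2 gz1 gu1 (by
    linarith only [K0, hd0, hd1, hd2, hd3, hd4, hd7, hd8, hd9, hd10, hc0, hc1, hc2, hc3, hc5, hc7, hc8, hc9, hc10, C1])
  have s2 : g 2 = 0 ∨ g 2 = e 2 + e 3 := qc5_state p2 p3 gz2 gu2 (by
    linarith only [K0, hd0, hd1, hd2, hd3, hd4, hd7, hd8, hd9, hd10, hc0, hc1, hc2, hc3, hc5, hc7, hc8, hc9, hc10, C2])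
  have s3 : g 3 = 0 ∨ g 3 = e 3 + e 4 := qc5_state p3 p4 gz3 gu3 (by
    linarith only [K0, hd0, hd1, hd2, hd3, hd4, hd7, hd8, hd9, hd10, hc0, hc1, hc2, hc3, hc5, hc7, hc8, hc9, hc10, C3])
  have s5 : g 5 = 0 ∨ g 5 = e 5 + e 6 := qc5_state p5 p6 gz5 gu5 (by
    linarith only [K0, hd0, hd1, hd2, hd3, hd4, hd7, hd8, hd9, hd10, hc0, hc1, hc2, hc3, hc5, hc7, hc8, hc9, hc10, C5])
  have s7 : g 7 = 0 ∨ g 7 = e 7 + e 8 := qc5_state p7 p8 gz7 gu7 (by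
    linarith only [K0, hd0, hd1, hd2, hd3, hd4, hd7, hd8, hd9, hd10, hc0, hc1, hc2, hc3, hc5, hc7, hc8, hc9, hc10, C7])
  have s8 : g 8 = 0 ∨ g 8 = e 8 + e 9 := qc5_state p8 p9 gz8 gu8 (by
    linarith only [K0, hd0, hd1, hd2, hd3, hd4, hd7, hd8, hd9, hd10, hc0, hc1, hc2, hc3, hc5, hc7, hc8, hc9, hc10, C8])
  have t1 : max 0 (e 1 - g 0) + max 0 (e 1 - g 1) ≤ max 0 (2 * e 1 - g 0 - g 1) := by
    linarith only [K0, hd0, hd1, hd2, hd3, hd4, hd7, hd8, hd9, hd10, hc0, hc1, hc2, hc3, hc5, hc7, hc8, hc9, hc10, D1]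
  have t2 : max 0 (e 2 - g 1) + max 0 (e 2 - g 2) ≤ max 0 (2 * e 2 - g 1 - g 2) := by
    linarith only [K0, hd0, hd1, hd2, hd3, hd4, hd7, hd8, hd9, hd10, hc0, hc1, hc2, hc3, hc5, hc7, hc8, hc9, hc10, D2]
  have j2 := qc5_joint p1 p2 p3 s1 s2 t2
  have t3 : max 0 (e 3 - g 2) + max 0 (e 3 - g 3) ≤ max 0 (2 * e 3 - g 2 - g 3) := by
    linarith only [K0, hd0, hd1, hd2, hd3, hd4, hd7, hd8, hd9, hd10, hc0, hc1, hc2, hc3, hc5, hc7, hc8, hc9, hc10, D3]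
  have j3 := qc5_joint p2 p3 p4 s2 s3 t3
  have t4 : max 0 (e 6 - g 5) + (e 4 + e 5 - g 4) + max 0 (e 4 - g 3) ≤
      max 0 (2 * e 4 - g 3 - g 4 + (e 5 + e 6 - g 5)) := by
    linarith only [K0, hd0, hd1, hd2, hd3, hd4, hd7, hd8, hd9, hd10, hc0, hc1, hc2, hc3, hc5, hc7, hc8, hc9, hc10, D4]
  have t7 : max 0 (e 5 - g 5) + (e 6 + e 7 - g 6) + max 0 (e 7 - g 7) ≤
      max 0 (2 * e 7 - g 6 - g 7 + (e 5 + e 6 - g 5)) := by
    linarith only [K0, hd0, hd1, hd2, hd3, hd4, hd7, hd8, hd9, hd10, hc0, hc1, hc2, hc3, hc5, hc7, hc8, hc9, hc10, D7]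
  have t8 : max 0 (e 8 - g 7) + max 0 (e 8 - g 8) ≤ max 0 (2 * e 8 - g 7 - g 8) := by
    linarith only [K0, hd0, hd1, hd2, hd3, hd4, hd7, hd8, hd9, hd10, hc0, hc1, hc2, hc3, hc5, hc7, hc8, hc9, hc10, D8]
  have j8 := qc5_joint p7 p8 p9 s7 s8 t8
  have t9 : max 0 (e 9 - g 8) + max 0 (e 9 - g 9) ≤ max 0 (2 * e 9 - g 8 - g 9) := by
    linarith only [K0, hd0, hd1, hd2, hd3, hd4, hd7, hd8, hd9, hd10, hc0, hc1, hc2, hc3, hc5, hc7, hc8, hc9, hc10, D9]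
  clear K0 H U0 U1 U2 U3 U4 U7 U8 U9 U10 E0 E1 E2 E3 E5 E7 E8 E9 E10 D0 D1 D2 D3 D4 D7 D8 D9 D10 C0 C1 C2 C3 C5 C7 C8 C9 C10 hd0 hd1 hd2 hd3 hd4 hd7 hd8 hd9 hd10 hc0 hc1 hc2 hc3 hc5 hc7 hc8 hc9 hc10
  have o21 : 4 * e 2 ≤ e 1 := h.eo 2 1 (by decide) (by decide)
  have o23 : 4 * e 2 ≤ e 3 := h.eo 2 3 (by decide) (by decide)
  have o43 : 4 * e 4 ≤ e 3 := h.eo 4 3 (by decide) (by decide)
  have o45 : 4 * e 4 ≤ e 5 := h.eo 4 5 (by decide) (by decide)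
  have o65 : 4 * e 6 ≤ e 5 := h.eo 6 5 (by decide) (by decide)
  have o67 : 4 * e 6 ≤ e 7 := h.eo 6 7 (by decide) (by decide)
  have o87 : 4 * e 8 ≤ e 7 := h.eo 8 7 (by decide) (by decide)
  have o89 : 4 * e 8 ≤ e 9 := h.eo 8 9 (by decide) (by decide)
  rcases s5 with z5 | f5
  · have w7 := qc5_empty2 t7 z5 p5 gu6
    have z7 : g 7 = 0 := s7.resolve_right (fun hh => by linarith)
    have z8 : g 8 = 0 := j8.1 z7
    have w3 := qc5_empty3 t4 z5 p6 gu4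
    have z3 : g 3 = 0 := s3.resolve_right (fun hh => by linarith)
    have z2 : g 2 = 0 := j3.2.1 z3
    have z1 : g 1 = 0 := j2.2.1 z2
    have z10 := g10z
    have z0 : g 0 = 0 := by
      have K := hz 4 (by decide) 0 (by decide) (by decide)
      have k0 : qc5_N 5 4 0 e g 0 = max 0 (2 * e 0 - g 10 - g 0 + (e 5 + e 6 - g 5)) :=
        qc5_sp 10 6 (by decide) (by decide) (by decide) (by decide)
      have k1 : qc5_N 5 4 0 e g 1 = max 0 (2 * e 1 - g 0 - g 1) :=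
        qc5_gen 0 (by decide) (by decide) (by decide)
      have k2 : qc5_N 5 4 0 e g 2 = max 0 (2 * e 2 - g 1 - g 2) :=
        qc5_gen 1 (by decide) (by decide) (by decide)
      have k3 : qc5_N 5 4 0 e g 3 = max 0 (2 * e 3 - g 2 - g 3) :=
        qc5_gen 2 (by decide) (by decide) (by decide)
      have k4 : qc5_N 5 4 0 e g 4 = max 0 (2 * e 4 - g 3 - g 4 + (e 5 + e 6 - g 5)) :=
        qc5_sp 3 6 (by decide) (by decide) (by decide) (by decide)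
      have k5 : qc5_N 5 4 0 e g 5 = 0 := qc5_off (by decide)
      have k6 : qc5_N 5 4 0 e g 6 = 0 := qc5_off (by decide)
      have k7 : qc5_N 5 4 0 e g 7 = max 0 (2 * e 7 - g 6 - g 7) :=
        qc5_gen 6 (by decide) (by decide) (by decide)
      have k8 : qc5_N 5 4 0 e g 8 = max 0 (2 * e 8 - g 7 - g 8) :=
        qc5_gen 7 (by decide) (by decide) (by decide)
      have k9 : qc5_N 5 4 0 e g 9 = max 0 (2 * e 9 - g 8 - g 9) :=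
        qc5_gen 8 (by decide) (by decide) (by decide)
      have k10 : qc5_N 5 4 0 e g 10 = max 0 (2 * e 10 - g 9 - g 10) :=
        qc5_gen 9 (by decide) (by decide) (by decide)
      rw [qc5_phi, k0, k1, k2, k3, k4, k5, k6, k7, k8, k9, k10] at K
      clear k0 k1 k2 k3 k4 k5 k6 k7 k8 k9 k10
      have m1 : max 0 (2 * e 1 - g 0 - g 1) ≤ 2 * e 1 - g 0 - g 1 := max_le (by linarith) (le_refl _)
      have m2 : max 0 (2 * e 2 - g 1 - g 2) ≤ 2 * e 2 - g 1 - g 2 := max_le (by linarith) (le_refl _)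
      have m3 : max 0 (2 * e 3 - g 2 - g 3) ≤ 2 * e 3 - g 2 - g 3 := max_le (by linarith) (le_refl _)
      have m4 : max 0 (2 * e 4 - g 3 - g 4 + (e 5 + e 6 - g 5)) ≤ 2 * e 4 - g 3 - g 4 + (e 5 + e 6 - g 5) := max_le (by linarith) (le_refl _)
      have m7 : max 0 (2 * e 7 - g 6 - g 7) ≤ 2 * e 7 - g 6 - g 7 := max_le (by linarith) (le_refl _)
      have m8 : max 0 (2 * e 8 - g 7 - g 8) ≤ 2 * e 8 - g 7 - g 8 := max_le (by linarith) (le_refl _)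
      have m9 : max 0 (2 * e 9 - g 8 - g 9) ≤ 2 * e 9 - g 8 - g 9 := max_le (by linarith) (le_refl _)
      have m10 : max 0 (2 * e 10 - g 9 - g 10) ≤ 0 := max_le (le_refl _) (by linarith)
      rcases le_total 0 (2 * e 0 - g 10 - g 0 + (e 5 + e 6 - g 5)) with r2 | r2
      · rw [max_eq_right r2] at K
        linarith
      · rw [max_eq_left r2] at K
        linarith
    have z9 : g 9 = 0 := by
      have K := hz 4 (by decide) 10 (by decide) (by decide)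
      have k0 : qc5_N 5 4 10 e g 0 = max 0 (2 * e 0 - g 10 - g 0) :=
        qc5_gen 10 (by decide) (by decide) (by decide)
      have k1 : qc5_N 5 4 10 e g 1 = max 0 (2 * e 1 - g 0 - g 1) :=
        qc5_gen 0 (by decide) (by decide) (by decide)
      have k2 : qc5_N 5 4 10 e g 2 = max 0 (2 * e 2 - g 1 - g 2) :=
        qc5_gen 1 (by decide) (by decide) (by decide)
      have k3 : qc5_N 5 4 10 e g 3 = max 0 (2 * e 3 - g 2 - g 3) :=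
        qc5_gen 2 (by decide) (by decide) (by decide)
      have k4 : qc5_N 5 4 10 e g 4 = max 0 (2 * e 4 - g 3 - g 4 + (e 5 + e 6 - g 5)) :=
        qc5_sp 3 6 (by decide) (by decide) (by decide) (by decide)
      have k5 : qc5_N 5 4 10 e g 5 = 0 := qc5_off (by decide)
      have k6 : qc5_N 5 4 10 e g 6 = 0 := qc5_off (by decide)
      have k7 : qc5_N 5 4 10 e g 7 = max 0 (2 * e 7 - g 6 - g 7) :=
        qc5_gen 6 (by decide) (by decide) (by decide)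
      have k8 : qc5_N 5 4 10 e g 8 = max 0 (2 * e 8 - g 7 - g 8) :=
        qc5_gen 7 (by decide) (by decide) (by decide)
      have k9 : qc5_N 5 4 10 e g 9 = max 0 (2 * e 9 - g 8 - g 9) :=
        qc5_gen 8 (by decide) (by decide) (by decide)
      have k10 : qc5_N 5 4 10 e g 10 = max 0 (2 * e 10 - g 9 - g 10 + (e 5 + e 6 - g 5)) :=
        qc5_sp 9 6 (by decide) (by decide) (by decide) (by decide)
      rw [qc5_phi, k0, k1, k2, k3, k4, k5, k6, k7, k8, k9, k10] at K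
      clear k0 k1 k2 k3 k4 k5 k6 k7 k8 k9 k10
      have m0 : max 0 (2 * e 0 - g 10 - g 0) ≤ 0 := max_le (le_refl _) (by linarith)
      have m1 : max 0 (2 * e 1 - g 0 - g 1) ≤ 2 * e 1 - g 0 - g 1 := max_le (by linarith) (le_refl _)
      have m2 : max 0 (2 * e 2 - g 1 - g 2) ≤ 2 * e 2 - g 1 - g 2 := max_le (by linarith) (le_refl _)
      have m3 : max 0 (2 * e 3 - g 2 - g 3) ≤ 2 * e 3 - g 2 - g 3 := max_le (by linarith) (le_refl _)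
      have m4 : max 0 (2 * e 4 - g 3 - g 4 + (e 5 + e 6 - g 5)) ≤ 2 * e 4 - g 3 - g 4 + (e 5 + e 6 - g 5) := max_le (by linarith) (le_refl _)
      have m7 : max 0 (2 * e 7 - g 6 - g 7) ≤ 2 * e 7 - g 6 - g 7 := max_le (by linarith) (le_refl _)
      have m8 : max 0 (2 * e 8 - g 7 - g 8) ≤ 2 * e 8 - g 7 - g 8 := max_le (by linarith) (le_refl _)
      have m9 : max 0 (2 * e 9 - g 8 - g 9) ≤ 2 * e 9 - g 8 - g 9 := max_le (by linarith) (le_refl _)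
      rcases le_total 0 (2 * e 10 - g 9 - g 10 + (e 5 + e 6 - g 5)) with r2 | r2
      · rw [max_eq_right r2] at K
        linarith
      · rw [max_eq_left r2] at K
        linarith
    left
    exact qc5_all (P := fun l => l ∈ ib 5 → g l = 0) (fun _ => z0) (fun _ => z1) (fun _ => z2) (fun _ => z3) (fun hh => absurd hh (by decide)) (fun _ => z5) (fun hh => absurd hh (by decide)) (fun _ => z7) (fun _ => z8) (fun _ => z9) (fun _ => z10)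
  · obtain ⟨f6', w7⟩ := qc5_full2 t7 f5 p6 gu6
    have f6 : g 6 = e 6 + e 7 := f6'
    have f7 : g 7 = e 7 + e 8 := s7.resolve_left (fun hh => by linarith)
    have f8 : g 8 = e 8 + e 9 := j8.2.2.1 f7
    have f9' : g 9 = e 9 := qc5_end2 p8 (by linarith) f8 t9
    have f9 : g 9 = e 9 + e 10 := by linarith
    obtain ⟨f4', w3⟩ := qc5_full3 t4 f5 p5 gu4
    have f4 : g 4 = e 4 + e 5 := f4'
    have f3 : g 3 = e 3 + e 4 := s3.resolve_left (fun hh => by linarith)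
    have f2 : g 2 = e 2 + e 3 := j3.2.2.2 f3
    have f1 : g 1 = e 1 + e 2 := j2.2.2.2 f2
    have f0' : g 0 = e 1 := qc5_end1 p2 (by linarith) f1 t1
    have f0 : g 0 = e 0 + e 1 := by linarith
    have f10 : g 10 = e 10 + e 0 := by linarith
    right
    exact qc5_all f0 f1 f2 f3 f4 f5 f6 f7 f8 f9 f10

theorem qc5_b6 {τ : ℝ} (hτ : 0 < τ) {e g : Fin 11 → ℝ} (h : Adm τ e g)
    (hz : ∀ y ∈ nb 6, ∀ z ∈ nb 6, y ≠ z → 0 ≤ phi 6 y z e g) :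
    (∀ l ∈ ib 6, g l = 0) ∨ (∀ l, g l = e l + e (l + 1)) := by
  have e0z : e 0 = 0 := h.e0
  have e10z : e 10 = 0 := h.e10
  have p1 : 0 < e 1 := lt_of_lt_of_le hτ (h.e1 1 (by decide) (by decide))
  have p2 : 0 < e 2 := lt_of_lt_of_le hτ (h.e1 2 (by decide) (by decide))
  have p3 : 0 < e 3 := lt_of_lt_of_le hτ (h.e1 3 (by decide) (by decide))
  have p4 : 0 < e 4 := lt_of_lt_of_le hτ (h.e1 4 (by decide) (by decide))
  have p5 : 0 < e 5 := lt_of_lt_of_le hτ (h.e1 5 (by decide) (by decide))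
  have p6 : 0 < e 6 := lt_of_lt_of_le hτ (h.e1 6 (by decide) (by decide))
  have p7 : 0 < e 7 := lt_of_lt_of_le hτ (h.e1 7 (by decide) (by decide))
  have p8 : 0 < e 8 := lt_of_lt_of_le hτ (h.e1 8 (by decide) (by decide))
  have p9 : 0 < e 9 := lt_of_lt_of_le hτ (h.e1 9 (by decide) (by decide))
  have gz0 : 0 ≤ g 0 := h.g0 0
  have gu0 : g 0 ≤ e 0 + e 1 := h.g1 0
  have gz1 : 0 ≤ g 1 := h.g0 1
  have gu1 : g 1 ≤ e 1 + e 2 := h.g1 1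
  have gz2 : 0 ≤ g 2 := h.g0 2
  have gu2 : g 2 ≤ e 2 + e 3 := h.g1 2
  have gz3 : 0 ≤ g 3 := h.g0 3
  have gu3 : g 3 ≤ e 3 + e 4 := h.g1 3
  have gz4 : 0 ≤ g 4 := h.g0 4
  have gu4 : g 4 ≤ e 4 + e 5 := h.g1 4
  have gz5 : 0 ≤ g 5 := h.g0 5
  have gu5 : g 5 ≤ e 5 + e 6 := h.g1 5
  have gz6 : 0 ≤ g 6 := h.g0 6
  have gu6 : g 6 ≤ e 6 + e 7 := h.g1 6
  have gz7 : 0 ≤ g 7 := h.g0 7
  have gu7 : g 7 ≤ e 7 + e 8 := h.g1 7
  have gz8 : 0 ≤ g 8 := h.g0 8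
  have gu8 : g 8 ≤ e 8 + e 9 := h.g1 8
  have gz9 : 0 ≤ g 9 := h.g0 9
  have gu9 : g 9 ≤ e 9 + e 10 := h.g1 9
  have gz10 : 0 ≤ g 10 := h.g0 10
  have gu10 : g 10 ≤ e 10 + e 0 := h.g1 10
  have g10z : g 10 = 0 := by linarith
  have H := hz 5 (by decide) 8 (by decide) (by decide)
  have n0 : qc5_N 6 5 8 e g 0 = max 0 (2 * e 0 - g 10 - g 0) :=
    qc5_gen 10 (by decide) (by decide) (by decide)
  have n1 : qc5_N 6 5 8 e g 1 = max 0 (2 * e 1 - g 0 - g 1) :=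
    qc5_gen 0 (by decide) (by decide) (by decide)
  have n2 : qc5_N 6 5 8 e g 2 = max 0 (2 * e 2 - g 1 - g 2) :=
    qc5_gen 1 (by decide) (by decide) (by decide)
  have n3 : qc5_N 6 5 8 e g 3 = max 0 (2 * e 3 - g 2 - g 3) :=
    qc5_gen 2 (by decide) (by decide) (by decide)
  have n4 : qc5_N 6 5 8 e g 4 = max 0 (2 * e 4 - g 3 - g 4) :=
    qc5_gen 3 (by decide) (by decide) (by decide)
  have n5 : qc5_N 6 5 8 e g 5 = max 0 (2 * e 5 - g 4 - g 5 + (e 6 + e 7 - g 6)) :=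
    qc5_sp 4 7 (by decide) (by decide) (by decide) (by decide)
  have n6 : qc5_N 6 5 8 e g 6 = 0 := qc5_off (by decide)
  have n7 : qc5_N 6 5 8 e g 7 = 0 := qc5_off (by decide)
  have n8 : qc5_N 6 5 8 e g 8 = max 0 (2 * e 8 - g 7 - g 8 + (e 6 + e 7 - g 6)) :=
    qc5_sp 7 7 (by decide) (by decide) (by decide) (by decide)
  have n9 : qc5_N 6 5 8 e g 9 = max 0 (2 * e 9 - g 8 - g 9) :=
    qc5_gen 8 (by decide) (by decide) (by decide)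
  have n10 : qc5_N 6 5 8 e g 10 = max 0 (2 * e 10 - g 9 - g 10) :=
    qc5_gen 9 (by decide) (by decide) (by decide)
  rw [qc5_phi, n0, n1, n2, n3, n4, n5, n6, n7, n8, n9, n10] at H
  clear n0 n1 n2 n3 n4 n5 n6 n7 n8 n9 n10
  have U0 := qc5_U (e 0) (g 10) (g 0)
  have U1 := qc5_U (e 1) (g 0) (g 1)
  have U2 := qc5_U (e 2) (g 1) (g 2)
  have U3 := qc5_U (e 3) (g 2) (g 3)
  have U4 := qc5_U (e 4) (g 3) (g 4)
  have U5 := qc5_U3 (c := e 5) (gp := g 4) (gl := g 5) (eb := e 6) (eb1 := e 7) (gb := g 6) gu5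
  have U8 := qc5_U2 (c := e 8) (gp := g 7) (gl := g 8) (eb := e 6) (eb1 := e 7) (gb := g 6) gu7
  have U9 := qc5_U (e 9) (g 8) (g 9)
  have U10 := qc5_U (e 10) (g 9) (g 10)
  have E0 := qc5_E e0z.ge p1.le gz0 gu0
  have E1 := qc5_E p1.le p2.le gz1 gu1
  have E2 := qc5_E p2.le p3.le gz2 gu2
  have E3 := qc5_E p3.le p4.le gz3 gu3
  have E4 := qc5_E p4.le p5.le gz4 gu4
  have E6 := qc5_E p6.le p7.le gz6 gu6
  have E8 := qc5_E p8.le p9.le gz8 gu8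
  have E9 := qc5_E p9.le e10z.ge gz9 gu9
  have E10 := qc5_E e10z.ge e0z.ge gz10 gu10
  obtain ⟨d0, D0⟩ : ∃ d : ℝ, d = max 0 (e 0 - g 10) + max 0 (e 0 - g 0) -
      max 0 (2 * e 0 - g 10 - g 0) := ⟨_, rfl⟩
  have hd0 : 0 ≤ d0 := by linarith only [U0, D0]
  obtain ⟨d1, D1⟩ : ∃ d : ℝ, d = max 0 (e 1 - g 0) + max 0 (e 1 - g 1) -
      max 0 (2 * e 1 - g 0 - g 1) := ⟨_, rfl⟩
  have hd1 : 0 ≤ d1 := by linarith only [U1, D1]
  obtain ⟨d2, D2⟩ : ∃ d : ℝ, d = max 0 (e 2 - g 1) + max 0 (e 2 - g 2) -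
      max 0 (2 * e 2 - g 1 - g 2) := ⟨_, rfl⟩
  have hd2 : 0 ≤ d2 := by linarith only [U2, D2]
  obtain ⟨d3, D3⟩ : ∃ d : ℝ, d = max 0 (e 3 - g 2) + max 0 (e 3 - g 3) -
      max 0 (2 * e 3 - g 2 - g 3) := ⟨_, rfl⟩
  have hd3 : 0 ≤ d3 := by linarith only [U3, D3]
  obtain ⟨d4, D4⟩ : ∃ d : ℝ, d = max 0 (e 4 - g 3) + max 0 (e 4 - g 4) -
      max 0 (2 * e 4 - g 3 - g 4) := ⟨_, rfl⟩
  have hd4 : 0 ≤ d4 := by linarith only [U4, D4]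
  obtain ⟨d5, D5⟩ : ∃ d : ℝ, d = max 0 (e 7 - g 6) + (e 5 + e 6 - g 5) + max 0 (e 5 - g 4) -
      max 0 (2 * e 5 - g 4 - g 5 + (e 6 + e 7 - g 6)) := ⟨_, rfl⟩
  have hd5 : 0 ≤ d5 := by linarith only [U5, D5]
  obtain ⟨d8, D8⟩ : ∃ d : ℝ, d = max 0 (e 6 - g 6) + (e 7 + e 8 - g 7) + max 0 (e 8 - g 8) -
      max 0 (2 * e 8 - g 7 - g 8 + (e 6 + e 7 - g 6)) := ⟨_, rfl⟩
  have hd8 : 0 ≤ d8 := by linarith only [U8, D8]
  obtain ⟨d9, D9⟩ : ∃ d : ℝ, d = max 0 (e 9 - g 8) + max 0 (e 9 - g 9) -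
      max 0 (2 * e 9 - g 8 - g 9) := ⟨_, rfl⟩
  have hd9 : 0 ≤ d9 := by linarith only [U9, D9]
  obtain ⟨d10, D10⟩ : ∃ d : ℝ, d = max 0 (e 10 - g 9) + max 0 (e 10 - g 10) -
      max 0 (2 * e 10 - g 9 - g 10) := ⟨_, rfl⟩
  have hd10 : 0 ≤ d10 := by linarith only [U10, D10]
  obtain ⟨c0, C0⟩ : ∃ c : ℝ, c = e 0 + e 1 - g 0 - (max 0 (e 0 - g 0) + max 0 (e 1 - g 0)) := ⟨_, rfl⟩
  have hc0 : 0 ≤ c0 := by linarith only [E0, C0]
  obtain ⟨c1, C1⟩ : ∃ c : ℝ, c = e 1 + e 2 - g 1 - (max 0 (e 1 - g 1) + max 0 (e 2 - g 1)) := ⟨_, rfl⟩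
  have hc1 : 0 ≤ c1 := by linarith only [E1, C1]
  obtain ⟨c2, C2⟩ : ∃ c : ℝ, c = e 2 + e 3 - g 2 - (max 0 (e 2 - g 2) + max 0 (e 3 - g 2)) := ⟨_, rfl⟩
  have hc2 : 0 ≤ c2 := by linarith only [E2, C2]
  obtain ⟨c3, C3⟩ : ∃ c : ℝ, c = e 3 + e 4 - g 3 - (max 0 (e 3 - g 3) + max 0 (e 4 - g 3)) := ⟨_, rfl⟩
  have hc3 : 0 ≤ c3 := by linarith only [E3, C3]
  obtain ⟨c4, C4⟩ : ∃ c : ℝ, c = e 4 + e 5 - g 4 - (max 0 (e 4 - g 4) + max 0 (e 5 - g 4)) := ⟨_, rfl⟩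
  have hc4 : 0 ≤ c4 := by linarith only [E4, C4]
  obtain ⟨c6, C6⟩ : ∃ c : ℝ, c = e 6 + e 7 - g 6 - (max 0 (e 6 - g 6) + max 0 (e 7 - g 6)) := ⟨_, rfl⟩
  have hc6 : 0 ≤ c6 := by linarith only [E6, C6]
  obtain ⟨c8, C8⟩ : ∃ c : ℝ, c = e 8 + e 9 - g 8 - (max 0 (e 8 - g 8) + max 0 (e 9 - g 8)) := ⟨_, rfl⟩
  have hc8 : 0 ≤ c8 := by linarith only [E8, C8]
  obtain ⟨c9, C9⟩ : ∃ c : ℝ, c = e 9 + e 10 - g 9 - (max 0 (e 9 - g 9) + max 0 (e 10 - g 9)) := ⟨_, rfl⟩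
  have hc9 : 0 ≤ c9 := by linarith only [E9, C9]
  obtain ⟨c10, C10⟩ : ∃ c : ℝ, c = e 10 + e 0 - g 10 - (max 0 (e 10 - g 10) + max 0 (e 0 - g 10)) := ⟨_, rfl⟩
  have hc10 : 0 ≤ c10 := by linarith only [E10, C10]
  have K0 : d0 + d1 + d2 + d3 + d4 + d5 + d8 + d9 + d10 + c0 + c1 + c2 + c3 + c4 + c6 + c8 + c9 + c10 ≤ 0 := by
    linarith only [H, D0, D1, D2, D3, D4, D5, D8, D9, D10, C0, C1, C2, C3, C4, C6, C8, C9, C10]
  have s1 : g 1 = 0 ∨ g 1 = e 1 + e 2 := qc5_state p1 p2 gz1 gu1 (by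
    linarith only [K0, hd0, hd1, hd2, hd3, hd4, hd5, hd8, hd9, hd10, hc0, hc1, hc2, hc3, hc4, hc6, hc8, hc9, hc10, C1])
  have s2 : g 2 = 0 ∨ g 2 = e 2 + e 3 := qc5_state p2 p3 gz2 gu2 (by
    linarith only [K0, hd0, hd1, hd2, hd3, hd4, hd5, hd8, hd9, hd10, hc0, hc1, hc2, hc3, hc4, hc6, hc8, hc9, hc10, C2])
  have s3 : g 3 = 0 ∨ g 3 = e 3 + e 4 := qc5_state p3 p4 gz3 gu3 (by
    linarith only [K0, hd0, hd1, hd2, hd3, hd4, hd5, hd8, hd9, hd10, hc0, hc1, hc2, hc3, hc4, hc6, hc8, hc9, hc10, C3])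
  have s4 : g 4 = 0 ∨ g 4 = e 4 + e 5 := qc5_state p4 p5 gz4 gu4 (by
    linarith only [K0, hd0, hd1, hd2, hd3, hd4, hd5, hd8, hd9, hd10, hc0, hc1, hc2, hc3, hc4, hc6, hc8, hc9, hc10, C4])
  have s6 : g 6 = 0 ∨ g 6 = e 6 + e 7 := qc5_state p6 p7 gz6 gu6 (by
    linarith only [K0, hd0, hd1, hd2, hd3, hd4, hd5, hd8, hd9, hd10, hc0, hc1, hc2, hc3, hc4, hc6, hc8, hc9, hc10, C6])
  have s8 : g 8 = 0 ∨ g 8 = e 8 + e 9 := qc5_state p8 p9 gz8 gu8 (by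
    linarith only [K0, hd0, hd1, hd2, hd3, hd4, hd5, hd8, hd9, hd10, hc0, hc1, hc2, hc3, hc4, hc6, hc8, hc9, hc10, C8])
  have t1 : max 0 (e 1 - g 0) + max 0 (e 1 - g 1) ≤ max 0 (2 * e 1 - g 0 - g 1) := by
    linarith only [K0, hd0, hd1, hd2, hd3, hd4, hd5, hd8, hd9, hd10, hc0, hc1, hc2, hc3, hc4, hc6, hc8, hc9, hc10, D1]
  have t2 : max 0 (e 2 - g 1) + max 0 (e 2 - g 2) ≤ max 0 (2 * e 2 - g 1 - g 2) := by
    linarith only [K0, hd0, hd1, hd2, hd3, hd4, hd5, hd8, hd9, hd10, hc0, hc1, hc2, hc3, hc4, hc6, hc8, hc9, hc10, D2]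
  have j2 := qc5_joint p1 p2 p3 s1 s2 t2
  have t3 : max 0 (e 3 - g 2) + max 0 (e 3 - g 3) ≤ max 0 (2 * e 3 - g 2 - g 3) := by
    linarith only [K0, hd0, hd1, hd2, hd3, hd4, hd5, hd8, hd9, hd10, hc0, hc1, hc2, hc3, hc4, hc6, hc8, hc9, hc10, D3]
  have j3 := qc5_joint p2 p3 p4 s2 s3 t3
  have t4 : max 0 (e 4 - g 3) + max 0 (e 4 - g 4) ≤ max 0 (2 * e 4 - g 3 - g 4) := by
    linarith only [K0, hd0, hd1, hd2, hd3, hd4, hd5, hd8, hd9, hd10, hc0, hc1, hc2, hc3, hc4, hc6, hc8, hc9, hc10, D4]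
  have j4 := qc5_joint p3 p4 p5 s3 s4 t4
  have t5 : max 0 (e 7 - g 6) + (e 5 + e 6 - g 5) + max 0 (e 5 - g 4) ≤
      max 0 (2 * e 5 - g 4 - g 5 + (e 6 + e 7 - g 6)) := by
    linarith only [K0, hd0, hd1, hd2, hd3, hd4, hd5, hd8, hd9, hd10, hc0, hc1, hc2, hc3, hc4, hc6, hc8, hc9, hc10, D5]
  have t8 : max 0 (e 6 - g 6) + (e 7 + e 8 - g 7) + max 0 (e 8 - g 8) ≤
      max 0 (2 * e 8 - g 7 - g 8 + (e 6 + e 7 - g 6)) := by
    linarith only [K0, hd0, hd1, hd2, hd3, hd4, hd5, hd8, hd9, hd10, hc0, hc1, hc2, hc3, hc4, hc6, hc8, hc9, hc10, D8]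
  have t9 : max 0 (e 9 - g 8) + max 0 (e 9 - g 9) ≤ max 0 (2 * e 9 - g 8 - g 9) := by
    linarith only [K0, hd0, hd1, hd2, hd3, hd4, hd5, hd8, hd9, hd10, hc0, hc1, hc2, hc3, hc4, hc6, hc8, hc9, hc10, D9]
  clear K0 H U0 U1 U2 U3 U4 U5 U8 U9 U10 E0 E1 E2 E3 E4 E6 E8 E9 E10 D0 D1 D2 D3 D4 D5 D8 D9 D10 C0 C1 C2 C3 C4 C6 C8 C9 C10 hd0 hd1 hd2 hd3 hd4 hd5 hd8 hd9 hd10 hc0 hc1 hc2 hc3 hc4 hc6 hc8 hc9 hc10
  have o21 : 4 * e 2 ≤ e 1 := h.eo 2 1 (by decide) (by decide)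
  have o23 : 4 * e 2 ≤ e 3 := h.eo 2 3 (by decide) (by decide)
  have o43 : 4 * e 4 ≤ e 3 := h.eo 4 3 (by decide) (by decide)
  have o45 : 4 * e 4 ≤ e 5 := h.eo 4 5 (by decide) (by decide)
  have o65 : 4 * e 6 ≤ e 5 := h.eo 6 5 (by decide) (by decide)
  have o67 : 4 * e 6 ≤ e 7 := h.eo 6 7 (by decide) (by decide)
  have o87 : 4 * e 8 ≤ e 7 := h.eo 8 7 (by decide) (by decide)
  have o89 : 4 * e 8 ≤ e 9 := h.eo 8 9 (by decide) (by decide)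
  rcases s6 with z6 | f6
  · have w8 := qc5_empty2 t8 z6 p6 gu7
    have z8 : g 8 = 0 := s8.resolve_right (fun hh => by linarith)
    have w4 := qc5_empty3 t5 z6 p7 gu5
    have z4 : g 4 = 0 := s4.resolve_right (fun hh => by linarith)
    have z3 : g 3 = 0 := j4.2.1 z4
    have z2 : g 2 = 0 := j3.2.1 z3
    have z1 : g 1 = 0 := j2.2.1 z2
    have z10 := g10z
    have z0 : g 0 = 0 := by
      have K := hz 8 (by decide) 0 (by decide) (by decide)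
      have k0 : qc5_N 6 8 0 e g 0 = max 0 (2 * e 0 - g 10 - g 0 + (e 6 + e 7 - g 6)) :=
        qc5_sp 10 7 (by decide) (by decide) (by decide) (by decide)
      have k1 : qc5_N 6 8 0 e g 1 = max 0 (2 * e 1 - g 0 - g 1) :=
        qc5_gen 0 (by decide) (by decide) (by decide)
      have k2 : qc5_N 6 8 0 e g 2 = max 0 (2 * e 2 - g 1 - g 2) :=
        qc5_gen 1 (by decide) (by decide) (by decide)
      have k3 : qc5_N 6 8 0 e g 3 = max 0 (2 * e 3 - g 2 - g 3) :=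
        qc5_gen 2 (by decide) (by decide) (by decide)
      have k4 : qc5_N 6 8 0 e g 4 = max 0 (2 * e 4 - g 3 - g 4) :=
        qc5_gen 3 (by decide) (by decide) (by decide)
      have k5 : qc5_N 6 8 0 e g 5 = max 0 (2 * e 5 - g 4 - g 5) :=
        qc5_gen 4 (by decide) (by decide) (by decide)
      have k6 : qc5_N 6 8 0 e g 6 = 0 := qc5_off (by decide)
      have k7 : qc5_N 6 8 0 e g 7 = 0 := qc5_off (by decide)
      have k8 : qc5_N 6 8 0 e g 8 = max 0 (2 * e 8 - g 7 - g 8 + (e 6 + e 7 - g 6)) :=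
        qc5_sp 7 7 (by decide) (by decide) (by decide) (by decide)
      have k9 : qc5_N 6 8 0 e g 9 = max 0 (2 * e 9 - g 8 - g 9) :=
        qc5_gen 8 (by decide) (by decide) (by decide)
      have k10 : qc5_N 6 8 0 e g 10 = max 0 (2 * e 10 - g 9 - g 10) :=
        qc5_gen 9 (by decide) (by decide) (by decide)
      rw [qc5_phi, k0, k1, k2, k3, k4, k5, k6, k7, k8, k9, k10] at K
      clear k0 k1 k2 k3 k4 k5 k6 k7 k8 k9 k10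
      have m1 : max 0 (2 * e 1 - g 0 - g 1) ≤ 2 * e 1 - g 0 - g 1 := max_le (by linarith) (le_refl _)
      have m2 : max 0 (2 * e 2 - g 1 - g 2) ≤ 2 * e 2 - g 1 - g 2 := max_le (by linarith) (le_refl _)
      have m3 : max 0 (2 * e 3 - g 2 - g 3) ≤ 2 * e 3 - g 2 - g 3 := max_le (by linarith) (le_refl _)
      have m4 : max 0 (2 * e 4 - g 3 - g 4) ≤ 2 * e 4 - g 3 - g 4 := max_le (by linarith) (le_refl _)
      have m5 : max 0 (2 * e 5 - g 4 - g 5) ≤ 2 * e 5 - g 4 - g 5 := max_le (by linarith) (le_refl _)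
      have m8 : max 0 (2 * e 8 - g 7 - g 8 + (e 6 + e 7 - g 6)) ≤ 2 * e 8 - g 7 - g 8 + (e 6 + e 7 - g 6) := max_le (by linarith) (le_refl _)
      have m9 : max 0 (2 * e 9 - g 8 - g 9) ≤ 2 * e 9 - g 8 - g 9 := max_le (by linarith) (le_refl _)
      have m10 : max 0 (2 * e 10 - g 9 - g 10) ≤ 0 := max_le (le_refl _) (by linarith)
      rcases le_total 0 (2 * e 0 - g 10 - g 0 + (e 6 + e 7 - g 6)) with r2 | r2
      · rw [max_eq_right r2] at K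
        linarith
      · rw [max_eq_left r2] at K
        linarith
    have z9 : g 9 = 0 := by
      have K := hz 8 (by decide) 10 (by decide) (by decide)
      have k0 : qc5_N 6 8 10 e g 0 = max 0 (2 * e 0 - g 10 - g 0) :=
        qc5_gen 10 (by decide) (by decide) (by decide)
      have k1 : qc5_N 6 8 10 e g 1 = max 0 (2 * e 1 - g 0 - g 1) :=
        qc5_gen 0 (by decide) (by decide) (by decide)
      have k2 : qc5_N 6 8 10 e g 2 = max 0 (2 * e 2 - g 1 - g 2) :=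
        qc5_gen 1 (by decide) (by decide) (by decide)
      have k3 : qc5_N 6 8 10 e g 3 = max 0 (2 * e 3 - g 2 - g 3) :=
        qc5_gen 2 (by decide) (by decide) (by decide)
      have k4 : qc5_N 6 8 10 e g 4 = max 0 (2 * e 4 - g 3 - g 4) :=
        qc5_gen 3 (by decide) (by decide) (by decide)
      have k5 : qc5_N 6 8 10 e g 5 = max 0 (2 * e 5 - g 4 - g 5) :=
        qc5_gen 4 (by decide) (by decide) (by decide)
      have k6 : qc5_N 6 8 10 e g 6 = 0 := qc5_off (by decide)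
      have k7 : qc5_N 6 8 10 e g 7 = 0 := qc5_off (by decide)
      have k8 : qc5_N 6 8 10 e g 8 = max 0 (2 * e 8 - g 7 - g 8 + (e 6 + e 7 - g 6)) :=
        qc5_sp 7 7 (by decide) (by decide) (by decide) (by decide)
      have k9 : qc5_N 6 8 10 e g 9 = max 0 (2 * e 9 - g 8 - g 9) :=
        qc5_gen 8 (by decide) (by decide) (by decide)
      have k10 : qc5_N 6 8 10 e g 10 = max 0 (2 * e 10 - g 9 - g 10 + (e 6 + e 7 - g 6)) :=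
        qc5_sp 9 7 (by decide) (by decide) (by decide) (by decide)
      rw [qc5_phi, k0, k1, k2, k3, k4, k5, k6, k7, k8, k9, k10] at K
      clear k0 k1 k2 k3 k4 k5 k6 k7 k8 k9 k10
      have m0 : max 0 (2 * e 0 - g 10 - g 0) ≤ 0 := max_le (le_refl _) (by linarith)
      have m1 : max 0 (2 * e 1 - g 0 - g 1) ≤ 2 * e 1 - g 0 - g 1 := max_le (by linarith) (le_refl _)
      have m2 : max 0 (2 * e 2 - g 1 - g 2) ≤ 2 * e 2 - g 1 - g 2 := max_le (by linarith) (le_refl _)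
      have m3 : max 0 (2 * e 3 - g 2 - g 3) ≤ 2 * e 3 - g 2 - g 3 := max_le (by linarith) (le_refl _)
      have m4 : max 0 (2 * e 4 - g 3 - g 4) ≤ 2 * e 4 - g 3 - g 4 := max_le (by linarith) (le_refl _)
      have m5 : max 0 (2 * e 5 - g 4 - g 5) ≤ 2 * e 5 - g 4 - g 5 := max_le (by linarith) (le_refl _)
      have m8 : max 0 (2 * e 8 - g 7 - g 8 + (e 6 + e 7 - g 6)) ≤ 2 * e 8 - g 7 - g 8 + (e 6 + e 7 - g 6) := max_le (by linarith) (le_refl _)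
      have m9 : max 0 (2 * e 9 - g 8 - g 9) ≤ 2 * e 9 - g 8 - g 9 := max_le (by linarith) (le_refl _)
      rcases le_total 0 (2 * e 10 - g 9 - g 10 + (e 6 + e 7 - g 6)) with r2 | r2
      · rw [max_eq_right r2] at K
        linarith
      · rw [max_eq_left r2] at K
        linarith
    left
    exact qc5_all (P := fun l => l ∈ ib 6 → g l = 0) (fun _ => z0) (fun _ => z1) (fun _ => z2) (fun _ => z3) (fun _ => z4) (fun hh => absurd hh (by decide)) (fun _ => z6) (fun hh => absurd hh (by decide)) (fun _ => z8) (fun _ => z9) (fun _ => z10)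
  · obtain ⟨f7', w8⟩ := qc5_full2 t8 f6 p7 gu7
    have f7 : g 7 = e 7 + e 8 := f7'
    have f8 : g 8 = e 8 + e 9 := s8.resolve_left (fun hh => by linarith)
    have f9' : g 9 = e 9 := qc5_end2 p8 (by linarith) f8 t9
    have f9 : g 9 = e 9 + e 10 := by linarith
    obtain ⟨f5', w4⟩ := qc5_full3 t5 f6 p6 gu5
    have f5 : g 5 = e 5 + e 6 := f5'
    have f4 : g 4 = e 4 + e 5 := s4.resolve_left (fun hh => by linarith)
    have f3 : g 3 = e 3 + e 4 := j4.2.2.2 f4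
    have f2 : g 2 = e 2 + e 3 := j3.2.2.2 f3
    have f1 : g 1 = e 1 + e 2 := j2.2.2.2 f2
    have f0' : g 0 = e 1 := qc5_end1 p2 (by linarith) f1 t1
    have f0 : g 0 = e 0 + e 1 := by linarith
    have f10 : g 10 = e 10 + e 0 := by linarith
    right
    exact qc5_all f0 f1 f2 f3 f4 f5 f6 f7 f8 f9 f10

theorem qc5_b7 {τ : ℝ} (hτ : 0 < τ) {e g : Fin 11 → ℝ} (h : Adm τ e g)
    (hz : ∀ y ∈ nb 7, ∀ z ∈ nb 7, y ≠ z → 0 ≤ phi 7 y z e g) :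
    (∀ l ∈ ib 7, g l = 0) ∨ (∀ l, g l = e l + e (l + 1)) := by
  have e0z : e 0 = 0 := h.e0
  have e10z : e 10 = 0 := h.e10
  have p1 : 0 < e 1 := lt_of_lt_of_le hτ (h.e1 1 (by decide) (by decide))
  have p2 : 0 < e 2 := lt_of_lt_of_le hτ (h.e1 2 (by decide) (by decide))
  have p3 : 0 < e 3 := lt_of_lt_of_le hτ (h.e1 3 (by decide) (by decide))
  have p4 : 0 < e 4 := lt_of_lt_of_le hτ (h.e1 4 (by decide) (by decide))
  have p5 : 0 < e 5 := lt_of_lt_of_le hτ (h.e1 5 (by decide) (by decide))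
  have p6 : 0 < e 6 := lt_of_lt_of_le hτ (h.e1 6 (by decide) (by decide))
  have p7 : 0 < e 7 := lt_of_lt_of_le hτ (h.e1 7 (by decide) (by decide))
  have p8 : 0 < e 8 := lt_of_lt_of_le hτ (h.e1 8 (by decide) (by decide))
  have p9 : 0 < e 9 := lt_of_lt_of_le hτ (h.e1 9 (by decide) (by decide))
  have gz0 : 0 ≤ g 0 := h.g0 0
  have gu0 : g 0 ≤ e 0 + e 1 := h.g1 0
  have gz1 : 0 ≤ g 1 := h.g0 1
  have gu1 : g 1 ≤ e 1 + e 2 := h.g1 1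
  have gz2 : 0 ≤ g 2 := h.g0 2
  have gu2 : g 2 ≤ e 2 + e 3 := h.g1 2
  have gz3 : 0 ≤ g 3 := h.g0 3
  have gu3 : g 3 ≤ e 3 + e 4 := h.g1 3
  have gz4 : 0 ≤ g 4 := h.g0 4
  have gu4 : g 4 ≤ e 4 + e 5 := h.g1 4
  have gz5 : 0 ≤ g 5 := h.g0 5
  have gu5 : g 5 ≤ e 5 + e 6 := h.g1 5
  have gz6 : 0 ≤ g 6 := h.g0 6
  have gu6 : g 6 ≤ e 6 + e 7 := h.g1 6
  have gz7 : 0 ≤ g 7 := h.g0 7
  have gu7 : g 7 ≤ e 7 + e 8 := h.g1 7
  have gz8 : 0 ≤ g 8 := h.g0 8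
  have gu8 : g 8 ≤ e 8 + e 9 := h.g1 8
  have gz9 : 0 ≤ g 9 := h.g0 9
  have gu9 : g 9 ≤ e 9 + e 10 := h.g1 9
  have gz10 : 0 ≤ g 10 := h.g0 10
  have gu10 : g 10 ≤ e 10 + e 0 := h.g1 10
  have g10z : g 10 = 0 := by linarith
  have H := hz 6 (by decide) 9 (by decide) (by decide)
  have n0 : qc5_N 7 6 9 e g 0 = max 0 (2 * e 0 - g 10 - g 0) :=
    qc5_gen 10 (by decide) (by decide) (by decide)
  have n1 : qc5_N 7 6 9 e g 1 = max 0 (2 * e 1 - g 0 - g 1) :=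
    qc5_gen 0 (by decide) (by decide) (by decide)
  have n2 : qc5_N 7 6 9 e g 2 = max 0 (2 * e 2 - g 1 - g 2) :=
    qc5_gen 1 (by decide) (by decide) (by decide)
  have n3 : qc5_N 7 6 9 e g 3 = max 0 (2 * e 3 - g 2 - g 3) :=
    qc5_gen 2 (by decide) (by decide) (by decide)
  have n4 : qc5_N 7 6 9 e g 4 = max 0 (2 * e 4 - g 3 - g 4) :=
    qc5_gen 3 (by decide) (by decide) (by decide)
  have n5 : qc5_N 7 6 9 e g 5 = max 0 (2 * e 5 - g 4 - g 5) :=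
    qc5_gen 4 (by decide) (by decide) (by decide)
  have n6 : qc5_N 7 6 9 e g 6 = max 0 (2 * e 6 - g 5 - g 6 + (e 7 + e 8 - g 7)) :=
    qc5_sp 5 8 (by decide) (by decide) (by decide) (by decide)
  have n7 : qc5_N 7 6 9 e g 7 = 0 := qc5_off (by decide)
  have n8 : qc5_N 7 6 9 e g 8 = 0 := qc5_off (by decide)
  have n9 : qc5_N 7 6 9 e g 9 = max 0 (2 * e 9 - g 8 - g 9 + (e 7 + e 8 - g 7)) :=
    qc5_sp 8 8 (by decide) (by decide) (by decide) (by decide)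
  have n10 : qc5_N 7 6 9 e g 10 = max 0 (2 * e 10 - g 9 - g 10) :=
    qc5_gen 9 (by decide) (by decide) (by decide)
  rw [qc5_phi, n0, n1, n2, n3, n4, n5, n6, n7, n8, n9, n10] at H
  clear n0 n1 n2 n3 n4 n5 n6 n7 n8 n9 n10
  have U0 := qc5_U (e 0) (g 10) (g 0)
  have U1 := qc5_U (e 1) (g 0) (g 1)
  have U2 := qc5_U (e 2) (g 1) (g 2)
  have U3 := qc5_U (e 3) (g 2) (g 3)
  have U4 := qc5_U (e 4) (g 3) (g 4)
  have U5 := qc5_U (e 5) (g 4) (g 5)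
  have U6 := qc5_U3 (c := e 6) (gp := g 5) (gl := g 6) (eb := e 7) (eb1 := e 8) (gb := g 7) gu6
  have U9 := qc5_U2 (c := e 9) (gp := g 8) (gl := g 9) (eb := e 7) (eb1 := e 8) (gb := g 7) gu8
  have U10 := qc5_U (e 10) (g 9) (g 10)
  have E0 := qc5_E e0z.ge p1.le gz0 gu0
  have E1 := qc5_E p1.le p2.le gz1 gu1
  have E2 := qc5_E p2.le p3.le gz2 gu2
  have E3 := qc5_E p3.le p4.le gz3 gu3
  have E4 := qc5_E p4.le p5.le gz4 gu4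
  have E5 := qc5_E p5.le p6.le gz5 gu5
  have E7 := qc5_E p7.le p8.le gz7 gu7
  have E9 := qc5_E p9.le e10z.ge gz9 gu9
  have E10 := qc5_E e10z.ge e0z.ge gz10 gu10
  obtain ⟨d0, D0⟩ : ∃ d : ℝ, d = max 0 (e 0 - g 10) + max 0 (e 0 - g 0) -
      max 0 (2 * e 0 - g 10 - g 0) := ⟨_, rfl⟩
  have hd0 : 0 ≤ d0 := by linarith only [U0, D0]
  obtain ⟨d1, D1⟩ : ∃ d : ℝ, d = max 0 (e 1 - g 0) + max 0 (e 1 - g 1) -
      max 0 (2 * e 1 - g 0 - g 1) := ⟨_, rfl⟩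
  have hd1 : 0 ≤ d1 := by linarith only [U1, D1]
  obtain ⟨d2, D2⟩ : ∃ d : ℝ, d = max 0 (e 2 - g 1) + max 0 (e 2 - g 2) -
      max 0 (2 * e 2 - g 1 - g 2) := ⟨_, rfl⟩
  have hd2 : 0 ≤ d2 := by linarith only [U2, D2]
  obtain ⟨d3, D3⟩ : ∃ d : ℝ, d = max 0 (e 3 - g 2) + max 0 (e 3 - g 3) -
      max 0 (2 * e 3 - g 2 - g 3) := ⟨_, rfl⟩
  have hd3 : 0 ≤ d3 := by linarith only [U3, D3]
  obtain ⟨d4, D4⟩ : ∃ d : ℝ, d = max 0 (e 4 - g 3) + max 0 (e 4 - g 4) -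
      max 0 (2 * e 4 - g 3 - g 4) := ⟨_, rfl⟩
  have hd4 : 0 ≤ d4 := by linarith only [U4, D4]
  obtain ⟨d5, D5⟩ : ∃ d : ℝ, d = max 0 (e 5 - g 4) + max 0 (e 5 - g 5) -
      max 0 (2 * e 5 - g 4 - g 5) := ⟨_, rfl⟩
  have hd5 : 0 ≤ d5 := by linarith only [U5, D5]
  obtain ⟨d6, D6⟩ : ∃ d : ℝ, d = max 0 (e 8 - g 7) + (e 6 + e 7 - g 6) + max 0 (e 6 - g 5) -
      max 0 (2 * e 6 - g 5 - g 6 + (e 7 + e 8 - g 7)) := ⟨_, rfl⟩
  have hd6 : 0 ≤ d6 := by linarith only [U6, D6]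
  obtain ⟨d9, D9⟩ : ∃ d : ℝ, d = max 0 (e 7 - g 7) + (e 8 + e 9 - g 8) + max 0 (e 9 - g 9) -
      max 0 (2 * e 9 - g 8 - g 9 + (e 7 + e 8 - g 7)) := ⟨_, rfl⟩
  have hd9 : 0 ≤ d9 := by linarith only [U9, D9]
  obtain ⟨d10, D10⟩ : ∃ d : ℝ, d = max 0 (e 10 - g 9) + max 0 (e 10 - g 10) -
      max 0 (2 * e 10 - g 9 - g 10) := ⟨_, rfl⟩
  have hd10 : 0 ≤ d10 := by linarith only [U10, D10]
  obtain ⟨c0, C0⟩ : ∃ c : ℝ, c = e 0 + e 1 - g 0 - (max 0 (e 0 - g 0) + max 0 (e 1 - g 0)) := ⟨_, rfl⟩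
  have hc0 : 0 ≤ c0 := by linarith only [E0, C0]
  obtain ⟨c1, C1⟩ : ∃ c : ℝ, c = e 1 + e 2 - g 1 - (max 0 (e 1 - g 1) + max 0 (e 2 - g 1)) := ⟨_, rfl⟩
  have hc1 : 0 ≤ c1 := by linarith only [E1, C1]
  obtain ⟨c2, C2⟩ : ∃ c : ℝ, c = e 2 + e 3 - g 2 - (max 0 (e 2 - g 2) + max 0 (e 3 - g 2)) := ⟨_, rfl⟩
  have hc2 : 0 ≤ c2 := by linarith only [E2, C2]
  obtain ⟨c3, C3⟩ : ∃ c : ℝ, c = e 3 + e 4 - g 3 - (max 0 (e 3 - g 3) + max 0 (e 4 - g 3)) := ⟨_, rfl⟩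
  have hc3 : 0 ≤ c3 := by linarith only [E3, C3]
  obtain ⟨c4, C4⟩ : ∃ c : ℝ, c = e 4 + e 5 - g 4 - (max 0 (e 4 - g 4) + max 0 (e 5 - g 4)) := ⟨_, rfl⟩
  have hc4 : 0 ≤ c4 := by linarith only [E4, C4]
  obtain ⟨c5, C5⟩ : ∃ c : ℝ, c = e 5 + e 6 - g 5 - (max 0 (e 5 - g 5) + max 0 (e 6 - g 5)) := ⟨_, rfl⟩
  have hc5 : 0 ≤ c5 := by linarith only [E5, C5]
  obtain ⟨c7, C7⟩ : ∃ c : ℝ, c = e 7 + e 8 - g 7 - (max 0 (e 7 - g 7) + max 0 (e 8 - g 7)) := ⟨_, rfl⟩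
  have hc7 : 0 ≤ c7 := by linarith only [E7, C7]
  obtain ⟨c9, C9⟩ : ∃ c : ℝ, c = e 9 + e 10 - g 9 - (max 0 (e 9 - g 9) + max 0 (e 10 - g 9)) := ⟨_, rfl⟩
  have hc9 : 0 ≤ c9 := by linarith only [E9, C9]
  obtain ⟨c10, C10⟩ : ∃ c : ℝ, c = e 10 + e 0 - g 10 - (max 0 (e 10 - g 10) + max 0 (e 0 - g 10)) := ⟨_, rfl⟩
  have hc10 : 0 ≤ c10 := by linarith only [E10, C10]
  have K0 : d0 + d1 + d2 + d3 + d4 + d5 + d6 + d9 + d10 + c0 + c1 + c2 + c3 + c4 + c5 + c7 + c9 + c10 ≤ 0 := by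
    linarith only [H, D0, D1, D2, D3, D4, D5, D6, D9, D10, C0, C1, C2, C3, C4, C5, C7, C9, C10]
  have s1 : g 1 = 0 ∨ g 1 = e 1 + e 2 := qc5_state p1 p2 gz1 gu1 (by
    linarith only [K0, hd0, hd1, hd2, hd3, hd4, hd5, hd6, hd9, hd10, hc0, hc1, hc2, hc3, hc4, hc5, hc7, hc9, hc10, C1])
  have s2 : g 2 = 0 ∨ g 2 = e 2 + e 3 := qc5_state p2 p3 gz2 gu2 (by
    linarith only [K0, hd0, hd1, hd2, hd3, hd4, hd5, hd6, hd9, hd10, hc0, hc1, hc2, hc3, hc4, hc5, hc7, hc9, hc10, C2])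
  have s3 : g 3 = 0 ∨ g 3 = e 3 + e 4 := qc5_state p3 p4 gz3 gu3 (by
    linarith only [K0, hd0, hd1, hd2, hd3, hd4, hd5, hd6, hd9, hd10, hc0, hc1, hc2, hc3, hc4, hc5, hc7, hc9, hc10, C3])
  have s4 : g 4 = 0 ∨ g 4 = e 4 + e 5 := qc5_state p4 p5 gz4 gu4 (by
    linarith only [K0, hd0, hd1, hd2, hd3, hd4, hd5, hd6, hd9, hd10, hc0, hc1, hc2, hc3, hc4, hc5, hc7, hc9, hc10, C4])
  have s5 : g 5 = 0 ∨ g 5 = e 5 + e 6 := qc5_state p5 p6 gz5 gu5 (by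
    linarith only [K0, hd0, hd1, hd2, hd3, hd4, hd5, hd6, hd9, hd10, hc0, hc1, hc2, hc3, hc4, hc5, hc7, hc9, hc10, C5])
  have s7 : g 7 = 0 ∨ g 7 = e 7 + e 8 := qc5_state p7 p8 gz7 gu7 (by
    linarith only [K0, hd0, hd1, hd2, hd3, hd4, hd5, hd6, hd9, hd10, hc0, hc1, hc2, hc3, hc4, hc5, hc7, hc9, hc10, C7])
  have t1 : max 0 (e 1 - g 0) + max 0 (e 1 - g 1) ≤ max 0 (2 * e 1 - g 0 - g 1) := by
    linarith only [K0, hd0, hd1, hd2, hd3, hd4, hd5, hd6, hd9, hd10, hc0, hc1, hc2, hc3, hc4, hc5, hc7, hc9, hc10, D1]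
  have t2 : max 0 (e 2 - g 1) + max 0 (e 2 - g 2) ≤ max 0 (2 * e 2 - g 1 - g 2) := by
    linarith only [K0, hd0, hd1, hd2, hd3, hd4, hd5, hd6, hd9, hd10, hc0, hc1, hc2, hc3, hc4, hc5, hc7, hc9, hc10, D2]
  have j2 := qc5_joint p1 p2 p3 s1 s2 t2
  have t3 : max 0 (e 3 - g 2) + max 0 (e 3 - g 3) ≤ max 0 (2 * e 3 - g 2 - g 3) := by
    linarith only [K0, hd0, hd1, hd2, hd3, hd4, hd5, hd6, hd9, hd10, hc0, hc1, hc2, hc3, hc4, hc5, hc7, hc9, hc10, D3]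
  have j3 := qc5_joint p2 p3 p4 s2 s3 t3
  have t4 : max 0 (e 4 - g 3) + max 0 (e 4 - g 4) ≤ max 0 (2 * e 4 - g 3 - g 4) := by
    linarith only [K0, hd0, hd1, hd2, hd3, hd4, hd5, hd6, hd9, hd10, hc0, hc1, hc2, hc3, hc4, hc5, hc7, hc9, hc10, D4]
  have j4 := qc5_joint p3 p4 p5 s3 s4 t4
  have t5 : max 0 (e 5 - g 4) + max 0 (e 5 - g 5) ≤ max 0 (2 * e 5 - g 4 - g 5) := by
    linarith only [K0, hd0, hd1, hd2, hd3, hd4, hd5, hd6, hd9, hd10, hc0, hc1, hc2, hc3, hc4, hc5, hc7, hc9, hc10, D5]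
  have j5 := qc5_joint p4 p5 p6 s4 s5 t5
  have t6 : max 0 (e 8 - g 7) + (e 6 + e 7 - g 6) + max 0 (e 6 - g 5) ≤
      max 0 (2 * e 6 - g 5 - g 6 + (e 7 + e 8 - g 7)) := by
    linarith only [K0, hd0, hd1, hd2, hd3, hd4, hd5, hd6, hd9, hd10, hc0, hc1, hc2, hc3, hc4, hc5, hc7, hc9, hc10, D6]
  have t9 : max 0 (e 7 - g 7) + (e 8 + e 9 - g 8) + max 0 (e 9 - g 9) ≤
      max 0 (2 * e 9 - g 8 - g 9 + (e 7 + e 8 - g 7)) := by
    linarith only [K0, hd0, hd1, hd2, hd3, hd4, hd5, hd6, hd9, hd10, hc0, hc1, hc2, hc3, hc4, hc5, hc7, hc9, hc10, D9]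
  clear K0 H U0 U1 U2 U3 U4 U5 U6 U9 U10 E0 E1 E2 E3 E4 E5 E7 E9 E10 D0 D1 D2 D3 D4 D5 D6 D9 D10 C0 C1 C2 C3 C4 C5 C7 C9 C10 hd0 hd1 hd2 hd3 hd4 hd5 hd6 hd9 hd10 hc0 hc1 hc2 hc3 hc4 hc5 hc7 hc9 hc10
  have o21 : 4 * e 2 ≤ e 1 := h.eo 2 1 (by decide) (by decide)
  have o23 : 4 * e 2 ≤ e 3 := h.eo 2 3 (by decide) (by decide)
  have o43 : 4 * e 4 ≤ e 3 := h.eo 4 3 (by decide) (by decide)
  have o45 : 4 * e 4 ≤ e 5 := h.eo 4 5 (by decide) (by decide)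
  have o65 : 4 * e 6 ≤ e 5 := h.eo 6 5 (by decide) (by decide)
  have o67 : 4 * e 6 ≤ e 7 := h.eo 6 7 (by decide) (by decide)
  have o87 : 4 * e 8 ≤ e 7 := h.eo 8 7 (by decide) (by decide)
  have o89 : 4 * e 8 ≤ e 9 := h.eo 8 9 (by decide) (by decide)
  rcases s7 with z7 | f7
  · have w5 := qc5_empty3 t6 z7 p8 gu6
    have z5 : g 5 = 0 := s5.resolve_right (fun hh => by linarith)
    have z4 : g 4 = 0 := j5.2.1 z5
    have z3 : g 3 = 0 := j4.2.1 z4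
    have z2 : g 2 = 0 := j3.2.1 z3
    have z1 : g 1 = 0 := j2.2.1 z2
    have z10 := g10z
    have z9 : g 9 = 0 := by
      have K := hz 6 (by decide) 10 (by decide) (by decide)
      have k0 : qc5_N 7 6 10 e g 0 = max 0 (2 * e 0 - g 10 - g 0) :=
        qc5_gen 10 (by decide) (by decide) (by decide)
      have k1 : qc5_N 7 6 10 e g 1 = max 0 (2 * e 1 - g 0 - g 1) :=
        qc5_gen 0 (by decide) (by decide) (by decide)
      have k2 : qc5_N 7 6 10 e g 2 = max 0 (2 * e 2 - g 1 - g 2) :=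
        qc5_gen 1 (by decide) (by decide) (by decide)
      have k3 : qc5_N 7 6 10 e g 3 = max 0 (2 * e 3 - g 2 - g 3) :=
        qc5_gen 2 (by decide) (by decide) (by decide)
      have k4 : qc5_N 7 6 10 e g 4 = max 0 (2 * e 4 - g 3 - g 4) :=
        qc5_gen 3 (by decide) (by decide) (by decide)
      have k5 : qc5_N 7 6 10 e g 5 = max 0 (2 * e 5 - g 4 - g 5) :=
        qc5_gen 4 (by decide) (by decide) (by decide)
      have k6 : qc5_N 7 6 10 e g 6 = max 0 (2 * e 6 - g 5 - g 6 + (e 7 + e 8 - g 7)) :=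
        qc5_sp 5 8 (by decide) (by decide) (by decide) (by decide)
      have k7 : qc5_N 7 6 10 e g 7 = 0 := qc5_off (by decide)
      have k8 : qc5_N 7 6 10 e g 8 = 0 := qc5_off (by decide)
      have k9 : qc5_N 7 6 10 e g 9 = max 0 (2 * e 9 - g 8 - g 9) :=
        qc5_gen 8 (by decide) (by decide) (by decide)
      have k10 : qc5_N 7 6 10 e g 10 = max 0 (2 * e 10 - g 9 - g 10 + (e 7 + e 8 - g 7)) :=
        qc5_sp 9 8 (by decide) (by decide) (by decide) (by decide)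
      rw [qc5_phi, k0, k1, k2, k3, k4, k5, k6, k7, k8, k9, k10] at K
      clear k0 k1 k2 k3 k4 k5 k6 k7 k8 k9 k10
      have m0 : max 0 (2 * e 0 - g 10 - g 0) ≤ 0 := max_le (le_refl _) (by linarith)
      have m1 : max 0 (2 * e 1 - g 0 - g 1) ≤ 2 * e 1 - g 0 - g 1 := max_le (by linarith) (le_refl _)
      have m2 : max 0 (2 * e 2 - g 1 - g 2) ≤ 2 * e 2 - g 1 - g 2 := max_le (by linarith) (le_refl _)
      have m3 : max 0 (2 * e 3 - g 2 - g 3) ≤ 2 * e 3 - g 2 - g 3 := max_le (by linarith) (le_refl _)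
      have m4 : max 0 (2 * e 4 - g 3 - g 4) ≤ 2 * e 4 - g 3 - g 4 := max_le (by linarith) (le_refl _)
      have m5 : max 0 (2 * e 5 - g 4 - g 5) ≤ 2 * e 5 - g 4 - g 5 := max_le (by linarith) (le_refl _)
      have m6 : max 0 (2 * e 6 - g 5 - g 6 + (e 7 + e 8 - g 7)) ≤ 2 * e 6 - g 5 - g 6 + (e 7 + e 8 - g 7) := max_le (by linarith) (le_refl _)
      rcases le_total 0 (2 * e 9 - g 8 - g 9) with r | r
      · rw [max_eq_right r] at K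
        rcases le_total 0 (2 * e 10 - g 9 - g 10 + (e 7 + e 8 - g 7)) with r2 | r2
        · rw [max_eq_right r2] at K
          linarith
        · rw [max_eq_left r2] at K
          linarith
      · rw [max_eq_left r] at K
        rcases le_total 0 (2 * e 10 - g 9 - g 10 + (e 7 + e 8 - g 7)) with r2 | r2
        · rw [max_eq_right r2] at K
          linarith
        · rw [max_eq_left r2] at K
          linarith
    have z0 : g 0 = 0 := by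
      have K := hz 6 (by decide) 0 (by decide) (by decide)
      have k0 : qc5_N 7 6 0 e g 0 = max 0 (2 * e 0 - g 10 - g 0 + (e 7 + e 8 - g 7)) :=
        qc5_sp 10 8 (by decide) (by decide) (by decide) (by decide)
      have k1 : qc5_N 7 6 0 e g 1 = max 0 (2 * e 1 - g 0 - g 1) :=
        qc5_gen 0 (by decide) (by decide) (by decide)
      have k2 : qc5_N 7 6 0 e g 2 = max 0 (2 * e 2 - g 1 - g 2) :=
        qc5_gen 1 (by decide) (by decide) (by decide)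
      have k3 : qc5_N 7 6 0 e g 3 = max 0 (2 * e 3 - g 2 - g 3) :=
        qc5_gen 2 (by decide) (by decide) (by decide)
      have k4 : qc5_N 7 6 0 e g 4 = max 0 (2 * e 4 - g 3 - g 4) :=
        qc5_gen 3 (by decide) (by decide) (by decide)
      have k5 : qc5_N 7 6 0 e g 5 = max 0 (2 * e 5 - g 4 - g 5) :=
        qc5_gen 4 (by decide) (by decide) (by decide)
      have k6 : qc5_N 7 6 0 e g 6 = max 0 (2 * e 6 - g 5 - g 6 + (e 7 + e 8 - g 7)) :=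
        qc5_sp 5 8 (by decide) (by decide) (by decide) (by decide)
      have k7 : qc5_N 7 6 0 e g 7 = 0 := qc5_off (by decide)
      have k8 : qc5_N 7 6 0 e g 8 = 0 := qc5_off (by decide)
      have k9 : qc5_N 7 6 0 e g 9 = max 0 (2 * e 9 - g 8 - g 9) :=
        qc5_gen 8 (by decide) (by decide) (by decide)
      have k10 : qc5_N 7 6 0 e g 10 = max 0 (2 * e 10 - g 9 - g 10) :=
        qc5_gen 9 (by decide) (by decide) (by decide)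
      rw [qc5_phi, k0, k1, k2, k3, k4, k5, k6, k7, k8, k9, k10] at K
      clear k0 k1 k2 k3 k4 k5 k6 k7 k8 k9 k10
      have m1 : max 0 (2 * e 1 - g 0 - g 1) ≤ 2 * e 1 - g 0 - g 1 := max_le (by linarith) (le_refl _)
      have m2 : max 0 (2 * e 2 - g 1 - g 2) ≤ 2 * e 2 - g 1 - g 2 := max_le (by linarith) (le_refl _)
      have m3 : max 0 (2 * e 3 - g 2 - g 3) ≤ 2 * e 3 - g 2 - g 3 := max_le (by linarith) (le_refl _)
      have m4 : max 0 (2 * e 4 - g 3 - g 4) ≤ 2 * e 4 - g 3 - g 4 := max_le (by linarith) (le_refl _)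
      have m5 : max 0 (2 * e 5 - g 4 - g 5) ≤ 2 * e 5 - g 4 - g 5 := max_le (by linarith) (le_refl _)
      have m6 : max 0 (2 * e 6 - g 5 - g 6 + (e 7 + e 8 - g 7)) ≤ 2 * e 6 - g 5 - g 6 + (e 7 + e 8 - g 7) := max_le (by linarith) (le_refl _)
      have m9 : max 0 (2 * e 9 - g 8 - g 9) ≤ 2 * e 9 - g 8 - g 9 := max_le (by linarith) (le_refl _)
      have m10 : max 0 (2 * e 10 - g 9 - g 10) ≤ 0 := max_le (le_refl _) (by linarith)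
      rcases le_total 0 (2 * e 0 - g 10 - g 0 + (e 7 + e 8 - g 7)) with r2 | r2
      · rw [max_eq_right r2] at K
        linarith
      · rw [max_eq_left r2] at K
        linarith
    left
    exact qc5_all (P := fun l => l ∈ ib 7 → g l = 0) (fun _ => z0) (fun _ => z1) (fun _ => z2) (fun _ => z3) (fun _ => z4) (fun _ => z5) (fun hh => absurd hh (by decide)) (fun _ => z7) (fun hh => absurd hh (by decide)) (fun _ => z9) (fun _ => z10)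
  · obtain ⟨f8', w9⟩ := qc5_full2 t9 f7 p8 gu8
    have f8 : g 8 = e 8 + e 9 := f8'
    have f9 : g 9 = e 9 + e 10 := by linarith
    obtain ⟨f6', w5⟩ := qc5_full3 t6 f7 p7 gu6
    have f6 : g 6 = e 6 + e 7 := f6'
    have f5 : g 5 = e 5 + e 6 := s5.resolve_left (fun hh => by linarith)
    have f4 : g 4 = e 4 + e 5 := j5.2.2.2 f5
    have f3 : g 3 = e 3 + e 4 := j4.2.2.2 f4
    have f2 : g 2 = e 2 + e 3 := j3.2.2.2 f3
    have f1 : g 1 = e 1 + e 2 := j2.2.2.2 f2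
    have f0' : g 0 = e 1 := qc5_end1 p2 (by linarith) f1 t1
    have f0 : g 0 = e 0 + e 1 := by linarith
    have f10 : g 10 = e 10 + e 0 := by linarith
    right
    exact qc5_all f0 f1 f2 f3 f4 f5 f6 f7 f8 f9 f10

theorem qc5_b8 {τ : ℝ} (hτ : 0 < τ) {e g : Fin 11 → ℝ} (h : Adm τ e g)
    (hz : ∀ y ∈ nb 8, ∀ z ∈ nb 8, y ≠ z → 0 ≤ phi 8 y z e g) :
    (∀ l ∈ ib 8, g l = 0) ∨ (∀ l, g l = e l + e (l + 1)) := by
  have e0z : e 0 = 0 := h.e0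
  have e10z : e 10 = 0 := h.e10
  have p1 : 0 < e 1 := lt_of_lt_of_le hτ (h.e1 1 (by decide) (by decide))
  have p2 : 0 < e 2 := lt_of_lt_of_le hτ (h.e1 2 (by decide) (by decide))
  have p3 : 0 < e 3 := lt_of_lt_of_le hτ (h.e1 3 (by decide) (by decide))
  have p4 : 0 < e 4 := lt_of_lt_of_le hτ (h.e1 4 (by decide) (by decide))
  have p5 : 0 < e 5 := lt_of_lt_of_le hτ (h.e1 5 (by decide) (by decide))
  have p6 : 0 < e 6 := lt_of_lt_of_le hτ (h.e1 6 (by decide) (by decide))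
  have p7 : 0 < e 7 := lt_of_lt_of_le hτ (h.e1 7 (by decide) (by decide))
  have p8 : 0 < e 8 := lt_of_lt_of_le hτ (h.e1 8 (by decide) (by decide))
  have p9 : 0 < e 9 := lt_of_lt_of_le hτ (h.e1 9 (by decide) (by decide))
  have gz0 : 0 ≤ g 0 := h.g0 0
  have gu0 : g 0 ≤ e 0 + e 1 := h.g1 0
  have gz1 : 0 ≤ g 1 := h.g0 1
  have gu1 : g 1 ≤ e 1 + e 2 := h.g1 1
  have gz2 : 0 ≤ g 2 := h.g0 2
  have gu2 : g 2 ≤ e 2 + e 3 := h.g1 2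
  have gz3 : 0 ≤ g 3 := h.g0 3
  have gu3 : g 3 ≤ e 3 + e 4 := h.g1 3
  have gz4 : 0 ≤ g 4 := h.g0 4
  have gu4 : g 4 ≤ e 4 + e 5 := h.g1 4
  have gz5 : 0 ≤ g 5 := h.g0 5
  have gu5 : g 5 ≤ e 5 + e 6 := h.g1 5
  have gz6 : 0 ≤ g 6 := h.g0 6
  have gu6 : g 6 ≤ e 6 + e 7 := h.g1 6
  have gz7 : 0 ≤ g 7 := h.g0 7
  have gu7 : g 7 ≤ e 7 + e 8 := h.g1 7
  have gz8 : 0 ≤ g 8 := h.g0 8
  have gu8 : g 8 ≤ e 8 + e 9 := h.g1 8
  have gz9 : 0 ≤ g 9 := h.g0 9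
  have gu9 : g 9 ≤ e 9 + e 10 := h.g1 9
  have gz10 : 0 ≤ g 10 := h.g0 10
  have gu10 : g 10 ≤ e 10 + e 0 := h.g1 10
  have g10z : g 10 = 0 := by linarith
  have H := hz 7 (by decide) 10 (by decide) (by decide)
  have n0 : qc5_N 8 7 10 e g 0 = max 0 (2 * e 0 - g 10 - g 0) :=
    qc5_gen 10 (by decide) (by decide) (by decide)
  have n1 : qc5_N 8 7 10 e g 1 = max 0 (2 * e 1 - g 0 - g 1) :=
    qc5_gen 0 (by decide) (by decide) (by decide)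
  have n2 : qc5_N 8 7 10 e g 2 = max 0 (2 * e 2 - g 1 - g 2) :=
    qc5_gen 1 (by decide) (by decide) (by decide)
  have n3 : qc5_N 8 7 10 e g 3 = max 0 (2 * e 3 - g 2 - g 3) :=
    qc5_gen 2 (by decide) (by decide) (by decide)
  have n4 : qc5_N 8 7 10 e g 4 = max 0 (2 * e 4 - g 3 - g 4) :=
    qc5_gen 3 (by decide) (by decide) (by decide)
  have n5 : qc5_N 8 7 10 e g 5 = max 0 (2 * e 5 - g 4 - g 5) :=
    qc5_gen 4 (by decide) (by decide) (by decide)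
  have n6 : qc5_N 8 7 10 e g 6 = max 0 (2 * e 6 - g 5 - g 6) :=
    qc5_gen 5 (by decide) (by decide) (by decide)
  have n7 : qc5_N 8 7 10 e g 7 = max 0 (2 * e 7 - g 6 - g 7 + (e 8 + e 9 - g 8)) :=
    qc5_sp 6 9 (by decide) (by decide) (by decide) (by decide)
  have n8 : qc5_N 8 7 10 e g 8 = 0 := qc5_off (by decide)
  have n9 : qc5_N 8 7 10 e g 9 = 0 := qc5_off (by decide)
  have n10 : qc5_N 8 7 10 e g 10 = max 0 (2 * e 10 - g 9 - g 10 + (e 8 + e 9 - g 8)) :=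
    qc5_sp 9 9 (by decide) (by decide) (by decide) (by decide)
  rw [qc5_phi, n0, n1, n2, n3, n4, n5, n6, n7, n8, n9, n10] at H
  clear n0 n1 n2 n3 n4 n5 n6 n7 n8 n9 n10
  have U0 := qc5_U (e 0) (g 10) (g 0)
  have U1 := qc5_U (e 1) (g 0) (g 1)
  have U2 := qc5_U (e 2) (g 1) (g 2)
  have U3 := qc5_U (e 3) (g 2) (g 3)
  have U4 := qc5_U (e 4) (g 3) (g 4)
  have U5 := qc5_U (e 5) (g 4) (g 5)
  have U6 := qc5_U (e 6) (g 5) (g 6)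
  have U7 := qc5_U3 (c := e 7) (gp := g 6) (gl := g 7) (eb := e 8) (eb1 := e 9) (gb := g 8) gu7
  have U10 := qc5_U2 (c := e 10) (gp := g 9) (gl := g 10) (eb := e 8) (eb1 := e 9) (gb := g 8) gu9
  have E0 := qc5_E e0z.ge p1.le gz0 gu0
  have E1 := qc5_E p1.le p2.le gz1 gu1
  have E2 := qc5_E p2.le p3.le gz2 gu2
  have E3 := qc5_E p3.le p4.le gz3 gu3
  have E4 := qc5_E p4.le p5.le gz4 gu4
  have E5 := qc5_E p5.le p6.le gz5 gu5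
  have E6 := qc5_E p6.le p7.le gz6 gu6
  have E8 := qc5_E p8.le p9.le gz8 gu8
  have E10 := qc5_E e10z.ge e0z.ge gz10 gu10
  obtain ⟨d0, D0⟩ : ∃ d : ℝ, d = max 0 (e 0 - g 10) + max 0 (e 0 - g 0) -
      max 0 (2 * e 0 - g 10 - g 0) := ⟨_, rfl⟩
  have hd0 : 0 ≤ d0 := by linarith only [U0, D0]
  obtain ⟨d1, D1⟩ : ∃ d : ℝ, d = max 0 (e 1 - g 0) + max 0 (e 1 - g 1) -
      max 0 (2 * e 1 - g 0 - g 1) := ⟨_, rfl⟩
  have hd1 : 0 ≤ d1 := by linarith only [U1, D1]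
  obtain ⟨d2, D2⟩ : ∃ d : ℝ, d = max 0 (e 2 - g 1) + max 0 (e 2 - g 2) -
      max 0 (2 * e 2 - g 1 - g 2) := ⟨_, rfl⟩
  have hd2 : 0 ≤ d2 := by linarith only [U2, D2]
  obtain ⟨d3, D3⟩ : ∃ d : ℝ, d = max 0 (e 3 - g 2) + max 0 (e 3 - g 3) -
      max 0 (2 * e 3 - g 2 - g 3) := ⟨_, rfl⟩
  have hd3 : 0 ≤ d3 := by linarith only [U3, D3]
  obtain ⟨d4, D4⟩ : ∃ d : ℝ, d = max 0 (e 4 - g 3) + max 0 (e 4 - g 4) -
      max 0 (2 * e 4 - g 3 - g 4) := ⟨_, rfl⟩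
  have hd4 : 0 ≤ d4 := by linarith only [U4, D4]
  obtain ⟨d5, D5⟩ : ∃ d : ℝ, d = max 0 (e 5 - g 4) + max 0 (e 5 - g 5) -
      max 0 (2 * e 5 - g 4 - g 5) := ⟨_, rfl⟩
  have hd5 : 0 ≤ d5 := by linarith only [U5, D5]
  obtain ⟨d6, D6⟩ : ∃ d : ℝ, d = max 0 (e 6 - g 5) + max 0 (e 6 - g 6) -
      max 0 (2 * e 6 - g 5 - g 6) := ⟨_, rfl⟩
  have hd6 : 0 ≤ d6 := by linarith only [U6, D6]
  obtain ⟨d7, D7⟩ : ∃ d : ℝ, d = max 0 (e 9 - g 8) + (e 7 + e 8 - g 7) + max 0 (e 7 - g 6) -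
      max 0 (2 * e 7 - g 6 - g 7 + (e 8 + e 9 - g 8)) := ⟨_, rfl⟩
  have hd7 : 0 ≤ d7 := by linarith only [U7, D7]
  obtain ⟨d10, D10⟩ : ∃ d : ℝ, d = max 0 (e 8 - g 8) + (e 9 + e 10 - g 9) + max 0 (e 10 - g 10) -
      max 0 (2 * e 10 - g 9 - g 10 + (e 8 + e 9 - g 8)) := ⟨_, rfl⟩
  have hd10 : 0 ≤ d10 := by linarith only [U10, D10]
  obtain ⟨c0, C0⟩ : ∃ c : ℝ, c = e 0 + e 1 - g 0 - (max 0 (e 0 - g 0) + max 0 (e 1 - g 0)) := ⟨_, rfl⟩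
  have hc0 : 0 ≤ c0 := by linarith only [E0, C0]
  obtain ⟨c1, C1⟩ : ∃ c : ℝ, c = e 1 + e 2 - g 1 - (max 0 (e 1 - g 1) + max 0 (e 2 - g 1)) := ⟨_, rfl⟩
  have hc1 : 0 ≤ c1 := by linarith only [E1, C1]
  obtain ⟨c2, C2⟩ : ∃ c : ℝ, c = e 2 + e 3 - g 2 - (max 0 (e 2 - g 2) + max 0 (e 3 - g 2)) := ⟨_, rfl⟩
  have hc2 : 0 ≤ c2 := by linarith only [E2, C2]
  obtain ⟨c3, C3⟩ : ∃ c : ℝ, c = e 3 + e 4 - g 3 - (max 0 (e 3 - g 3) + max 0 (e 4 - g 3)) := ⟨_, rfl⟩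
  have hc3 : 0 ≤ c3 := by linarith only [E3, C3]
  obtain ⟨c4, C4⟩ : ∃ c : ℝ, c = e 4 + e 5 - g 4 - (max 0 (e 4 - g 4) + max 0 (e 5 - g 4)) := ⟨_, rfl⟩
  have hc4 : 0 ≤ c4 := by linarith only [E4, C4]
  obtain ⟨c5, C5⟩ : ∃ c : ℝ, c = e 5 + e 6 - g 5 - (max 0 (e 5 - g 5) + max 0 (e 6 - g 5)) := ⟨_, rfl⟩
  have hc5 : 0 ≤ c5 := by linarith only [E5, C5]
  obtain ⟨c6, C6⟩ : ∃ c : ℝ, c = e 6 + e 7 - g 6 - (max 0 (e 6 - g 6) + max 0 (e 7 - g 6)) := ⟨_, rfl⟩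
  have hc6 : 0 ≤ c6 := by linarith only [E6, C6]
  obtain ⟨c8, C8⟩ : ∃ c : ℝ, c = e 8 + e 9 - g 8 - (max 0 (e 8 - g 8) + max 0 (e 9 - g 8)) := ⟨_, rfl⟩
  have hc8 : 0 ≤ c8 := by linarith only [E8, C8]
  obtain ⟨c10, C10⟩ : ∃ c : ℝ, c = e 10 + e 0 - g 10 - (max 0 (e 10 - g 10) + max 0 (e 0 - g 10)) := ⟨_, rfl⟩
  have hc10 : 0 ≤ c10 := by linarith only [E10, C10]
  have K0 : d0 + d1 + d2 + d3 + d4 + d5 + d6 + d7 + d10 + c0 + c1 + c2 + c3 + c4 + c5 + c6 + c8 + c10 ≤ 0 := by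
    linarith only [H, D0, D1, D2, D3, D4, D5, D6, D7, D10, C0, C1, C2, C3, C4, C5, C6, C8, C10]
  have s1 : g 1 = 0 ∨ g 1 = e 1 + e 2 := qc5_state p1 p2 gz1 gu1 (by
    linarith only [K0, hd0, hd1, hd2, hd3, hd4, hd5, hd6, hd7, hd10, hc0, hc1, hc2, hc3, hc4, hc5, hc6, hc8, hc10, C1])
  have s2 : g 2 = 0 ∨ g 2 = e 2 + e 3 := qc5_state p2 p3 gz2 gu2 (by
    linarith only [K0, hd0, hd1, hd2, hd3, hd4, hd5, hd6, hd7, hd10, hc0, hc1, hc2, hc3, hc4, hc5, hc6, hc8, hc10, C2])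
  have s3 : g 3 = 0 ∨ g 3 = e 3 + e 4 := qc5_state p3 p4 gz3 gu3 (by
    linarith only [K0, hd0, hd1, hd2, hd3, hd4, hd5, hd6, hd7, hd10, hc0, hc1, hc2, hc3, hc4, hc5, hc6, hc8, hc10, C3])
  have s4 : g 4 = 0 ∨ g 4 = e 4 + e 5 := qc5_state p4 p5 gz4 gu4 (by
    linarith only [K0, hd0, hd1, hd2, hd3, hd4, hd5, hd6, hd7, hd10, hc0, hc1, hc2, hc3, hc4, hc5, hc6, hc8, hc10, C4])
  have s5 : g 5 = 0 ∨ g 5 = e 5 + e 6 := qc5_state p5 p6 gz5 gu5 (by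
    linarith only [K0, hd0, hd1, hd2, hd3, hd4, hd5, hd6, hd7, hd10, hc0, hc1, hc2, hc3, hc4, hc5, hc6, hc8, hc10, C5])
  have s6 : g 6 = 0 ∨ g 6 = e 6 + e 7 := qc5_state p6 p7 gz6 gu6 (by
    linarith only [K0, hd0, hd1, hd2, hd3, hd4, hd5, hd6, hd7, hd10, hc0, hc1, hc2, hc3, hc4, hc5, hc6, hc8, hc10, C6])
  have s8 : g 8 = 0 ∨ g 8 = e 8 + e 9 := qc5_state p8 p9 gz8 gu8 (by
    linarith only [K0, hd0, hd1, hd2, hd3, hd4, hd5, hd6, hd7, hd10, hc0, hc1, hc2, hc3, hc4, hc5, hc6, hc8, hc10, C8])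
  have t1 : max 0 (e 1 - g 0) + max 0 (e 1 - g 1) ≤ max 0 (2 * e 1 - g 0 - g 1) := by
    linarith only [K0, hd0, hd1, hd2, hd3, hd4, hd5, hd6, hd7, hd10, hc0, hc1, hc2, hc3, hc4, hc5, hc6, hc8, hc10, D1]
  have t2 : max 0 (e 2 - g 1) + max 0 (e 2 - g 2) ≤ max 0 (2 * e 2 - g 1 - g 2) := by
    linarith only [K0, hd0, hd1, hd2, hd3, hd4, hd5, hd6, hd7, hd10, hc0, hc1, hc2, hc3, hc4, hc5, hc6, hc8, hc10, D2]
  have j2 := qc5_joint p1 p2 p3 s1 s2 t2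
  have t3 : max 0 (e 3 - g 2) + max 0 (e 3 - g 3) ≤ max 0 (2 * e 3 - g 2 - g 3) := by
    linarith only [K0, hd0, hd1, hd2, hd3, hd4, hd5, hd6, hd7, hd10, hc0, hc1, hc2, hc3, hc4, hc5, hc6, hc8, hc10, D3]
  have j3 := qc5_joint p2 p3 p4 s2 s3 t3
  have t4 : max 0 (e 4 - g 3) + max 0 (e 4 - g 4) ≤ max 0 (2 * e 4 - g 3 - g 4) := by
    linarith only [K0, hd0, hd1, hd2, hd3, hd4, hd5, hd6, hd7, hd10, hc0, hc1, hc2, hc3, hc4, hc5, hc6, hc8, hc10, D4]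
  have j4 := qc5_joint p3 p4 p5 s3 s4 t4
  have t5 : max 0 (e 5 - g 4) + max 0 (e 5 - g 5) ≤ max 0 (2 * e 5 - g 4 - g 5) := by
    linarith only [K0, hd0, hd1, hd2, hd3, hd4, hd5, hd6, hd7, hd10, hc0, hc1, hc2, hc3, hc4, hc5, hc6, hc8, hc10, D5]
  have j5 := qc5_joint p4 p5 p6 s4 s5 t5
  have t6 : max 0 (e 6 - g 5) + max 0 (e 6 - g 6) ≤ max 0 (2 * e 6 - g 5 - g 6) := by
    linarith only [K0, hd0, hd1, hd2, hd3, hd4, hd5, hd6, hd7, hd10, hc0, hc1, hc2, hc3, hc4, hc5, hc6, hc8, hc10, D6]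
  have j6 := qc5_joint p5 p6 p7 s5 s6 t6
  have t7 : max 0 (e 9 - g 8) + (e 7 + e 8 - g 7) + max 0 (e 7 - g 6) ≤
      max 0 (2 * e 7 - g 6 - g 7 + (e 8 + e 9 - g 8)) := by
    linarith only [K0, hd0, hd1, hd2, hd3, hd4, hd5, hd6, hd7, hd10, hc0, hc1, hc2, hc3, hc4, hc5, hc6, hc8, hc10, D7]
  have t10 : max 0 (e 8 - g 8) + (e 9 + e 10 - g 9) + max 0 (e 10 - g 10) ≤
      max 0 (2 * e 10 - g 9 - g 10 + (e 8 + e 9 - g 8)) := by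
    linarith only [K0, hd0, hd1, hd2, hd3, hd4, hd5, hd6, hd7, hd10, hc0, hc1, hc2, hc3, hc4, hc5, hc6, hc8, hc10, D10]
  clear K0 H U0 U1 U2 U3 U4 U5 U6 U7 U10 E0 E1 E2 E3 E4 E5 E6 E8 E10 D0 D1 D2 D3 D4 D5 D6 D7 D10 C0 C1 C2 C3 C4 C5 C6 C8 C10 hd0 hd1 hd2 hd3 hd4 hd5 hd6 hd7 hd10 hc0 hc1 hc2 hc3 hc4 hc5 hc6 hc8 hc10
  have o21 : 4 * e 2 ≤ e 1 := h.eo 2 1 (by decide) (by decide)
  have o23 : 4 * e 2 ≤ e 3 := h.eo 2 3 (by decide) (by decide)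
  have o43 : 4 * e 4 ≤ e 3 := h.eo 4 3 (by decide) (by decide)
  have o45 : 4 * e 4 ≤ e 5 := h.eo 4 5 (by decide) (by decide)
  have o65 : 4 * e 6 ≤ e 5 := h.eo 6 5 (by decide) (by decide)
  have o67 : 4 * e 6 ≤ e 7 := h.eo 6 7 (by decide) (by decide)
  have o87 : 4 * e 8 ≤ e 7 := h.eo 8 7 (by decide) (by decide)
  have o89 : 4 * e 8 ≤ e 9 := h.eo 8 9 (by decide) (by decide)
  rcases s8 with z8 | f8
  · have w6 := qc5_empty3 t7 z8 p9 gu7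
    have z6 : g 6 = 0 := s6.resolve_right (fun hh => by linarith)
    have z5 : g 5 = 0 := j6.2.1 z6
    have z4 : g 4 = 0 := j5.2.1 z5
    have z3 : g 3 = 0 := j4.2.1 z4
    have z2 : g 2 = 0 := j3.2.1 z3
    have z1 : g 1 = 0 := j2.2.1 z2
    have z10 := g10z
    have z0 : g 0 = 0 := by
      have K := hz 10 (by decide) 0 (by decide) (by decide)
      have k0 : qc5_N 8 10 0 e g 0 = max 0 (2 * e 0 - g 10 - g 0 + (e 8 + e 9 - g 8)) :=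
        qc5_sp 10 9 (by decide) (by decide) (by decide) (by decide)
      have k1 : qc5_N 8 10 0 e g 1 = max 0 (2 * e 1 - g 0 - g 1) :=
        qc5_gen 0 (by decide) (by decide) (by decide)
      have k2 : qc5_N 8 10 0 e g 2 = max 0 (2 * e 2 - g 1 - g 2) :=
        qc5_gen 1 (by decide) (by decide) (by decide)
      have k3 : qc5_N 8 10 0 e g 3 = max 0 (2 * e 3 - g 2 - g 3) :=
        qc5_gen 2 (by decide) (by decide) (by decide)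
      have k4 : qc5_N 8 10 0 e g 4 = max 0 (2 * e 4 - g 3 - g 4) :=
        qc5_gen 3 (by decide) (by decide) (by decide)
      have k5 : qc5_N 8 10 0 e g 5 = max 0 (2 * e 5 - g 4 - g 5) :=
        qc5_gen 4 (by decide) (by decide) (by decide)
      have k6 : qc5_N 8 10 0 e g 6 = max 0 (2 * e 6 - g 5 - g 6) :=
        qc5_gen 5 (by decide) (by decide) (by decide)
      have k7 : qc5_N 8 10 0 e g 7 = max 0 (2 * e 7 - g 6 - g 7) :=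
        qc5_gen 6 (by decide) (by decide) (by decide)
      have k8 : qc5_N 8 10 0 e g 8 = 0 := qc5_off (by decide)
      have k9 : qc5_N 8 10 0 e g 9 = 0 := qc5_off (by decide)
      have k10 : qc5_N 8 10 0 e g 10 = max 0 (2 * e 10 - g 9 - g 10 + (e 8 + e 9 - g 8)) :=
        qc5_sp 9 9 (by decide) (by decide) (by decide) (by decide)
      rw [qc5_phi, k0, k1, k2, k3, k4, k5, k6, k7, k8, k9, k10] at K
      clear k0 k1 k2 k3 k4 k5 k6 k7 k8 k9 k10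
      have m1 : max 0 (2 * e 1 - g 0 - g 1) ≤ 2 * e 1 - g 0 - g 1 := max_le (by linarith) (le_refl _)
      have m2 : max 0 (2 * e 2 - g 1 - g 2) ≤ 2 * e 2 - g 1 - g 2 := max_le (by linarith) (le_refl _)
      have m3 : max 0 (2 * e 3 - g 2 - g 3) ≤ 2 * e 3 - g 2 - g 3 := max_le (by linarith) (le_refl _)
      have m4 : max 0 (2 * e 4 - g 3 - g 4) ≤ 2 * e 4 - g 3 - g 4 := max_le (by linarith) (le_refl _)
      have m5 : max 0 (2 * e 5 - g 4 - g 5) ≤ 2 * e 5 - g 4 - g 5 := max_le (by linarith) (le_refl _)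
      have m6 : max 0 (2 * e 6 - g 5 - g 6) ≤ 2 * e 6 - g 5 - g 6 := max_le (by linarith) (le_refl _)
      have m7 : max 0 (2 * e 7 - g 6 - g 7) ≤ 2 * e 7 - g 6 - g 7 := max_le (by linarith) (le_refl _)
      have m10 : max 0 (2 * e 10 - g 9 - g 10 + (e 8 + e 9 - g 8)) ≤ 2 * e 10 - g 9 - g 10 + (e 8 + e 9 - g 8) := max_le (by linarith) (le_refl _)
      rcases le_total 0 (2 * e 0 - g 10 - g 0 + (e 8 + e 9 - g 8)) with r2 | r2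
      · rw [max_eq_right r2] at K
        linarith
      · rw [max_eq_left r2] at K
        linarith
    left
    exact qc5_all (P := fun l => l ∈ ib 8 → g l = 0) (fun _ => z0) (fun _ => z1) (fun _ => z2) (fun _ => z3) (fun _ => z4) (fun _ => z5) (fun _ => z6) (fun hh => absurd hh (by decide)) (fun _ => z8) (fun hh => absurd hh (by decide)) (fun _ => z10)
  · obtain ⟨f7', w6⟩ := qc5_full3 t7 f8 p8 gu7
    have f7 : g 7 = e 7 + e 8 := f7'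
    have f6 : g 6 = e 6 + e 7 := s6.resolve_left (fun hh => by linarith)
    have f5 : g 5 = e 5 + e 6 := j6.2.2.2 f6
    have f4 : g 4 = e 4 + e 5 := j5.2.2.2 f5
    have f3 : g 3 = e 3 + e 4 := j4.2.2.2 f4
    have f2 : g 2 = e 2 + e 3 := j3.2.2.2 f3
    have f1 : g 1 = e 1 + e 2 := j2.2.2.2 f2
    have f0' : g 0 = e 1 := qc5_end1 p2 (by linarith) f1 t1
    have f0 : g 0 = e 0 + e 1 := by linarith
    obtain ⟨f9, w10⟩ := qc5_full2 t10 f8 p9 gu9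
    have f10 : g 10 = e 10 + e 0 := by linarith
    right
    exact qc5_all f0 f1 f2 f3 f4 f5 f6 f7 f8 f9 f10

theorem qc5_b9 {τ : ℝ} (hτ : 0 < τ) {e g : Fin 11 → ℝ} (h : Adm τ e g)
    (hz : ∀ y ∈ nb 9, ∀ z ∈ nb 9, y ≠ z → 0 ≤ phi 9 y z e g) :
    (∀ l ∈ ib 9, g l = 0) ∨ (∀ l, g l = e l + e (l + 1)) := by
  have e0z : e 0 = 0 := h.e0
  have e10z : e 10 = 0 := h.e10
  have p1 : 0 < e 1 := lt_of_lt_of_le hτ (h.e1 1 (by decide) (by decide))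
  have p2 : 0 < e 2 := lt_of_lt_of_le hτ (h.e1 2 (by decide) (by decide))
  have p3 : 0 < e 3 := lt_of_lt_of_le hτ (h.e1 3 (by decide) (by decide))
  have p4 : 0 < e 4 := lt_of_lt_of_le hτ (h.e1 4 (by decide) (by decide))
  have p5 : 0 < e 5 := lt_of_lt_of_le hτ (h.e1 5 (by decide) (by decide))
  have p6 : 0 < e 6 := lt_of_lt_of_le hτ (h.e1 6 (by decide) (by decide))
  have p7 : 0 < e 7 := lt_of_lt_of_le hτ (h.e1 7 (by decide) (by decide))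
  have p8 : 0 < e 8 := lt_of_lt_of_le hτ (h.e1 8 (by decide) (by decide))
  have p9 : 0 < e 9 := lt_of_lt_of_le hτ (h.e1 9 (by decide) (by decide))
  have gz0 : 0 ≤ g 0 := h.g0 0
  have gu0 : g 0 ≤ e 0 + e 1 := h.g1 0
  have gz1 : 0 ≤ g 1 := h.g0 1
  have gu1 : g 1 ≤ e 1 + e 2 := h.g1 1
  have gz2 : 0 ≤ g 2 := h.g0 2
  have gu2 : g 2 ≤ e 2 + e 3 := h.g1 2
  have gz3 : 0 ≤ g 3 := h.g0 3
  have gu3 : g 3 ≤ e 3 + e 4 := h.g1 3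
  have gz4 : 0 ≤ g 4 := h.g0 4
  have gu4 : g 4 ≤ e 4 + e 5 := h.g1 4
  have gz5 : 0 ≤ g 5 := h.g0 5
  have gu5 : g 5 ≤ e 5 + e 6 := h.g1 5
  have gz6 : 0 ≤ g 6 := h.g0 6
  have gu6 : g 6 ≤ e 6 + e 7 := h.g1 6
  have gz7 : 0 ≤ g 7 := h.g0 7
  have gu7 : g 7 ≤ e 7 + e 8 := h.g1 7
  have gz8 : 0 ≤ g 8 := h.g0 8
  have gu8 : g 8 ≤ e 8 + e 9 := h.g1 8
  have gz9 : 0 ≤ g 9 := h.g0 9
  have gu9 : g 9 ≤ e 9 + e 10 := h.g1 9
  have gz10 : 0 ≤ g 10 := h.g0 10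
  have gu10 : g 10 ≤ e 10 + e 0 := h.g1 10
  have g10z : g 10 = 0 := by linarith
  have H := hz 8 (by decide) 0 (by decide) (by decide)
  have n0 : qc5_N 9 8 0 e g 0 = max 0 (2 * e 0 - g 10 - g 0 + (e 9 + e 10 - g 9)) :=
    qc5_sp 10 10 (by decide) (by decide) (by decide) (by decide)
  have n1 : qc5_N 9 8 0 e g 1 = max 0 (2 * e 1 - g 0 - g 1) :=
    qc5_gen 0 (by decide) (by decide) (by decide)
  have n2 : qc5_N 9 8 0 e g 2 = max 0 (2 * e 2 - g 1 - g 2) :=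
    qc5_gen 1 (by decide) (by decide) (by decide)
  have n3 : qc5_N 9 8 0 e g 3 = max 0 (2 * e 3 - g 2 - g 3) :=
    qc5_gen 2 (by decide) (by decide) (by decide)
  have n4 : qc5_N 9 8 0 e g 4 = max 0 (2 * e 4 - g 3 - g 4) :=
    qc5_gen 3 (by decide) (by decide) (by decide)
  have n5 : qc5_N 9 8 0 e g 5 = max 0 (2 * e 5 - g 4 - g 5) :=
    qc5_gen 4 (by decide) (by decide) (by decide)
  have n6 : qc5_N 9 8 0 e g 6 = max 0 (2 * e 6 - g 5 - g 6) :=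
    qc5_gen 5 (by decide) (by decide) (by decide)
  have n7 : qc5_N 9 8 0 e g 7 = max 0 (2 * e 7 - g 6 - g 7) :=
    qc5_gen 6 (by decide) (by decide) (by decide)
  have n8 : qc5_N 9 8 0 e g 8 = max 0 (2 * e 8 - g 7 - g 8 + (e 9 + e 10 - g 9)) :=
    qc5_sp 7 10 (by decide) (by decide) (by decide) (by decide)
  have n9 : qc5_N 9 8 0 e g 9 = 0 := qc5_off (by decide)
  have n10 : qc5_N 9 8 0 e g 10 = 0 := qc5_off (by decide)
  rw [qc5_phi, n0, n1, n2, n3, n4, n5, n6, n7, n8, n9, n10] at H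
  clear n0 n1 n2 n3 n4 n5 n6 n7 n8 n9 n10
  have U0 := qc5_U2 (c := e 0) (gp := g 10) (gl := g 0) (eb := e 9) (eb1 := e 10) (gb := g 9) gu10
  have U1 := qc5_U (e 1) (g 0) (g 1)
  have U2 := qc5_U (e 2) (g 1) (g 2)
  have U3 := qc5_U (e 3) (g 2) (g 3)
  have U4 := qc5_U (e 4) (g 3) (g 4)
  have U5 := qc5_U (e 5) (g 4) (g 5)
  have U6 := qc5_U (e 6) (g 5) (g 6)
  have U7 := qc5_U (e 7) (g 6) (g 7)
  have U8 := qc5_U3 (c := e 8) (gp := g 7) (gl := g 8) (eb := e 9) (eb1 := e 10) (gb := g 9) gu8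
  have E0 := qc5_E e0z.ge p1.le gz0 gu0
  have E1 := qc5_E p1.le p2.le gz1 gu1
  have E2 := qc5_E p2.le p3.le gz2 gu2
  have E3 := qc5_E p3.le p4.le gz3 gu3
  have E4 := qc5_E p4.le p5.le gz4 gu4
  have E5 := qc5_E p5.le p6.le gz5 gu5
  have E6 := qc5_E p6.le p7.le gz6 gu6
  have E7 := qc5_E p7.le p8.le gz7 gu7
  have E9 := qc5_E p9.le e10z.ge gz9 gu9
  obtain ⟨d0, D0⟩ : ∃ d : ℝ, d = max 0 (e 9 - g 9) + (e 10 + e 0 - g 10) + max 0 (e 0 - g 0) -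
      max 0 (2 * e 0 - g 10 - g 0 + (e 9 + e 10 - g 9)) := ⟨_, rfl⟩
  have hd0 : 0 ≤ d0 := by linarith only [U0, D0]
  obtain ⟨d1, D1⟩ : ∃ d : ℝ, d = max 0 (e 1 - g 0) + max 0 (e 1 - g 1) -
      max 0 (2 * e 1 - g 0 - g 1) := ⟨_, rfl⟩
  have hd1 : 0 ≤ d1 := by linarith only [U1, D1]
  obtain ⟨d2, D2⟩ : ∃ d : ℝ, d = max 0 (e 2 - g 1) + max 0 (e 2 - g 2) -
      max 0 (2 * e 2 - g 1 - g 2) := ⟨_, rfl⟩
  have hd2 : 0 ≤ d2 := by linarith only [U2, D2]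
  obtain ⟨d3, D3⟩ : ∃ d : ℝ, d = max 0 (e 3 - g 2) + max 0 (e 3 - g 3) -
      max 0 (2 * e 3 - g 2 - g 3) := ⟨_, rfl⟩
  have hd3 : 0 ≤ d3 := by linarith only [U3, D3]
  obtain ⟨d4, D4⟩ : ∃ d : ℝ, d = max 0 (e 4 - g 3) + max 0 (e 4 - g 4) -
      max 0 (2 * e 4 - g 3 - g 4) := ⟨_, rfl⟩
  have hd4 : 0 ≤ d4 := by linarith only [U4, D4]
  obtain ⟨d5, D5⟩ : ∃ d : ℝ, d = max 0 (e 5 - g 4) + max 0 (e 5 - g 5) -
      max 0 (2 * e 5 - g 4 - g 5) := ⟨_, rfl⟩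
  have hd5 : 0 ≤ d5 := by linarith only [U5, D5]
  obtain ⟨d6, D6⟩ : ∃ d : ℝ, d = max 0 (e 6 - g 5) + max 0 (e 6 - g 6) -
      max 0 (2 * e 6 - g 5 - g 6) := ⟨_, rfl⟩
  have hd6 : 0 ≤ d6 := by linarith only [U6, D6]
  obtain ⟨d7, D7⟩ : ∃ d : ℝ, d = max 0 (e 7 - g 6) + max 0 (e 7 - g 7) -
      max 0 (2 * e 7 - g 6 - g 7) := ⟨_, rfl⟩
  have hd7 : 0 ≤ d7 := by linarith only [U7, D7]
  obtain ⟨d8, D8⟩ : ∃ d : ℝ, d = max 0 (e 10 - g 9) + (e 8 + e 9 - g 8) + max 0 (e 8 - g 7) -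
      max 0 (2 * e 8 - g 7 - g 8 + (e 9 + e 10 - g 9)) := ⟨_, rfl⟩
  have hd8 : 0 ≤ d8 := by linarith only [U8, D8]
  obtain ⟨c0, C0⟩ : ∃ c : ℝ, c = e 0 + e 1 - g 0 - (max 0 (e 0 - g 0) + max 0 (e 1 - g 0)) := ⟨_, rfl⟩
  have hc0 : 0 ≤ c0 := by linarith only [E0, C0]
  obtain ⟨c1, C1⟩ : ∃ c : ℝ, c = e 1 + e 2 - g 1 - (max 0 (e 1 - g 1) + max 0 (e 2 - g 1)) := ⟨_, rfl⟩
  have hc1 : 0 ≤ c1 := by linarith only [E1, C1]
  obtain ⟨c2, C2⟩ : ∃ c : ℝ, c = e 2 + e 3 - g 2 - (max 0 (e 2 - g 2) + max 0 (e 3 - g 2)) := ⟨_, rfl⟩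
  have hc2 : 0 ≤ c2 := by linarith only [E2, C2]
  obtain ⟨c3, C3⟩ : ∃ c : ℝ, c = e 3 + e 4 - g 3 - (max 0 (e 3 - g 3) + max 0 (e 4 - g 3)) := ⟨_, rfl⟩
  have hc3 : 0 ≤ c3 := by linarith only [E3, C3]
  obtain ⟨c4, C4⟩ : ∃ c : ℝ, c = e 4 + e 5 - g 4 - (max 0 (e 4 - g 4) + max 0 (e 5 - g 4)) := ⟨_, rfl⟩
  have hc4 : 0 ≤ c4 := by linarith only [E4, C4]
  obtain ⟨c5, C5⟩ : ∃ c : ℝ, c = e 5 + e 6 - g 5 - (max 0 (e 5 - g 5) + max 0 (e 6 - g 5)) := ⟨_, rfl⟩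
  have hc5 : 0 ≤ c5 := by linarith only [E5, C5]
  obtain ⟨c6, C6⟩ : ∃ c : ℝ, c = e 6 + e 7 - g 6 - (max 0 (e 6 - g 6) + max 0 (e 7 - g 6)) := ⟨_, rfl⟩
  have hc6 : 0 ≤ c6 := by linarith only [E6, C6]
  obtain ⟨c7, C7⟩ : ∃ c : ℝ, c = e 7 + e 8 - g 7 - (max 0 (e 7 - g 7) + max 0 (e 8 - g 7)) := ⟨_, rfl⟩
  have hc7 : 0 ≤ c7 := by linarith only [E7, C7]
  obtain ⟨c9, C9⟩ : ∃ c : ℝ, c = e 9 + e 10 - g 9 - (max 0 (e 9 - g 9) + max 0 (e 10 - g 9)) := ⟨_, rfl⟩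
  have hc9 : 0 ≤ c9 := by linarith only [E9, C9]
  have K0 : d0 + d1 + d2 + d3 + d4 + d5 + d6 + d7 + d8 + c0 + c1 + c2 + c3 + c4 + c5 + c6 + c7 + c9 ≤ 0 := by
    linarith only [H, D0, D1, D2, D3, D4, D5, D6, D7, D8, C0, C1, C2, C3, C4, C5, C6, C7, C9]
  have s1 : g 1 = 0 ∨ g 1 = e 1 + e 2 := qc5_state p1 p2 gz1 gu1 (by
    linarith only [K0, hd0, hd1, hd2, hd3, hd4, hd5, hd6, hd7, hd8, hc0, hc1, hc2, hc3, hc4, hc5, hc6, hc7, hc9, C1])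
  have s2 : g 2 = 0 ∨ g 2 = e 2 + e 3 := qc5_state p2 p3 gz2 gu2 (by
    linarith only [K0, hd0, hd1, hd2, hd3, hd4, hd5, hd6, hd7, hd8, hc0, hc1, hc2, hc3, hc4, hc5, hc6, hc7, hc9, C2])
  have s3 : g 3 = 0 ∨ g 3 = e 3 + e 4 := qc5_state p3 p4 gz3 gu3 (by
    linarith only [K0, hd0, hd1, hd2, hd3, hd4, hd5, hd6, hd7, hd8, hc0, hc1, hc2, hc3, hc4, hc5, hc6, hc7, hc9, C3])
  have s4 : g 4 = 0 ∨ g 4 = e 4 + e 5 := qc5_state p4 p5 gz4 gu4 (by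
    linarith only [K0, hd0, hd1, hd2, hd3, hd4, hd5, hd6, hd7, hd8, hc0, hc1, hc2, hc3, hc4, hc5, hc6, hc7, hc9, C4])
  have s5 : g 5 = 0 ∨ g 5 = e 5 + e 6 := qc5_state p5 p6 gz5 gu5 (by
    linarith only [K0, hd0, hd1, hd2, hd3, hd4, hd5, hd6, hd7, hd8, hc0, hc1, hc2, hc3, hc4, hc5, hc6, hc7, hc9, C5])
  have s6 : g 6 = 0 ∨ g 6 = e 6 + e 7 := qc5_state p6 p7 gz6 gu6 (by
    linarith only [K0, hd0, hd1, hd2, hd3, hd4, hd5, hd6, hd7, hd8, hc0, hc1, hc2, hc3, hc4, hc5, hc6, hc7, hc9, C6])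
  have s7 : g 7 = 0 ∨ g 7 = e 7 + e 8 := qc5_state p7 p8 gz7 gu7 (by
    linarith only [K0, hd0, hd1, hd2, hd3, hd4, hd5, hd6, hd7, hd8, hc0, hc1, hc2, hc3, hc4, hc5, hc6, hc7, hc9, C7])
  have t0 : max 0 (e 9 - g 9) + (e 10 + e 0 - g 10) + max 0 (e 0 - g 0) ≤
      max 0 (2 * e 0 - g 10 - g 0 + (e 9 + e 10 - g 9)) := by
    linarith only [K0, hd0, hd1, hd2, hd3, hd4, hd5, hd6, hd7, hd8, hc0, hc1, hc2, hc3, hc4, hc5, hc6, hc7, hc9, D0]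
  have t1 : max 0 (e 1 - g 0) + max 0 (e 1 - g 1) ≤ max 0 (2 * e 1 - g 0 - g 1) := by
    linarith only [K0, hd0, hd1, hd2, hd3, hd4, hd5, hd6, hd7, hd8, hc0, hc1, hc2, hc3, hc4, hc5, hc6, hc7, hc9, D1]
  have t2 : max 0 (e 2 - g 1) + max 0 (e 2 - g 2) ≤ max 0 (2 * e 2 - g 1 - g 2) := by
    linarith only [K0, hd0, hd1, hd2, hd3, hd4, hd5, hd6, hd7, hd8, hc0, hc1, hc2, hc3, hc4, hc5, hc6, hc7, hc9, D2]
  have j2 := qc5_joint p1 p2 p3 s1 s2 t2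
  have t3 : max 0 (e 3 - g 2) + max 0 (e 3 - g 3) ≤ max 0 (2 * e 3 - g 2 - g 3) := by
    linarith only [K0, hd0, hd1, hd2, hd3, hd4, hd5, hd6, hd7, hd8, hc0, hc1, hc2, hc3, hc4, hc5, hc6, hc7, hc9, D3]
  have j3 := qc5_joint p2 p3 p4 s2 s3 t3
  have t4 : max 0 (e 4 - g 3) + max 0 (e 4 - g 4) ≤ max 0 (2 * e 4 - g 3 - g 4) := by
    linarith only [K0, hd0, hd1, hd2, hd3, hd4, hd5, hd6, hd7, hd8, hc0, hc1, hc2, hc3, hc4, hc5, hc6, hc7, hc9, D4]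
  have j4 := qc5_joint p3 p4 p5 s3 s4 t4
  have t5 : max 0 (e 5 - g 4) + max 0 (e 5 - g 5) ≤ max 0 (2 * e 5 - g 4 - g 5) := by
    linarith only [K0, hd0, hd1, hd2, hd3, hd4, hd5, hd6, hd7, hd8, hc0, hc1, hc2, hc3, hc4, hc5, hc6, hc7, hc9, D5]
  have j5 := qc5_joint p4 p5 p6 s4 s5 t5
  have t6 : max 0 (e 6 - g 5) + max 0 (e 6 - g 6) ≤ max 0 (2 * e 6 - g 5 - g 6) := by
    linarith only [K0, hd0, hd1, hd2, hd3, hd4, hd5, hd6, hd7, hd8, hc0, hc1, hc2, hc3, hc4, hc5, hc6, hc7, hc9, D6]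
  have j6 := qc5_joint p5 p6 p7 s5 s6 t6
  have t7 : max 0 (e 7 - g 6) + max 0 (e 7 - g 7) ≤ max 0 (2 * e 7 - g 6 - g 7) := by
    linarith only [K0, hd0, hd1, hd2, hd3, hd4, hd5, hd6, hd7, hd8, hc0, hc1, hc2, hc3, hc4, hc5, hc6, hc7, hc9, D7]
  have j7 := qc5_joint p6 p7 p8 s6 s7 t7
  have t8 : max 0 (e 10 - g 9) + (e 8 + e 9 - g 8) + max 0 (e 8 - g 7) ≤
      max 0 (2 * e 8 - g 7 - g 8 + (e 9 + e 10 - g 9)) := by
    linarith only [K0, hd0, hd1, hd2, hd3, hd4, hd5, hd6, hd7, hd8, hc0, hc1, hc2, hc3, hc4, hc5, hc6, hc7, hc9, D8]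
  clear K0 H U0 U1 U2 U3 U4 U5 U6 U7 U8 E0 E1 E2 E3 E4 E5 E6 E7 E9 D0 D1 D2 D3 D4 D5 D6 D7 D8 C0 C1 C2 C3 C4 C5 C6 C7 C9 hd0 hd1 hd2 hd3 hd4 hd5 hd6 hd7 hd8 hc0 hc1 hc2 hc3 hc4 hc5 hc6 hc7 hc9
  have o21 : 4 * e 2 ≤ e 1 := h.eo 2 1 (by decide) (by decide)
  have o23 : 4 * e 2 ≤ e 3 := h.eo 2 3 (by decide) (by decide)
  have o43 : 4 * e 4 ≤ e 3 := h.eo 4 3 (by decide) (by decide)
  have o45 : 4 * e 4 ≤ e 5 := h.eo 4 5 (by decide) (by decide)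
  have o65 : 4 * e 6 ≤ e 5 := h.eo 6 5 (by decide) (by decide)
  have o67 : 4 * e 6 ≤ e 7 := h.eo 6 7 (by decide) (by decide)
  have o87 : 4 * e 8 ≤ e 7 := h.eo 8 7 (by decide) (by decide)
  have o89 : 4 * e 8 ≤ e 9 := h.eo 8 9 (by decide) (by decide)
  rcases s7 with z7 | f7
  · have z6 : g 6 = 0 := j7.2.1 z7
    have z5 : g 5 = 0 := j6.2.1 z6
    have z4 : g 4 = 0 := j5.2.1 z5
    have z3 : g 3 = 0 := j4.2.1 z4
    have z2 : g 2 = 0 := j3.2.1 z3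
    have z1 : g 1 = 0 := j2.2.1 z2
    have z9 : g 9 = 0 := by
      have r1 := le_max_left 0 (e 10 - g 9)
      have r2 := le_max_right 0 (e 8 - g 7)
      rcases le_total 0 (2 * e 8 - g 7 - g 8 + (e 9 + e 10 - g 9)) with r | r
      · rw [max_eq_right r] at t8
        linarith
      · rw [max_eq_left r] at t8
        linarith
    have z0 : g 0 = 0 := by
      have r1 := le_max_left 0 (e 0 - g 0)
      have r2 := le_max_right 0 (e 9 - g 9)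
      rcases le_total 0 (2 * e 0 - g 10 - g 0 + (e 9 + e 10 - g 9)) with r | r
      · rw [max_eq_right r] at t0
        linarith
      · rw [max_eq_left r] at t0
        linarith
    have z10 := g10z
    left
    exact qc5_all (P := fun l => l ∈ ib 9 → g l = 0) (fun _ => z0) (fun _ => z1) (fun _ => z2) (fun _ => z3) (fun _ => z4) (fun _ => z5) (fun _ => z6) (fun _ => z7) (fun hh => absurd hh (by decide)) (fun _ => z9) (fun hh => absurd hh (by decide))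
  · have f6 : g 6 = e 6 + e 7 := j7.2.2.2 f7
    have f5 : g 5 = e 5 + e 6 := j6.2.2.2 f6
    have f4 : g 4 = e 4 + e 5 := j5.2.2.2 f5
    have f3 : g 3 = e 3 + e 4 := j4.2.2.2 f4
    have f2 : g 2 = e 2 + e 3 := j3.2.2.2 f3
    have f1 : g 1 = e 1 + e 2 := j2.2.2.2 f2
    have f0' : g 0 = e 1 := qc5_end1 p2 (by linarith) f1 t1
    have f0 : g 0 = e 0 + e 1 := by linarith
    have f8 : g 8 = e 8 + e 9 := by
      have r1 := le_max_left 0 (e 10 - g 9)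
      have r2 := le_max_left 0 (e 8 - g 7)
      rcases le_total 0 (2 * e 8 - g 7 - g 8 + (e 9 + e 10 - g 9)) with r | r
      · rw [max_eq_right r] at t8
        linarith
      · rw [max_eq_left r] at t8
        linarith
    have f9 : g 9 = e 9 + e 10 := by
      have r1 := le_max_left 0 (e 0 - g 0)
      have r2 := le_max_right 0 (e 9 - g 9)
      rcases le_total 0 (2 * e 0 - g 10 - g 0 + (e 9 + e 10 - g 9)) with r | r
      · rw [max_eq_right r] at t0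
        linarith
      · rw [max_eq_left r] at t0
        linarith
    have f10 : g 10 = e 10 + e 0 := by linarith
    right
    exact qc5_all f0 f1 f2 f3 f4 f5 f6 f7 f8 f9 f10

theorem qc5_b10 {τ : ℝ} (hτ : 0 < τ) {e g : Fin 11 → ℝ} (h : Adm τ e g)
    (hz : ∀ y ∈ nb 10, ∀ z ∈ nb 10, y ≠ z → 0 ≤ phi 10 y z e g) :
    (∀ l ∈ ib 10, g l = 0) ∨ (∀ l, g l = e l + e (l + 1)) := by
  have e0z : e 0 = 0 := h.e0
  have e10z : e 10 = 0 := h.e10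
  have p1 : 0 < e 1 := lt_of_lt_of_le hτ (h.e1 1 (by decide) (by decide))
  have p2 : 0 < e 2 := lt_of_lt_of_le hτ (h.e1 2 (by decide) (by decide))
  have p3 : 0 < e 3 := lt_of_lt_of_le hτ (h.e1 3 (by decide) (by decide))
  have p4 : 0 < e 4 := lt_of_lt_of_le hτ (h.e1 4 (by decide) (by decide))
  have p5 : 0 < e 5 := lt_of_lt_of_le hτ (h.e1 5 (by decide) (by decide))
  have p6 : 0 < e 6 := lt_of_lt_of_le hτ (h.e1 6 (by decide) (by decide))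
  have p7 : 0 < e 7 := lt_of_lt_of_le hτ (h.e1 7 (by decide) (by decide))
  have p8 : 0 < e 8 := lt_of_lt_of_le hτ (h.e1 8 (by decide) (by decide))
  have p9 : 0 < e 9 := lt_of_lt_of_le hτ (h.e1 9 (by decide) (by decide))
  have gz0 : 0 ≤ g 0 := h.g0 0
  have gu0 : g 0 ≤ e 0 + e 1 := h.g1 0
  have gz1 : 0 ≤ g 1 := h.g0 1
  have gu1 : g 1 ≤ e 1 + e 2 := h.g1 1
  have gz2 : 0 ≤ g 2 := h.g0 2
  have gu2 : g 2 ≤ e 2 + e 3 := h.g1 2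
  have gz3 : 0 ≤ g 3 := h.g0 3
  have gu3 : g 3 ≤ e 3 + e 4 := h.g1 3
  have gz4 : 0 ≤ g 4 := h.g0 4
  have gu4 : g 4 ≤ e 4 + e 5 := h.g1 4
  have gz5 : 0 ≤ g 5 := h.g0 5
  have gu5 : g 5 ≤ e 5 + e 6 := h.g1 5
  have gz6 : 0 ≤ g 6 := h.g0 6
  have gu6 : g 6 ≤ e 6 + e 7 := h.g1 6
  have gz7 : 0 ≤ g 7 := h.g0 7
  have gu7 : g 7 ≤ e 7 + e 8 := h.g1 7
  have gz8 : 0 ≤ g 8 := h.g0 8
  have gu8 : g 8 ≤ e 8 + e 9 := h.g1 8
  have gz9 : 0 ≤ g 9 := h.g0 9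
  have gu9 : g 9 ≤ e 9 + e 10 := h.g1 9
  have gz10 : 0 ≤ g 10 := h.g0 10
  have gu10 : g 10 ≤ e 10 + e 0 := h.g1 10
  have g10z : g 10 = 0 := by linarith
  have H := hz 9 (by decide) 1 (by decide) (by decide)
  have n0 : qc5_N 10 9 1 e g 0 = 0 := qc5_off (by decide)
  have n1 : qc5_N 10 9 1 e g 1 = max 0 (2 * e 1 - g 0 - g 1 + (e 10 + e 0 - g 10)) :=
    qc5_sp 0 0 (by decide) (by decide) (by decide) (by decide)
  have n2 : qc5_N 10 9 1 e g 2 = max 0 (2 * e 2 - g 1 - g 2) :=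
    qc5_gen 1 (by decide) (by decide) (by decide)
  have n3 : qc5_N 10 9 1 e g 3 = max 0 (2 * e 3 - g 2 - g 3) :=
    qc5_gen 2 (by decide) (by decide) (by decide)
  have n4 : qc5_N 10 9 1 e g 4 = max 0 (2 * e 4 - g 3 - g 4) :=
    qc5_gen 3 (by decide) (by decide) (by decide)
  have n5 : qc5_N 10 9 1 e g 5 = max 0 (2 * e 5 - g 4 - g 5) :=
    qc5_gen 4 (by decide) (by decide) (by decide)
  have n6 : qc5_N 10 9 1 e g 6 = max 0 (2 * e 6 - g 5 - g 6) :=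
    qc5_gen 5 (by decide) (by decide) (by decide)
  have n7 : qc5_N 10 9 1 e g 7 = max 0 (2 * e 7 - g 6 - g 7) :=
    qc5_gen 6 (by decide) (by decide) (by decide)
  have n8 : qc5_N 10 9 1 e g 8 = max 0 (2 * e 8 - g 7 - g 8) :=
    qc5_gen 7 (by decide) (by decide) (by decide)
  have n9 : qc5_N 10 9 1 e g 9 = max 0 (2 * e 9 - g 8 - g 9 + (e 10 + e 0 - g 10)) :=
    qc5_sp 8 0 (by decide) (by decide) (by decide) (by decide)
  have n10 : qc5_N 10 9 1 e g 10 = 0 := qc5_off (by decide)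
  rw [qc5_phi, n0, n1, n2, n3, n4, n5, n6, n7, n8, n9, n10] at H
  clear n0 n1 n2 n3 n4 n5 n6 n7 n8 n9 n10
  have U1 := qc5_U2 (c := e 1) (gp := g 0) (gl := g 1) (eb := e 10) (eb1 := e 0) (gb := g 10) gu0
  have U2 := qc5_U (e 2) (g 1) (g 2)
  have U3 := qc5_U (e 3) (g 2) (g 3)
  have U4 := qc5_U (e 4) (g 3) (g 4)
  have U5 := qc5_U (e 5) (g 4) (g 5)
  have U6 := qc5_U (e 6) (g 5) (g 6)
  have U7 := qc5_U (e 7) (g 6) (g 7)
  have U8 := qc5_U (e 8) (g 7) (g 8)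
  have U9 := qc5_U3 (c := e 9) (gp := g 8) (gl := g 9) (eb := e 10) (eb1 := e 0) (gb := g 10) gu9
  have E1 := qc5_E p1.le p2.le gz1 gu1
  have E2 := qc5_E p2.le p3.le gz2 gu2
  have E3 := qc5_E p3.le p4.le gz3 gu3
  have E4 := qc5_E p4.le p5.le gz4 gu4
  have E5 := qc5_E p5.le p6.le gz5 gu5
  have E6 := qc5_E p6.le p7.le gz6 gu6
  have E7 := qc5_E p7.le p8.le gz7 gu7
  have E8 := qc5_E p8.le p9.le gz8 gu8
  have E10 := qc5_E e10z.ge e0z.ge gz10 gu10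
  obtain ⟨d1, D1⟩ : ∃ d : ℝ, d = max 0 (e 10 - g 10) + (e 0 + e 1 - g 0) + max 0 (e 1 - g 1) -
      max 0 (2 * e 1 - g 0 - g 1 + (e 10 + e 0 - g 10)) := ⟨_, rfl⟩
  have hd1 : 0 ≤ d1 := by linarith only [U1, D1]
  obtain ⟨d2, D2⟩ : ∃ d : ℝ, d = max 0 (e 2 - g 1) + max 0 (e 2 - g 2) -
      max 0 (2 * e 2 - g 1 - g 2) := ⟨_, rfl⟩
  have hd2 : 0 ≤ d2 := by linarith only [U2, D2]
  obtain ⟨d3, D3⟩ : ∃ d : ℝ, d = max 0 (e 3 - g 2) + max 0 (e 3 - g 3) -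
      max 0 (2 * e 3 - g 2 - g 3) := ⟨_, rfl⟩
  have hd3 : 0 ≤ d3 := by linarith only [U3, D3]
  obtain ⟨d4, D4⟩ : ∃ d : ℝ, d = max 0 (e 4 - g 3) + max 0 (e 4 - g 4) -
      max 0 (2 * e 4 - g 3 - g 4) := ⟨_, rfl⟩
  have hd4 : 0 ≤ d4 := by linarith only [U4, D4]
  obtain ⟨d5, D5⟩ : ∃ d : ℝ, d = max 0 (e 5 - g 4) + max 0 (e 5 - g 5) -
      max 0 (2 * e 5 - g 4 - g 5) := ⟨_, rfl⟩
  have hd5 : 0 ≤ d5 := by linarith only [U5, D5]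
  obtain ⟨d6, D6⟩ : ∃ d : ℝ, d = max 0 (e 6 - g 5) + max 0 (e 6 - g 6) -
      max 0 (2 * e 6 - g 5 - g 6) := ⟨_, rfl⟩
  have hd6 : 0 ≤ d6 := by linarith only [U6, D6]
  obtain ⟨d7, D7⟩ : ∃ d : ℝ, d = max 0 (e 7 - g 6) + max 0 (e 7 - g 7) -
      max 0 (2 * e 7 - g 6 - g 7) := ⟨_, rfl⟩
  have hd7 : 0 ≤ d7 := by linarith only [U7, D7]
  obtain ⟨d8, D8⟩ : ∃ d : ℝ, d = max 0 (e 8 - g 7) + max 0 (e 8 - g 8) -
      max 0 (2 * e 8 - g 7 - g 8) := ⟨_, rfl⟩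
  have hd8 : 0 ≤ d8 := by linarith only [U8, D8]
  obtain ⟨d9, D9⟩ : ∃ d : ℝ, d = max 0 (e 0 - g 10) + (e 9 + e 10 - g 9) + max 0 (e 9 - g 8) -
      max 0 (2 * e 9 - g 8 - g 9 + (e 10 + e 0 - g 10)) := ⟨_, rfl⟩
  have hd9 : 0 ≤ d9 := by linarith only [U9, D9]
  obtain ⟨c1, C1⟩ : ∃ c : ℝ, c = e 1 + e 2 - g 1 - (max 0 (e 1 - g 1) + max 0 (e 2 - g 1)) := ⟨_, rfl⟩
  have hc1 : 0 ≤ c1 := by linarith only [E1, C1]
  obtain ⟨c2, C2⟩ : ∃ c : ℝ, c = e 2 + e 3 - g 2 - (max 0 (e 2 - g 2) + max 0 (e 3 - g 2)) := ⟨_, rfl⟩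
  have hc2 : 0 ≤ c2 := by linarith only [E2, C2]
  obtain ⟨c3, C3⟩ : ∃ c : ℝ, c = e 3 + e 4 - g 3 - (max 0 (e 3 - g 3) + max 0 (e 4 - g 3)) := ⟨_, rfl⟩
  have hc3 : 0 ≤ c3 := by linarith only [E3, C3]
  obtain ⟨c4, C4⟩ : ∃ c : ℝ, c = e 4 + e 5 - g 4 - (max 0 (e 4 - g 4) + max 0 (e 5 - g 4)) := ⟨_, rfl⟩
  have hc4 : 0 ≤ c4 := by linarith only [E4, C4]
  obtain ⟨c5, C5⟩ : ∃ c : ℝ, c = e 5 + e 6 - g 5 - (max 0 (e 5 - g 5) + max 0 (e 6 - g 5)) := ⟨_, rfl⟩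
  have hc5 : 0 ≤ c5 := by linarith only [E5, C5]
  obtain ⟨c6, C6⟩ : ∃ c : ℝ, c = e 6 + e 7 - g 6 - (max 0 (e 6 - g 6) + max 0 (e 7 - g 6)) := ⟨_, rfl⟩
  have hc6 : 0 ≤ c6 := by linarith only [E6, C6]
  obtain ⟨c7, C7⟩ : ∃ c : ℝ, c = e 7 + e 8 - g 7 - (max 0 (e 7 - g 7) + max 0 (e 8 - g 7)) := ⟨_, rfl⟩
  have hc7 : 0 ≤ c7 := by linarith only [E7, C7]
  obtain ⟨c8, C8⟩ : ∃ c : ℝ, c = e 8 + e 9 - g 8 - (max 0 (e 8 - g 8) + max 0 (e 9 - g 8)) := ⟨_, rfl⟩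
  have hc8 : 0 ≤ c8 := by linarith only [E8, C8]
  obtain ⟨c10, C10⟩ : ∃ c : ℝ, c = e 10 + e 0 - g 10 - (max 0 (e 10 - g 10) + max 0 (e 0 - g 10)) := ⟨_, rfl⟩
  have hc10 : 0 ≤ c10 := by linarith only [E10, C10]
  have K0 : d1 + d2 + d3 + d4 + d5 + d6 + d7 + d8 + d9 + c1 + c2 + c3 + c4 + c5 + c6 + c7 + c8 + c10 ≤ 0 := by
    linarith only [H, D1, D2, D3, D4, D5, D6, D7, D8, D9, C1, C2, C3, C4, C5, C6, C7, C8, C10]
  have s1 : g 1 = 0 ∨ g 1 = e 1 + e 2 := qc5_state p1 p2 gz1 gu1 (by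
    linarith only [K0, hd1, hd2, hd3, hd4, hd5, hd6, hd7, hd8, hd9, hc1, hc2, hc3, hc4, hc5, hc6, hc7, hc8, hc10, C1])
  have s2 : g 2 = 0 ∨ g 2 = e 2 + e 3 := qc5_state p2 p3 gz2 gu2 (by
    linarith only [K0, hd1, hd2, hd3, hd4, hd5, hd6, hd7, hd8, hd9, hc1, hc2, hc3, hc4, hc5, hc6, hc7, hc8, hc10, C2])
  have s3 : g 3 = 0 ∨ g 3 = e 3 + e 4 := qc5_state p3 p4 gz3 gu3 (by
    linarith only [K0, hd1, hd2, hd3, hd4, hd5, hd6, hd7, hd8, hd9, hc1, hc2, hc3, hc4, hc5, hc6, hc7, hc8, hc10, C3])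
  have s4 : g 4 = 0 ∨ g 4 = e 4 + e 5 := qc5_state p4 p5 gz4 gu4 (by
    linarith only [K0, hd1, hd2, hd3, hd4, hd5, hd6, hd7, hd8, hd9, hc1, hc2, hc3, hc4, hc5, hc6, hc7, hc8, hc10, C4])
  have s5 : g 5 = 0 ∨ g 5 = e 5 + e 6 := qc5_state p5 p6 gz5 gu5 (by
    linarith only [K0, hd1, hd2, hd3, hd4, hd5, hd6, hd7, hd8, hd9, hc1, hc2, hc3, hc4, hc5, hc6, hc7, hc8, hc10, C5])
  have s6 : g 6 = 0 ∨ g 6 = e 6 + e 7 := qc5_state p6 p7 gz6 gu6 (by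
    linarith only [K0, hd1, hd2, hd3, hd4, hd5, hd6, hd7, hd8, hd9, hc1, hc2, hc3, hc4, hc5, hc6, hc7, hc8, hc10, C6])
  have s7 : g 7 = 0 ∨ g 7 = e 7 + e 8 := qc5_state p7 p8 gz7 gu7 (by
    linarith only [K0, hd1, hd2, hd3, hd4, hd5, hd6, hd7, hd8, hd9, hc1, hc2, hc3, hc4, hc5, hc6, hc7, hc8, hc10, C7])
  have s8 : g 8 = 0 ∨ g 8 = e 8 + e 9 := qc5_state p8 p9 gz8 gu8 (by
    linarith only [K0, hd1, hd2, hd3, hd4, hd5, hd6, hd7, hd8, hd9, hc1, hc2, hc3, hc4, hc5, hc6, hc7, hc8, hc10, C8])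
  have t1 : max 0 (e 10 - g 10) + (e 0 + e 1 - g 0) + max 0 (e 1 - g 1) ≤
      max 0 (2 * e 1 - g 0 - g 1 + (e 10 + e 0 - g 10)) := by
    linarith only [K0, hd1, hd2, hd3, hd4, hd5, hd6, hd7, hd8, hd9, hc1, hc2, hc3, hc4, hc5, hc6, hc7, hc8, hc10, D1]
  have t2 : max 0 (e 2 - g 1) + max 0 (e 2 - g 2) ≤ max 0 (2 * e 2 - g 1 - g 2) := by
    linarith only [K0, hd1, hd2, hd3, hd4, hd5, hd6, hd7, hd8, hd9, hc1, hc2, hc3, hc4, hc5, hc6, hc7, hc8, hc10, D2]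
  have j2 := qc5_joint p1 p2 p3 s1 s2 t2
  have t3 : max 0 (e 3 - g 2) + max 0 (e 3 - g 3) ≤ max 0 (2 * e 3 - g 2 - g 3) := by
    linarith only [K0, hd1, hd2, hd3, hd4, hd5, hd6, hd7, hd8, hd9, hc1, hc2, hc3, hc4, hc5, hc6, hc7, hc8, hc10, D3]
  have j3 := qc5_joint p2 p3 p4 s2 s3 t3
  have t4 : max 0 (e 4 - g 3) + max 0 (e 4 - g 4) ≤ max 0 (2 * e 4 - g 3 - g 4) := by
    linarith only [K0, hd1, hd2, hd3, hd4, hd5, hd6, hd7, hd8, hd9, hc1, hc2, hc3, hc4, hc5, hc6, hc7, hc8, hc10, D4]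
  have j4 := qc5_joint p3 p4 p5 s3 s4 t4
  have t5 : max 0 (e 5 - g 4) + max 0 (e 5 - g 5) ≤ max 0 (2 * e 5 - g 4 - g 5) := by
    linarith only [K0, hd1, hd2, hd3, hd4, hd5, hd6, hd7, hd8, hd9, hc1, hc2, hc3, hc4, hc5, hc6, hc7, hc8, hc10, D5]
  have j5 := qc5_joint p4 p5 p6 s4 s5 t5
  have t6 : max 0 (e 6 - g 5) + max 0 (e 6 - g 6) ≤ max 0 (2 * e 6 - g 5 - g 6) := by
    linarith only [K0, hd1, hd2, hd3, hd4, hd5, hd6, hd7, hd8, hd9, hc1, hc2, hc3, hc4, hc5, hc6, hc7, hc8, hc10, D6]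
  have j6 := qc5_joint p5 p6 p7 s5 s6 t6
  have t7 : max 0 (e 7 - g 6) + max 0 (e 7 - g 7) ≤ max 0 (2 * e 7 - g 6 - g 7) := by
    linarith only [K0, hd1, hd2, hd3, hd4, hd5, hd6, hd7, hd8, hd9, hc1, hc2, hc3, hc4, hc5, hc6, hc7, hc8, hc10, D7]
  have j7 := qc5_joint p6 p7 p8 s6 s7 t7
  have t8 : max 0 (e 8 - g 7) + max 0 (e 8 - g 8) ≤ max 0 (2 * e 8 - g 7 - g 8) := by
    linarith only [K0, hd1, hd2, hd3, hd4, hd5, hd6, hd7, hd8, hd9, hc1, hc2, hc3, hc4, hc5, hc6, hc7, hc8, hc10, D8]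
  have j8 := qc5_joint p7 p8 p9 s7 s8 t8
  have t9 : max 0 (e 0 - g 10) + (e 9 + e 10 - g 9) + max 0 (e 9 - g 8) ≤
      max 0 (2 * e 9 - g 8 - g 9 + (e 10 + e 0 - g 10)) := by
    linarith only [K0, hd1, hd2, hd3, hd4, hd5, hd6, hd7, hd8, hd9, hc1, hc2, hc3, hc4, hc5, hc6, hc7, hc8, hc10, D9]
  clear K0 H U1 U2 U3 U4 U5 U6 U7 U8 U9 E1 E2 E3 E4 E5 E6 E7 E8 E10 D1 D2 D3 D4 D5 D6 D7 D8 D9 C1 C2 C3 C4 C5 C6 C7 C8 C10 hd1 hd2 hd3 hd4 hd5 hd6 hd7 hd8 hd9 hc1 hc2 hc3 hc4 hc5 hc6 hc7 hc8 hc10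
  have o21 : 4 * e 2 ≤ e 1 := h.eo 2 1 (by decide) (by decide)
  have o23 : 4 * e 2 ≤ e 3 := h.eo 2 3 (by decide) (by decide)
  have o43 : 4 * e 4 ≤ e 3 := h.eo 4 3 (by decide) (by decide)
  have o45 : 4 * e 4 ≤ e 5 := h.eo 4 5 (by decide) (by decide)
  have o65 : 4 * e 6 ≤ e 5 := h.eo 6 5 (by decide) (by decide)
  have o67 : 4 * e 6 ≤ e 7 := h.eo 6 7 (by decide) (by decide)
  have o87 : 4 * e 8 ≤ e 7 := h.eo 8 7 (by decide) (by decide)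
  have o89 : 4 * e 8 ≤ e 9 := h.eo 8 9 (by decide) (by decide)
  rcases s1 with z1 | f1
  · have z2 : g 2 = 0 := j2.1 z1
    have z3 : g 3 = 0 := j3.1 z2
    have z4 : g 4 = 0 := j4.1 z3
    have z5 : g 5 = 0 := j5.1 z4
    have z6 : g 6 = 0 := j6.1 z5
    have z7 : g 7 = 0 := j7.1 z6
    have z8 : g 8 = 0 := j8.1 z7
    have z10 := g10z
    left
    exact qc5_all (P := fun l => l ∈ ib 10 → g l = 0) (fun hh => absurd hh (by decide)) (fun _ => z1) (fun _ => z2) (fun _ => z3) (fun _ => z4) (fun _ => z5) (fun _ => z6) (fun _ => z7) (fun _ => z8) (fun hh => absurd hh (by decide)) (fun _ => z10)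
  · have f2 : g 2 = e 2 + e 3 := j2.2.2.1 f1
    have f3 : g 3 = e 3 + e 4 := j3.2.2.1 f2
    have f4 : g 4 = e 4 + e 5 := j4.2.2.1 f3
    have f5 : g 5 = e 5 + e 6 := j5.2.2.1 f4
    have f6 : g 6 = e 6 + e 7 := j6.2.2.1 f5
    have f7 : g 7 = e 7 + e 8 := j7.2.2.1 f6
    have f8 : g 8 = e 8 + e 9 := j8.2.2.1 f7
    have f0 : g 0 = e 0 + e 1 := by
      have r1 := le_max_left 0 (e 10 - g 10)
      have r2 := le_max_left 0 (e 1 - g 1)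
      rcases le_total 0 (2 * e 1 - g 0 - g 1 + (e 10 + e 0 - g 10)) with r | r
      · rw [max_eq_right r] at t1
        linarith
      · rw [max_eq_left r] at t1
        linarith
    have f9 : g 9 = e 9 + e 10 := by
      have r1 := le_max_left 0 (e 0 - g 10)
      have r2 := le_max_left 0 (e 9 - g 8)
      rcases le_total 0 (2 * e 9 - g 8 - g 9 + (e 10 + e 0 - g 10)) with r | r
      · rw [max_eq_right r] at t9
        linarith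
      · rw [max_eq_left r] at t9
        linarith
    have f10 : g 10 = e 10 + e 0 := by linarith
    right
    exact qc5_all f0 f1 f2 f3 f4 f5 f6 f7 f8 f9 f10

/-- BLOCK QC5 (uses the inequalities of QC4). The exact statement. With `{y,z} = {b-1, b+2}` all the slacks
vanish: every edge `i ≠ b ± 1` whose both ends are `≠ 0, 10` is full (`μ = 0`) or empty (`g = 0`); two
consecutive edges `l - 1, l` off the base are not one full and one empty if both outer ends are `≠ 0, 10`, ...;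
see the text (section 2). Remaining: all empty except the edges `0`, `9`: there
`phi b y 0 = - min (g 0) (e b + e (b+1))` with `y` the even neighbour (off the base) of the odd base vertex, the
same with `10` and `g 9` (for `b = 2`, `g 0 + g 1 - 2 e 1 ≤ e 2`, and `4 e 2 ≤ e 1`; the same for `b = 7`). -/
theorem phi_zero {τ : ℝ} (hτ : 0 < τ) {e g : Fin 11 → ℝ} (h : Adm τ e g) (b : Fin 11)
    (hz : ∀ y ∈ nb b, ∀ z ∈ nb b, y ≠ z → 0 ≤ phi b y z e g) :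
    (∀ l ∈ ib b, g l = 0) ∨ (∀ l, g l = e l + e (l + 1)) := by
  fin_cases b
  · exact qc5_b0 hτ h hz
  · exact qc5_b1 hτ h hz
  · exact qc5_b2 hτ h hz
  · exact qc5_b3 hτ h hz
  · exact qc5_b4 hτ h hz
  · exact qc5_b5 hτ h hz
  · exact qc5_b6 hτ h hz
  · exact qc5_b7 hτ h hz
  · exact qc5_b8 hτ h hz
  · exact qc5_b9 hτ h hz
  · exact qc5_b10 hτ h hz

end Pool.Agent.PNI
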