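import Pool.Agent.Lib_helper96.PNI.Defs
import Pool.Agent.Lib_helper96.PNI.L.QC5

set_option autoImplicit false

namespace Pool.Agent.PNI

open Finset Pool.Agent.PENT Pool.Agent.PENK

theorem qc6_closed (τ : ℝ) :
    IsClosed {t : (Fin 11 → ℝ) × (Fin 11 → ℝ) | Adm τ t.1 t.2} := by
  have he : ∀ j : Fin 11, Continuous (fun t : (Fin 11 → ℝ) × (Fin 11 → ℝ) => t.1 j) :=
    fun j => (continuous_apply j).comp continuous_fst
  have hg : ∀ j : Fin 11, Continuous (fun t : (Fin 11 → ℝ) × (Fin 11 → ℝ) => t.2 j) :=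
    fun j => (continuous_apply j).comp continuous_snd
  have e : {t : (Fin 11 → ℝ) × (Fin 11 → ℝ) | Adm τ t.1 t.2} =
      {t | t.1 0 = 0} ∩ {t | t.1 10 = 0} ∩
      (⋂ j : Fin 11, ⋂ _ : j ≠ 0, ⋂ _ : j ≠ 10, {t | τ ≤ t.1 j}) ∩
      (⋂ j : Fin 11, {t | t.1 j ≤ 1}) ∩
      (⋂ j : Fin 11, ⋂ o : Fin 11, ⋂ _ : j.val % 2 = 0, ⋂ _ : o.val % 2 = 1,
        {t | 4 * t.1 j ≤ t.1 o}) ∩
      (⋂ i : Fin 11, {t | 0 ≤ t.2 i}) ∩
      (⋂ i : Fin 11, {t | t.2 i ≤ t.1 i + t.1 (i + 1)}) := by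
    ext t
    simp only [Set.mem_ofPred_eq, Set.mem_inter_iff, Set.mem_iInter]
    constructor
    · intro h
      exact ⟨⟨⟨⟨⟨⟨h.e0, h.e10⟩, h.e1⟩, h.e2⟩, fun j o hj ho => h.eo j o hj ho⟩, h.g0⟩, h.g1⟩
    · rintro ⟨⟨⟨⟨⟨⟨a, b⟩, c⟩, d⟩, f⟩, g⟩, h⟩
      exact ⟨a, b, c, d, f, g, h⟩
  rw [e]
  refine IsClosed.inter (IsClosed.inter (IsClosed.inter (IsClosed.inter (IsClosed.inter
    (IsClosed.inter ?_ ?_) ?_) ?_) ?_) ?_) ?_
  · exact isClosed_eq (he 0) continuous_const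
  · exact isClosed_eq (he 10) continuous_const
  · exact isClosed_iInter fun j => isClosed_iInter fun _ => isClosed_iInter fun _ =>
      isClosed_le continuous_const (he j)
  · exact isClosed_iInter fun j => isClosed_le (he j) continuous_const
  · exact isClosed_iInter fun j => isClosed_iInter fun o => isClosed_iInter fun _ =>
      isClosed_iInter fun _ => isClosed_le (continuous_const.mul (he j)) (he o)
  · exact isClosed_iInter fun i => isClosed_le continuous_const (hg i)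
  · exact isClosed_iInter fun i => isClosed_le (hg i) ((he i).add (he (i + 1)))

theorem qc6_cont (b y z : Fin 11) :
    Continuous (fun t : (Fin 11 → ℝ) × (Fin 11 → ℝ) => phi b y z t.1 t.2) := by
  have he : ∀ j : Fin 11, Continuous (fun t : (Fin 11 → ℝ) × (Fin 11 → ℝ) => t.1 j) :=
    fun j => (continuous_apply j).comp continuous_fst
  have hg : ∀ j : Fin 11, Continuous (fun t : (Fin 11 → ℝ) × (Fin 11 → ℝ) => t.2 j) :=
    fun j => (continuous_apply j).comp continuous_snd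
  unfold phi
  refine Continuous.add (continuous_finsetSum _ fun i _ => ((hg i).sub (he i)).sub (he (i + 1)))
    (continuous_finsetSum _ fun l _ => Continuous.max continuous_const ?_)
  refine Continuous.add (((continuous_const.mul (he l)).sub (hg (l - 1))).sub (hg l)) ?_
  split_ifs
  · exact ((he b).add (he (b + 1))).sub (hg b)
  · exact continuous_const

theorem qc6_bdd (τ : ℝ) (hτ : 0 < τ) :
    Bornology.IsBounded {t : (Fin 11 → ℝ) × (Fin 11 → ℝ) | Adm τ t.1 t.2} := by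
  rw [isBounded_iff_forall_norm_le]
  refine ⟨2, ?_⟩
  intro t ht
  have ht' : Adm τ t.1 t.2 := ht
  have e0 : ∀ j, 0 ≤ t.1 j := by
    intro j
    by_cases h0 : j = 0
    · rw [h0, ht'.e0]
    · by_cases h10 : j = 10
      · rw [h10, ht'.e10]
      · exact hτ.le.trans (ht'.e1 j h0 h10)
  rw [Prod.norm_def]
  refine max_le ?_ ?_
  · rw [pi_norm_le_iff_of_nonneg (by norm_num)]
    intro j
    rw [Real.norm_eq_abs, abs_of_nonneg (e0 j)]
    linarith [ht'.e2 j]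
  · rw [pi_norm_le_iff_of_nonneg (by norm_num)]
    intro j
    rw [Real.norm_eq_abs, abs_of_nonneg (ht'.g0 j)]
    linarith [ht'.g1 j, ht'.e2 j, ht'.e2 (j + 1)]

theorem qc6_ne : ∀ b : Fin 11, ((nb b ×ˢ nb b).filter (fun s => s.1 ≠ s.2)).Nonempty := by
  intro b
  have h1 : b - 1 ∈ nb b := by
    revert b
    decide
  have h2 : b + 2 ∈ nb b := by
    revert b
    decide
  have h3 : b - 1 ≠ b + 2 := by
    revert b
    decide
  exact ⟨(b - 1, b + 2), Finset.mem_filter.mpr ⟨Finset.mem_product.mpr ⟨h1, h2⟩, h3⟩⟩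

/-- the minimum of finitely many continuous functions -/
theorem qc6_min (P : Finset (Fin 11 × Fin 11)) (hP : P.Nonempty)
    (φ : Fin 11 × Fin 11 → (Fin 11 → ℝ) × (Fin 11 → ℝ) → ℝ) (hφ : ∀ s, Continuous (φ s)) :
    ∃ f : (Fin 11 → ℝ) × (Fin 11 → ℝ) → ℝ, Continuous f ∧ (∀ t, ∀ s ∈ P, f t ≤ φ s t) ∧
      ∀ t, ∃ s ∈ P, f t = φ s t := by
  refine ⟨fun t => P.inf' hP (fun s => φ s t), Continuous.finset_inf'_apply hP fun s _ => hφ s,
    fun t s hs => Finset.inf'_le (fun s => φ s t) hs, fun t => ?_⟩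
  obtain ⟨s, hs, hs'⟩ := Finset.exists_mem_eq_inf' hP (fun s => φ s t)
  exact ⟨s, hs, hs'⟩

/-- for one base -/
theorem qc6_one {τ ζ ζ' : ℝ} (hτ : 0 < τ) (hζ : 0 < ζ) (hζ' : 0 < ζ') (b : Fin 11) :
    ∃ c : ℝ, 0 < c ∧ ∀ (e g : Fin 11 → ℝ), Adm τ e g →
      (∀ l ∈ ib b, g l ≤ ζ) ∨ (∀ l, e l + e (l + 1) - g l ≤ ζ') ∨
        ∃ y ∈ nb b, ∃ z ∈ nb b, y ≠ z ∧ phi b y z e g ≤ -c := by
  have he : ∀ j : Fin 11, Continuous (fun t : (Fin 11 → ℝ) × (Fin 11 → ℝ) => t.1 j) :=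
    fun j => (continuous_apply j).comp continuous_fst
  have hg : ∀ j : Fin 11, Continuous (fun t : (Fin 11 → ℝ) × (Fin 11 → ℝ) => t.2 j) :=
    fun j => (continuous_apply j).comp continuous_snd
  obtain ⟨U, hU⟩ : ∃ U : Set ((Fin 11 → ℝ) × (Fin 11 → ℝ)), U =
      {t | Adm τ t.1 t.2} ∩ {t | ∃ l ∈ ib b, ζ ≤ t.2 l} ∩
        {t | ∃ l, ζ' ≤ t.1 l + t.1 (l + 1) - t.2 l} := ⟨_, rfl⟩
  have hUc : IsCompact U := by
    have h1 : IsClosed {t : (Fin 11 → ℝ) × (Fin 11 → ℝ) | ∃ l ∈ ib b, ζ ≤ t.2 l} := by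
      have e1 : {t : (Fin 11 → ℝ) × (Fin 11 → ℝ) | ∃ l ∈ ib b, ζ ≤ t.2 l} =
          ⋃ l ∈ ib b, {t | ζ ≤ t.2 l} := by
        ext t
        simp only [Set.mem_ofPred_eq, Set.mem_iUnion, exists_prop]
      rw [e1]
      exact (ib b).finite_toSet.isClosed_biUnion fun l _ => isClosed_le continuous_const (hg l)
    have h2 : IsClosed {t : (Fin 11 → ℝ) × (Fin 11 → ℝ) | ∃ l, ζ' ≤ t.1 l + t.1 (l + 1) - t.2 l} := by
      have e1 : {t : (Fin 11 → ℝ) × (Fin 11 → ℝ) | ∃ l, ζ' ≤ t.1 l + t.1 (l + 1) - t.2 l} =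
          ⋃ l, {t | ζ' ≤ t.1 l + t.1 (l + 1) - t.2 l} := by
        ext t
        simp only [Set.mem_ofPred_eq, Set.mem_iUnion]
      rw [e1]
      exact isClosed_iUnion_of_finite fun l =>
        isClosed_le continuous_const (((he l).add (he (l + 1))).sub (hg l))
    rw [hU]
    refine Metric.isCompact_of_isClosed_isBounded (((qc6_closed τ).inter h1).inter h2) ?_
    exact (qc6_bdd τ hτ).subset (fun t ht => ht.1.1)
  obtain ⟨P, hP⟩ : ∃ P : Finset (Fin 11 × Fin 11), P =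
      (nb b ×ˢ nb b).filter (fun s => s.1 ≠ s.2) := ⟨_, rfl⟩
  have hPne : P.Nonempty := by
    rw [hP]
    exact qc6_ne b
  obtain ⟨f, hfc, hfle, hfex⟩ := qc6_min P hPne (fun s t => phi b s.1 s.2 t.1 t.2)
    (fun s => qc6_cont b s.1 s.2)
  have key : ∀ t ∈ U, f t < 0 := by
    intro t ht
    rw [hU] at ht
    obtain ⟨⟨ha, l1, hl1, h1⟩, l2, h2⟩ := ht
    by_contra hcon
    rw [not_lt] at hcon
    have hz : ∀ y ∈ nb b, ∀ z ∈ nb b, y ≠ z → 0 ≤ phi b y z t.1 t.2 := by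
      intro y hy z hz hyz
      have hm : (y, z) ∈ P := by
        rw [hP]
        exact Finset.mem_filter.mpr ⟨Finset.mem_product.mpr ⟨hy, hz⟩, hyz⟩
      exact le_trans hcon (hfle t (y, z) hm)
    rcases phi_zero hτ ha b hz with h3 | h3
    · rw [h3 l1 hl1] at h1
      linarith
    · have := h3 l2
      linarith
  obtain ⟨c, hc, hcU⟩ : ∃ c : ℝ, 0 < c ∧ ∀ t ∈ U, f t ≤ -c := by
    rcases U.eq_empty_or_nonempty with hUe | hUne
    · exact ⟨1, one_pos, fun t ht => by rw [hUe] at ht; exact absurd ht (Set.notMem_empty t)⟩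
    · obtain ⟨t0, ht0, hmax⟩ := hUc.exists_isMaxOn hUne hfc.continuousOn
      refine ⟨-f t0, by linarith [key t0 ht0], fun t ht => ?_⟩
      rw [neg_neg]
      exact hmax ht
  refine ⟨c, hc, ?_⟩
  intro e g ha
  by_cases h1 : ∀ l ∈ ib b, g l ≤ ζ
  · exact Or.inl h1
  · by_cases h2 : ∀ l, e l + e (l + 1) - g l ≤ ζ'
    · exact Or.inr (Or.inl h2)
    · right
      right
      push Not at h1 h2
      obtain ⟨l1, hl1, h1⟩ := h1
      obtain ⟨l2, h2⟩ := h2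
      have hm : (e, g) ∈ U := by
        rw [hU]
        exact ⟨⟨ha, l1, hl1, h1.le⟩, l2, h2.le⟩
      have h3 := hcU _ hm
      obtain ⟨s, hs, hs'⟩ := hfex (e, g)
      rw [hP] at hs
      have hs2 := Finset.mem_filter.mp hs
      have hs3 := Finset.mem_product.mp hs2.1
      rw [hs'] at h3
      exact ⟨s.1, hs3.1, s.2, hs3.2, hs2.2, h3⟩

/-- BLOCK QC6 (uses QC5). The uniform gap, by compactness: `Adm τ` is a closed bounded set of pairs `(e, g)` in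
`(Fin 11 → ℝ) × (Fin 11 → ℝ)`, `phi` is continuous; if there were no `c`, a sequence with
`phi ≥ -1/n` for all `y ≠ z`, not in the two open sets, has a limit against QC5. -/
theorem phi_gap {τ ζ ζ' : ℝ} (hτ : 0 < τ) (hζ : 0 < ζ) (hζ' : 0 < ζ') : ∃ c : ℝ, 0 < c ∧
    ∀ (b : Fin 11) (e g : Fin 11 → ℝ), Adm τ e g →
      (∀ l ∈ ib b, g l ≤ ζ) ∨ (∀ l, e l + e (l + 1) - g l ≤ ζ') ∨
        ∃ y ∈ nb b, ∃ z ∈ nb b, y ≠ z ∧ phi b y z e g ≤ -c := by
  choose c hc hcb using fun b => qc6_one hτ hζ hζ' b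
  obtain ⟨b0, -, hb0⟩ := Finset.exists_min_image (univ : Finset (Fin 11)) c ⟨0, mem_univ _⟩
  refine ⟨c b0, hc b0, ?_⟩
  intro b e g ha
  rcases hcb b e g ha with h | h | ⟨y, hy, z, hz, hyz, h⟩
  · exact Or.inl h
  · exact Or.inr (Or.inl h)
  · refine Or.inr (Or.inr ⟨y, hy, z, hz, hyz, ?_⟩)
    have := hb0 b (mem_univ _)
    linarith

end Pool.Agent.PNI
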