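import Pool.Agent.Lib_helper96.PNI.Defs
import Pool.Agent.Lib_helper96.PNI.L.QC4
import Pool.Agent.Lib_helper96.PNI.L.QC6

/-! Block QC7: the crude count in multiplicative form -/

set_option autoImplicit false

namespace Pool.Agent.PNI

open Finset Pool.Agent.PENT Pool.Agent.PENK

variable {q : Prm} {x : ℝ} {u v w : PolyK 11}

theorem qc7_rt {x : ℝ} (hx : 1 ≤ x) (b y z : Fin 11) (I G : Fin 11 → ℕ) (e g : Fin 11 → ℝ)
    (he : ∀ j, (2 : ℝ) ^ I j = x ^ e j) (hG1 : ∀ l, x ^ g l ≤ (G l : ℝ)) (l : Fin 11) :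
    Rt b y z I G l ≤ 2 * x ^ (max 0 (2 * e l - g (l - 1) - g l +
      if l = y ∨ l = z then e b + e (b + 1) - g b else 0)) := by
  have hx0 : 0 < x := by linarith
  have h1 : (1 : ℝ) ≤ x ^ (max 0 (2 * e l - g (l - 1) - g l +
      if l = y ∨ l = z then e b + e (b + 1) - g b else 0)) :=
    Real.one_le_rpow hx (le_max_left _ _)
  have h2 : x ^ (2 * e l - g (l - 1) - g l +
      if l = y ∨ l = z then e b + e (b + 1) - g b else 0) ≤
      x ^ (max 0 (2 * e l - g (l - 1) - g l +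
      if l = y ∨ l = z then e b + e (b + 1) - g b else 0)) :=
    Real.rpow_le_rpow_of_exponent_le hx (le_max_right _ _)
  unfold Rt
  rw [he l, he b, he (b + 1)]
  have hsq : (x ^ e l) ^ 2 = x ^ (2 * e l) := by
    rw [← Real.rpow_natCast, ← Real.rpow_mul hx0.le]
    congr 1
    push_cast
    ring
  rw [hsq]
  split_ifs with hc
  · rw [if_pos hc] at h1 h2
    have h3 : x ^ e b * x ^ e (b + 1) * x ^ (2 * e l) / (G b * G (l - 1) * G l) ≤
        x ^ e b * x ^ e (b + 1) * x ^ (2 * e l) / (x ^ g b * x ^ g (l - 1) * x ^ g l) := by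
      apply div_le_div_of_nonneg_left (by positivity) (by positivity)
      have a1 := hG1 b
      have a2 := hG1 (l - 1)
      have a3 := hG1 l
      gcongr
    have h4 : x ^ e b * x ^ e (b + 1) * x ^ (2 * e l) / (x ^ g b * x ^ g (l - 1) * x ^ g l) =
        x ^ (2 * e l - g (l - 1) - g l + (e b + e (b + 1) - g b)) := by
      rw [← Real.rpow_add hx0, ← Real.rpow_add hx0, ← Real.rpow_add hx0, ← Real.rpow_add hx0,
        ← Real.rpow_sub hx0]
      congr 1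
      ring
    linarith
  · rw [if_neg hc] at h1 h2
    have h3 : x ^ (2 * e l) / ((G (l - 1) : ℝ) * G l) ≤
        x ^ (2 * e l) / (x ^ g (l - 1) * x ^ g l) := by
      apply div_le_div_of_nonneg_left (by positivity) (by positivity)
      have a2 := hG1 (l - 1)
      have a3 := hG1 l
      gcongr
    have h4 : x ^ (2 * e l) / (x ^ g (l - 1) * x ^ g l) =
        x ^ (2 * e l - g (l - 1) - g l + 0) := by
      rw [← Real.rpow_add hx0, ← Real.rpow_sub hx0]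
      congr 1
      ring
    linarith

theorem qc7_rt0 (b y z : Fin 11) (I G : Fin 11 → ℕ) (l : Fin 11) : 0 ≤ Rt b y z I G l := by
  unfold Rt
  split_ifs <;> positivity

theorem qc7_key {x : ℝ} (hx : 1 ≤ x) (b y z : Fin 11) (I G : Fin 11 → ℕ) (e g : Fin 11 → ℝ)
    (he : ∀ j, (2 : ℝ) ^ I j = x ^ e j) (hG1 : ∀ l, x ^ g l ≤ (G l : ℝ))
    (hG2 : ∀ l, (G l : ℝ) ≤ 4 * x ^ g l) :
    (∏ l, ((G l : ℝ) / (2 ^ I l * 2 ^ I (l + 1)))) * ∏ l ∈ nb b, Rt b y z I G l ≤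
      4 ^ 11 * 2 ^ 11 * x ^ phi b y z e g := by
  have hx0 : 0 < x := by linarith
  have h1 : (∏ l, ((G l : ℝ) / (2 ^ I l * 2 ^ I (l + 1)))) ≤
      4 ^ 11 * x ^ (∑ i, (g i - e i - e (i + 1))) := by
    rw [Real.rpow_sum_of_pos hx0]
    have : (4 : ℝ) ^ 11 = ∏ _l : Fin 11, (4 : ℝ) := by
      rw [Finset.prod_const, Finset.card_univ, Fintype.card_fin]
    rw [this, ← Finset.prod_mul_distrib]
    apply Finset.prod_le_prod
    · intro i _
      positivity
    · intro i _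
      rw [he i, he (i + 1)]
      rw [div_le_iff₀ (by positivity)]
      have h2 : 4 * x ^ (g i - e i - e (i + 1)) * (x ^ e i * x ^ e (i + 1)) = 4 * x ^ g i := by
        rw [mul_assoc, ← Real.rpow_add hx0, ← Real.rpow_add hx0]
        congr 2
        ring
      rw [h2]
      exact hG2 i
  have h2 : ∏ l ∈ nb b, Rt b y z I G l ≤
      2 ^ 11 * x ^ (∑ l ∈ nb b, max 0 (2 * e l - g (l - 1) - g l +
      if l = y ∨ l = z then e b + e (b + 1) - g b else 0)) := by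
    rw [Real.rpow_sum_of_pos hx0]
    calc ∏ l ∈ nb b, Rt b y z I G l ≤ ∏ l ∈ nb b, (2 * x ^ (max 0 (2 * e l - g (l - 1) - g l +
          if l = y ∨ l = z then e b + e (b + 1) - g b else 0))) := by
          apply Finset.prod_le_prod
          · intro i _
            exact qc7_rt0 _ _ _ _ _ _
          · intro i _
            exact qc7_rt hx b y z I G e g he hG1 i
      _ = 2 ^ (nb b).card * ∏ l ∈ nb b, x ^ (max 0 (2 * e l - g (l - 1) - g l +
          if l = y ∨ l = z then e b + e (b + 1) - g b else 0)) := by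
          rw [Finset.prod_mul_distrib, Finset.prod_const]
      _ ≤ 2 ^ 11 * ∏ l ∈ nb b, x ^ (max 0 (2 * e l - g (l - 1) - g l +
          if l = y ∨ l = z then e b + e (b + 1) - g b else 0)) := by
          apply mul_le_mul_of_nonneg_right
          · apply pow_le_pow_right₀ (by norm_num)
            calc (nb b).card ≤ (Finset.univ : Finset (Fin 11)).card :=
                  Finset.card_le_card (Finset.subset_univ _)
              _ = 11 := by simp
          · exact Finset.prod_nonneg fun i _ => by positivity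
  unfold phi
  rw [Real.rpow_add hx0]
  calc (∏ l, ((G l : ℝ) / (2 ^ I l * 2 ^ I (l + 1)))) * ∏ l ∈ nb b, Rt b y z I G l
      ≤ (4 ^ 11 * x ^ (∑ i, (g i - e i - e (i + 1)))) *
        (2 ^ 11 * x ^ (∑ l ∈ nb b, max 0 (2 * e l - g (l - 1) - g l +
      if l = y ∨ l = z then e b + e (b + 1) - g b else 0))) := by
        apply mul_le_mul h1 h2
        · exact Finset.prod_nonneg fun i _ => qc7_rt0 _ _ _ _ _ _
        · positivity
    _ = _ := by ring

/-- the exponents -/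
noncomputable def qc7_e (x : ℝ) (I : Fin 11 → ℕ) (j : Fin 11) : ℝ := Real.logb x (2 ^ I j)

/-- the exponents of the common parts -/
noncomputable def qc7_g (x : ℝ) (I G : Fin 11 → ℕ) (l : Fin 11) : ℝ :=
  min (Real.logb x (G l)) (qc7_e x I l + qc7_e x I (l + 1))

theorem qc7_he {x : ℝ} (hx : 1 < x) (I : Fin 11 → ℕ) (j : Fin 11) :
    (2 : ℝ) ^ I j = x ^ qc7_e x I j := by
  unfold qc7_e
  rw [Real.rpow_logb (by linarith) hx.ne' (by positivity)]

theorem qc7_G1 {x : ℝ} (hx : 1 < x) (I G : Fin 11 → ℕ) (hG : ∀ l, 1 ≤ G l) (l : Fin 11) :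
    x ^ qc7_g x I G l ≤ (G l : ℝ) := by
  have hG0 : (0 : ℝ) < G l := by exact_mod_cast hG l
  calc x ^ qc7_g x I G l ≤ x ^ (Real.logb x (G l)) :=
        Real.rpow_le_rpow_of_exponent_le hx.le (min_le_left _ _)
    _ = G l := Real.rpow_logb (by linarith) hx.ne' hG0

theorem qc7_G2 {x : ℝ} (hx : 1 < x) (I G : Fin 11 → ℕ) (hG : ∀ l, 1 ≤ G l)
    (hG4 : ∀ l, (G l : ℝ) ≤ 4 * (2 ^ I l * 2 ^ I (l + 1))) (l : Fin 11) :
    (G l : ℝ) ≤ 4 * x ^ qc7_g x I G l := by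
  have hG0 : (0 : ℝ) < G l := by exact_mod_cast hG l
  unfold qc7_g
  rcases min_choice (Real.logb x (G l)) (qc7_e x I l + qc7_e x I (l + 1)) with h | h
  · rw [h, Real.rpow_logb (by linarith) hx.ne' hG0]
    linarith
  · rw [h, Real.rpow_add (by linarith), ← qc7_he hx, ← qc7_he hx]
    exact hG4 l

theorem qc7_even : ∀ j : Fin 11, j.val % 2 = 0 →
    j = 0 ∨ j = 2 ∨ j = 4 ∨ j = 6 ∨ j = 8 ∨ j = 10 := by decide

theorem qc7_lo0 (hq : q.Ok) (j : Fin 11) : 0 ≤ q.lo j := by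
  by_cases h0 : j = 0
  · rw [h0, hq.l0]
  · by_cases h1 : j = 10
    · rw [h1, hq.l10]
    · have := hq.pos j h0 h1
      have := hq.ε0
      linarith

theorem qc7_adm (hq : q.Ok) {x : ℝ} (hx : 1 < x) (hx2 : 2 ≤ x ^ (2 * q.ε)) (I G : Fin 11 → ℕ)
    (hI : ∀ j, x ^ q.lo j / 2 ≤ (2 : ℝ) ^ I j ∧ (2 : ℝ) ^ I j ≤ x ^ q.hi j)
    (h0 : I 0 = 0) (h10 : I 10 = 0) (hG : ∀ l, 1 ≤ G l) :
    Adm (2 * q.ε) (qc7_e x I) (qc7_g x I G) := by
  have hx0 : 0 < x := by linarith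
  have hε := hq.ε0
  -- upper and lower bounds for e
  have hup : ∀ j, qc7_e x I j ≤ q.hi j := by
    intro j
    have h1 : x ^ qc7_e x I j ≤ x ^ q.hi j := by
      rw [← qc7_he hx]
      exact (hI j).2
    exact (Real.rpow_le_rpow_left_iff hx).mp h1
  have hlow : ∀ j, q.lo j - 2 * q.ε ≤ qc7_e x I j := by
    intro j
    have h1 : x ^ (q.lo j - 2 * q.ε) ≤ x ^ qc7_e x I j := by
      rw [← qc7_he hx]
      refine le_trans ?_ (hI j).1
      rw [Real.rpow_sub hx0]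
      exact div_le_div_of_nonneg_left (by positivity) (by norm_num) hx2
    exact (Real.rpow_le_rpow_left_iff hx).mp h1
  have hhi0 : ∀ j, 0 ≤ q.hi j := fun j => le_trans (qc7_lo0 hq j) (hq.le j)
  have he0 : qc7_e x I 0 = 0 := by
    unfold qc7_e
    rw [h0, pow_zero, Real.logb_one]
  have he10 : qc7_e x I 10 = 0 := by
    unfold qc7_e
    rw [h10, pow_zero, Real.logb_one]
  have hnn : ∀ j, 0 ≤ qc7_e x I j := by
    intro j
    unfold qc7_e
    exact Real.logb_nonneg hx (one_le_pow₀ (by norm_num))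
  refine ⟨he0, he10, ?_, ?_, ?_, ?_, ?_⟩
  · intro j hj0 hj10
    have := hq.pos j hj0 hj10
    have := hlow j
    linarith
  · intro j
    have h1 := hup j
    have h2 : q.hi j ≤ ∑ j, q.hi j :=
      Finset.single_le_sum (f := q.hi) (fun i _ => hhi0 i) (Finset.mem_univ j)
    have h3 := hq.sm
    linarith
  · intro j o hj ho
    have h1 := hup j
    have h2 := hlow o
    have h3 := hq.tiny o ho
    have h4 := hhi0 2
    have h5 := hhi0 4
    have h6 := hhi0 6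
    have h7 := hhi0 8
    have h8 := hnn o
    have hcases := qc7_even j hj
    rcases hcases with rfl | rfl | rfl | rfl | rfl | rfl
    · rw [he0]
      linarith
    · linarith
    · linarith
    · linarith
    · linarith
    · rw [he10]
      linarith
  · intro i
    unfold qc7_g
    refine le_min ?_ ?_
    · exact Real.logb_nonneg hx (by exact_mod_cast hG i)
    · exact add_nonneg (hnn _) (hnn _)
  · intro i
    exact min_le_right _ _

/-- a power of `x` exceeds a constant for large `x` -/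
theorem qc7_big (K : ℝ) {θ : ℝ} (hθ : 0 < θ) : ∃ x₀ : ℝ, 2 ≤ x₀ ∧ ∀ x ≥ x₀, K ≤ x ^ θ := by
  have h := (tendsto_rpow_atTop hθ).eventually_ge_atTop K
  obtain ⟨a, ha⟩ := Filter.eventually_atTop.mp h
  exact ⟨max a 2, le_max_right _ _, fun x hx => ha x (le_trans (le_max_left _ _) hx)⟩

/-- BLOCK QC7 (uses QC4, QC6). In multiplicative form. `e j = log (2 ^ I j) / log x` (`= 0` for `j = 0, 10`),
`g l = min (log (G l) / log x) (e l + e (l+1))`; `G l ≤ 4 * 2 ^ (I l + I (l+1))`, so the loss is a constant;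
`A + 1 ≤ 2 x ^ (max 0 (log A / log x))`. The admissibility: `x ^ lo j / 2 ≤ 2 ^ I j ≤ x ^ hi j` with
`τ = 2 ε` for large `x`; `4 e j ≤ e o` from `tiny`. -/
theorem ratio_le (hq : q.Ok) {θ : ℝ} (hθ : 0 < θ) : ∃ x₀ : ℝ, 2 ≤ x₀ ∧ ∀ x ≥ x₀, ∀ (b : Fin 11)
    (I G : Fin 11 → ℕ), (∀ j, x ^ q.lo j / 2 ≤ (2 : ℝ) ^ I j ∧ (2 : ℝ) ^ I j ≤ x ^ q.hi j) →
    I 0 = 0 → I 10 = 0 → (∀ l, 1 ≤ G l) → (∀ l, (G l : ℝ) ≤ 4 * (2 ^ I l * 2 ^ I (l + 1))) →
    (∏ l, ((G l : ℝ) / (2 ^ I l * 2 ^ I (l + 1)))) * ∏ l ∈ nb b, Rt b (b - 1) (b + 2) I G l ≤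
      x ^ θ := by
  have hε := hq.ε0
  obtain ⟨x1, hx1, h1⟩ := qc7_big 2 (θ := 2 * q.ε) (by linarith)
  obtain ⟨x2, hx2, h2⟩ := qc7_big (4 ^ 11 * 2 ^ 11) hθ
  refine ⟨max x1 x2, le_trans hx1 (le_max_left _ _), ?_⟩
  intro x hx b I G hI h0 h10 hG hG4
  have hxx1 : x1 ≤ x := le_trans (le_max_left _ _) hx
  have hxx2 : x2 ≤ x := le_trans (le_max_right _ _) hx
  have hxg : 1 < x := by linarith
  have hadm := qc7_adm hq hxg (h1 x hxx1) I G hI h0 h10 hG
  have hphi := phi_nonpos (by linarith) hadm b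
  have hkey := qc7_key hxg.le b (b - 1) (b + 2) I G (qc7_e x I) (qc7_g x I G) (qc7_he hxg I)
    (qc7_G1 hxg I G hG) (qc7_G2 hxg I G hG hG4)
  have h3 : x ^ phi b (b - 1) (b + 2) (qc7_e x I) (qc7_g x I G) ≤ 1 :=
    Real.rpow_le_one_of_one_le_of_nonpos hxg.le hphi
  calc _ ≤ _ := hkey
    _ ≤ 4 ^ 11 * 2 ^ 11 * 1 := by
        apply mul_le_mul_of_nonneg_left h3
        positivity
    _ = 4 ^ 11 * 2 ^ 11 := by ring
    _ ≤ x ^ θ := h2 x hxx2

theorem ratio_gap (hq : q.Ok) : ∃ c x₀ : ℝ, 0 < c ∧ 2 ≤ x₀ ∧ ∀ x ≥ x₀, ∀ (b : Fin 11)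
    (I G : Fin 11 → ℕ), (∀ j, x ^ q.lo j / 2 ≤ (2 : ℝ) ^ I j ∧ (2 : ℝ) ^ I j ≤ x ^ q.hi j) →
    I 0 = 0 → I 10 = 0 → (∀ l, 1 ≤ G l) → (∀ l, (G l : ℝ) ≤ 4 * (2 ^ I l * 2 ^ I (l + 1))) →
    (∃ l ∈ ib b, x ^ (q.ε / 80) < (G l : ℝ)) →
    (∃ l, x ^ (q.ε / 15) * (G l : ℝ) < 2 ^ I l * 2 ^ I (l + 1)) →
    ∃ y ∈ nb b, ∃ z ∈ nb b, y ≠ z ∧
      (∏ l, ((G l : ℝ) / (2 ^ I l * 2 ^ I (l + 1)))) * ∏ l ∈ nb b, Rt b y z I G l ≤ x ^ (-c) := by
  have hε := hq.ε0
  obtain ⟨c, hc, hgap⟩ := phi_gap (τ := 2 * q.ε) (ζ := q.ε / 160) (ζ' := q.ε / 15)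
    (by linarith) (by linarith) (by linarith)
  obtain ⟨x1, hx1, h1⟩ := qc7_big 2 (θ := 2 * q.ε) (by linarith)
  obtain ⟨x2, hx2, h2⟩ := qc7_big (4 ^ 11 * 2 ^ 11) (θ := c / 2) (by linarith)
  obtain ⟨x3, hx3, h3⟩ := qc7_big 4 (θ := q.ε / 160) (by linarith)
  refine ⟨c / 2, max x1 (max x2 x3), by linarith, le_trans hx1 (le_max_left _ _), ?_⟩
  intro x hx b I G hI h0 h10 hG hG4 hA hB
  have hxx1 : x1 ≤ x := le_trans (le_max_left _ _) hx
  have hxx2 : x2 ≤ x := le_trans (le_max_left _ _) (le_trans (le_max_right _ _) hx)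
  have hxx3 : x3 ≤ x := le_trans (le_max_right _ _) (le_trans (le_max_right _ _) hx)
  have hxg : 1 < x := by linarith
  have hx0 : 0 < x := by linarith
  have hadm := qc7_adm hq hxg (h1 x hxx1) I G hI h0 h10 hG
  rcases hgap b _ _ hadm with h | h | h
  · exfalso
    obtain ⟨l, hl, hGl⟩ := hA
    have h4 := h l hl
    have h5 := qc7_G2 hxg I G hG hG4 l
    have h6 : x ^ qc7_g x I G l ≤ x ^ (q.ε / 160) := Real.rpow_le_rpow_of_exponent_le hxg.le h4
    have h7 := h3 x hxx3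
    have h8 : x ^ (q.ε / 80) = x ^ (q.ε / 160) * x ^ (q.ε / 160) := by
      rw [← Real.rpow_add hx0]
      congr 1
      ring
    have h9 : 4 * x ^ (q.ε / 160) ≤ x ^ (q.ε / 160) * x ^ (q.ε / 160) :=
      mul_le_mul_of_nonneg_right h7 (by positivity)
    linarith
  · exfalso
    obtain ⟨l, hGl⟩ := hB
    have h4 := h l
    have h5 := qc7_G1 hxg I G hG l
    have h6 : x ^ (qc7_e x I l + qc7_e x I (l + 1)) ≤
        x ^ (q.ε / 15 + qc7_g x I G l) :=
      Real.rpow_le_rpow_of_exponent_le hxg.le (by linarith)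
    rw [Real.rpow_add hx0, Real.rpow_add hx0, ← qc7_he hxg, ← qc7_he hxg] at h6
    have h7 : x ^ (q.ε / 15) * x ^ qc7_g x I G l ≤ x ^ (q.ε / 15) * G l :=
      mul_le_mul_of_nonneg_left h5 (by positivity)
    linarith
  · obtain ⟨y, hy, z, hz, hyz, hphi⟩ := h
    refine ⟨y, hy, z, hz, hyz, ?_⟩
    have hkey := qc7_key hxg.le b y z I G (qc7_e x I) (qc7_g x I G) (qc7_he hxg I)
      (qc7_G1 hxg I G hG) (qc7_G2 hxg I G hG hG4)
    have h4 : x ^ phi b y z (qc7_e x I) (qc7_g x I G) ≤ x ^ (-c) :=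
      Real.rpow_le_rpow_of_exponent_le hxg.le hphi
    calc _ ≤ _ := hkey
      _ ≤ x ^ (c / 2) * x ^ (-c) := by
          apply mul_le_mul (h2 x hxx2) h4 (by positivity) (by positivity)
      _ = x ^ (-(c / 2)) := by
          rw [← Real.rpow_add hx0]
          congr 1
          ring

end Pool.Agent.PNI
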