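import Pool.Agent.Lib_helper96.PNI.Defs

set_option autoImplicit false

namespace Pool.Agent.PNI

open Finset Pool.Agent.PENT Pool.Agent.PENK

variable {q : Prm} {x : ℝ} {u v w : PolyK 11}

theorem qa7_nr (a : ℤ × ℤ) : (nr a : ℝ) = |(a.1 : ℝ)| + |(a.2 : ℝ)| := by
  unfold nr
  push_cast
  rw [Nat.cast_natAbs, Nat.cast_natAbs]
  push_cast
  rfl

theorem qa7_dn (u : PolyK 11) (l : Fin 11) : (dn u l : ℝ) = |(dt (u l) (u (l + 1)) : ℝ)| := by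
  unfold dn dl
  rw [Nat.cast_natAbs]
  push_cast
  rfl

theorem qa7_neg (a b : ℤ × ℤ) : dt a b = -dt b a := by
  unfold dt
  ring

theorem qa7_ne (l : Fin 11) : l ≠ l + 1 := by
  revert l
  decide

theorem dt_le_nr (a c : ℤ × ℤ) : |(dt a c : ℝ)| ≤ nr a * nr c := by
  rw [qa7_nr, qa7_nr]
  unfold dt
  push_cast
  have h := abs_sub ((a.1 : ℝ) * c.2) (a.2 * c.1)
  rw [abs_mul, abs_mul] at h
  have h1 : 0 ≤ |(a.1 : ℝ)| * |(c.1 : ℝ)| := mul_nonneg (abs_nonneg _) (abs_nonneg _)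
  have h2 : 0 ≤ |(a.2 : ℝ)| * |(c.2 : ℝ)| := mul_nonneg (abs_nonneg _) (abs_nonneg _)
  nlinarith

theorem dn_le_nr (u : PolyK 11) (l : Fin 11) : (dn u l : ℝ) ≤ nr (u l) * nr (u (l + 1)) := by
  rw [qa7_dn]
  exact dt_le_nr _ _

theorem dn_ge_nr (h : IsPt q x u) (l : Fin 11) :
    q.c3 * nr (u l) * nr (u (l + 1)) ≤ (dn u l : ℝ) := by
  rw [qa7_dn]
  exact h.sep l (l + 1) (qa7_ne l)

theorem dt_ne (h : IsPt q x u) (i j : Fin 11) (hij : i ≠ j) : dt (u i) (u j) ≠ 0 := by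
  rcases lt_or_gt_of_ne hij with h1 | h1
  · exact (h.sg i j h1).ne'
  · have h2 := h.sg j i h1
    rw [qa7_neg]
    omega

theorem dn_pos (h : IsPt q x u) (l : Fin 11) : 0 < dn u l := by
  unfold dn dl
  exact Int.natAbs_pos.2 (dt_ne h l (l + 1) (qa7_ne l))

theorem dn_ten (h : IsPt q x u) : dn u 10 = 1 := by
  unfold dn dl
  have e : (10 : Fin 11) + 1 = 0 := by decide
  rw [e, h.f0, h.f1]
  decide

theorem qa7_n0 (h : IsPt q x u) : nr (u 0) = 1 := by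
  rw [h.f0]
  decide

theorem qa7_n10 (h : IsPt q x u) : nr (u 10) = 1 := by
  rw [h.f1]
  decide

theorem coord_ge (h : IsPt q x u) (k : Fin 11) (h0 : k ≠ 0) (h1 : k ≠ 10) :
    q.c3 * nr (u k) ≤ ((u k).1 : ℝ) ∧ q.c3 * nr (u k) ≤ ((u k).2 : ℝ) := by
  have k0 : 0 < k := Fin.pos_iff_ne_zero.2 h0
  have k1 : k < 10 := by
    have : k.val < 11 := k.isLt
    have h2 : k.val ≠ 10 := fun h => h1 (Fin.ext h)
    exact Fin.lt_def.2 (by show k.val < 10; omega)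
  have e1 : dt (u k) (u 10) = (u k).1 := by
    rw [h.f1]
    unfold dt
    simp
  have e2 : dt (u 0) (u k) = (u k).2 := by
    rw [h.f0]
    unfold dt
    simp
  constructor
  · have s := h.sep k 10 h1
    have g := h.sg k 10 k1
    rw [e1, qa7_n10 h] at s
    rw [e1] at g
    have g' : (0 : ℝ) < ((u k).1 : ℝ) := by exact_mod_cast g
    rw [abs_of_pos g'] at s
    simpa using s
  · have s := h.sep 0 k h0.symm
    have g := h.sg 0 k k0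
    rw [e2, qa7_n0 h] at s
    rw [e2] at g
    have g' : (0 : ℝ) < ((u k).2 : ℝ) := by exact_mod_cast g
    rw [abs_of_pos g'] at s
    simpa using s

theorem cb_le (b k : Fin 11) (u : PolyK 11) :
    |((cb b u k).1 : ℝ)| ≤ nr (u k) * nr (u (b + 1)) ∧
      |((cb b u k).2 : ℝ)| ≤ nr (u b) * nr (u k) :=
  ⟨dt_le_nr _ _, dt_le_nr _ _⟩

theorem qa7_siz {I : Fin 11 → ℕ} (hI : Siz I u) (j : Fin 11) :
    (2 : ℝ) ^ I j ≤ nr (u j) ∧ (nr (u j) : ℝ) ≤ 2 * 2 ^ I j := by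
  obtain ⟨h1, h2⟩ := hI j
  constructor
  · exact_mod_cast h1
  · have h3 : (nr (u j) : ℝ) < (2 : ℝ) ^ (I j + 1) := by exact_mod_cast h2
    rw [pow_succ] at h3
    linarith

theorem siz_bd (hq : q.Ok) (hx : 1 ≤ x) (h : IsPt q x u) {I : Fin 11 → ℕ} (hI : Siz I u) :
    (∀ j, x ^ q.lo j / 2 ≤ (2 : ℝ) ^ I j ∧ (2 : ℝ) ^ I j ≤ x ^ q.hi j) ∧ I 0 = 0 ∧ I 10 = 0 := by
  refine ⟨fun j => ?_, ?_, ?_⟩
  · obtain ⟨h1, h2⟩ := qa7_siz hI j
    constructor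
    · linarith [h.lo j]
    · linarith [h.hi j]
  · have h1 := (hI 0).1
    rw [qa7_n0 h] at h1
    by_contra h0
    have h2 : 2 ^ 1 ≤ 2 ^ I 0 := Nat.pow_le_pow_right (by norm_num) (by omega)
    omega
  · have h1 := (hI 10).1
    rw [qa7_n10 h] at h1
    by_contra h0
    have h2 : 2 ^ 1 ≤ 2 ^ I 10 := Nat.pow_le_pow_right (by norm_num) (by omega)
    omega

theorem dn_siz (h : IsPt q x u) {I : Fin 11 → ℕ} (hI : Siz I u) (l : Fin 11) :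
    q.c3 * (2 ^ I l * 2 ^ I (l + 1)) ≤ (dn u l : ℝ) ∧
      (dn u l : ℝ) ≤ 4 * (2 ^ I l * 2 ^ I (l + 1)) := by
  obtain ⟨h1, h2⟩ := qa7_siz hI l
  obtain ⟨h3, h4⟩ := qa7_siz hI (l + 1)
  have p1 : (0 : ℝ) < 2 ^ I l := by positivity
  have p2 : (0 : ℝ) < 2 ^ I (l + 1) := by positivity
  have n1 : (0 : ℝ) ≤ nr (u l) := Nat.cast_nonneg _
  have n2 : (0 : ℝ) ≤ nr (u (l + 1)) := Nat.cast_nonneg _
  constructor
  · rcases le_or_gt 0 q.c3 with hc | hc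
    · refine le_trans ?_ (dn_ge_nr h l)
      rw [mul_assoc]
      exact mul_le_mul_of_nonneg_left (mul_le_mul h1 h3 p2.le n1) hc
    · refine le_trans ?_ (Nat.cast_nonneg _)
      exact mul_nonpos_of_nonpos_of_nonneg hc.le (mul_pos p1 p2).le
  · refine (dn_le_nr u l).trans ?_
    refine (mul_le_mul h2 h4 n2 (by positivity)).trans (le_of_eq ?_)
    ring

theorem qa7_shift (f : Fin 11 → ℝ) : ∏ j, f (j + 1) = ∏ j, f j :=
  Equiv.prod_comp (Equiv.addRight (1 : Fin 11)) f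

theorem DD_siz (hq : q.Ok) (h : IsPt q x u) {I : Fin 11 → ℕ} (hI : Siz I u) :
    q.c3 ^ 11 * ∏ j, ((2 : ℝ) ^ I j) ^ 2 ≤ (DD u : ℝ) := by
  unfold DD
  rw [Nat.cast_prod]
  have e : q.c3 ^ 11 * ∏ j, ((2 : ℝ) ^ I j) ^ 2 =
      ∏ j : Fin 11, (q.c3 * (2 ^ I j * 2 ^ I (j + 1))) := by
    rw [Finset.prod_mul_distrib, Finset.prod_const, Finset.card_univ, Fintype.card_fin,
      Finset.prod_mul_distrib, qa7_shift (fun j => (2 : ℝ) ^ I j), ← Finset.prod_mul_distrib]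
    congr 1
    refine Finset.prod_congr rfl fun j _ => ?_
    ring
  rw [e]
  refine Finset.prod_le_prod (fun j _ => ?_) (fun j _ => (dn_siz h hI j).1)
  have := hq.c30
  positivity

theorem DD_le (hq : q.Ok) (hx : 1 ≤ x) (h : IsPt q x u) : (DD u : ℝ) ≤ x := by
  have hx0 : 0 < x := by linarith
  unfold DD
  rw [Nat.cast_prod]
  have h1 : ∏ j : Fin 11, (dn u j : ℝ) ≤ ∏ j : Fin 11, (x ^ q.hi j * x ^ q.hi (j + 1)) := by
    refine Finset.prod_le_prod (fun j _ => Nat.cast_nonneg _) (fun j _ => ?_)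
    refine (dn_le_nr u j).trans ?_
    exact mul_le_mul (h.hi j) (h.hi (j + 1)) (Nat.cast_nonneg _) (by positivity)
  refine h1.trans ?_
  rw [Finset.prod_mul_distrib, qa7_shift (fun j => x ^ q.hi j), ← Real.rpow_sum_of_pos hx0,
    ← Real.rpow_add hx0]
  have h2 : x ^ (∑ j, q.hi j + ∑ j, q.hi j) ≤ x ^ (1 : ℝ) :=
    Real.rpow_le_rpow_of_exponent_le hx (by linarith [hq.sm])
  rwa [Real.rpow_one] at h2

theorem x_large (hq : q.Ok) (C : ℝ) {θ : ℝ} (hθ : 0 < θ) : ∃ x₀ : ℝ, 1 ≤ x₀ ∧ ∀ x ≥ x₀,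
    C ≤ x ^ θ ∧ ∀ u : PolyK 11, IsPt q x u → ∀ j, j ≠ 0 → j ≠ 10 → C < nr (u j) := by
  have h4 : 0 < 4 * q.ε := by linarith [hq.ε0]
  have t1 := (tendsto_rpow_atTop hθ).eventually_ge_atTop C
  have t2 := (tendsto_rpow_atTop h4).eventually_gt_atTop C
  obtain ⟨x₀, hx₀⟩ := Filter.eventually_atTop.1 (t1.and t2)
  refine ⟨max 1 x₀, le_max_left _ _, fun x hx => ?_⟩
  obtain ⟨k1, k2⟩ := hx₀ x ((le_max_right _ _).trans hx)
  refine ⟨k1, fun u hu j j0 j1 => ?_⟩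
  have hx1 : 1 ≤ x := (le_max_left _ _).trans hx
  calc C < x ^ (4 * q.ε) := k2
    _ ≤ x ^ q.lo j := Real.rpow_le_rpow_of_exponent_le hx1 (hq.pos j j0 j1)
    _ ≤ nr (u j) := hu.lo j

end Pool.Agent.PNI
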