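import Pool.Agent.Lib_helper96.PNI.Defs
import Pool.Agent.Lib_helper96.PNI.L.QA1

set_option autoImplicit false

namespace Pool.Agent.PNI

open Finset Pool.Agent.PENT Pool.Agent.PENK

variable {q : Prm} {x : ℝ} {u v w : PolyK 11}

theorem qa3_dt_swap (a c : ℤ × ℤ) : dt c a = -dt a c := by
  unfold dt
  ring

theorem qa3_sqf (s : Finset ℕ) (h : ∀ p ∈ s, p.Prime) : Squarefree (∏ p ∈ s, p) := by
  induction s using Finset.induction_on with
  | empty => simp
  | insert a s ha ih =>
    rw [Finset.prod_insert ha, Nat.squarefree_mul_iff]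
    refine ⟨?_, (h a (Finset.mem_insert_self a s)).prime.squarefree,
      ih fun p hp => h p (Finset.mem_insert_of_mem hp)⟩
    refine Nat.Coprime.prod_right fun p hp => ?_
    rw [Nat.coprime_primes (h a (Finset.mem_insert_self a s)) (h p (Finset.mem_insert_of_mem hp))]
    rintro rfl
    exact ha hp

theorem qa3_mem {s : Finset ℕ} (h : ∀ p ∈ s, p.Prime) {p : ℕ} (hp : p.Prime) :
    p ∣ ∏ a ∈ s, a ↔ p ∈ s := by
  constructor
  · intro hd
    obtain ⟨a, ha, hpa⟩ := (hp.prime.dvd_finsetProd_iff _).1 hd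
    have := (Nat.prime_dvd_prime_iff_eq hp (h a ha)).1 hpa
    rw [this]
    exact ha
  · intro hm
    exact Finset.dvd_prod_of_mem _ hm

theorem qa3_dn_ne (h : IsPt q x u) (l : Fin 11) : dn u l ≠ 0 := (h.sq l).ne_zero

/-- BLOCK QA3 (uses QA1). The common parts. `p ∣ dn v l` and `p ∣ dn u i` determine `l` and `i`. -/
theorem CL_symm (b i l : Fin 11) (u v : PolyK 11) (p : ℕ) :
    CL b u v i l p ↔ CL b v u l i p := by
  unfold CL
  constructor
  · rintro ⟨h1, h2, h3⟩
    refine ⟨h2, h1, fun m hm m' hm' => ?_⟩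
    rw [qa3_dt_swap, dvd_neg]
    exact h3 m' hm' m hm
  · rintro ⟨h1, h2, h3⟩
    refine ⟨h2, h1, fun m hm m' hm' => ?_⟩
    rw [qa3_dt_swap, dvd_neg]
    exact h3 m' hm' m hm

theorem dil_symm (b i l : Fin 11) (u v : PolyK 11) : dil b u v i l = dil b v u l i := by
  classical
  unfold dil
  rw [Nat.gcd_comm]
  refine Finset.prod_congr ?_ fun _ _ => rfl
  ext p
  rw [Finset.mem_filter, Finset.mem_filter, CL_symm]

theorem gl_eq (hu : IsPt q x u) (hv : IsPt q x v) (b l : Fin 11) :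
    gl b u v l = ∏ i, dil b u v i l := by
  classical
  unfold gl dil
  rw [← Finset.prod_biUnion]
  · refine Finset.prod_congr ?_ fun _ _ => rfl
    ext p
    rw [Finset.mem_filter, Finset.mem_biUnion]
    constructor
    · rintro ⟨hp, i, hi⟩
      refine ⟨i, Finset.mem_univ i, ?_⟩
      rw [Finset.mem_filter]
      refine ⟨?_, hi⟩
      rw [Nat.mem_primeFactors]
      refine ⟨Nat.prime_of_mem_primeFactors hp, Nat.dvd_gcd hi.1 hi.2.1, ?_⟩
      intro h0
      exact qa3_dn_ne hv l (Nat.eq_zero_of_gcd_eq_zero_right h0)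
    · rintro ⟨i, _, hi⟩
      rw [Finset.mem_filter] at hi
      refine ⟨?_, i, hi.2⟩
      rw [Nat.mem_primeFactors]
      exact ⟨Nat.prime_of_mem_primeFactors hi.1, hi.2.2.1, qa3_dn_ne hv l⟩
  · intro i _ j _ hij
    rw [Function.onFun, Finset.disjoint_left]
    intro p hp hp'
    rw [Finset.mem_filter] at hp hp'
    have hpr := Nat.prime_of_mem_primeFactors hp.1
    have h1 := Nat.dvd_gcd hp.2.1 hp'.2.1
    rw [Nat.Coprime.gcd_eq_one (hu.co i j hij)] at h1
    exact hpr.one_lt.ne' (Nat.dvd_one.1 h1)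

theorem gl_dvd (b l : Fin 11) (u v : PolyK 11) : gl b u v l ∣ dn v l := by
  classical
  unfold gl
  exact (Finset.prod_dvd_prod_of_subset _ _ _ (Finset.filter_subset _ _)).trans
    (Nat.prod_primeFactors_dvd _)

theorem gl_sqf (b l : Fin 11) (u v : PolyK 11) : Squarefree (gl b u v l) := by
  classical
  unfold gl
  exact qa3_sqf _ fun p hp => Nat.prime_of_mem_primeFactors (Finset.mem_filter.1 hp).1

theorem dil_sqf (b i l : Fin 11) (u v : PolyK 11) : Squarefree (dil b u v i l) := by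
  classical
  unfold dil
  exact qa3_sqf _ fun p hp => Nat.prime_of_mem_primeFactors (Finset.mem_filter.1 hp).1

theorem gl_pos (b l : Fin 11) (u v : PolyK 11) : 0 < gl b u v l :=
  Nat.pos_of_ne_zero (gl_sqf b l u v).ne_zero

theorem dil_pos (b i l : Fin 11) (u v : PolyK 11) : 0 < dil b u v i l :=
  Nat.pos_of_ne_zero (dil_sqf b i l u v).ne_zero

theorem dil_dvd (b i l : Fin 11) (u v : PolyK 11) :
    dil b u v i l ∣ dn u i ∧ dil b u v i l ∣ dn v l := by
  classical
  have h : dil b u v i l ∣ (dn u i).gcd (dn v l) := by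
    unfold dil
    exact (Finset.prod_dvd_prod_of_subset _ _ _ (Finset.filter_subset _ _)).trans
      (Nat.prod_primeFactors_dvd _)
  exact ⟨h.trans (Nat.gcd_dvd_left _ _), h.trans (Nat.gcd_dvd_right _ _)⟩

theorem prime_dil {p : ℕ} (hp : p.Prime) (hu : IsPt q x u) (b i l : Fin 11) (v : PolyK 11) :
    p ∣ dil b u v i l ↔ CL b u v i l p := by
  classical
  unfold dil
  rw [qa3_mem (fun a ha => Nat.prime_of_mem_primeFactors (Finset.mem_filter.1 ha).1) hp,
    Finset.mem_filter]
  constructor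
  · exact fun h => h.2
  · intro h
    refine ⟨?_, h⟩
    rw [Nat.mem_primeFactors]
    refine ⟨hp, Nat.dvd_gcd h.1 h.2.1, ?_⟩
    intro h0
    exact qa3_dn_ne hu i (Nat.eq_zero_of_gcd_eq_zero_left h0)

theorem prime_gl {p : ℕ} (hp : p.Prime) (hv : IsPt q x v) (b l : Fin 11) (u : PolyK 11) :
    p ∣ gl b u v l ↔ ∃ i, CL b u v i l p := by
  classical
  unfold gl
  rw [qa3_mem (fun a ha => Nat.prime_of_mem_primeFactors (Finset.mem_filter.1 ha).1) hp,
    Finset.mem_filter]
  constructor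
  · exact fun h => h.2
  · rintro ⟨i, h⟩
    refine ⟨?_, i, h⟩
    rw [Nat.mem_primeFactors]
    exact ⟨hp, h.2.1, qa3_dn_ne hv l⟩

theorem gl_dvd_DD (b l : Fin 11) (u v : PolyK 11) : gl b u v l ∣ DD u := by
  classical
  unfold gl
  refine Finset.prod_primes_dvd _ (fun p hp =>
    (Nat.prime_of_mem_primeFactors (Finset.mem_filter.1 hp).1).prime) ?_
  intro p hp
  obtain ⟨i, hi⟩ := (Finset.mem_filter.1 hp).2
  unfold DD
  exact hi.1.trans (Finset.dvd_prod_of_mem (dn u) (Finset.mem_univ i))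

/-- `dil` divides the determinants of the vertices (`sqf_dvd`) -/
theorem dil_dvd_dt (b i l m m' : Fin 11) (u v : PolyK 11) (hm : m ∈ vx b i) (hm' : m' ∈ vx b l) :
    (dil b u v i l : ℤ) ∣ dt (cb b u m) (cb b v m') := by
  classical
  refine sqf_dvd (dil_sqf b i l u v) ?_
  intro p hp hpd
  unfold dil at hpd
  rw [qa3_mem (fun a ha => Nat.prime_of_mem_primeFactors (Finset.mem_filter.1 ha).1) hp,
    Finset.mem_filter] at hpd
  exact hpd.2.2.2 m hm m' hm'

theorem dil_one (b i l : Fin 11) (u v : PolyK 11) (h : ∀ p : ℕ, p.Prime → ¬ CL b u v i l p) :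
    dil b u v i l = 1 := by
  classical
  unfold dil
  have h1 : ((dn u i).gcd (dn v l)).primeFactors.filter (CL b u v i l) = ∅ := by
    rw [Finset.filter_eq_empty_iff]
    intro p hp
    exact h p (Nat.prime_of_mem_primeFactors hp)
  rw [h1, Finset.prod_empty]

end Pool.Agent.PNI
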