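import Pool.Agent.Lib_helper96.PNI.Defs
import Pool.Agent.Lib_helper96.PNI.L.QA1

set_option autoImplicit false

namespace Pool.Agent.PNI

open Finset Pool.Agent.PENT Pool.Agent.PENK

variable {q : Prm} {x : ℝ} {u v w : PolyK 11}

/-- BLOCK QA4 (uses QA1). Frames. `u_0 = (1,0)`, `u_10 = (0,1)`. -/
theorem cb_zero (h : IsPt q x u) (b : Fin 11) : cb b u 0 = ((u (b + 1)).2, -(u b).2) := by
  unfold cb dt
  rw [h.f0]
  ext <;> simp

theorem cb_ten (h : IsPt q x u) (b : Fin 11) : cb b u 10 = (-(u (b + 1)).1, (u b).1) := by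
  unfold cb dt
  rw [h.f1]
  ext <;> simp

/-- all coordinates of the vertices are `≥ 0`, and `> 0` for `1 ≤ k ≤ 9` -/
theorem coord_pos (h : IsPt q x u) (k : Fin 11) (h0 : k ≠ 0) (h1 : k ≠ 10) :
    0 < (u k).1 ∧ 0 < (u k).2 := by
  have hk0 : (0 : Fin 11) < k := Fin.pos_iff_ne_zero.2 h0
  have hk1 : k < 10 := by
    rw [Fin.lt_def]
    have h2 := k.isLt
    have h3 : k.val ≠ 10 := fun h4 => h1 (Fin.ext h4)
    show k.val < 10
    omega
  have h2 := h.sg 0 k hk0
  have h3 := h.sg k 10 hk1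
  unfold dt at h2 h3
  rw [h.f0] at h2
  rw [h.f1] at h3
  simp only [mul_one, mul_zero, one_mul, zero_mul, sub_zero] at h2 h3
  exact ⟨h3, h2⟩

theorem qa4_n0 : ∀ b : Fin 11, b ≠ 10 → (0 : Fin 11) ≠ b + 1 := by decide

theorem qa4_n10 : ∀ b : Fin 11, b ≠ 9 → (10 : Fin 11) ≠ b + 1 := by decide

theorem qa4_lt : ∀ b : Fin 11, b ≠ 10 → b < b + 1 := by decide

theorem qa4_dl_ne (h : IsPt q x u) (b : Fin 11) : dl u b ≠ 0 := by
  intro h0
  have h1 := (h.sq b).ne_zero
  apply h1
  unfold dn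
  rw [h0]
  rfl

theorem qa4_frame (b k : Fin 11) (u : PolyK 11) :
    dl u b * (u k).1 = (cb b u k).1 * (u b).1 + (cb b u k).2 * (u (b + 1)).1 ∧
    dl u b * (u k).2 = (cb b u k).1 * (u b).2 + (cb b u k).2 * (u (b + 1)).2 := by
  unfold dl cb dt
  constructor <;> ring

theorem qa4_base (hv : IsPt q x v) (hw : IsPt q x w) (b : Fin 11)
    (h : ∀ k ∈ nb b, cb b v k = cb b w k) (hd : dn v b = dn w b) :
    v b = w b ∧ v (b + 1) = w (b + 1) := by
  have hnb : ∀ k : Fin 11, k ≠ b → k ≠ b + 1 → k ∈ nb b := by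
    intro k h1 h2
    unfold nb
    rw [Finset.mem_filter]
    exact ⟨Finset.mem_univ k, h1, h2⟩
  by_cases hb0 : b = 0
  · subst hb0
    have h1 : v 0 = w 0 := by rw [hv.f0, hw.f0]
    have h2 := h 10 (hnb 10 (by decide) (by decide))
    rw [cb_ten hv, cb_ten hw] at h2
    have h3 := congrArg Prod.fst h2
    simp only [neg_inj] at h3
    have h4 : (v (0 + 1)).2 = (w (0 + 1)).2 := by
      have p1 := (coord_pos hv (0 + 1) (by decide) (by decide)).2
      have p2 := (coord_pos hw (0 + 1) (by decide) (by decide)).2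
      unfold dn dl dt at hd
      rw [hv.f0, hw.f0] at hd
      simp only [one_mul, zero_mul, sub_zero] at hd
      omega
    exact ⟨h1, Prod.ext h3 h4⟩
  · by_cases hb10 : b = 10
    · subst hb10
      have e : (10 : Fin 11) + 1 = 0 := by decide
      rw [e, hv.f0, hw.f0, hv.f1, hw.f1]
      exact ⟨rfl, rfl⟩
    · by_cases hb9 : b = 9
      · subst hb9
        have e : (9 : Fin 11) + 1 = 10 := by decide
        have h1 : v (9 + 1) = w (9 + 1) := by rw [e, hv.f1, hw.f1]
        have h2 := h 0 (hnb 0 (by decide) (by decide))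
        rw [cb_zero hv, cb_zero hw] at h2
        have h3 := congrArg Prod.snd h2
        simp only [neg_inj] at h3
        have h4 : (v 9).1 = (w 9).1 := by
          have p1 := (coord_pos hv 9 (by decide) (by decide)).1
          have p2 := (coord_pos hw 9 (by decide) (by decide)).1
          unfold dn dl dt at hd
          rw [e, hv.f1, hw.f1] at hd
          simp only [mul_one, mul_zero, sub_zero] at hd
          omega
        exact ⟨Prod.ext h4 h3, h1⟩
      · have n0 : (0 : Fin 11) ≠ b + 1 := qa4_n0 b hb10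
        have n10 : (10 : Fin 11) ≠ b + 1 := qa4_n10 b hb9
        have h1 := h 0 (hnb 0 (Ne.symm hb0) n0)
        have h2 := h 10 (hnb 10 (Ne.symm hb10) n10)
        rw [cb_zero hv, cb_zero hw] at h1
        rw [cb_ten hv, cb_ten hw] at h2
        have a1 := congrArg Prod.fst h1
        have a2 := congrArg Prod.snd h1
        have a3 := congrArg Prod.fst h2
        have a4 := congrArg Prod.snd h2
        simp only [neg_inj] at a1 a2 a3 a4
        exact ⟨Prod.ext a4 a2, Prod.ext a3 a1⟩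

/-- `v` is determined by its frame vectors and `dn v b`. If `b ∉ {0, 9, 10}`: `cb_zero`, `cb_ten` give
`v_b, v_(b+1)`; `b = 0`: `cb_ten` gives `(v_1).1`, `dn v 0 = (v_1).2`; `b = 9`: `dn v 9 = (v_9).1`; `b = 10`:
both are frozen; then `dl v b • v_k = (c_k)₁ v_b + (c_k)₂ v_(b+1)`. -/
theorem pt_inj (hv : IsPt q x v) (hw : IsPt q x w) (b : Fin 11)
    (h : ∀ k ∈ nb b, cb b v k = cb b w k) (hd : dn v b = dn w b) : v = w := by
  obtain ⟨h1, h2⟩ := qa4_base hv hw b h hd
  have h3 : dl v b = dl w b := by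
    unfold dl
    rw [h1, h2]
  have hne := qa4_dl_ne hw b
  funext k
  by_cases hk : k = b
  · rw [hk]
    exact h1
  · by_cases hk1 : k = b + 1
    · rw [hk1]
      exact h2
    · have h4 := h k (by
        unfold nb
        rw [Finset.mem_filter]
        exact ⟨Finset.mem_univ k, hk, hk1⟩)
      have f1 := qa4_frame b k v
      have f2 := qa4_frame b k w
      rw [h4, h1, h2, h3] at f1
      refine Prod.ext ?_ ?_
      · exact mul_left_cancel₀ hne (f1.1.trans f2.1.symm)
      · exact mul_left_cancel₀ hne (f1.2.trans f2.2.symm)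

/-- primitive vectors which are parallel are equal up to sign -/
theorem par_eq {a c : ℤ × ℤ} (ha : Int.gcd a.1 a.2 = 1) (hc : Int.gcd c.1 c.2 = 1)
    (h : dt a c = 0) : a = c ∨ a = -c := by
  have hb := Int.gcd_eq_gcd_ab a.1 a.2
  rw [ha] at hb
  set s := Int.gcdA a.1 a.2
  set t := Int.gcdB a.1 a.2
  push_cast at hb
  unfold dt at h
  have h1 : c.1 = (s * c.1 + t * c.2) * a.1 := by
    have : c.1 * 1 = c.1 * (a.1 * s + a.2 * t) := by rw [← hb]
    linear_combination this - t * h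
  have h2 : c.2 = (s * c.1 + t * c.2) * a.2 := by
    have : c.2 * 1 = c.2 * (a.1 * s + a.2 * t) := by rw [← hb]
    linear_combination this + s * h
  set m := s * c.1 + t * c.2 with hm
  have h3 : m ∣ 1 := by
    have h4 : m ∣ (Int.gcd c.1 c.2 : ℤ) := Int.dvd_coe_gcd ⟨a.1, h1⟩ ⟨a.2, h2⟩
    rw [hc] at h4
    exact_mod_cast h4
  rcases Int.isUnit_iff.1 (isUnit_of_dvd_one h3) with h5 | h5
  · left
    rw [h5] at h1 h2
    exact Prod.ext (by linarith) (by linarith)
  · right
    rw [h5] at h1 h2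
    refine Prod.ext ?_ ?_
    · rw [Prod.fst_neg]
      linarith
    · rw [Prod.snd_neg]
      linarith

/-- the frames agree, `1 ≤ b ≤ 8`: the signs of the coordinates of `c_0` are `(+,-)`, those of `c_10` are
`(-,+)`, and `dt (c_0) (c_10) = dn u b > 0` for both; so the other combinations are impossible -/
theorem frame_mid (hu : IsPt q x u) (hv : IsPt q x v) (b : Fin 11) (hb : b ≠ 0) (hb9 : b ≠ 9)
    (hb10 : b ≠ 10) (h0 : cb b v 0 = cb b u 0 ∨ cb b v 0 = -cb b u 10)
    (h10 : cb b v 10 = cb b u 10 ∨ cb b v 10 = -cb b u 0) :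
    v b = u b ∧ v (b + 1) = u (b + 1) := by
  have hlt : b < b + 1 := qa4_lt b hb10
  have hpv := hv.sg b (b + 1) hlt
  have hpu := hu.sg b (b + 1) hlt
  unfold dt at hpv hpu
  rw [cb_zero hv, cb_zero hu, cb_ten hu] at h0
  rw [cb_ten hv, cb_ten hu, cb_zero hu] at h10
  rcases h0 with h0 | h0 <;> rcases h10 with h10 | h10
  · have a1 := congrArg Prod.fst h0
    have a2 := congrArg Prod.snd h0
    have a3 := congrArg Prod.fst h10
    have a4 := congrArg Prod.snd h10
    simp only [neg_inj] at a1 a2 a3 a4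
    exact ⟨Prod.ext a4 a2, Prod.ext a3 a1⟩
  · exfalso
    have a1 := congrArg Prod.fst h0
    have a2 := congrArg Prod.snd h0
    have a3 := congrArg Prod.fst h10
    have a4 := congrArg Prod.snd h10
    simp only [neg_inj, Prod.fst_neg, Prod.snd_neg, neg_neg] at a1 a2 a3 a4
    rw [a1, a2, a3, a4] at hpv
    have : (u b).2 * (u (b + 1)).2 - (u b).2 * (u (b + 1)).2 = 0 := by ring
    linarith
  · exfalso
    have a1 := congrArg Prod.fst h0
    have a2 := congrArg Prod.snd h0
    have a3 := congrArg Prod.fst h10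
    have a4 := congrArg Prod.snd h10
    simp only [neg_inj, Prod.fst_neg, Prod.snd_neg, neg_neg] at a1 a2 a3 a4
    rw [a1, a2, a3, a4] at hpv
    have : (u b).1 * (u (b + 1)).1 - (u b).1 * (u (b + 1)).1 = 0 := by ring
    linarith
  · exfalso
    have a1 := congrArg Prod.fst h0
    have a2 := congrArg Prod.snd h0
    have a3 := congrArg Prod.fst h10
    have a4 := congrArg Prod.snd h10
    simp only [neg_inj, Prod.fst_neg, Prod.snd_neg, neg_neg] at a1 a2 a3 a4
    rw [a1, a2, a3, a4] at hpv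
    linarith

/-- the frames agree, `b = 0`: `dt (c_9) (c_10) = dn 0 * dn 9`, `dt (c_8) (c_9) = dn 0 * dn 8`; with
`dn v 0 / dn u 0 = a / c` in lowest terms `a ∣ dn u 9`, `a ∣ dn u 8`, so `a = 1`; in the same way `c = 1`;
then `cb_ten` -/
theorem frame_zero (hu : IsPt q x u) (hv : IsPt q x v) (h10 : cb 0 v 10 = cb 0 u 10)
    (h9 : cb 0 v 9 = cb 0 u 9) (h8 : cb 0 v 8 = cb 0 u 8) : v 0 = u 0 ∧ v 1 = u 1 := by
  have e0 : v 0 = u 0 := by rw [hv.f0, hu.f0]
  refine ⟨e0, ?_⟩
  have g1 : ∀ w : PolyK 11, (dt (cb 0 w 9) (cb 0 w 10)).natAbs = dn w 0 * dn w 9 := by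
    intro w
    rw [dt_cb, Int.natAbs_mul]
    rfl
  have g2 : ∀ w : PolyK 11, (dt (cb 0 w 8) (cb 0 w 9)).natAbs = dn w 0 * dn w 8 := by
    intro w
    rw [dt_cb, Int.natAbs_mul]
    rfl
  have g3 : ∀ w : PolyK 11, IsPt q x w →
      Nat.gcd (dn w 0 * dn w 9) (dn w 0 * dn w 8) = dn w 0 := by
    intro w hw
    rw [Nat.gcd_mul_left, Nat.Coprime.gcd_eq_one (hw.co 9 8 (by decide)), mul_one]
  have hd : dn v 0 = dn u 0 := by
    rw [← g3 v hv, ← g3 u hu, ← g1, ← g2, ← g1, ← g2, h10, h9, h8]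
  have h1 := h10
  rw [cb_ten hv, cb_ten hu] at h1
  have h3 := congrArg Prod.fst h1
  simp only [neg_inj] at h3
  have e1 : (0 : Fin 11) + 1 = 1 := by decide
  rw [e1] at h3
  have p1 := (coord_pos hv 1 (by decide) (by decide)).2
  have p2 := (coord_pos hu 1 (by decide) (by decide)).2
  refine Prod.ext h3 ?_
  unfold dn dl dt at hd
  rw [hv.f0, hu.f0, e1] at hd
  simp only [one_mul, zero_mul, sub_zero] at hd
  omega

end Pool.Agent.PNI
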