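import Pool.Agent.Lib_helper96.PNI.Defs
import Pool.Agent.Lib_helper96.PNI.L.QA1

set_option autoImplicit false

namespace Pool.Agent.PNI

open Finset Pool.Agent.PENT Pool.Agent.PENK

variable {q : Prm} {x : ℝ} {u v w : PolyK 11}

theorem qa2_swap (a b : ℤ × ℤ) : dt a b = -dt b a := by
  unfold dt; ring

theorem qa2_swap_dvd {p : ℕ} {a b : ℤ × ℤ} (h : (p : ℤ) ∣ dt a b) : (p : ℤ) ∣ dt b a := by
  rw [qa2_swap]; exact (dvd_neg).2 h

theorem qa2_dn {p : ℕ} {j : Fin 11} (h : (p : ℤ) ∣ dl u j) : p ∣ dn u j :=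
  Int.natCast_dvd.1 h

theorem qa2_dn' {p : ℕ} {j : Fin 11} (h : p ∣ dn u j) : (p : ℤ) ∣ dl u j :=
  Int.natCast_dvd.2 h

theorem qa2_cop {p : ℕ} (hp : p.Prime) {a b : ℕ} (h : Nat.Coprime a b) (ha : p ∣ a)
    (hb : p ∣ b) : False := by
  have := Nat.dvd_gcd ha hb
  rw [h] at this
  exact hp.one_lt.ne' (Nat.dvd_one.1 this)

theorem qa2_self (b i : Fin 11) : i ∈ vx b i := by
  unfold vx
  split_ifs
  · exact Finset.mem_univ _
  · simp

/-- BLOCK QA2 (uses QA1). A vertex off the edge `i` is not on the line of `p ∣ dn u i`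
(`dt_cb`; `i ≠ b`, so `p ∤ dl u b` by `co`; `nd`, `nd'`) -/
theorem off_line (h : IsPt q x u) {p : ℕ} (hp : p.Prime) (b i m m' : Fin 11) (hpi : p ∣ dn u i)
    (hm : m ∉ vx b i) (hm' : m' ∈ vx b i) : ¬ (p : ℤ) ∣ dt (cb b u m) (cb b u m') := by
  by_cases hib : i = b
  · exfalso
    apply hm
    unfold vx
    rw [if_pos hib]
    exact Finset.mem_univ _
  · unfold vx at hm hm'
    rw [if_neg hib] at hm hm'
    simp only [Finset.mem_insert, Finset.mem_singleton, not_or] at hm hm'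
    rw [dt_cb]
    intro hd
    rcases (Nat.prime_iff_prime_int.1 hp).dvd_or_dvd hd with h1 | h1
    · exact qa2_cop hp (h.co i b hib) hpi (qa2_dn h1)
    · rcases hm' with rfl | rfl
      · have h2 := h.nd m' m hm.1 hm.2
        exact qa2_cop hp h2 hpi (Int.natCast_dvd.1 (qa2_swap_dvd h1))
      · have h2 := IsPt.nd' h i m hm.1 hm.2
        exact qa2_cop hp h2 hpi (Int.natCast_dvd.1 (qa2_swap_dvd h1))

theorem on_line (b i m m' : Fin 11) (u : PolyK 11) {p : ℕ} (hpi : p ∣ dn u i)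
    (hm : m ∈ vx b i) (hm' : m' ∈ vx b i) : (p : ℤ) ∣ dt (cb b u m) (cb b u m') := by
  rw [dt_cb]
  by_cases hib : i = b
  · subst hib
    exact Dvd.dvd.mul_right (qa2_dn' hpi) _
  · unfold vx at hm hm'
    rw [if_neg hib] at hm hm'
    simp only [Finset.mem_insert, Finset.mem_singleton] at hm hm'
    refine Dvd.dvd.mul_left ?_ _
    have h1 : (p : ℤ) ∣ dt (u i) (u (i + 1)) := qa2_dn' hpi
    rcases hm with rfl | rfl <;> rcases hm' with rfl | rfl
    · have : dt (u m') (u m') = 0 := by unfold dt; ring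
      rw [this]; exact dvd_zero _
    · exact h1
    · exact qa2_swap_dvd h1
    · have : dt (u (i + 1)) (u (i + 1)) = 0 := by unfold dt; ring
      rw [this]; exact dvd_zero _

theorem qa2_prim (h : IsPt q x u) {p : ℕ} (hp : p.Prime) (b k : Fin 11) (hk : k ∈ nb b) :
    ¬ ((p : ℤ) ∣ (cb b u k).1 ∧ (p : ℤ) ∣ (cb b u k).2) := by
  rintro ⟨h1, h2⟩
  have h3 := Int.dvd_gcd h1 h2
  rw [show (Int.gcd (cb b u k).1 (cb b u k).2) = 1 from cb_prim h b k hk] at h3
  have h4 : p ∣ 1 := by exact_mod_cast h3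
  exact hp.one_lt.ne' (Nat.dvd_one.1 h4)

/-- there is a vertex off the base in `vx b i` (`cb_prim`) -/
theorem some_ne (h : IsPt q x u) {p : ℕ} (hp : p.Prime) (b i : Fin 11) :
    ∃ m ∈ vx b i, m ∈ nb b ∧ ¬ ((p : ℤ) ∣ (cb b u m).1 ∧ (p : ℤ) ∣ (cb b u m).2) := by
  have key : ∃ m ∈ vx b i, m ∈ nb b := by
    revert b i
    decide
  obtain ⟨m, hm, hmb⟩ := key
  exact ⟨m, hm, hmb, qa2_prim h hp b m hmb⟩

/-- the line is determined by one pair of vertices: if `c_m(u)`, `c_m'(v)` (off the base, `m ∈ vx b i`,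
`m' ∈ vx b l`) are parallel mod `p` then `CL` holds (`par_trans`, `on_line`, `cb_prim`) -/
theorem CL_of (hu : IsPt q x u) (hv : IsPt q x v) {p : ℕ} (hp : p.Prime) (b i l m m' : Fin 11)
    (hpi : p ∣ dn u i) (hpl : p ∣ dn v l) (hm : m ∈ vx b i) (hmb : m ∈ nb b) (hm' : m' ∈ vx b l)
    (hmb' : m' ∈ nb b) (h : (p : ℤ) ∣ dt (cb b u m) (cb b v m')) : CL b u v i l p := by
  refine ⟨hpi, hpl, ?_⟩
  intro m1 hm1 m1' hm1'
  have h1 : (p : ℤ) ∣ dt (cb b u m1) (cb b v m') :=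
    par_trans hp (qa2_prim hu hp b m hmb) (on_line b i m m1 u hpi hm hm1) h
  exact par_trans hp (qa2_prim hv hp b m' hmb') (qa2_swap_dvd h1)
    (on_line b l m' m1' v hpl hm' hm1')

/-- if `c_m(u) = ± c_m'(v)`, `m' ∈ vx b l`, then `m ∈ vx b i` (`off_line` for `u`; some vertex of `vx b i`) -/
theorem CL_same (hu : IsPt q x u) {p : ℕ} (hp : p.Prime) (b i l m m' : Fin 11)
    (hC : CL b u v i l p) (hm : m' ∈ vx b l)
    (he : cb b u m = cb b v m' ∨ cb b u m = -cb b v m') : m ∈ vx b i := by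
  by_contra hcon
  have h1 := off_line hu hp b i m i hC.1 hcon (qa2_self b i)
  have h2 := hC.2.2 i (qa2_self b i) m' hm
  apply h1
  apply qa2_swap_dvd
  rcases he with he | he
  · rw [he]; exact h2
  · rw [he]
    have : dt (cb b u i) (-cb b v m') = -dt (cb b u i) (cb b v m') := by
      unfold dt; simp only [Prod.fst_neg, Prod.snd_neg]; ring
    rw [this]
    exact (dvd_neg).2 h2

end Pool.Agent.PNI
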