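import Pool.Agent.Lib_helper96.PNI.Defs
import Pool.Agent.Lib_helper96.PNI.L.QA1
import Pool.Agent.Lib_helper96.PNI.L.QA2
import Pool.Agent.Lib_helper96.PNI.L.QA3

set_option autoImplicit false

namespace Pool.Agent.PNI

open Finset Pool.Agent.PENT Pool.Agent.PENK

variable {q : Prm} {x : ℝ} {u v w : PolyK 11}

theorem qc1_swap_dvd {p : ℕ} {a b : ℤ × ℤ} (h : (p : ℤ) ∣ dt a b) : (p : ℤ) ∣ dt b a := by
  have : dt b a = -dt a b := by unfold dt; ring
  rw [this]; exact (dvd_neg).2 h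

/-- a prime of a common part -/
theorem qc1_prime (hu : IsPt q x u) (b l j : Fin 11) (hj : l ∈ vx b j) (I G : Fin 11 → ℕ)
    (hv : CS q x b u I G v) (hw : CS q x b u I G w) {p : ℕ} (hp : p.Prime) (hpG : p ∣ G j) :
    (p : ℤ) ∣ dt (cb b v l) (cb b w l) := by
  obtain ⟨i, hi⟩ := (prime_gl hp hv.pt b j u).1 (by rw [hv.g j]; exact hpG)
  obtain ⟨i', hi'⟩ := (prime_gl hp hw.pt b j u).1 (by rw [hw.g j]; exact hpG)
  have hii : i = i' := by
    by_contra hne
    have h1 := Nat.dvd_gcd hi.1 hi'.1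
    rw [hu.co i i' hne] at h1
    exact hp.one_lt.ne' (Nat.dvd_one.1 h1)
  subst hii
  obtain ⟨m0, hm0, _, hne⟩ := some_ne hu hp b i
  exact par_trans hp hne (hi.2.2 m0 hm0 l hj) (hi'.2.2 m0 hm0 l hj)

theorem qc1_fin (b l : Fin 11) (hl : l ∈ nb b) :
    l ≠ b ∧ l - 1 ≠ b ∧ l - 1 ≠ l ∧ l ∈ vx b b ∧ l ∈ vx b (l - 1) ∧ l ∈ vx b l := by
  revert b l
  decide

theorem qc1_cop (b i j : Fin 11) (hij : i ≠ j) (I G : Fin 11 → ℕ) (hv : CS q x b u I G v) :
    Nat.Coprime (G i) (G j) := by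
  rw [← hv.g i, ← hv.g j]
  exact Nat.Coprime.coprime_dvd_left (gl_dvd b i u v)
    (Nat.Coprime.coprime_dvd_right (gl_dvd b j u v) (hv.pt.co i j hij))

theorem qc1_sqf (b j : Fin 11) (I G : Fin 11 → ℕ) (hv : CS q x b u I G v) :
    Squarefree (G j) := by
  rw [← hv.g j]
  exact gl_sqf b j u v

/-- BLOCK QC1 (uses QA1, QA2, QA3). The lattice of `c_l(v)`. A prime `p ∣ G b`, `G (l - 1)` or `G l` divides
the corresponding edge of `v` and of `w` and (`prime_gl`) there is exactly one edge `i` of `u` with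
`CL b u v i _ p`, `CL b u w i _ p` (`co` for `u`); `l` lies in `vx b b`, `vx b (l - 1)`, `vx b l` (`l ≠ b`,
`l - 1 ≠ b`); `some_ne` for `u`, `i` and `par_trans`. The three numbers are squarefree and coprime. -/
theorem cs_dvd (hu : IsPt q x u) (b l : Fin 11) (hl : l ∈ nb b) (I G : Fin 11 → ℕ)
    (hv : CS q x b u I G v) (hw : CS q x b u I G w) :
    ((G b * G (l - 1) * G l : ℕ) : ℤ) ∣ dt (cb b v l) (cb b w l) := by
  obtain ⟨h1, h2, h3, h4, h5, h6⟩ := qc1_fin b l hl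
  have c1 := qc1_cop b b (l - 1) (Ne.symm h2) I G hv
  have c2 := qc1_cop b b l (Ne.symm h1) I G hv
  have c3 := qc1_cop b (l - 1) l h3 I G hv
  refine sqf_dvd ?_ ?_
  · rw [Nat.squarefree_mul_iff]
    refine ⟨Nat.Coprime.mul_left c2 c3, ?_, qc1_sqf b l I G hv⟩
    rw [Nat.squarefree_mul_iff]
    exact ⟨c1, qc1_sqf b b I G hv, qc1_sqf b (l - 1) I G hv⟩
  · intro p hp hpd
    rcases (Nat.Prime.dvd_mul hp).1 hpd with h | h
    · rcases (Nat.Prime.dvd_mul hp).1 h with h | h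
      · exact qc1_prime hu b l b h4 I G hv hw hp h
      · exact qc1_prime hu b l (l - 1) h5 I G hv hw hp h
    · exact qc1_prime hu b l l h6 I G hv hw hp h

theorem qc1_base {p : ℕ} (b l y : Fin 11) (v : PolyK 11) (h : p ∣ dn v b) :
    (p : ℤ) ∣ dt (cb b v y) (cb b v l) := by
  rw [dt_cb]
  exact Dvd.dvd.mul_right (Int.natCast_dvd.2 h) _

/-- the same for the edges `l - 1`, `l` and the determinant `dn v b = dn w b` of the base, if `c_y(v) = c_y(w)`
for another vertex `y` off the base: `dn v b` divides `dt (cb b v l) (cb b v y)` (`dt_cb`), the same for `w`,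
and `c_y` is primitive -/
theorem cs_dvd2 (hu : IsPt q x u) (b l y : Fin 11) (hl : l ∈ nb b) (hy : y ∈ nb b) (I G : Fin 11 → ℕ)
    (hv : CS q x b u I G v) (hw : CS q x b u I G w) (hc : cb b v y = cb b w y)
    (hd : dn v b = dn w b) :
    ((dn v b * (G (l - 1) * G l) : ℕ) : ℤ) ∣ dt (cb b v l) (cb b w l) := by
  obtain ⟨h1, h2, h3, h4, h5, h6⟩ := qc1_fin b l hl
  have c3 := qc1_cop b (l - 1) l h3 I G hv
  have d1 : Nat.Coprime (dn v b) (G (l - 1)) := by
    rw [← hv.g (l - 1)]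
    exact Nat.Coprime.coprime_dvd_right (gl_dvd b (l - 1) u v) (hv.pt.co b (l - 1) (Ne.symm h2))
  have d2 : Nat.Coprime (dn v b) (G l) := by
    rw [← hv.g l]
    exact Nat.Coprime.coprime_dvd_right (gl_dvd b l u v) (hv.pt.co b l (Ne.symm h1))
  refine sqf_dvd ?_ ?_
  · rw [Nat.squarefree_mul_iff]
    refine ⟨Nat.Coprime.mul_right d1 d2, hv.pt.sq b, ?_⟩
    rw [Nat.squarefree_mul_iff]
    exact ⟨c3, qc1_sqf b (l - 1) I G hv, qc1_sqf b l I G hv⟩
  · intro p hp hpd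
    rcases (Nat.Prime.dvd_mul hp).1 hpd with h | h
    · have hne : ¬ ((p : ℤ) ∣ (cb b v y).1 ∧ (p : ℤ) ∣ (cb b v y).2) := by
        rintro ⟨e1, e2⟩
        have e3 := Int.dvd_gcd e1 e2
        rw [show (Int.gcd (cb b v y).1 (cb b v y).2) = 1 from cb_prim hv.pt b y hy] at e3
        have e4 : p ∣ 1 := by exact_mod_cast e3
        exact hp.one_lt.ne' (Nat.dvd_one.1 e4)
      have k1 : (p : ℤ) ∣ dt (cb b v y) (cb b v l) := qc1_base b l y v h
      have k2 : (p : ℤ) ∣ dt (cb b v y) (cb b w l) := by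
        rw [hc]; exact qc1_base b l y w (hd ▸ h)
      exact par_trans hp hne k1 k2
    · rcases (Nat.Prime.dvd_mul hp).1 h with h | h
      · exact qc1_prime hu b l (l - 1) h5 I G hv hw hp h
      · exact qc1_prime hu b l l h6 I G hv hw hp h

end Pool.Agent.PNI
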