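import Pool.Agent.Lib_helper96.PNI.Defs
import Pool.Agent.Lib_helper96.PNI.L.PD
import Pool.Agent.Lib_helper96.PNI.L.QA1
import Pool.Agent.Lib_helper96.PNI.L.QA3
import Pool.Agent.Lib_helper96.PNI.L.QA7
import Pool.Agent.Lib_helper96.PNI.L.QC1

/-! PNI (MP_892e4c_nt), block QC2 (helper67) -/

set_option autoImplicit false

namespace Pool.Agent.PNI

open Finset Pool.Agent.PENT Pool.Agent.PENK

variable {q : Prm} {x : ℝ} {u v w : PolyK 11}

/-- the box of the frame vectors -/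
theorem qc2_box {I G : Fin 11 → ℕ} {b : Fin 11} (hv : CS q x b u I G v) (l : Fin 11) :
    (cb b v l).1.natAbs ≤ 4 * 2 ^ (I l + I (b + 1)) ∧
      (cb b v l).2.natAbs ≤ 4 * 2 ^ (I b + I l) := by
  obtain ⟨h1, h2⟩ := cb_le b l v
  have s1 := (hv.siz l).2
  have s2 := (hv.siz (b + 1)).2
  have s3 := (hv.siz b).2
  have e1 : (((cb b v l).1.natAbs : ℕ) : ℝ) = |((cb b v l).1 : ℝ)| := by
    rw [Nat.cast_natAbs]
    push_cast
    rfl
  have e2 : (((cb b v l).2.natAbs : ℕ) : ℝ) = |((cb b v l).2 : ℝ)| := by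
    rw [Nat.cast_natAbs]
    push_cast
    rfl
  rw [← e1] at h1
  rw [← e2] at h2
  have h1' : (cb b v l).1.natAbs ≤ nr (v l) * nr (v (b + 1)) := by exact_mod_cast h1
  have h2' : (cb b v l).2.natAbs ≤ nr (v b) * nr (v l) := by exact_mod_cast h2
  constructor
  · calc (cb b v l).1.natAbs ≤ nr (v l) * nr (v (b + 1)) := h1'
      _ ≤ 2 ^ (I l + 1) * 2 ^ (I (b + 1) + 1) := Nat.mul_le_mul s1.le s2.le
      _ = 4 * 2 ^ (I l + I (b + 1)) := by rw [pow_add, pow_add, pow_add]; ring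
  · calc (cb b v l).2.natAbs ≤ nr (v b) * nr (v l) := h2'
      _ ≤ 2 ^ (I b + 1) * 2 ^ (I l + 1) := Nat.mul_le_mul s3.le s1.le
      _ = 4 * 2 ^ (I b + I l) := by rw [pow_add, pow_add, pow_add]; ring

/-- the lattice lemma for the images -/
theorem qc2_lat (b l : Fin 11) (hl : l ∈ nb b) (I G : Fin 11 → ℕ)
    (S : Finset (PolyK 11)) (hS : ∀ v ∈ S, CS q x b u I G v) (J : ℕ) (hJ : 1 ≤ J)
    (hd : ∀ v ∈ S, ∀ w ∈ S, (J : ℤ) ∣ dt (cb b v l) (cb b w l)) :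
    ((S.image (fun v => cb b v l)).card : ℝ) ≤
      128 * (2 ^ I b * 2 ^ I (b + 1) * (2 ^ I l) ^ 2) / J + 6 := by
  have h := lattice_lemma (S.image (fun v => cb b v l)) (4 * 2 ^ (I l + I (b + 1)))
    (4 * 2 ^ (I b + I l)) J (Nat.one_le_iff_ne_zero.mpr (by positivity))
    (Nat.one_le_iff_ne_zero.mpr (by positivity)) hJ ?_ ?_ ?_ ?_
  · refine h.trans (le_of_eq ?_)
    push_cast
    rw [pow_add, pow_add]
    ring
  · intro c hc
    obtain ⟨v, hv, rfl⟩ := mem_image.mp hc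
    exact cb_prim (hS v hv).pt b l hl
  · intro c hc
    obtain ⟨v, hv, rfl⟩ := mem_image.mp hc
    exact (qc2_box (hS v hv) l).1
  · intro c hc
    obtain ⟨v, hv, rfl⟩ := mem_image.mp hc
    exact (qc2_box (hS v hv) l).2
  · intro c hc c' hc'
    obtain ⟨v, hv, rfl⟩ := mem_image.mp hc
    obtain ⟨w, hw, rfl⟩ := mem_image.mp hc'
    exact hd v hv w hw

theorem qc2_G {I G : Fin 11 → ℕ} {b : Fin 11} (hv : CS q x b u I G v) (l : Fin 11) : 0 < G l := by
  rw [← hv.g l]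
  exact gl_pos b l u v

/-- BLOCK QC2 (uses QC1, QA1, QA7, `lattice_lemma` (PD1) of helper18's W/D.lean). Boxes
`4 * 2 ^ (I l + I (b+1))`, `4 * 2 ^ (I b + I l)` (`cb_le`, `Siz`). -/
theorem cs_card1 (hu : IsPt q x u) (b l : Fin 11) (hl : l ∈ nb b) (I G : Fin 11 → ℕ)
    (S : Finset (PolyK 11)) (hS : ∀ v ∈ S, CS q x b u I G v) :
    ((S.image (fun v => cb b v l)).card : ℝ) ≤
      128 * (2 ^ I b * 2 ^ I (b + 1) * (2 ^ I l) ^ 2 / (G b * G (l - 1) * G l) + 1) := by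
  rcases S.eq_empty_or_nonempty with h0 | ⟨v0, hv0⟩
  · rw [h0]
    simp only [image_empty, card_empty, Nat.cast_zero]
    positivity
  · have g1 := qc2_G (hS v0 hv0) b
    have g2 := qc2_G (hS v0 hv0) (l - 1)
    have g3 := qc2_G (hS v0 hv0) l
    have h := qc2_lat b l hl I G S hS (G b * G (l - 1) * G l)
      (Nat.one_le_iff_ne_zero.mpr (by positivity))
      (fun v hv w hw => cs_dvd hu b l hl I G (hS v hv) (hS w hw))
    push_cast at h
    refine h.trans ?_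
    have e : (128 : ℝ) * (2 ^ I b * 2 ^ I (b + 1) * (2 ^ I l) ^ 2 / (G b * G (l - 1) * G l) + 1) =
        128 * (2 ^ I b * 2 ^ I (b + 1) * (2 ^ I l) ^ 2) / (G b * G (l - 1) * G l) + 128 := by
      ring
    rw [e]
    linarith

theorem cs_card2 (hq : q.Ok) (hu : IsPt q x u) (b l y : Fin 11) (hl : l ∈ nb b) (hy : y ∈ nb b)
    (I G : Fin 11 → ℕ) (S : Finset (PolyK 11)) (hS : ∀ v ∈ S, CS q x b u I G v)
    (hc : ∀ v ∈ S, ∀ w ∈ S, cb b v y = cb b w y ∧ dn v b = dn w b) :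
    ((S.image (fun v => cb b v l)).card : ℝ) ≤
      (128 / q.c3) * ((2 ^ I l) ^ 2 / ((G (l - 1) : ℝ) * G l) + 1) := by
  have c0 := hq.c30
  have c1 := hq.c31
  rcases S.eq_empty_or_nonempty with h0 | ⟨v0, hv0⟩
  · rw [h0]
    simp only [image_empty, card_empty, Nat.cast_zero]
    positivity
  · have g2 := qc2_G (hS v0 hv0) (l - 1)
    have g3 := qc2_G (hS v0 hv0) l
    have dpos : 0 < dn v0 b := dn_pos (hS v0 hv0).pt b
    have h := qc2_lat b l hl I G S hS (dn v0 b * (G (l - 1) * G l))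
      (Nat.one_le_iff_ne_zero.mpr (by positivity))
      (fun v hv w hw => by
        have h1 := cs_dvd2 hu b l y hl hy I G (hS v hv) (hS w hw) (hc v hv w hw).1
          (hc v hv w hw).2
        rw [(hc v hv v0 hv0).2] at h1
        exact h1)
    push_cast at h
    refine h.trans ?_
    have hdn := (dn_siz (hS v0 hv0).pt (hS v0 hv0).siz b).1
    have hdR : (0 : ℝ) < dn v0 b := by exact_mod_cast dpos
    have g2R : (0 : ℝ) < G (l - 1) := by exact_mod_cast g2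
    have g3R : (0 : ℝ) < G l := by exact_mod_cast g3
    have e1 : (128 : ℝ) * (2 ^ I b * 2 ^ I (b + 1) * (2 ^ I l) ^ 2) /
        ((dn v0 b : ℝ) * (G (l - 1) * G l)) ≤
        (128 / q.c3) * ((2 ^ I l) ^ 2 / ((G (l - 1) : ℝ) * G l)) := by
      rw [div_mul_div_comm, div_le_div_iff₀ (by positivity) (by positivity)]
      have e2 : (0 : ℝ) ≤ 128 * (2 ^ I l) ^ 2 * ((G (l - 1) : ℝ) * G l) := by positivity
      calc 128 * (2 ^ I b * 2 ^ I (b + 1) * (2 ^ I l) ^ 2) * (q.c3 * ((G (l - 1) : ℝ) * G l))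
          = 128 * (2 ^ I l) ^ 2 * ((G (l - 1) : ℝ) * G l) *
              (q.c3 * (2 ^ I b * 2 ^ I (b + 1))) := by ring
        _ ≤ 128 * (2 ^ I l) ^ 2 * ((G (l - 1) : ℝ) * G l) * (dn v0 b : ℝ) :=
            mul_le_mul_of_nonneg_left hdn e2
        _ = 128 * (2 ^ I l) ^ 2 * ((dn v0 b : ℝ) * (G (l - 1) * G l)) := by ring
    have e3 : (128 : ℝ) ≤ 128 / q.c3 := by
      rw [le_div_iff₀ c0]
      linarith
    have e4 : (128 / q.c3) * ((2 ^ I l) ^ 2 / ((G (l - 1) : ℝ) * G l) + 1) =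
        (128 / q.c3) * ((2 ^ I l) ^ 2 / ((G (l - 1) : ℝ) * G l)) + 128 / q.c3 := by ring
    rw [e4]
    linarith

end Pool.Agent.PNI
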