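import Pool.Agent.Lib_helper96.PNI.Defs
import Pool.Agent.Lib_helper96.PNI.L.PD
import Pool.Agent.Lib_helper96.PNI.L.QA1
import Pool.Agent.Lib_helper96.PNI.L.QA4
import Pool.Agent.Lib_helper96.PNI.L.QA7
import Pool.Agent.Lib_helper96.PNI.L.QC2

set_option autoImplicit false

namespace Pool.Agent.PNI

open Finset Pool.Agent.PENT Pool.Agent.PENK

variable {q : Prm} {x : ℝ} {u v w : PolyK 11}

theorem qc3_hi (hq : q.Ok) (j : Fin 11) : 0 ≤ q.hi j ∧ q.hi j ≤ 1 / 10 := by
  have h0 : ∀ j, 0 ≤ q.hi j := by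
    intro j
    by_cases h1 : j = 0
    · rw [h1, hq.h0]
    · by_cases h2 : j = 10
      · rw [h2, hq.h10]
      · have := hq.pos j h1 h2
        have := hq.le j
        have := hq.ε0
        linarith
  refine ⟨h0 j, ?_⟩
  exact (Finset.single_le_sum (fun i _ => h0 i) (Finset.mem_univ j)).trans hq.sm

theorem qc3_nr (hq : q.Ok) (hx : 1 ≤ x) (h : IsPt q x u) (j : Fin 11) :
    (nr (u j) : ℝ) ≤ x ^ (1 / 10 : ℝ) :=
  (h.hi j).trans (Real.rpow_le_rpow_of_exponent_le hx (qc3_hi hq j).2)

theorem qc3_Rt (b y z : Fin 11) (I G : Fin 11 → ℕ) (l : Fin 11) : 1 ≤ Rt b y z I G l := by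
  unfold Rt
  split_ifs
  · have : 0 ≤ (2 : ℝ) ^ I b * 2 ^ I (b + 1) * (2 ^ I l) ^ 2 / (G b * G (l - 1) * G l) := by
      positivity
    linarith
  · have : 0 ≤ ((2 : ℝ) ^ I l) ^ 2 / ((G (l - 1) : ℝ) * G l) := by positivity
    linarith

/-- the fibre with frozen `c_y`, `c_z`, `dn v b` -/
theorem qc3_fib (hq : q.Ok) (hu : IsPt q x u) {b y z : Fin 11} (hy : y ∈ nb b) (hz : z ∈ nb b)
    (I G : Fin 11 → ℕ) (S : Finset (PolyK 11)) (hS : ∀ v ∈ S, CS q x b u I G v)
    (hc : ∀ v ∈ S, ∀ w ∈ S, cb b v y = cb b w y ∧ cb b v z = cb b w z ∧ dn v b = dn w b) :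
    (S.card : ℝ) ≤ (128 / q.c3) ^ 11 *
      ∏ l ∈ nb b, (if l = y ∨ l = z then 1 else Rt b y z I G l) := by
  classical
  have hc3 := hq.c30
  have hc31 := hq.c31
  have hK : 1 ≤ 128 / q.c3 := by
    rw [le_div_iff₀ hc3]
    linarith
  -- the injection
  have h1 : S.card ≤ (Fintype.piFinset (fun l : Fin 11 => if l ∈ nb b then
      S.image (fun v => cb b v l) else {((0 : ℤ), (0 : ℤ))})).card := by
    apply Finset.card_le_card_of_injOn (fun v l => if l ∈ nb b then cb b v l else (0, 0))
    · intro v hv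
      rw [Finset.mem_coe, Fintype.mem_piFinset]
      intro l
      by_cases hl : l ∈ nb b
      · simp only [if_pos hl]
        exact Finset.mem_image_of_mem _ hv
      · simp only [if_neg hl]
        exact Finset.mem_singleton_self _
    · intro v hv w hw hvw
      apply pt_inj (hS v hv).pt (hS w hw).pt b _ (hc v hv w hw).2.2
      intro k hk
      have := congrFun hvw k
      simp only [if_pos hk] at this
      exact this
  have h2 : ((Fintype.piFinset (fun l : Fin 11 => if l ∈ nb b then
      S.image (fun v => cb b v l) else {((0 : ℤ), (0 : ℤ))})).card : ℝ) ≤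
      ∏ l : Fin 11, ((128 / q.c3) * (if l ∈ nb b then (if l = y ∨ l = z then 1 else
        Rt b y z I G l) else 1)) := by
    rw [Fintype.card_piFinset]
    push_cast
    apply Finset.prod_le_prod (fun _ _ => Nat.cast_nonneg _)
    intro l _
    by_cases hl : l ∈ nb b
    · simp only [if_pos hl]
      by_cases hlyz : l = y ∨ l = z
      · rw [if_pos hlyz, mul_one]
        refine le_trans ?_ hK
        have : (S.image (fun v => cb b v l)).card ≤ 1 := by
          rw [Finset.card_le_one]
          intro a ha c hcc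
          obtain ⟨v, hv, rfl⟩ := Finset.mem_image.1 ha
          obtain ⟨w, hw, rfl⟩ := Finset.mem_image.1 hcc
          rcases hlyz with rfl | rfl
          · exact (hc v hv w hw).1
          · exact (hc v hv w hw).2.1
        exact_mod_cast this
      · rw [if_neg hlyz]
        have h3 := cs_card2 hq hu b l y hl hy I G S hS
          (fun v hv w hw => ⟨(hc v hv w hw).1, (hc v hv w hw).2.2⟩)
        unfold Rt
        rw [if_neg hlyz]
        exact h3
    · simp only [if_neg hl, Finset.card_singleton, Nat.cast_one, mul_one]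
      exact hK
  have h3 : ∏ l : Fin 11, ((128 / q.c3) * (if l ∈ nb b then (if l = y ∨ l = z then 1 else
        Rt b y z I G l) else 1)) = (128 / q.c3) ^ 11 *
      ∏ l ∈ nb b, (if l = y ∨ l = z then 1 else Rt b y z I G l) := by
    rw [Finset.prod_mul_distrib, Finset.prod_const, Finset.card_univ, Fintype.card_fin]
    congr 1
    rw [← Finset.prod_filter]
    apply Finset.prod_congr _ (fun _ _ => rfl)
    ext l
    simp
  rw [← h3]
  refine le_trans ?_ h2
  exact_mod_cast h1

theorem crude_count (hq : q.Ok) {θ : ℝ} (hθ : 0 < θ) : ∃ x₀ : ℝ, 1 ≤ x₀ ∧ ∀ x ≥ x₀,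
    ∀ (b y z : Fin 11), y ∈ nb b → z ∈ nb b → y ≠ z → ∀ u : PolyK 11, IsPt q x u →
    ∀ (I G : Fin 11 → ℕ) (S : Finset (PolyK 11)), (∀ v ∈ S, CS q x b u I G v) →
    (S.card : ℝ) ≤ x ^ θ * ∏ l ∈ nb b, Rt b y z I G l := by
  classical
  have hc3 := hq.c30
  obtain ⟨x₁, hx₁, hdiv⟩ := div_le (by linarith : 0 < θ / 2)
  obtain ⟨x₂, hx₂⟩ : ∃ x₂ : ℝ, ∀ x ≥ x₂, 128 * 128 * (128 / q.c3) ^ 11 ≤ x ^ (θ / 2) :=
    Filter.eventually_atTop.1 ((tendsto_rpow_atTop (by linarith : 0 < θ / 2)).eventually
      (Filter.eventually_ge_atTop (128 * 128 * (128 / q.c3) ^ 11)))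
  refine ⟨max x₁ x₂, le_max_of_le_left hx₁, ?_⟩
  intro x hx b y z hy hz hyz u hu I G S hS
  have hxx₁ : x₁ ≤ x := (le_max_left _ _).trans hx
  have hxx₂ : x₂ ≤ x := (le_max_right _ _).trans hx
  have hx1 : 1 ≤ x := hx₁.trans hxx₁
  have hx0 : 0 < x := by linarith
  set P1 : ℝ := ∏ l ∈ nb b, (if l = y ∨ l = z then 1 else Rt b y z I G l) with hP1
  have hP10 : 0 ≤ P1 := by
    apply Finset.prod_nonneg
    intro l _
    split_ifs
    · norm_num
    · linarith [qc3_Rt b y z I G l]
  have hprod : ∏ l ∈ nb b, Rt b y z I G l = Rt b y z I G y * Rt b y z I G z * P1 := by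
    have e : ∀ l ∈ nb b, Rt b y z I G l = ((if l = y then Rt b y z I G y else 1) *
        (if l = z then Rt b y z I G z else 1)) *
        (if l = y ∨ l = z then 1 else Rt b y z I G l) := by
      intro l _
      by_cases h1 : l = y
      · subst h1
        rw [if_pos rfl, if_neg hyz, if_pos (Or.inl rfl)]
        ring
      · by_cases h2 : l = z
        · subst h2
          rw [if_neg h1, if_pos rfl, if_pos (Or.inr rfl)]
          ring
        · rw [if_neg h1, if_neg h2, if_neg (by tauto)]
          ring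
    rw [Finset.prod_congr rfl e, Finset.prod_mul_distrib, Finset.prod_mul_distrib,
      Finset.prod_ite_eq', Finset.prod_ite_eq', if_pos hy, if_pos hz]
  -- the fibres over `(c_y, c_z)`
  have hfib : ∀ c ∈ S.image (fun v => (cb b v y, cb b v z)),
      ((S.filter (fun v => (cb b v y, cb b v z) = c)).card : ℝ) ≤
        x ^ (θ / 2) * ((128 / q.c3) ^ 11 * P1) := by
    intro c hc
    obtain ⟨v0, hv0, rfl⟩ := Finset.mem_image.1 hc
    set T := S.filter (fun v => (cb b v y, cb b v z) = (cb b v0 y, cb b v0 z)) with hT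
    have hT1 : ∀ v ∈ T, v ∈ S ∧ cb b v y = cb b v0 y ∧ cb b v z = cb b v0 z := by
      intro v hv
      rw [hT, Finset.mem_filter] at hv
      exact ⟨hv.1, congrArg Prod.fst hv.2, congrArg Prod.snd hv.2⟩
    have hcard : (T.card : ℝ) = ∑ d ∈ T.image (fun v => dn v b),
        ((T.filter (fun v => dn v b = d)).card : ℝ) := by
      have := Finset.card_eq_sum_card_image (fun v => dn v b) T
      exact_mod_cast this
    have hin : ∀ d ∈ T.image (fun v => dn v b),
        ((T.filter (fun v => dn v b = d)).card : ℝ) ≤ (128 / q.c3) ^ 11 * P1 := by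
      intro d _
      apply qc3_fib hq hu hy hz I G
      · intro v hv
        exact hS v (hT1 v (Finset.mem_filter.1 hv).1).1
      · intro v hv w hw
        rw [Finset.mem_filter] at hv hw
        have a := hT1 v hv.1
        have a' := hT1 w hw.1
        exact ⟨a.2.1.trans a'.2.1.symm, a.2.2.trans a'.2.2.symm, hv.2.trans hw.2.symm⟩
    -- the number of values of `dn v b`
    have hnd : ((T.image (fun v => dn v b)).card : ℝ) ≤ x ^ (θ / 2) := by
      have hpt := (hS v0 hv0).pt
      set n : ℕ := (dt (cb b v0 y) (cb b v0 z)).natAbs with hn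
      have hn0 : 0 < n := by
        rw [hn, Int.natAbs_pos, dt_cb]
        apply mul_ne_zero
        · have := dn_pos hpt b
          unfold dn at this
          exact Int.natAbs_pos.1 this
        · exact dt_ne hpt y z hyz
      have hnx : (n : ℝ) ≤ x ^ 3 := by
        have e1 : (n : ℝ) = |(dl v0 b : ℝ)| * |(dt (v0 y) (v0 z) : ℝ)| := by
          rw [hn, dt_cb, Int.natAbs_mul, Nat.cast_mul, Nat.cast_natAbs, Nat.cast_natAbs]
          push_cast
          rfl
        have e2 : |(dl v0 b : ℝ)| ≤ nr (v0 b) * nr (v0 (b + 1)) := dt_le_nr _ _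
        have e3 := dt_le_nr (v0 y) (v0 z)
        have hA := fun j => qc3_nr hq hx1 hpt j
        have hx10 : 0 ≤ x ^ (1 / 10 : ℝ) := by positivity
        have e4 : (nr (v0 b) : ℝ) * nr (v0 (b + 1)) ≤ x ^ (1 / 10 : ℝ) * x ^ (1 / 10 : ℝ) :=
          mul_le_mul (hA b) (hA (b + 1)) (Nat.cast_nonneg _) hx10
        have e5 : (nr (v0 y) : ℝ) * nr (v0 z) ≤ x ^ (1 / 10 : ℝ) * x ^ (1 / 10 : ℝ) :=
          mul_le_mul (hA y) (hA z) (Nat.cast_nonneg _) hx10
        have e6 : (n : ℝ) ≤ (x ^ (1 / 10 : ℝ) * x ^ (1 / 10 : ℝ)) *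
            (x ^ (1 / 10 : ℝ) * x ^ (1 / 10 : ℝ)) := by
          rw [e1]
          exact mul_le_mul (e2.trans e4) (e3.trans e5) (abs_nonneg _) (by positivity)
        refine e6.trans ?_
        rw [← Real.rpow_add hx0, ← Real.rpow_add hx0, ← Real.rpow_natCast]
        apply Real.rpow_le_rpow_of_exponent_le hx1
        norm_num
      refine le_trans ?_ (hdiv x hxx₁ n hn0 hnx)
      have hsub : T.image (fun v => dn v b) ⊆ n.divisors := by
        intro d hd
        obtain ⟨v, hv, rfl⟩ := Finset.mem_image.1 hd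
        have a := hT1 v hv
        rw [Nat.mem_divisors]
        refine ⟨?_, hn0.ne'⟩
        rw [hn, ← a.2.1, ← a.2.2, dt_cb, Int.natAbs_mul]
        exact Dvd.intro _ rfl
      exact_mod_cast Finset.card_le_card hsub
    rw [hcard]
    refine (Finset.sum_le_sum hin).trans ?_
    rw [Finset.sum_const, nsmul_eq_mul]
    apply mul_le_mul_of_nonneg_right hnd
    positivity
  have hcard : (S.card : ℝ) = ∑ c ∈ S.image (fun v => (cb b v y, cb b v z)),
      ((S.filter (fun v => (cb b v y, cb b v z) = c)).card : ℝ) := by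
    have := Finset.card_eq_sum_card_image (fun v => (cb b v y, cb b v z)) S
    exact_mod_cast this
  have himg : ((S.image (fun v => (cb b v y, cb b v z))).card : ℝ) ≤
      (128 * Rt b y z I G y) * (128 * Rt b y z I G z) := by
    have h1 : (S.image (fun v => (cb b v y, cb b v z))).card ≤
        (S.image (fun v => cb b v y)).card * (S.image (fun v => cb b v z)).card := by
      rw [← Finset.card_product]
      apply Finset.card_le_card
      intro c hc
      obtain ⟨v, hv, rfl⟩ := Finset.mem_image.1 hc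
      exact Finset.mem_product.2 ⟨Finset.mem_image_of_mem _ hv, Finset.mem_image_of_mem _ hv⟩
    have h2 : ((S.image (fun v => (cb b v y, cb b v z))).card : ℝ) ≤
        ((S.image (fun v => cb b v y)).card : ℝ) * (S.image (fun v => cb b v z)).card := by
      exact_mod_cast h1
    refine h2.trans ?_
    apply mul_le_mul _ _ (Nat.cast_nonneg _) (by linarith [qc3_Rt b y z I G y])
    · have := cs_card1 hu b y hy I G S hS
      unfold Rt
      rw [if_pos (Or.inl rfl)]
      exact this
    · have := cs_card1 hu b z hz I G S hS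
      unfold Rt
      rw [if_pos (Or.inr rfl)]
      exact this
  rw [hcard]
  refine (Finset.sum_le_sum hfib).trans ?_
  rw [Finset.sum_const, nsmul_eq_mul, hprod]
  have hRy := qc3_Rt b y z I G y
  have hRz := qc3_Rt b y z I G z
  calc _ ≤ ((128 * Rt b y z I G y) * (128 * Rt b y z I G z)) *
        (x ^ (θ / 2) * ((128 / q.c3) ^ 11 * P1)) :=
        mul_le_mul_of_nonneg_right himg (by positivity)
    _ = (128 * 128 * (128 / q.c3) ^ 11) * (x ^ (θ / 2) * (Rt b y z I G y * Rt b y z I G z * P1)) := by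
        ring
    _ ≤ x ^ (θ / 2) * (x ^ (θ / 2) * (Rt b y z I G y * Rt b y z I G z * P1)) := by
        apply mul_le_mul_of_nonneg_right (hx₂ x hxx₂)
        have : 0 ≤ Rt b y z I G y * Rt b y z I G z := by nlinarith
        positivity
    _ = x ^ θ * (Rt b y z I G y * Rt b y z I G z * P1) := by
        rw [← mul_assoc, ← Real.rpow_add hx0]
        congr 2
        ring

end Pool.Agent.PNI
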