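import Pool.Agent.Lib_helper96.PNI.Defs
import Pool.Agent.Lib_helper96.PNI.L.PD
import Pool.Agent.Lib_helper96.PNI.L.QA3
import Pool.Agent.Lib_helper96.PNI.L.QA7
import Pool.Agent.Lib_helper96.PNI.L.QC3
import Pool.Agent.Lib_helper96.PNI.L.QC7

set_option autoImplicit false

namespace Pool.Agent.PNI

open Finset Pool.Agent.PENT Pool.Agent.PENK

variable {q : Prm} {x : ℝ} {u v w : PolyK 11}

theorem qc8_nr_pos (hx : 1 ≤ x) (h : IsPt q x v) (j : Fin 11) : 0 < nr (v j) := by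
  have h1 : (0 : ℝ) < x ^ q.lo j := by
    have : 0 < x := by linarith
    positivity
  exact_mod_cast h1.trans_le (h.lo j)

theorem qc8_siz (hx : 1 ≤ x) (h : IsPt q x v) : Siz (fun j => Nat.log 2 (nr (v j))) v := by
  intro j
  have h0 := qc8_nr_pos hx h j
  exact ⟨Nat.pow_log_le_self 2 h0.ne', Nat.lt_pow_succ_log_self (by norm_num) _⟩

theorem qc8_hi (hq : q.Ok) (j : Fin 11) : q.hi j ≤ 1 := by
  have h0 : ∀ j, 0 ≤ q.hi j := by
    intro j
    by_cases h1 : j = 0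
    · rw [h1, hq.h0]
    · by_cases h2 : j = 10
      · rw [h2, hq.h10]
      · have := hq.pos j h1 h2
        have := hq.le j
        have := hq.ε0
        linarith
  have := (Finset.single_le_sum (fun i _ => h0 i) (Finset.mem_univ j)).trans hq.sm
  linarith

theorem qc8_log (hq : q.Ok) (hx : 1 ≤ x) (h : IsPt q x v) (j : Fin 11) :
    Nat.log 2 (nr (v j)) ≤ Nat.log 2 ⌊x⌋₊ := by
  apply Nat.log_mono_right
  apply Nat.le_floor
  calc (nr (v j) : ℝ) ≤ x ^ q.hi j := h.hi j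
    _ ≤ x ^ (1 : ℝ) := Real.rpow_le_rpow_of_exponent_le hx (qc8_hi hq j)
    _ = x := Real.rpow_one x

theorem qc8_ev (C : ℝ) {θ : ℝ} (hθ : 0 < θ) : ∃ x₀ : ℝ, ∀ x ≥ x₀, C ≤ x ^ θ :=
  Filter.eventually_atTop.1 ((tendsto_rpow_atTop hθ).eventually (Filter.eventually_ge_atTop C))

theorem qc8_N {θ : ℝ} (hθ : 0 < θ) : ∃ x₀ : ℝ, ∀ x ≥ x₀, 1 ≤ x →
    ((Nat.log 2 ⌊x⌋₊ + 1 : ℕ) : ℝ) ≤ x ^ θ := by
  obtain ⟨x₁, hx₁⟩ := qc8_ev (4 / θ + 1) (by linarith : 0 < θ / 2)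
  refine ⟨x₁, ?_⟩
  intro x hx hx1
  have hx0 : 0 < x := by linarith
  have h1 := hx₁ x hx
  have hfl : ⌊x⌋₊ ≠ 0 := (Nat.floor_pos.2 hx1).ne'
  have h2 : ((2 : ℝ)) ^ Nat.log 2 ⌊x⌋₊ ≤ x := by
    have : 2 ^ Nat.log 2 ⌊x⌋₊ ≤ ⌊x⌋₊ := Nat.pow_log_le_self 2 hfl
    calc ((2 : ℝ)) ^ Nat.log 2 ⌊x⌋₊ = ((2 ^ Nat.log 2 ⌊x⌋₊ : ℕ) : ℝ) := by push_cast; rfl
      _ ≤ (⌊x⌋₊ : ℝ) := by exact_mod_cast this
      _ ≤ x := Nat.floor_le hx0.le
  have h3 : (Nat.log 2 ⌊x⌋₊ : ℝ) * Real.log 2 ≤ Real.log x := by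
    rw [← Real.log_pow]
    exact Real.log_le_log (by positivity) h2
  have h4 : (1 / 2 : ℝ) ≤ Real.log 2 := by
    have := Real.log_two_gt_d9
    linarith
  have h5 : (Nat.log 2 ⌊x⌋₊ : ℝ) ≤ 2 * Real.log x := by
    have : (Nat.log 2 ⌊x⌋₊ : ℝ) * (1 / 2) ≤ (Nat.log 2 ⌊x⌋₊ : ℝ) * Real.log 2 :=
      mul_le_mul_of_nonneg_left h4 (Nat.cast_nonneg _)
    linarith
  have h6 : Real.log x ≤ x ^ (θ / 2) / (θ / 2) := Real.log_le_rpow_div hx0.le (by linarith)
  have h7 : 1 ≤ x ^ (θ / 2) := Real.one_le_rpow hx1 (by linarith)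
  push_cast
  calc (Nat.log 2 ⌊x⌋₊ : ℝ) + 1 ≤ 2 * (x ^ (θ / 2) / (θ / 2)) + x ^ (θ / 2) := by linarith
    _ = (4 / θ + 1) * x ^ (θ / 2) := by
        field_simp
        ring
    _ ≤ x ^ (θ / 2) * x ^ (θ / 2) := mul_le_mul_of_nonneg_right h1 (by positivity)
    _ = x ^ θ := by
        rw [← Real.rpow_add hx0]
        congr 1
        ring

theorem qc8_Rt (b y z : Fin 11) (I G : Fin 11 → ℕ) (l : Fin 11) : 0 ≤ Rt b y z I G l := by
  unfold Rt
  split_ifs <;> positivity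

/-- one term -/
theorem qc8_term (hq : q.Ok) (hv : IsPt q x v) (b : Fin 11) (u : PolyK 11) {I : Fin 11 → ℕ}
    (hI : Siz I v) :
    (GT b u v : ℝ) / DD v ≤
      (1 / q.c3 ^ 11) * ∏ l, ((gl b u v l : ℝ) / (2 ^ I l * 2 ^ I (l + 1))) := by
  have hc := hq.c30
  have h1 : ∏ l : Fin 11, (q.c3 * ((2 : ℝ) ^ I l * 2 ^ I (l + 1))) ≤ (DD v : ℝ) := by
    unfold DD
    push_cast
    apply Finset.prod_le_prod
    · intro l _
      positivity
    · intro l _
      exact (dn_siz hv hI l).1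
  rw [Finset.prod_mul_distrib, Finset.prod_const, Finset.card_univ, Fintype.card_fin] at h1
  have h2 : 0 < q.c3 ^ 11 * ∏ l : Fin 11, ((2 : ℝ) ^ I l * 2 ^ I (l + 1)) := by
    apply mul_pos (by positivity)
    apply Finset.prod_pos
    intro l _
    positivity
  have h3 : (GT b u v : ℝ) = ∏ l, (gl b u v l : ℝ) := by
    unfold GT
    push_cast
    rfl
  rw [Finset.prod_div_distrib, ← h3]
  calc (GT b u v : ℝ) / DD v ≤ (GT b u v : ℝ) /
        (q.c3 ^ 11 * ∏ l : Fin 11, ((2 : ℝ) ^ I l * 2 ^ I (l + 1))) :=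
        div_le_div_of_nonneg_left (Nat.cast_nonneg _) h2 h1
    _ = _ := by
        rw [div_mul_eq_div_div, one_div, div_right_comm, div_eq_mul_inv _ (q.c3 ^ 11), mul_comm]

theorem qc8_main (hq : q.Ok) {θ : ℝ} (hθ : 0 < θ) : ∃ x₀ : ℝ, 1 ≤ x₀ ∧ ∀ x ≥ x₀,
    ∀ (b : Fin 11) (u : PolyK 11), IsPt q x u → ∀ (S : Finset (PolyK 11)) (M : ℝ), 0 ≤ M →
    (∀ v ∈ S, IsPt q x v) →
    (∀ v ∈ S, ∀ I : Fin 11 → ℕ, Siz I v → ∃ y ∈ nb b, ∃ z ∈ nb b, y ≠ z ∧
      (∏ l, ((gl b u v l : ℝ) / (2 ^ I l * 2 ^ I (l + 1)))) *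
        ∏ l ∈ nb b, Rt b y z I (fun l => gl b u v l) l ≤ M) →
    ∑ v ∈ S, (GT b u v : ℝ) / DD v ≤ x ^ θ * M := by
  classical
  have hc := hq.c30
  have hθ' : 0 < θ / 24 := by linarith
  obtain ⟨x₁, hx₁, hcr⟩ := crude_count hq hθ'
  obtain ⟨x₂, hx₂, hdv⟩ := div_le hθ'
  obtain ⟨x₃, hN⟩ := qc8_N hθ'
  obtain ⟨x₄, hcc⟩ := qc8_ev (1 / q.c3 ^ 11) hθ'
  refine ⟨max (max x₁ x₂) (max x₃ x₄), le_max_of_le_left (le_max_of_le_left hx₁), ?_⟩
  intro x hx b u hu S M hM hS hR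
  have hxx₁ : x₁ ≤ x := ((le_max_left _ _).trans (le_max_left _ _)).trans hx
  have hxx₂ : x₂ ≤ x := ((le_max_right _ _).trans (le_max_left _ _)).trans hx
  have hxx₃ : x₃ ≤ x := ((le_max_left _ _).trans (le_max_right _ _)).trans hx
  have hxx₄ : x₄ ≤ x := ((le_max_right _ _).trans (le_max_right _ _)).trans hx
  have hx1 : 1 ≤ x := hx₁.trans hxx₁
  have hx0 : 0 < x := by linarith
  set ky : PolyK 11 → (Fin 11 → ℕ) × (Fin 11 → ℕ) :=
    fun v => (fun j => Nat.log 2 (nr (v j)), fun l => gl b u v l) with hky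
  have hDu : 0 < DD u := by
    unfold DD
    exact Finset.prod_pos (fun l _ => dn_pos hu l)
  have hDx : (DD u : ℝ) ≤ x ^ 3 := by
    have h1 := DD_le hq hx1 hu
    have h2 : x ≤ x ^ 3 := by
      calc x = x ^ 1 := (pow_one x).symm
        _ ≤ x ^ 3 := pow_le_pow_right₀ hx1 (by norm_num)
    exact h1.trans h2
  have hτ := hdv x hxx₂ (DD u) hDu hDx
  have hNx := hN x hxx₃ hx1
  have hcx := hcc x hxx₄
  -- the number of cells
  have hcard : ((S.image ky).card : ℝ) ≤ x ^ (22 * (θ / 24)) := by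
    have hsub : S.image ky ⊆
        (Fintype.piFinset (fun _ : Fin 11 => Finset.range (Nat.log 2 ⌊x⌋₊ + 1))) ×ˢ
        (Fintype.piFinset (fun _ : Fin 11 => (DD u).divisors)) := by
      intro k hk
      obtain ⟨v, hv, rfl⟩ := Finset.mem_image.1 hk
      rw [Finset.mem_product, Fintype.mem_piFinset, Fintype.mem_piFinset]
      refine ⟨?_, ?_⟩
      · intro j
        rw [Finset.mem_range]
        exact Nat.lt_succ_of_le (qc8_log hq hx1 (hS v hv) j)
      · intro l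
        rw [Nat.mem_divisors]
        exact ⟨gl_dvd_DD b l u v, hDu.ne'⟩
    have h1 := Finset.card_le_card hsub
    rw [Finset.card_product, Fintype.card_piFinset, Fintype.card_piFinset, Finset.prod_const,
      Finset.prod_const, Finset.card_univ, Fintype.card_fin, Finset.card_range] at h1
    have h2 : ((S.image ky).card : ℝ) ≤
        (((Nat.log 2 ⌊x⌋₊ + 1 : ℕ) : ℝ)) ^ 11 * (((DD u).divisors.card : ℝ)) ^ 11 := by
      exact_mod_cast h1
    refine h2.trans ?_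
    calc (((Nat.log 2 ⌊x⌋₊ + 1 : ℕ) : ℝ)) ^ 11 * (((DD u).divisors.card : ℝ)) ^ 11
        ≤ (x ^ (θ / 24)) ^ 11 * (x ^ (θ / 24)) ^ 11 := by
          apply mul_le_mul
          · exact pow_le_pow_left₀ (Nat.cast_nonneg _) hNx 11
          · exact pow_le_pow_left₀ (Nat.cast_nonneg _) hτ 11
          · exact pow_nonneg (Nat.cast_nonneg _) 11
          · exact pow_nonneg (Real.rpow_nonneg hx0.le _) 11
      _ = x ^ (22 * (θ / 24)) := by
          rw [← pow_add, ← Real.rpow_natCast, ← Real.rpow_mul hx0.le]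
          congr 1
          push_cast
          ring
  -- one cell
  have hcell : ∀ k ∈ S.image ky, ∑ v ∈ S.filter (fun v => ky v = k), (GT b u v : ℝ) / DD v ≤
      x ^ (2 * (θ / 24)) * M := by
    intro k hk
    obtain ⟨v0, hv0, rfl⟩ := Finset.mem_image.1 hk
    set I : Fin 11 → ℕ := fun j => Nat.log 2 (nr (v0 j)) with hI
    have hsz := qc8_siz hx1 (hS v0 hv0)
    obtain ⟨y, hy, z, hz, hyz, hle⟩ := hR v0 hv0 I hsz
    set T := S.filter (fun v => ky v = ky v0) with hT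
    have hT1 : ∀ v ∈ T, v ∈ S ∧ (∀ j, Nat.log 2 (nr (v j)) = I j) ∧
        ∀ l, gl b u v l = gl b u v0 l := by
      intro v hv
      rw [hT, Finset.mem_filter] at hv
      have hv2 := hv.2
      simp only [hky, Prod.mk.injEq] at hv2
      refine ⟨hv.1, ?_, ?_⟩
      · intro j
        have := congrFun hv2.1 j
        simpa only [hI] using this
      · intro l
        have := congrFun hv2.2 l
        simpa only using this
    have hTs : ∀ v ∈ T, Siz I v := by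
      intro v hv
      have h1 := qc8_siz hx1 (hS v (hT1 v hv).1)
      have h2 : (fun j => Nat.log 2 (nr (v j))) = I := funext (hT1 v hv).2.1
      rw [h2] at h1
      exact h1
    have hcs := hcr x hxx₁ b y z hy hz hyz u hu I (fun l => gl b u v0 l) T
      (fun v hv => ⟨hS v (hT1 v hv).1, hTs v hv, (hT1 v hv).2.2⟩)
    set P : ℝ := ∏ l, ((gl b u v0 l : ℝ) / (2 ^ I l * 2 ^ I (l + 1))) with hP
    have hP0 : 0 ≤ P := by
      apply Finset.prod_nonneg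
      intro l _
      positivity
    set R : ℝ := ∏ l ∈ nb b, Rt b y z I (fun l => gl b u v0 l) l with hRd
    have hR0 : 0 ≤ R := Finset.prod_nonneg (fun l _ => qc8_Rt b y z I _ l)
    have hterm : ∀ v ∈ T, (GT b u v : ℝ) / DD v ≤ (1 / q.c3 ^ 11) * P := by
      intro v hv
      have h1 := qc8_term hq (hS v (hT1 v hv).1) b u (hTs v hv)
      have h2 : ∏ l, ((gl b u v l : ℝ) / (2 ^ I l * 2 ^ I (l + 1))) = P := by
        rw [hP]
        apply Finset.prod_congr rfl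
        intro l _
        rw [(hT1 v hv).2.2 l]
      rw [h2] at h1
      exact h1
    refine (Finset.sum_le_sum hterm).trans ?_
    rw [Finset.sum_const, nsmul_eq_mul]
    have hcinv : 0 ≤ 1 / q.c3 ^ 11 := by positivity
    have hxp : 0 ≤ x ^ (θ / 24) := by positivity
    calc (T.card : ℝ) * (1 / q.c3 ^ 11 * P)
        ≤ (x ^ (θ / 24) * R) * (1 / q.c3 ^ 11 * P) :=
          mul_le_mul_of_nonneg_right hcs (by positivity)
      _ = (1 / q.c3 ^ 11) * (x ^ (θ / 24) * (P * R)) := by ring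
      _ ≤ x ^ (θ / 24) * (x ^ (θ / 24) * (P * R)) :=
          mul_le_mul_of_nonneg_right hcx (by positivity)
      _ ≤ x ^ (θ / 24) * (x ^ (θ / 24) * M) := by
          apply mul_le_mul_of_nonneg_left _ hxp
          exact mul_le_mul_of_nonneg_left hle hxp
      _ = x ^ (2 * (θ / 24)) * M := by
          rw [← mul_assoc, ← Real.rpow_add hx0]
          congr 2
          ring
  have hsum : ∑ v ∈ S, (GT b u v : ℝ) / DD v =
      ∑ k ∈ S.image ky, ∑ v ∈ S.filter (fun v => ky v = k), (GT b u v : ℝ) / DD v :=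
    (Finset.sum_fiberwise_of_maps_to (fun v hv => Finset.mem_image_of_mem _ hv) _).symm
  rw [hsum]
  refine (Finset.sum_le_sum hcell).trans ?_
  rw [Finset.sum_const, nsmul_eq_mul]
  calc ((S.image ky).card : ℝ) * (x ^ (2 * (θ / 24)) * M)
      ≤ x ^ (22 * (θ / 24)) * (x ^ (2 * (θ / 24)) * M) :=
        mul_le_mul_of_nonneg_right hcard (by positivity)
    _ = x ^ θ * M := by
        rw [← mul_assoc, ← Real.rpow_add hx0]
        congr 2
        ring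

theorem qc8_yz (b : Fin 11) : b - 1 ∈ nb b ∧ b + 2 ∈ nb b ∧ b - 1 ≠ b + 2 := by
  revert b
  decide +kernel

theorem qc8_G (hv : IsPt q x v) (b : Fin 11) (u : PolyK 11) {I : Fin 11 → ℕ} (hI : Siz I v)
    (l : Fin 11) : 1 ≤ gl b u v l ∧ (gl b u v l : ℝ) ≤ 4 * (2 ^ I l * 2 ^ I (l + 1)) := by
  refine ⟨gl_pos b l u v, ?_⟩
  refine le_trans ?_ (dn_siz hv hI l).2
  exact_mod_cast Nat.le_of_dvd (dn_pos hv l) (gl_dvd b l u v)

theorem sum_all (hq : q.Ok) {θ : ℝ} (hθ : 0 < θ) : ∃ x₀ : ℝ, 1 ≤ x₀ ∧ ∀ x ≥ x₀, ∀ (b : Fin 11)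
    (u : PolyK 11), IsPt q x u → ∀ S : Finset (PolyK 11), (∀ v ∈ S, IsPt q x v) →
    ∑ v ∈ S, (GT b u v : ℝ) / DD v ≤ x ^ θ := by
  obtain ⟨x₁, hx₁, h1⟩ := qc8_main hq (by linarith : 0 < θ / 2)
  obtain ⟨x₂, hx₂, h2⟩ := ratio_le hq (by linarith : 0 < θ / 2)
  refine ⟨max x₁ x₂, le_max_of_le_left hx₁, ?_⟩
  intro x hx b u hu S hS
  have hxx₁ : x₁ ≤ x := (le_max_left _ _).trans hx
  have hxx₂ : x₂ ≤ x := (le_max_right _ _).trans hx
  have hx1 : 1 ≤ x := hx₁.trans hxx₁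
  have hx0 : 0 < x := by linarith
  refine (h1 x hxx₁ b u hu S (x ^ (θ / 2)) (by positivity) hS ?_).trans ?_
  · intro v hv I hI
    have hsb := siz_bd hq hx1 (hS v hv) hI
    obtain ⟨hy, hz, hyz⟩ := qc8_yz b
    exact ⟨b - 1, hy, b + 2, hz, hyz, h2 x hxx₂ b I (fun l => gl b u v l) hsb.1 hsb.2.1 hsb.2.2
      (fun l => (qc8_G (hS v hv) b u hI l).1) (fun l => (qc8_G (hS v hv) b u hI l).2)⟩
  · rw [← Real.rpow_add hx0]
    apply le_of_eq
    congr 1
    ring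

theorem qc8_ib (b : Fin 11) : (ib b).card ≤ 10 := by
  revert b
  decide +kernel

theorem sum_crude (hq : q.Ok) : ∃ c x₀ : ℝ, 0 < c ∧ 1 ≤ x₀ ∧ ∀ x ≥ x₀, ∀ (b : Fin 11)
    (u : PolyK 11), IsPt q x u → ∀ S : Finset (PolyK 11), (∀ v ∈ S, IsPt q x v ∧
      x ^ (q.ε / 8) < (GI b u v : ℝ) ∧ ∃ l, x ^ (q.ε / 10) * (gl b u v l : ℝ) < dn v l) →
    ∑ v ∈ S, (GT b u v : ℝ) / DD v ≤ x ^ (-c) := by
  have hε := hq.ε0
  obtain ⟨c, x₂, hc, hx₂, h2⟩ := ratio_gap hq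
  obtain ⟨x₁, hx₁, h1⟩ := qc8_main hq (by linarith : 0 < c / 2)
  obtain ⟨x₃, h3⟩ := qc8_ev 4 (by linarith : 0 < q.ε / 30)
  refine ⟨c / 2, max x₁ (max x₂ x₃), by linarith, le_max_of_le_left hx₁, ?_⟩
  intro x hx b u hu S hS
  have hxx₁ : x₁ ≤ x := (le_max_left _ _).trans hx
  have hxx₂ : x₂ ≤ x := ((le_max_left _ _).trans (le_max_right _ _)).trans hx
  have hxx₃ : x₃ ≤ x := ((le_max_right _ _).trans (le_max_right _ _)).trans hx
  have hx1 : 1 ≤ x := hx₁.trans hxx₁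
  have hx0 : 0 < x := by linarith
  refine (h1 x hxx₁ b u hu S (x ^ (-c)) (by positivity) (fun v hv => (hS v hv).1) ?_).trans ?_
  · intro v hv I hI
    obtain ⟨hpv, hGI, l, hl⟩ := hS v hv
    have hsb := siz_bd hq hx1 hpv hI
    apply h2 x hxx₂ b I (fun l => gl b u v l) hsb.1 hsb.2.1 hsb.2.2
      (fun l => (qc8_G hpv b u hI l).1) (fun l => (qc8_G hpv b u hI l).2)
    · by_contra hcon
      push Not at hcon
      have h4 : (GI b u v : ℝ) ≤ x ^ (q.ε / 8) := by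
        unfold GI
        push_cast
        calc ∏ l ∈ ib b, (gl b u v l : ℝ) ≤ ∏ l ∈ ib b, x ^ (q.ε / 80) :=
              Finset.prod_le_prod (fun _ _ => Nat.cast_nonneg _) (fun l hl => hcon l hl)
          _ = (x ^ (q.ε / 80)) ^ (ib b).card := by rw [Finset.prod_const]
          _ ≤ (x ^ (q.ε / 80)) ^ 10 :=
              pow_le_pow_right₀ (Real.one_le_rpow hx1 (by linarith)) (qc8_ib b)
          _ = x ^ (q.ε / 8) := by
              rw [← Real.rpow_natCast, ← Real.rpow_mul hx0.le]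
              congr 1
              push_cast
              ring
      linarith
    · refine ⟨l, ?_⟩
      have h5 := (dn_siz hpv hI l).2
      have h6 := h3 x hxx₃
      have h7 : x ^ (q.ε / 10) = x ^ (q.ε / 15) * x ^ (q.ε / 30) := by
        rw [← Real.rpow_add hx0]
        congr 1
        ring
      have h8 : 0 ≤ x ^ (q.ε / 15) * (gl b u v l : ℝ) := by positivity
      have h9 : 4 * (x ^ (q.ε / 15) * (gl b u v l : ℝ)) ≤
          x ^ (q.ε / 30) * (x ^ (q.ε / 15) * (gl b u v l : ℝ)) :=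
        mul_le_mul_of_nonneg_right h6 h8
      rw [h7] at hl
      show x ^ (q.ε / 15) * (gl b u v l : ℝ) < 2 ^ I l * 2 ^ I (l + 1)
      nlinarith
  · rw [← Real.rpow_add hx0]
    apply le_of_eq
    congr 1
    ring

end Pool.Agent.PNI
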