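import Pool.Agent.Lib_helper96.PNI.Defs
import Pool.Agent.Lib_helper96.PNI.L.QA6

/-! PNI block QA9 (helper53) -/

set_option autoImplicit false

namespace Pool.Agent.PNI

open Finset Pool.Agent.PENT Pool.Agent.PENK

variable {q : Prm} {x : ℝ} {u v w : PolyK 11}

/-- BLOCK QA9 (uses QA6) -/
theorem rf_NP {b : Fin 11} (h : NP q x b u v) : NP q.rv x (9 - b) (rf u) (rf v) where
  pu := rf_pt h.pu
  pv := rf_pt h.pv
  nu := by
    intro l
    have h1 := h.nu (9 - l)
    have h2 := rf_gl b (9 - l) v u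
    rw [sub_sub_cancel] at h2
    rw [rf_dn, h2]
    exact h1
  nv := by
    intro l
    have h1 := h.nv (9 - l)
    have h2 := rf_gl b (9 - l) u v
    rw [sub_sub_cancel] at h2
    rw [rf_dn, h2]
    exact h1

theorem qa9_par : ∀ j : Fin 11, j.val % 2 = 1 → (10 - j).val % 2 = 1 := by decide

theorem qa9_par' : ∀ j : Fin 11, j.val % 2 = 0 → (10 - j).val % 2 = 0 := by decide

theorem qa9_ne (a b : Fin 11) (j : Fin 11) (hab : 10 - a = b) (h : j ≠ a) : 10 - j ≠ b := by
  intro h1
  apply h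
  have : 10 - j = 10 - a := h1.trans hab.symm
  have h2 : (10 : Fin 11) - (10 - j) = 10 - (10 - a) := by rw [this]
  rwa [sub_sub_cancel, sub_sub_cancel] at h2

theorem rv_ok (h : q.Ok) : q.rv.Ok where
  ε0 := h.ε0
  c30 := h.c30
  c31 := h.c31
  l0 := h.l10
  h0 := h.h10
  l10 := h.l0
  h10 := h.h0
  le := fun j => h.le (10 - j)
  sm := by
    have := h.sm
    rw [← (Equiv.subLeft (10 : Fin 11)).sum_comp] at this
    exact this
  pos := fun j h1 h2 => h.pos (10 - j) (qa9_ne 10 0 j (by decide) h2)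
    (qa9_ne 0 10 j (by decide) h1)
  nar := fun j h1 h2 => h.nar (10 - j) (qa9_ne 9 1 j (by decide) h2)
    (qa9_ne 1 9 j (by decide) h1)
  tiny := by
    intro o ho
    have h1 := h.tiny (10 - o) (qa9_par o ho)
    have e : 4 * (q.rv.hi 2 + q.rv.hi 4 + q.rv.hi 6 + q.rv.hi 8) + 4 * q.rv.ε =
        4 * (q.hi 2 + q.hi 4 + q.hi 6 + q.hi 8) + 4 * q.ε := by
      show 4 * (q.hi 8 + q.hi 6 + q.hi 4 + q.hi 2) + 4 * q.ε = _
      ring
    rw [e]
    exact h1
  big := by
    intro i o e hi ho he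
    refine h.big (10 - i) (10 - o) (10 - e) ?_ (qa9_par o ho) (qa9_par' e he)
    rcases hi with rfl | rfl | rfl
    · right; right; decide
    · right; left; decide
    · left; decide

theorem rv_nar (h : q.Nar) : q.rv.Nar := fun j => h (10 - j)

theorem rf_siz {I : Fin 11 → ℕ} (h : Siz I u) : Siz (fun j => I (10 - j)) (rf u) := by
  intro j
  have h1 := h (10 - j)
  have e : nr (rf u j) = nr (u (10 - j)) := by
    unfold nr rf
    rw [Nat.add_comm]
  rw [e]
  exact h1

end Pool.Agent.PNI
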