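import Pool.Agent.Lib_helper96.PNI.Defs
import Pool.Agent.Lib_helper96.PNI.L.QA2
import Pool.Agent.Lib_helper96.PNI.L.QA3

/-! PNI block QN3 (helper53) -/

set_option autoImplicit false

namespace Pool.Agent.PNI

open Finset Pool.Agent.PENT Pool.Agent.PENK

variable {q : Prm} {x : ℝ} {u v w : PolyK 11}

theorem qn3_cb (hu : IsPt q x u) (hv : IsPt q x v) {j : Fin 11} (h : v j = u j) :
    cb 10 v j = cb 10 u j := by
  unfold cb
  have e : (10 : Fin 11) + 1 = 0 := by decide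
  rw [e, hu.f0, hv.f0, hu.f1, hv.f1, h]

theorem qn3_ten (hu : IsPt q x u) {p : ℕ} (hp : p.Prime) {i l : Fin 11}
    (hC : CL 10 u v i l p) : i ≠ 10 := by
  rintro rfl
  have h1 := hC.1
  have h2 : dn u 10 = 1 := by
    unfold dn dl
    have e : (10 : Fin 11) + 1 = 0 := by decide
    rw [e, hu.f0, hu.f1]
    rfl
  rw [h2] at h1
  exact hp.one_lt.ne' (Nat.dvd_one.1 h1)

theorem qn3_vx {l : Fin 11} (hl : l ≠ 10) (m : Fin 11) : m ∈ vx 10 l ↔ m = l ∨ m = l + 1 := by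
  unfold vx
  rw [if_neg hl, Finset.mem_insert, Finset.mem_singleton]

theorem qn3_self (l : Fin 11) : l ∈ vx 10 l := by
  by_cases hl : l = 10
  · subst hl
    unfold vx
    rw [if_pos rfl]
    exact Finset.mem_univ _
  · rw [qn3_vx hl]
    exact Or.inl rfl

theorem qn3_f1 : ∀ r : Fin 11, r ≠ 0 → r - 1 ≠ 10 ∧ r - 1 < r := by decide

theorem qn3_f2 : ∀ r i : Fin 11, r ≠ 0 → r - 1 = i + 1 → i ≠ 10 →
    i < r ∧ i ≠ r - 1 ∧ i ≠ r - 1 + 1 := by decide

theorem qn3_f3 : ∀ r i : Fin 11, r ≠ 10 → i < r → i ≠ r ∧ i ≠ r + 1 := by decide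

/-- the key fact -/
theorem qn3_key (hu : IsPt q x u) (hv : IsPt q x v) (r i : Fin 11) (hr : r ≠ 0)
    (he : ∀ j < r, v j = u j) {p : ℕ} (hp : p.Prime) (hC : CL 10 u v i (r - 1) p) :
    i = r - 1 := by
  have h10 := qn3_ten hu hp hC
  obtain ⟨g1, g2⟩ := qn3_f1 r hr
  have h1 : r - 1 ∈ vx 10 i := CL_same hu hp 10 i (r - 1) (r - 1) (r - 1) hC (qn3_self _)
    (Or.inl (qn3_cb hu hv (he _ g2)).symm)
  rw [qn3_vx h10] at h1
  rcases h1 with h1 | h1
  · exact h1.symm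
  · exfalso
    obtain ⟨g3, g4, g5⟩ := qn3_f2 r i hr h1 h10
    have h2 : i ∈ vx 10 (r - 1) := CL_same hv hp 10 (r - 1) i i i
      ((CL_symm 10 i (r - 1) u v p).1 hC) (qn3_self _) (Or.inl (qn3_cb hu hv (he _ g3)))
    rw [qn3_vx g1] at h2
    rcases h2 with h2 | h2
    · exact g4 h2
    · exact g5 h2

theorem qn3_gl (hu : IsPt q x u) (hv : IsPt q x v) (r : Fin 11) (hr : r ≠ 0)
    (he : ∀ j < r, v j = u j) : gl 10 u v (r - 1) = dil 10 u v (r - 1) (r - 1) := by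
  rw [gl_eq hu hv]
  apply Finset.prod_eq_single
  · intro i _ hi
    apply dil_one
    intro p hp hC
    exact hi (qn3_key hu hv r i hr he hp hC)
  · intro h
    exact absurd (Finset.mem_univ _) h

/-- BLOCK QN3 (uses QA1 - QA3, QA7). Base `10`, the first vertex `r` where `v` differs from `u`, part 1. The
edge `r - 1`: if `CL 10 u v i (r-1) p` then `r - 1 ∈ {i, i+1}` (`CL_same`, `cb 10 u (r-1) = cb 10 v (r-1)`), and
`i = r - 2` is impossible: `v_(r-2) = u_(r-2)` is not on the line of `v` (`CL_symm`, `CL_same`). So the edge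
`r - 1` has only common primes with itself. -/
theorem edge_r1 (hu : IsPt q x u) (hv : IsPt q x v) (r : Fin 11) (hr : r ≠ 0) (hr' : r ≠ 10)
    (he : ∀ j < r, v j = u j) : gl 10 u v (r - 1) = dil 10 u v (r - 1) (r - 1) ∧
      gl 10 v u (r - 1) = dil 10 u v (r - 1) (r - 1) := by
  refine ⟨qn3_gl hu hv r hr he, ?_⟩
  rw [qn3_gl hv hu r hr (fun j hj => (he j hj).symm)]
  exact dil_symm _ _ _ _ _

/-- the edge `r`: common primes only with edges `i ≥ r` (`i ≠ 10`) -/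
theorem edge_r (hu : IsPt q x u) (hv : IsPt q x v) (r i : Fin 11) (hr : r ≠ 0) (hr' : r ≠ 10)
    (he : ∀ j < r, v j = u j) {p : ℕ} (hp : p.Prime) (hC : CL 10 u v i r p) : r ≤ i ∧ i ≠ 10 := by
  refine ⟨?_, qn3_ten hu hp hC⟩
  by_contra hlt
  rw [not_le] at hlt
  obtain ⟨g1, g2⟩ := qn3_f3 r i hr' hlt
  have h2 : i ∈ vx 10 r := CL_same hv hp 10 r i i i
    ((CL_symm 10 i r u v p).1 hC) (qn3_self _) (Or.inl (qn3_cb hu hv (he _ hlt)))
  rw [qn3_vx hr'] at h2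
  rcases h2 with h2 | h2
  · exact g1 h2
  · exact g2 h2

end Pool.Agent.PNI
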