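import Pool.Agent.Lib_helper96.PNI.Defs
import Pool.Agent.Lib_helper96.PNI.L.PD
import Pool.Agent.Lib_helper96.PNI.L.QA1
import Pool.Agent.Lib_helper96.PNI.L.QA7
import Pool.Agent.Lib_helper96.PNI.L.QN1

/-! PNI block QN2: the master count (helper44) -/

set_option autoImplicit false

namespace Pool.Agent.PNI

open Finset Pool.Agent.PENT Pool.Agent.PENK

variable {q : Prm} {x : ℝ} {u v w : PolyK 11}

theorem qn2_lo (hq : q.Ok) (j : Fin 11) : 0 ≤ q.lo j := by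
  by_cases h0 : j = 0
  · rw [h0, hq.l0]
  · by_cases h1 : j = 10
    · rw [h1, hq.l10]
    · have := hq.pos j h0 h1
      have := hq.ε0
      linarith

theorem qn2_hi (hq : q.Ok) (j : Fin 11) : q.hi j ≤ 1 / 2 := by
  have h : q.hi j ≤ ∑ j, q.hi j :=
    Finset.single_le_sum (f := fun j => q.hi j)
      (fun i _ => (qn2_lo hq i).trans (hq.le i)) (Finset.mem_univ j)
  have := hq.sm
  linarith

theorem qn2_nr (hq : q.Ok) (hx : 1 ≤ x) (h : IsPt q x u) (j : Fin 11) :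
    (nr (u j) : ℝ) ≤ x ^ (1 / 2 : ℝ) :=
  (h.hi j).trans (Real.rpow_le_rpow_of_exponent_le hx (qn2_hi hq j))

theorem qn2_half (hx : 1 ≤ x) : x ^ (1 / 2 : ℝ) * x ^ (1 / 2 : ℝ) = x := by
  rw [← Real.rpow_add (by linarith)]
  norm_num

theorem qn2_dn (hq : q.Ok) (hx : 1 ≤ x) (h : IsPt q x u) (l : Fin 11) : (dn u l : ℝ) ≤ x := by
  have h1 := dn_le_nr u l
  have h2 := qn2_nr hq hx h l
  have h3 := qn2_nr hq hx h (l + 1)
  calc (dn u l : ℝ) ≤ nr (u l) * nr (u (l + 1)) := h1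
    _ ≤ x ^ (1 / 2 : ℝ) * x ^ (1 / 2 : ℝ) := by
        apply mul_le_mul h2 h3 (by positivity) (by positivity)
    _ = x := qn2_half hx

theorem qn2_dt (hq : q.Ok) (hx : 2 ≤ x) (h : IsPt q x u) (b k : Fin 11) (w : ℤ × ℤ)
    (h1 : |(w.1 : ℝ)| ≤ x) (h2 : |(w.2 : ℝ)| ≤ x) :
    (((dt (cb b u k) w).natAbs : ℕ) : ℝ) ≤ x ^ 3 := by
  obtain ⟨c1, c2⟩ := cb_le b k u
  have hx1 : (1 : ℝ) ≤ x := by linarith
  have n1 := qn2_nr hq hx1 h k
  have n2 := qn2_nr hq hx1 h (b + 1)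
  have n3 := qn2_nr hq hx1 h b
  have e1 : |((cb b u k).1 : ℝ)| ≤ x := by
    calc |((cb b u k).1 : ℝ)| ≤ nr (u k) * nr (u (b + 1)) := c1
      _ ≤ x ^ (1 / 2 : ℝ) * x ^ (1 / 2 : ℝ) := by
          apply mul_le_mul n1 n2 (by positivity) (by positivity)
      _ = x := qn2_half hx1
  have e2 : |((cb b u k).2 : ℝ)| ≤ x := by
    calc |((cb b u k).2 : ℝ)| ≤ nr (u b) * nr (u k) := c2
      _ ≤ x ^ (1 / 2 : ℝ) * x ^ (1 / 2 : ℝ) := by
          apply mul_le_mul n3 n1 (by positivity) (by positivity)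
      _ = x := qn2_half hx1
  have e3 : (((dt (cb b u k) w).natAbs : ℕ) : ℝ) = |((cb b u k).1 : ℝ) * w.2 - (cb b u k).2 * w.1| := by
    rw [Nat.cast_natAbs]
    unfold dt
    push_cast
    rfl
  rw [e3]
  have e4 : |((cb b u k).1 : ℝ) * w.2| ≤ x * x := by
    rw [abs_mul]
    exact mul_le_mul e1 h2 (abs_nonneg _) (by linarith)
  have e5 : |((cb b u k).2 : ℝ) * w.1| ≤ x * x := by
    rw [abs_mul]
    exact mul_le_mul e2 h1 (abs_nonneg _) (by linarith)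
  have e6 := abs_sub ((((cb b u k).1 : ℤ) : ℝ) * w.2) ((((cb b u k).2 : ℤ) : ℝ) * w.1)
  have e7 : x * x + x * x ≤ x ^ 3 := by nlinarith [mul_nonneg (by linarith : (0:ℝ) ≤ x * x) (by linarith : (0 : ℝ) ≤ x - 2), mul_pos (by linarith : (0:ℝ) < x) (by linarith : (0:ℝ) < x)]
  linarith

theorem qn2_fE {O : Finset (Fin 11)} {s s0 : PolyK 11 × (ℤ × ℤ) × (Fin 11 → ℕ)}
    (h : fE O s = fE O s0) {j : Fin 11} (hj : j ∉ O) : s.1 j = s0.1 j := by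
  have := congrFun h j
  unfold fE at this
  simpa [hj] using this

theorem qn2_fK {O : Finset (Fin 11)} {s s0 : PolyK 11 × (ℤ × ℤ) × (Fin 11 → ℕ)}
    (h : fK O s = fK O s0) {j : Fin 11} (hj : ¬ (j ∈ O ∨ j + 1 ∈ O)) : s.2.2 j = s0.2.2 j := by
  have := congrFun h j
  unfold fK at this
  simpa [hj] using this

theorem qn2_natAbs_le (w : ℤ × ℤ) : w.1.natAbs ≤ nr w ∧ w.2.natAbs ≤ nr w := by
  unfold nr
  constructor <;> omega

/-- the divisibility in the last fibre -/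
theorem qn2_par1 {b : Fin 11} {O : Finset (Fin 11)} {I : Fin 11 → ℕ}
    {s s' : PolyK 11 × (ℤ × ℤ) × (Fin 11 → ℕ)} (hs : MD q x b O I s)
    (h0 : s'.1 b = s.1 b) (h1 : s'.1 (b + 1) = s.1 (b + 1)) (hw : s'.2.1 = s.2.1)
    (i j : Fin 11) (hjb : j ≠ b) (n : ℕ) (hn : n ∣ dn s.1 j)
    (h2 : (n : ℤ) ∣ dt (cb b s.1 i) s.2.1) (h3 : (n : ℤ) ∣ dt (cb b s'.1 i) s'.2.1) :
    (n : ℤ) ∣ dt (s.1 i) (s'.1 i) := by
  have hsq : Squarefree n := (hs.pt.sq j).squarefree_of_dvd hn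
  apply sqf_dvd hsq
  intro p hp hpn
  have hp' : Prime (p : ℤ) := Nat.prime_iff_prime_int.1 hp
  have hpn' : (p : ℤ) ∣ (n : ℤ) := by exact_mod_cast hpn
  have k1 : (p : ℤ) ∣ dt s.2.1 (cb b s.1 i) := by
    have := hpn'.trans h2
    have e : dt s.2.1 (cb b s.1 i) = -dt (cb b s.1 i) s.2.1 := by unfold dt; ring
    rw [e]
    exact (dvd_neg).2 this
  have k2 : (p : ℤ) ∣ dt s.2.1 (cb b s'.1 i) := by
    have := hpn'.trans h3
    have e : dt s.2.1 (cb b s'.1 i) = -dt (cb b s'.1 i) s'.2.1 := by rw [hw]; unfold dt; ring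
    rw [e]
    exact (dvd_neg).2 this
  have k3 : ¬ ((p : ℤ) ∣ s.2.1.1 ∧ (p : ℤ) ∣ s.2.1.2) := by
    rintro ⟨a1, a2⟩
    have := Int.dvd_coe_gcd a1 a2
    rw [hs.wp] at this
    have h4 : p ∣ 1 := by exact_mod_cast this
    exact hp.one_lt.ne' (Nat.dvd_one.1 h4)
  have k4 := par_trans hp k3 k1 k2
  rw [dt_cb2 b i i s.1 s'.1 h0 h1] at k4
  rcases hp'.dvd_or_dvd k4 with k5 | k5
  · exfalso
    have k6 : p ∣ dn s.1 b := by
      unfold dn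
      exact Int.natCast_dvd.1 k5
    have k7 := Nat.dvd_gcd (hpn.trans hn) k6
    rw [(hs.pt.co j b hjb)] at k7
    exact hp.one_lt.ne' (Nat.dvd_one.1 k7)
  · exact k5

/-- the last fibre -/
theorem qn2_fib (b : Fin 11) (O : Finset (Fin 11)) (I : Fin 11 → ℕ)
    (hO : ∀ i ∈ O, i.val % 2 = 1 ∧ i ≠ b ∧ i ≠ b + 1)
    (F : Finset (PolyK 11 × (ℤ × ℤ) × (Fin 11 → ℕ)))
    (s0 : PolyK 11 × (ℤ × ℤ) × (Fin 11 → ℕ)) (hs0 : s0 ∈ F) (hF : ∀ s ∈ F, MD q x b O I s)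
    (hE : ∀ s ∈ F, fE O s = fE O s0) (hw : ∀ s ∈ F, s.2.1 = s0.2.1)
    (hg : ∀ s ∈ F, s.2.2 = s0.2.2) :
    (F.card : ℝ) ≤ ∏ i ∈ O, (128 * ((2 : ℝ) ^ I i) ^ 2 / ((s0.2.2 (i - 1) : ℝ) * s0.2.2 i) + 6) := by
  classical
  have hbO : b ∉ O := fun h => (hO b h).2.1 rfl
  have hb1O : b + 1 ∉ O := fun h => (hO (b + 1) h).2.2 rfl
  set T : Fin 11 → Finset (ℤ × ℤ) := fun i => F.image (fun s => s.1 i) with hT
  have hcard : F.card ≤ (O.pi T).card := by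
    apply Finset.card_le_card_of_injOn (fun s => fun i _ => s.1 i)
    · intro s hs
      rw [Finset.mem_coe, Finset.mem_pi]
      intro i _
      exact Finset.mem_image_of_mem _ hs
    · intro s hs s' hs' he
      have e1 : s.1 = s'.1 := by
        funext j
        by_cases hj : j ∈ O
        · exact congrFun (congrFun he j) hj
        · rw [qn2_fE (hE s hs) hj, qn2_fE (hE s' hs') hj]
      have e2 : s.2 = s'.2 := by
        apply Prod.ext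
        · rw [hw s hs, hw s' hs']
        · rw [hg s hs, hg s' hs']
      exact Prod.ext e1 e2
  rw [Finset.card_pi] at hcard
  have hcard' : (F.card : ℝ) ≤ ∏ i ∈ O, ((T i).card : ℝ) := by
    exact_mod_cast hcard
  refine hcard'.trans (Finset.prod_le_prod (fun i _ => by positivity) ?_)
  intro i hi
  obtain ⟨hi1, hi2, hi3⟩ := hO i hi
  have h0 := hF s0 hs0
  have hd1 : s0.2.2 (i - 1) ∣ dn s0.1 (i - 1) := h0.dv (i - 1)
  have hd2 : s0.2.2 i ∣ dn s0.1 i := h0.dv i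
  have hg1 : 0 < s0.2.2 (i - 1) := Nat.pos_of_dvd_of_pos hd1 (dn_pos h0.pt (i - 1))
  have hg2 : 0 < s0.2.2 i := Nat.pos_of_dvd_of_pos hd2 (dn_pos h0.pt i)
  have hne : i - 1 ≠ i := by
    intro h
    have : (1 : Fin 11) = 0 := by
      have h2 := congrArg (fun z => i - z) h
      simp at h2
    exact absurd this (by decide)
  have hib : i - 1 ≠ b := by
    intro h
    apply hi3
    rw [← h, sub_add_cancel]
  have hcop : IsCoprime ((s0.2.2 (i - 1) : ℕ) : ℤ) ((s0.2.2 i : ℕ) : ℤ) := by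
    apply Nat.isCoprime_iff_coprime.2
    exact Nat.Coprime.coprime_dvd_left hd1 (Nat.Coprime.coprime_dvd_right hd2 (h0.pt.co _ _ hne))
  have hll := lattice_lemma (T i) (2 ^ (I i + 1)) (2 ^ (I i + 1)) (s0.2.2 (i - 1) * s0.2.2 i)
    (Nat.one_le_two_pow) (Nat.one_le_two_pow) (Nat.mul_pos hg1 hg2) ?_ ?_ ?_ ?_
  · refine hll.trans ?_
    have hpos : (0 : ℝ) < (s0.2.2 (i - 1) : ℝ) * s0.2.2 i := by positivity
    push_cast
    have e : (8 : ℝ) * 2 ^ (I i + 1) * 2 ^ (I i + 1) / ((s0.2.2 (i - 1) : ℝ) * s0.2.2 i) ≤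
        128 * ((2 : ℝ) ^ I i) ^ 2 / ((s0.2.2 (i - 1) : ℝ) * s0.2.2 i) := by
      apply div_le_div_of_nonneg_right _ hpos.le
      rw [pow_succ]
      nlinarith [sq_nonneg ((2 : ℝ) ^ I i)]
    linarith
  · intro v hv
    obtain ⟨s, hs, rfl⟩ := Finset.mem_image.1 hv
    exact vert_prim (hF s hs).pt i
  · intro v hv
    obtain ⟨s, hs, rfl⟩ := Finset.mem_image.1 hv
    exact (qn2_natAbs_le _).1.trans ((hF s hs).siz i).2.le
  · intro v hv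
    obtain ⟨s, hs, rfl⟩ := Finset.mem_image.1 hv
    exact (qn2_natAbs_le _).2.trans ((hF s hs).siz i).2.le
  · intro v hv v' hv'
    obtain ⟨s, hs, rfl⟩ := Finset.mem_image.1 hv
    obtain ⟨s', hs', rfl⟩ := Finset.mem_image.1 hv'
    push_cast
    have ms := hF s hs
    have ms' := hF s' hs'
    have e0 : s'.1 b = s.1 b := by rw [qn2_fE (hE s hs) hbO, qn2_fE (hE s' hs') hbO]
    have e1 : s'.1 (b + 1) = s.1 (b + 1) := by rw [qn2_fE (hE s hs) hb1O, qn2_fE (hE s' hs') hb1O]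
    have e2 : s'.2.1 = s.2.1 := by rw [hw s hs, hw s' hs']
    apply hcop.mul_dvd
    · have p1 := (ms.par i hi).1
      have p2 := (ms'.par i hi).1
      have p3 := ms.dv (i - 1)
      rw [hg s hs] at p1 p3
      rw [hg s' hs'] at p2
      exact qn2_par1 ms e0 e1 e2 i (i - 1) hib _ p3 p1 p2
    · have p1 := (ms.par i hi).2
      have p2 := (ms'.par i hi).2
      have p3 := ms.dv i
      rw [hg s hs] at p1 p3
      rw [hg s' hs'] at p2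
      exact qn2_par1 ms e0 e1 e2 i i hi2 _ p3 p1 p2

/-- a product of at most `x ^ θ` -/
theorem qn2_prod (hx : 1 ≤ x) {θ : ℝ} (f : Fin 11 → ℕ) (h : ∀ j, (f j : ℝ) ≤ x ^ θ) :
    ((∏ j, f j : ℕ) : ℝ) ≤ x ^ (11 * θ) := by
  push_cast
  calc ∏ j, (f j : ℝ) ≤ ∏ _j : Fin 11, x ^ θ :=
        Finset.prod_le_prod (fun i _ => by positivity) (fun i _ => h i)
    _ = (x ^ θ) ^ 11 := by
        rw [Finset.prod_const, Finset.card_univ, Fintype.card_fin]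
    _ = x ^ (11 * θ) := by
        rw [← Real.rpow_natCast, ← Real.rpow_mul (by linarith)]
        congr 1
        push_cast
        ring

/-- `ev j` is not in `O` -/
theorem qn2_ev (b : Fin 11) (O : Finset (Fin 11))
    (hO : ∀ i ∈ O, i.val % 2 = 1 ∧ i ≠ b ∧ i ≠ b + 1) (j : Fin 11) : ev j ∉ O := by
  intro h
  have h1 := (hO _ h).1
  have h2 : ∀ j : Fin 11, (ev j).val % 2 ≠ 1 := by decide
  exact h2 j h1

/-- the values of `g` -/
theorem qn2_g (hq : q.Ok) {θ : ℝ} (hθ : 0 < θ) (hx : 2 ≤ x)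
    (hdiv : ∀ n : ℕ, 0 < n → (n : ℝ) ≤ x ^ 3 → (n.divisors.card : ℝ) ≤ x ^ θ)
    (b : Fin 11) (O : Finset (Fin 11)) (I : Fin 11 → ℕ)
    (hO : ∀ i ∈ O, i.val % 2 = 1 ∧ i ≠ b ∧ i ≠ b + 1)
    (F : Finset (PolyK 11 × (ℤ × ℤ) × (Fin 11 → ℕ)))
    (s0 : PolyK 11 × (ℤ × ℤ) × (Fin 11 → ℕ)) (hs0 : s0 ∈ F) (hF : ∀ s ∈ F, MD q x b O I s)
    (hE : ∀ s ∈ F, fE O s = fE O s0) (hK : ∀ s ∈ F, fK O s = fK O s0)
    (hw : ∀ s ∈ F, s.2.1 = s0.2.1) :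
    ((F.image (fun s => s.2.2)).card : ℝ) ≤ x ^ (11 * θ) := by
  classical
  have hbO : b ∉ O := fun h => (hO b h).2.1 rfl
  have hb1O : b + 1 ∉ O := fun h => (hO (b + 1) h).2.2 rfl
  have hx1 : (1 : ℝ) ≤ x := by linarith
  set D : Fin 11 → Finset ℕ := fun j => if j ∈ O ∨ j + 1 ∈ O then
    (dt (cb b s0.1 (ev j)) s0.2.1).natAbs.divisors else {s0.2.2 j} with hD
  have hsub : F.image (fun s => s.2.2) ⊆ Fintype.piFinset D := by
    intro g hg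
    obtain ⟨s, hs, rfl⟩ := Finset.mem_image.1 hg
    rw [Fintype.mem_piFinset]
    intro j
    simp only [hD]
    by_cases hj : j ∈ O ∨ j + 1 ∈ O
    · rw [if_pos hj]
      have hev : (s.2.2 j : ℤ) ∣ dt (cb b s.1 (ev j)) s.2.1 ∧
          dt (cb b s.1 (ev j)) s.2.1 ≠ 0 := by
        rcases hj with hj | hj
        · exact (hF s hs).evd j hj j (Or.inr rfl)
        · exact (hF s hs).evd (j + 1) hj j (Or.inl (add_sub_cancel_right j 1).symm)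
      have e : cb b s.1 (ev j) = cb b s0.1 (ev j) := by
        unfold cb
        rw [qn2_fE (hE s hs) hbO, qn2_fE (hE s hs) hb1O, qn2_fE (hE s hs) (qn2_ev b O hO j)]
      rw [e, hw s hs] at hev
      rw [Nat.mem_divisors]
      exact ⟨Int.natCast_dvd.1 hev.1, Int.natAbs_ne_zero.2 hev.2⟩
    · rw [if_neg hj, Finset.mem_singleton]
      exact qn2_fK (hK s hs) hj
  have h1 : ((F.image (fun s => s.2.2)).card : ℝ) ≤ ((∏ j, (D j).card : ℕ) : ℝ) := by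
    have := Finset.card_le_card hsub
    rw [Fintype.card_piFinset] at this
    exact_mod_cast this
  refine h1.trans (qn2_prod hx1 _ ?_)
  intro j
  simp only [hD]
  by_cases hj : j ∈ O ∨ j + 1 ∈ O
  · rw [if_pos hj]
    have hev : dt (cb b s0.1 (ev j)) s0.2.1 ≠ 0 := by
      rcases hj with hj | hj
      · exact ((hF s0 hs0).evd j hj j (Or.inr rfl)).2
      · exact ((hF s0 hs0).evd (j + 1) hj j (Or.inl (add_sub_cancel_right j 1).symm)).2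
    apply hdiv
    · exact Int.natAbs_pos.2 hev
    · exact qn2_dt hq hx (hF s0 hs0).pt b _ _ (hF s0 hs0).wb.1 (hF s0 hs0).wb.2
  · rw [if_neg hj, Finset.card_singleton]
    push_cast
    exact Real.one_le_rpow hx1 hθ.le

/-- the values of `fK` -/
theorem qn2_K (hq : q.Ok) {θ : ℝ} (hθ : 0 < θ) (hx : 2 ≤ x)
    (hdiv : ∀ n : ℕ, 0 < n → (n : ℝ) ≤ x ^ 3 → (n.divisors.card : ℝ) ≤ x ^ θ)
    (b : Fin 11) (O : Finset (Fin 11)) (I : Fin 11 → ℕ)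
    (F : Finset (PolyK 11 × (ℤ × ℤ) × (Fin 11 → ℕ)))
    (s0 : PolyK 11 × (ℤ × ℤ) × (Fin 11 → ℕ)) (hs0 : s0 ∈ F) (hF : ∀ s ∈ F, MD q x b O I s)
    (hE : ∀ s ∈ F, fE O s = fE O s0) :
    ((F.image (fK O)).card : ℝ) ≤ x ^ (11 * θ) := by
  classical
  have hx1 : (1 : ℝ) ≤ x := by linarith
  set D : Fin 11 → Finset ℕ := fun j => if j ∈ O ∨ j + 1 ∈ O then {0}
    else (dn s0.1 j).divisors with hD
  have hsub : F.image (fK O) ⊆ Fintype.piFinset D := by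
    intro g hg
    obtain ⟨s, hs, rfl⟩ := Finset.mem_image.1 hg
    rw [Fintype.mem_piFinset]
    intro j
    simp only [hD]
    by_cases hj : j ∈ O ∨ j + 1 ∈ O
    · rw [if_pos hj]
      unfold fK
      rw [if_pos hj]
      exact Finset.mem_singleton_self _
    · rw [if_neg hj]
      unfold fK
      rw [if_neg hj]
      rw [not_or] at hj
      have e : dn s.1 j = dn s0.1 j := by
        unfold dn dl
        rw [qn2_fE (hE s hs) hj.1, qn2_fE (hE s hs) hj.2]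
      rw [Nat.mem_divisors, ← e]
      exact ⟨(hF s hs).dv j, (dn_pos (hF s hs).pt j).ne'⟩
  have h1 : ((F.image (fK O)).card : ℝ) ≤ ((∏ j, (D j).card : ℕ) : ℝ) := by
    have := Finset.card_le_card hsub
    rw [Fintype.card_piFinset] at this
    exact_mod_cast this
  refine h1.trans (qn2_prod hx1 _ ?_)
  intro j
  simp only [hD]
  by_cases hj : j ∈ O ∨ j + 1 ∈ O
  · rw [if_pos hj, Finset.card_singleton]
    push_cast
    exact Real.one_le_rpow hx1 hθ.le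
  · rw [if_neg hj]
    apply hdiv
    · exact dn_pos (hF s0 hs0).pt j
    · refine (qn2_dn hq hx1 (hF s0 hs0).pt j).trans ?_
      calc x = x ^ 1 := (pow_one x).symm
        _ ≤ x ^ 3 := pow_le_pow_right₀ hx1 (by norm_num)

/-- the values of `fE` -/
theorem qn2_E (b : Fin 11) (O : Finset (Fin 11)) (I : Fin 11 → ℕ)
    (S : Finset (PolyK 11 × (ℤ × ℤ) × (Fin 11 → ℕ))) (hS : ∀ s ∈ S, MD q x b O I s) :
    ((S.image (fE O)).card : ℝ) ≤ 25 ^ 11 * ∏ j ∈ Oᶜ, ((2 : ℝ) ^ I j) ^ 2 := by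
  classical
  set D : Fin 11 → Finset (ℤ × ℤ) := fun j => if j ∈ O then {(0, 0)}
    else S.image (fun s => s.1 j) with hD
  have hsub : S.image (fE O) ⊆ Fintype.piFinset D := by
    intro g hg
    obtain ⟨s, hs, rfl⟩ := Finset.mem_image.1 hg
    rw [Fintype.mem_piFinset]
    intro j
    simp only [hD]
    unfold fE
    by_cases hj : j ∈ O
    · rw [if_pos hj, if_pos hj]
      exact Finset.mem_singleton_self _
    · rw [if_neg hj, if_neg hj]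
      exact Finset.mem_image_of_mem (fun s : PolyK 11 × (ℤ × ℤ) × (Fin 11 → ℕ) => s.1 j) hs
  have h1 : ((S.image (fE O)).card : ℝ) ≤ ∏ j, ((D j).card : ℝ) := by
    have := Finset.card_le_card hsub
    rw [Fintype.card_piFinset] at this
    exact_mod_cast this
  have h2 : ∏ j, ((D j).card : ℝ) ≤ ∏ j, (25 * if j ∈ O then 1 else ((2 : ℝ) ^ I j) ^ 2) := by
    apply Finset.prod_le_prod (fun i _ => by positivity)
    intro j _
    simp only [hD]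
    by_cases hj : j ∈ O
    · rw [if_pos hj, if_pos hj, Finset.card_singleton]
      norm_num
    · rw [if_neg hj, if_neg hj]
      apply card_vec
      intro v hv
      obtain ⟨s, hs, rfl⟩ := Finset.mem_image.1 hv
      exact ((hS s hs).siz j).2
  have h3 : ∏ j, ((25 : ℝ) * if j ∈ O then 1 else ((2 : ℝ) ^ I j) ^ 2) =
      25 ^ 11 * ∏ j ∈ Oᶜ, ((2 : ℝ) ^ I j) ^ 2 := by
    rw [Finset.prod_mul_distrib, Finset.prod_const, Finset.card_univ, Fintype.card_fin]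
    congr 1
    rw [← Finset.prod_mul_prod_compl O]
    have e1 : ∏ i ∈ O, (if i ∈ O then (1 : ℝ) else ((2 : ℝ) ^ I i) ^ 2) = 1 :=
      Finset.prod_eq_one fun i hi => if_pos hi
    have e2 : ∏ i ∈ Oᶜ, (if i ∈ O then (1 : ℝ) else ((2 : ℝ) ^ I i) ^ 2) =
        ∏ i ∈ Oᶜ, ((2 : ℝ) ^ I i) ^ 2 :=
      Finset.prod_congr rfl fun i hi => if_neg (Finset.mem_compl.1 hi)
    rw [e1, e2, one_mul]
  rw [← h3]
  exact h1.trans h2

theorem qn2_cancel (n X N : ℝ) (hn : 0 < n) : n * (X * (N / n)) = X * N := by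
  field_simp

/-- the fibre of `fE`, `fK` and `w` -/
theorem qn2_F3 (hq : q.Ok) {θ : ℝ} (hθ : 0 < θ) (hx : 2 ≤ x)
    (hdiv : ∀ n : ℕ, 0 < n → (n : ℝ) ≤ x ^ 3 → (n.divisors.card : ℝ) ≤ x ^ θ)
    (b : Fin 11) (O : Finset (Fin 11)) (I : Fin 11 → ℕ)
    (hO : ∀ i ∈ O, i.val % 2 = 1 ∧ i ≠ b ∧ i ≠ b + 1)
    (F : Finset (PolyK 11 × (ℤ × ℤ) × (Fin 11 → ℕ))) (N : ℝ) (hN0 : 0 ≤ N)
    (hS : ∀ s ∈ F, MD q x b O I s) (hE : ∀ s ∈ F, ∀ s' ∈ F, fE O s = fE O s')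
    (hK : ∀ s ∈ F, ∀ s' ∈ F, fK O s = fK O s') (hw : ∀ s ∈ F, ∀ s' ∈ F, s.2.1 = s'.2.1)
    (hN : ∀ s ∈ F,
      ∏ i ∈ O, (128 * ((2 : ℝ) ^ I i) ^ 2 / ((s.2.2 (i - 1) : ℝ) * s.2.2 i) + 6) ≤ N) :
    (F.card : ℝ) ≤ x ^ (11 * θ) * N := by
  classical
  rcases F.eq_empty_or_nonempty with h | ⟨s₃, hs₃⟩
  · rw [h, Finset.card_empty, Nat.cast_zero]
    exact mul_nonneg (Real.rpow_nonneg (by linarith) _) hN0
  · apply card_fib F (fun t => t.2.2) _ _ hN0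
      (qn2_g hq hθ hx hdiv b O I hO F s₃ hs₃ hS (fun s hs => hE s hs s₃ hs₃)
        (fun s hs => hK s hs s₃ hs₃) (fun s hs => hw s hs s₃ hs₃))
    intro g hg
    obtain ⟨s₄, hs₄, rfl⟩ := Finset.mem_image.1 hg
    have hF4S : ∀ s ∈ F.filter (fun a => a.2.2 = s₄.2.2), s ∈ F ∧ s.2.2 = s₄.2.2 :=
      fun s hs => Finset.mem_filter.1 hs
    have h1 := qn2_fib b O I hO (F.filter (fun a => a.2.2 = s₄.2.2)) s₄
      (Finset.mem_filter.2 ⟨hs₄, rfl⟩) (fun s hs => hS s (hF4S s hs).1)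
      (fun s hs => hE s (hF4S s hs).1 s₄ hs₄) (fun s hs => hw s (hF4S s hs).1 s₄ hs₄)
      (fun s hs => (hF4S s hs).2)
    exact h1.trans (hN s₄ hs₄)

/-- the fibre of `fE`, `fK` -/
theorem qn2_F2 (hq : q.Ok) {θ : ℝ} (hθ : 0 < θ) (hx : 2 ≤ x)
    (hdiv : ∀ n : ℕ, 0 < n → (n : ℝ) ≤ x ^ 3 → (n.divisors.card : ℝ) ≤ x ^ θ)
    (b : Fin 11) (O : Finset (Fin 11)) (I : Fin 11 → ℕ)
    (hO : ∀ i ∈ O, i.val % 2 = 1 ∧ i ≠ b ∧ i ≠ b + 1)
    (F : Finset (PolyK 11 × (ℤ × ℤ) × (Fin 11 → ℕ))) (N : ℝ) (hN0 : 0 ≤ N)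
    (hS : ∀ s ∈ F, MD q x b O I s) (hE : ∀ s ∈ F, ∀ s' ∈ F, fE O s = fE O s')
    (hK : ∀ s ∈ F, ∀ s' ∈ F, fK O s = fK O s')
    (hN : ∀ s ∈ F, ((F.image (fun t => t.2.1)).card : ℝ) *
      ∏ i ∈ O, (128 * ((2 : ℝ) ^ I i) ^ 2 / ((s.2.2 (i - 1) : ℝ) * s.2.2 i) + 6) ≤ N) :
    (F.card : ℝ) ≤ x ^ (11 * θ) * N := by
  classical
  have hX : 0 ≤ x ^ (11 * θ) := Real.rpow_nonneg (by linarith) _
  rcases F.eq_empty_or_nonempty with h | ⟨s₂, hs₂⟩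
  · rw [h, Finset.card_empty, Nat.cast_zero]
    exact mul_nonneg hX hN0
  · have hnpos : (0 : ℝ) < ((F.image (fun t => t.2.1)).card : ℝ) := by
      have : 0 < (F.image (fun t => t.2.1)).card :=
        Finset.card_pos.2 ⟨_, Finset.mem_image_of_mem _ hs₂⟩
      exact_mod_cast this
    generalize hn : ((F.image (fun t => t.2.1)).card : ℝ) = n at hnpos hN
    have hNn : 0 ≤ N / n := div_nonneg hN0 hnpos.le
    rw [← qn2_cancel n (x ^ (11 * θ)) N hnpos]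
    apply card_fib F (fun t => t.2.1) _ _ (mul_nonneg hX hNn) hn.le
    intro w hw
    obtain ⟨s₃, hs₃, rfl⟩ := Finset.mem_image.1 hw
    have hF3S : ∀ s ∈ F.filter (fun a => a.2.1 = s₃.2.1), s ∈ F ∧ s.2.1 = s₃.2.1 :=
      fun s hs => Finset.mem_filter.1 hs
    apply qn2_F3 hq hθ hx hdiv b O I hO _ _ hNn (fun s hs => hS s (hF3S s hs).1)
      (fun s hs s' hs' => hE s (hF3S s hs).1 s' (hF3S s' hs').1)
      (fun s hs s' hs' => hK s (hF3S s hs).1 s' (hF3S s' hs').1)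
      (fun s hs s' hs' => (hF3S s hs).2.trans (hF3S s' hs').2.symm)
    intro s hs
    rw [le_div_iff₀ hnpos, mul_comm]
    exact hN s (hF3S s hs).1

theorem qn2_final (hq : q.Ok) {θ : ℝ} (hθ : 0 < θ) (hx : 2 ≤ x)
    (hdiv : ∀ n : ℕ, 0 < n → (n : ℝ) ≤ x ^ 3 → (n.divisors.card : ℝ) ≤ x ^ θ)
    (b : Fin 11) (O : Finset (Fin 11)) (I : Fin 11 → ℕ)
    (hO : ∀ i ∈ O, i.val % 2 = 1 ∧ i ≠ b ∧ i ≠ b + 1)
    (S : Finset (PolyK 11 × (ℤ × ℤ) × (Fin 11 → ℕ))) (N : ℝ) (hN0 : 0 ≤ N)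
    (hS : ∀ s ∈ S, MD q x b O I s)
    (hN : ∀ s ∈ S, (((S.filter (fun t => fE O t = fE O s ∧ fK O t = fK O s)).image
        (fun t => t.2.1)).card : ℝ) *
      ∏ i ∈ O, (128 * ((2 : ℝ) ^ I i) ^ 2 / ((s.2.2 (i - 1) : ℝ) * s.2.2 i) + 6) ≤ N) :
    (S.card : ℝ) ≤ (25 ^ 11 * ∏ j ∈ Oᶜ, ((2 : ℝ) ^ I j) ^ 2) *
      (x ^ (11 * θ) * (x ^ (11 * θ) * N)) := by
  classical
  have hX : 0 ≤ x ^ (11 * θ) := Real.rpow_nonneg (by linarith) _
  apply card_fib S (fE O) _ _ (mul_nonneg hX (mul_nonneg hX hN0)) (qn2_E b O I S hS)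
  intro e he
  obtain ⟨s₁, hs₁, rfl⟩ := Finset.mem_image.1 he
  have hF1S : ∀ s ∈ S.filter (fun a => fE O a = fE O s₁), s ∈ S ∧ fE O s = fE O s₁ :=
    fun s hs => Finset.mem_filter.1 hs
  apply card_fib (S.filter (fun a => fE O a = fE O s₁)) (fK O) _ _ (mul_nonneg hX hN0)
    (qn2_K hq hθ hx hdiv b O I _ s₁ (Finset.mem_filter.2 ⟨hs₁, rfl⟩)
      (fun s hs => hS s (hF1S s hs).1) (fun s hs => (hF1S s hs).2))
  intro k hk
  obtain ⟨s₂, hs₂, rfl⟩ := Finset.mem_image.1 hk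
  have hF2S : ∀ s ∈ (S.filter (fun a => fE O a = fE O s₁)).filter (fun a => fK O a = fK O s₂),
      s ∈ S ∧ fE O s = fE O s₁ ∧ fK O s = fK O s₂ := fun s hs =>
    ⟨(hF1S s (Finset.mem_filter.1 hs).1).1, (hF1S s (Finset.mem_filter.1 hs).1).2,
      (Finset.mem_filter.1 hs).2⟩
  apply qn2_F2 hq hθ hx hdiv b O I hO _ _ hN0 (fun s hs => hS s (hF2S s hs).1)
    (fun s hs s' hs' => (hF2S s hs).2.1.trans (hF2S s' hs').2.1.symm)
    (fun s hs s' hs' => (hF2S s hs).2.2.trans (hF2S s' hs').2.2.symm)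
  intro s hs
  have heq : (S.filter (fun a => fE O a = fE O s₁)).filter (fun a => fK O a = fK O s₂) =
      S.filter (fun t => fE O t = fE O s ∧ fK O t = fK O s) := by
    obtain ⟨_, h2, h3⟩ := hF2S s hs
    rw [Finset.filter_filter, h2, h3]
  rw [heq]
  exact hN s (hF2S s hs).1

theorem master (hq : q.Ok) {θ : ℝ} (hθ : 0 < θ) : ∃ x₀ : ℝ, 1 ≤ x₀ ∧ ∀ x ≥ x₀, ∀ (b : Fin 11)
    (O : Finset (Fin 11)) (I : Fin 11 → ℕ), (∀ i ∈ O, i.val % 2 = 1 ∧ i ≠ b ∧ i ≠ b + 1) →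
    ∀ (S : Finset (PolyK 11 × (ℤ × ℤ) × (Fin 11 → ℕ))) (N : ℝ), 0 ≤ N → (∀ s ∈ S, MD q x b O I s) →
    (∀ s ∈ S, (((S.filter (fun t => fE O t = fE O s ∧ fK O t = fK O s)).image
        (fun t => t.2.1)).card : ℝ) *
      ∏ i ∈ O, (128 * ((2 : ℝ) ^ I i) ^ 2 / ((s.2.2 (i - 1) : ℝ) * s.2.2 i) + 6) ≤ N) →
    (S.card : ℝ) ≤ x ^ θ * (∏ j ∈ Oᶜ, ((2 : ℝ) ^ I j) ^ 2) * N := by
  have hθ' : 0 < θ / 33 := by positivity
  obtain ⟨x1, hx1, hd⟩ := div_le hθ'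
  obtain ⟨x2, hx2, hl⟩ := x_large hq (25 ^ 11) (θ := θ / 3) (by positivity)
  refine ⟨max 2 (max x1 x2), le_max_of_le_left (by norm_num), ?_⟩
  intro x hx b O I hO S N hN0 hS hN
  have hx0 : (2 : ℝ) ≤ x := (le_max_left _ _).trans hx
  have hxa : x1 ≤ x := ((le_max_left _ _).trans (le_max_right _ _)).trans hx
  have hxb : x2 ≤ x := ((le_max_right _ _).trans (le_max_right _ _)).trans hx
  have hxp : (0 : ℝ) < x := by linarith
  have h1 := qn2_final hq hθ' hx0 (hd x hxa) b O I hO S N hN0 hS hN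
  refine h1.trans ?_
  have hbig := (hl x hxb).1
  set P := ∏ j ∈ Oᶜ, ((2 : ℝ) ^ I j) ^ 2 with hP
  have hP0 : 0 ≤ P := Finset.prod_nonneg fun i _ => by positivity
  have e1 : x ^ (11 * (θ / 33)) = x ^ (θ / 3) := by
    congr 1
    ring
  rw [e1]
  have e2 : x ^ (θ / 3) * (x ^ (θ / 3) * x ^ (θ / 3)) = x ^ θ := by
    rw [← Real.rpow_add hxp, ← Real.rpow_add hxp]
    congr 1
    ring
  calc (25 ^ 11 * P) * (x ^ (θ / 3) * (x ^ (θ / 3) * N))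
      = 25 ^ 11 * (P * (x ^ (θ / 3) * (x ^ (θ / 3) * N))) := by ring
    _ ≤ x ^ (θ / 3) * (P * (x ^ (θ / 3) * (x ^ (θ / 3) * N))) := by
        apply mul_le_mul_of_nonneg_right hbig
        positivity
    _ = (x ^ (θ / 3) * (x ^ (θ / 3) * x ^ (θ / 3))) * P * N := by ring
    _ = x ^ θ * P * N := by rw [e2]

end Pool.Agent.PNI
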