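import Pool.Agent.Lib_helper96.PNI.Defs
import Pool.Agent.Lib_helper96.PNI.L.QA1
import Pool.Agent.Lib_helper96.PNI.L.QA3
import Pool.Agent.Lib_helper96.PNI.L.QA4
import Pool.Agent.Lib_helper96.PNI.L.QA7
import Pool.Agent.Lib_helper96.PNI.L.QA8
import Pool.Agent.Lib_helper96.PNI.L.QN1
import Pool.Agent.Lib_helper96.PNI.L.QN2

/-! Block QN7: near-full pairs, base `0`, `c_10(v) ≠ c_10(u)` -/

set_option autoImplicit false

namespace Pool.Agent.PNI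

open Finset Pool.Agent.PENT Pool.Agent.PENK

variable {q : Prm} {x : ℝ} {u v w : PolyK 11}

/-- the numbers `g_j` -/
noncomputable def qn7_g (u v : PolyK 11) (j : Fin 11) : ℕ := dil 0 u v j 0 * dil 0 u v j 9

theorem qn7_cop (hv : IsPt q x v) (u : PolyK 11) (j : Fin 11) :
    Nat.Coprime (dil 0 u v j 0) (dil 0 u v j 9) :=
  Nat.Coprime.of_dvd (dil_dvd 0 j 0 u v).2 (dil_dvd 0 j 9 u v).2 (hv.co 0 9 (by decide))

theorem qn7_dvd (hv : IsPt q x v) (u : PolyK 11) (j : Fin 11) : qn7_g u v j ∣ dn u j :=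
  Nat.Coprime.mul_dvd_of_dvd_of_dvd (qn7_cop hv u j) (dil_dvd 0 j 0 u v).1 (dil_dvd 0 j 9 u v).1

theorem qn7_pos (u v : PolyK 11) (j : Fin 11) : 0 < qn7_g u v j :=
  Nat.mul_pos (dil_pos 0 j 0 u v) (dil_pos 0 j 9 u v)

theorem qn7_vx0 : (10 : Fin 11) ∈ vx 0 0 := by
  unfold vx
  rw [if_pos rfl]
  exact Finset.mem_univ _

theorem qn7_vx9 : (10 : Fin 11) ∈ vx 0 9 := by
  decide

theorem qn7_dvd_dt (hv : IsPt q x v) (u : PolyK 11) (j m : Fin 11) (hm : m ∈ vx 0 j) :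
    (qn7_g u v j : ℤ) ∣ dt (cb 0 u m) (cb 0 v 10) := by
  have h1 := dil_dvd_dt 0 j 0 m 10 u v hm qn7_vx0
  have h2 := dil_dvd_dt 0 j 9 m 10 u v hm qn7_vx9
  unfold qn7_g
  push_cast
  exact IsCoprime.mul_dvd (Nat.isCoprime_iff_coprime.mpr (qn7_cop hv u j)) h1 h2

theorem qn7_g1 (hu : IsPt q x u) (hv : IsPt q x v) : qn7_g u v 1 = 1 := by
  unfold qn7_g
  rw [dil_one 0 1 0 u v, dil_one 0 1 9 u v]
  · intro p hp hC
    have := (CL_spec hu hv hp 0 1 9 hC).2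
    revert this
    decide
  · intro p hp hC
    have := (CL_spec hu hv hp 0 1 0 hC).2
    revert this
    decide

theorem qn7_g10 (hu : IsPt q x u) (hv : IsPt q x v) : qn7_g u v 10 = 1 := by
  have h := qn7_dvd hv u 10
  rw [dn_ten hu] at h
  exact Nat.dvd_one.mp h

theorem qn7_univ : (Finset.univ : Finset (Fin 11)) = {0, 1, 2, 3, 4, 5, 6, 7, 8, 9, 10} := by
  decide

theorem qn7_prod11 (f : Fin 11 → ℝ) : ∏ j, f j =
    f 0 * f 1 * f 2 * f 3 * f 4 * f 5 * f 6 * f 7 * f 8 * f 9 * f 10 := by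
  rw [qn7_univ]
  simp only [Finset.prod_insert, Finset.prod_singleton, Finset.mem_insert, Finset.mem_singleton,
    Fin.reduceEq, or_self, not_false_eq_true]
  ring

theorem qn7_total (hu : IsPt q x u) (hv : IsPt q x v) :
    (qn7_g u v 0 : ℝ) * (((qn7_g u v 2 : ℝ) * qn7_g u v 3) * ((qn7_g u v 4 : ℝ) * qn7_g u v 5) *
      ((qn7_g u v 6 : ℝ) * qn7_g u v 7) * ((qn7_g u v 8 : ℝ) * qn7_g u v 9)) =
      (gl 0 u v 0 : ℝ) * gl 0 u v 9 := by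
  have h1 : ∏ j, (qn7_g u v j : ℝ) = (gl 0 u v 0 : ℝ) * gl 0 u v 9 := by
    rw [gl_eq hu hv, gl_eq hu hv]
    unfold qn7_g
    push_cast
    rw [Finset.prod_mul_distrib]
  rw [← h1, qn7_prod11 (fun j => (qn7_g u v j : ℝ)), qn7_g1 hu hv, qn7_g10 hu hv]
  push_cast
  ring

/-- the set `O` -/
def qn7_O : Finset (Fin 11) := {3, 5, 7, 9}

theorem qn7_prodO (f : Fin 11 → ℝ) : ∏ j ∈ qn7_O, f j = f 3 * f 5 * f 7 * f 9 := by
  unfold qn7_O
  simp only [Finset.prod_insert, Finset.prod_singleton, Finset.mem_insert, Finset.mem_singleton,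
    Fin.reduceEq, or_self, not_false_eq_true]
  ring

theorem qn7_ev : ∀ i ∈ qn7_O, ∀ j, j = i - 1 ∨ j = i →
    ev j ∈ vx 0 j ∧ (ev j = 10 ∨ (ev j ∈ nb 0 ∧ ev j ≠ 0 ∧ ev j ≠ 10)) := by
  decide

theorem qn7_vxO : ∀ i ∈ qn7_O, i ∈ vx 0 (i - 1) ∧ i ∈ vx 0 i := by
  decide

theorem qn7_cb2 (hu : IsPt q x u) (k : Fin 11) : (cb 0 u k).2 = (u k).2 := by
  unfold cb dt
  rw [hu.f0]
  simp

theorem qn7_ne (hu : IsPt q x u) (hv : IsPt q x v) (hne : cb 0 v 10 ≠ cb 0 u 10)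
    (h2 : ∀ k, k ≠ 0 → k ≠ 10 → 1 < (u k).2) (e : Fin 11)
    (he : e = 10 ∨ (e ∈ nb 0 ∧ e ≠ 0 ∧ e ≠ 10)) : dt (cb 0 u e) (cb 0 v 10) ≠ 0 := by
  have hv2 : (cb 0 v 10).2 = 1 := by rw [qn7_cb2 hv, hv.f1]
  have h10 : (10 : Fin 11) ∈ nb 0 := by decide
  intro h0
  rcases he with rfl | ⟨hnb, he0, he10⟩
  · have hu2 : (cb 0 u 10).2 = 1 := by rw [qn7_cb2 hu, hu.f1]
    unfold dt at h0
    rw [hv2, hu2] at h0
    apply hne
    apply Prod.ext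
    · linarith
    · rw [hv2, hu2]
  · have hp1 := cb_prim hu 0 e hnb
    have hp2 := cb_prim hv 0 10 h10
    have h3 := h2 e he0 he10
    rcases par_eq hp1 hp2 h0 with h4 | h4
    · have h5 := congrArg Prod.snd h4
      rw [hv2, qn7_cb2 hu] at h5
      omega
    · have h5 := congrArg Prod.snd h4
      rw [Prod.snd_neg, hv2, qn7_cb2 hu] at h5
      omega

theorem qn7_nr0 (hu : IsPt q x u) : nr (u 0) = 1 := by
  rw [hu.f0]
  rfl

theorem qn7_nr10 (hu : IsPt q x u) : nr (u 10) = 1 := by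
  rw [hu.f1]
  rfl

theorem qn7_fst_le (a : ℤ × ℤ) : |(a.1 : ℝ)| ≤ nr a := by
  unfold nr
  have h : ((a.1.natAbs : ℕ) : ℝ) = |(a.1 : ℝ)| := by
    rw [Nat.cast_natAbs, Int.cast_abs]
  push_cast
  rw [h]
  have : (0 : ℝ) ≤ ((a.2.natAbs : ℕ) : ℝ) := Nat.cast_nonneg _
  linarith

theorem qn7_cb1 (hu : IsPt q x u) : (cb 0 u 10).1 = -(u 1).1 := by
  have := cb_ten hu 0
  rw [this]
  rfl

theorem qn7_lo0 (hq : q.Ok) (j : Fin 11) : 0 ≤ q.lo j := by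
  by_cases h0 : j = 0
  · rw [h0, hq.l0]
  · by_cases h1 : j = 10
    · rw [h1, hq.l10]
    · have := hq.pos j h0 h1
      have := hq.ε0
      linarith

theorem qn7_hi1 (hq : q.Ok) (j : Fin 11) : q.hi j ≤ 1 := by
  have hhi0 : ∀ j, 0 ≤ q.hi j := fun j => le_trans (qn7_lo0 hq j) (hq.le j)
  have h2 : q.hi j ≤ ∑ j, q.hi j :=
    Finset.single_le_sum (f := q.hi) (fun i _ => hhi0 i) (Finset.mem_univ j)
  have h3 := hq.sm
  linarith

/-- the data of the master count -/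
theorem qn7_MD (hq : q.Ok) (hx : 1 ≤ x) (I : Fin 11 → ℕ) (hI : Siz I u) (hu : IsPt q x u)
    (hv : IsPt q x v) (hne : cb 0 v 10 ≠ cb 0 u 10) (h2 : ∀ k, k ≠ 0 → k ≠ 10 → 1 < (u k).2) :
    MD q x 0 qn7_O I (u, cb 0 v 10, qn7_g u v) := by
  have h10 : (10 : Fin 11) ∈ nb 0 := by decide
  refine ⟨hu, hI, cb_prim hv 0 10 h10, ⟨?_, ?_⟩, fun j => qn7_dvd hv u j, ?_, ?_⟩
  · simp only
    rw [qn7_cb1 hv]
    push_cast
    rw [abs_neg]
    calc |((v 1).1 : ℝ)| ≤ nr (v 1) := qn7_fst_le _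
      _ ≤ x ^ q.hi 1 := hv.hi 1
      _ ≤ x ^ (1 : ℝ) := Real.rpow_le_rpow_of_exponent_le hx (qn7_hi1 hq 1)
      _ = x := Real.rpow_one x
  · simp only
    rw [qn7_cb2 hv, hv.f1]
    simpa using hx
  · intro i hi
    exact ⟨qn7_dvd_dt hv u (i - 1) i (qn7_vxO i hi).1, qn7_dvd_dt hv u i i (qn7_vxO i hi).2⟩
  · intro i hi j hj
    obtain ⟨h3, h4⟩ := qn7_ev i hi j hj
    exact ⟨qn7_dvd_dt hv u j (ev j) h3, qn7_ne hu hv hne h2 (ev j) h4⟩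

/-- one factor of the product -/
theorem qn7_fac {P Pm Pp g g' : ℝ} (hP : 1 ≤ P) (hm : 1 ≤ Pm) (hp : 1 ≤ Pp) (hg : 0 < g)
    (hg' : 0 < g') (h1 : g ≤ 4 * (Pm * P)) (h2 : g' ≤ 4 * (P * Pp)) :
    128 * P ^ 2 / (g * g') + 6 ≤ 224 * (Pm * Pp * P ^ 2) / (g * g') := by
  have hgg : 0 < g * g' := mul_pos hg hg'
  rw [div_add' _ _ _ hgg.ne', div_le_div_iff_of_pos_right hgg]
  have h3 : g * g' ≤ (4 * (Pm * P)) * (4 * (P * Pp)) :=
    mul_le_mul h1 h2 hg'.le (by positivity)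
  have h4 : 1 * P ^ 2 ≤ Pm * Pp * P ^ 2 := by
    apply mul_le_mul_of_nonneg_right _ (by positivity)
    nlinarith
  nlinarith

/-- the final inequality -/
theorem qn7_fin {y c P1 P2 P4 P6 P8 P9 G0 H L R A n F : ℝ} (hy : 1 ≤ y) (hc : 0 < c)
    (hK : 80 * 224 ^ 4 / c ^ 2 ≤ y) (hP1 : 1 ≤ P1) (hP2 : 1 ≤ P2) (hP4 : 1 ≤ P4)
    (hP6 : 1 ≤ P6) (hP8 : 1 ≤ P8) (hP9 : 1 ≤ P9) (hG0 : 0 < G0) (hH : 0 < H)
    (hR : 0 ≤ R) (hn0 : 0 ≤ n) (hn : n ≤ 20 * A / G0) (hA : A ≤ 2 * P1 * y)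
    (hF0 : 0 ≤ F) (hF : F ≤ 224 ^ 4 * (P2 * P4 ^ 2 * P6 ^ 2 * P8 ^ 2) * R / H)
    (hL : L = G0 * H) (hL2 : c ^ 2 * P1 * P9 ≤ L * y ^ 12)
    (hE : (P2 * P4 * P6 * P8) ^ 2 * y ^ 200 ≤ 2 * P9) : n * F ≤ R / y ^ 150 := by
  have hy0 : 0 < y := by linarith
  have hL0 : 0 < L := hL ▸ mul_pos hG0 hH
  have h1 : n ≤ 20 * (2 * P1 * y) / G0 := by
    refine le_trans hn ?_
    gcongr
  have h2 : P2 * P4 ^ 2 * P6 ^ 2 * P8 ^ 2 ≤ (P2 * P4 * P6 * P8) ^ 2 := by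
    have : P2 ≤ P2 ^ 2 := by nlinarith
    calc P2 * P4 ^ 2 * P6 ^ 2 * P8 ^ 2 ≤ P2 ^ 2 * P4 ^ 2 * P6 ^ 2 * P8 ^ 2 := by gcongr
      _ = _ := by ring
  have h3 : F ≤ 224 ^ 4 * (2 * P9 / y ^ 200) * R / H := by
    refine le_trans hF ?_
    have h4 : (P2 * P4 * P6 * P8) ^ 2 ≤ 2 * P9 / y ^ 200 := by
      rw [le_div_iff₀ (by positivity)]
      exact hE
    have h5 := le_trans h2 h4
    gcongr
  have h4 : n * F ≤ (20 * (2 * P1 * y) / G0) * (224 ^ 4 * (2 * P9 / y ^ 200) * R / H) := by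
    apply mul_le_mul h1 h3 hF0 (by positivity)
  refine le_trans h4 ?_
  have h5 : (20 * (2 * P1 * y) / G0) * (224 ^ 4 * (2 * P9 / y ^ 200) * R / H) =
      (80 * 224 ^ 4 * y * R / y ^ 200) * (P1 * P9 / L) := by
    rw [hL]
    field_simp
    ring
  rw [h5]
  have h6 : P1 * P9 / L ≤ y ^ 12 / c ^ 2 := by
    rw [div_le_div_iff₀ hL0 (by positivity)]
    nlinarith
  calc (80 * 224 ^ 4 * y * R / y ^ 200) * (P1 * P9 / L)
      ≤ (80 * 224 ^ 4 * y * R / y ^ 200) * (y ^ 12 / c ^ 2) := by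
        apply mul_le_mul_of_nonneg_left h6
        positivity
    _ = (80 * 224 ^ 4 / c ^ 2) * (y ^ 13 * R / y ^ 200) := by
        field_simp
    _ ≤ y * (y ^ 13 * R / y ^ 200) := by
        apply mul_le_mul_of_nonneg_right hK
        positivity
    _ = R / y ^ 186 := by
        field_simp
    _ ≤ R / y ^ 150 := by
        apply div_le_div_of_nonneg_left hR (by positivity)
        exact pow_le_pow_right₀ hy (by norm_num)

/-- a pair of equal rpow exponents -/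
theorem qn7_pow {x ε : ℝ} (hx : 0 < x) (n : ℕ) (t : ℝ) (h : t = n * (ε / 50)) :
    x ^ t = (x ^ (ε / 50)) ^ n := by
  rw [← Real.rpow_natCast, ← Real.rpow_mul hx.le, h]
  congr 1
  ring

/-- BLOCK QN7 (as QN6). Base `0`, `c_10(v) ≠ c_10(u)`. `w = cb 0 v 10 = (-(v 1).1, 1)`, `O = {3,5,7,9}`,
`g_j = dil 0 u v j 0 * dil 0 u v j 9`; `g_1 = 1` (`CL_spec`). `dt (cb 0 u e) w ≠ 0`: `e = 10`: `(v 1).1 ≠ (u 1).1`;
`e = 2, .., 8`: both primitive and `(u e).2 > 1`. Image: `z = cb 0 u 10`, `J = g_0`, box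
`C x ^ (ε/50) 2 ^ I 1 × 1`. `∏ g_j = gl 0 u v 0 * gl 0 u v 9 ≥ c x ^ (-ε/3) 2 ^ (I 1 + I 9)`.
`N = C x ^ ε ∏_(e even) (2 ^ I e)² / 2 ^ I 9 ∏_(i ∈ O) (2 ^ I i)²`. -/
theorem cnt_0i (hq : q.Ok) (hn : q.Nar) :
    ∃ x₀ : ℝ, 1 ≤ x₀ ∧ ∀ x ≥ x₀, ∀ (I : Fin 11 → ℕ) (S : Finset (PolyK 11)),
    (∀ u ∈ S, Siz I u ∧ ∃ v, NP q x 0 u v ∧ cb 0 v 10 ≠ cb 0 u 10) →
    (S.card : ℝ) ≤ x ^ (-(2 * q.ε)) * ∏ j, ((2 : ℝ) ^ I j) ^ 2 := by
  have hε := hq.ε0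
  have hc := hq.c30
  obtain ⟨x1, hx1, hm⟩ := master hq hε
  obtain ⟨x2, hx2, hlar⟩ := x_large hq (2 / q.c3) (θ := q.ε / 50) (by linarith)
  obtain ⟨x3, hx3, hlar'⟩ := x_large hq (80 * 224 ^ 4 / q.c3 ^ 2) (θ := q.ε / 50) (by linarith)
  refine ⟨max x1 (max x2 x3), le_trans hx1 (le_max_left _ _), ?_⟩
  intro x hx I S hS
  have hxx1 : x1 ≤ x := le_trans (le_max_left _ _) hx
  have hxx2 : x2 ≤ x := le_trans (le_max_left _ _) (le_trans (le_max_right _ _) hx)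
  have hxx3 : x3 ≤ x := le_trans (le_max_right _ _) (le_trans (le_max_right _ _) hx)
  have hxg : 1 ≤ x := le_trans hx1 hxx1
  have hx0 : 0 < x := by linarith
  have hex : ∀ u ∈ S, ∃ v, NP q x 0 u v ∧ cb 0 v 10 ≠ cb 0 u 10 := fun u hu => (hS u hu).2
  choose! V hV using hex
  -- second coordinates
  have h2nd : ∀ u : PolyK 11, IsPt q x u → ∀ k, k ≠ 0 → k ≠ 10 → 1 < (u k).2 := by
    intro u hu k hk0 hk10
    have h1 := (hlar x hxx2).2 u hu k hk0 hk10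
    have h2 := (coord_ge hu k hk0 hk10).2
    have h3 : 2 < q.c3 * nr (u k) := by
      rw [div_lt_iff₀ hc] at h1
      linarith
    have h4 : (2 : ℝ) < ((u k).2 : ℝ) := by linarith
    have h5 : (2 : ℤ) < (u k).2 := by exact_mod_cast h4
    linarith
  let f : PolyK 11 → PolyK 11 × (ℤ × ℤ) × (Fin 11 → ℕ) :=
    fun u => (u, cb 0 (V u) 10, qn7_g u (V u))
  have hfinj : Function.Injective f := fun a b hab => congrArg Prod.fst hab
  have hcard : (S.image f).card = S.card := Finset.card_image_of_injective S hfinj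
  set y : ℝ := x ^ (q.ε / 50) with hy
  have hy1 : 1 ≤ y := Real.one_le_rpow hxg (by linarith)
  have hy0 : 0 < y := by linarith
  have hK : 80 * 224 ^ 4 / q.c3 ^ 2 ≤ y := (hlar' x hxx3).1
  set R : ℝ := ∏ i ∈ qn7_O, ((2 : ℝ) ^ I i) ^ 2 with hR
  have hR0 : 0 ≤ R := Finset.prod_nonneg fun i _ => by positivity
  have hO : ∀ i ∈ qn7_O, i.val % 2 = 1 ∧ i ≠ 0 ∧ i ≠ 0 + 1 := by decide
  have key := hm x hxx1 0 qn7_O I hO (S.image f) (R / y ^ 150) (div_nonneg hR0 (by positivity)) ?_ ?_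
  · rw [hcard] at key
    have hsplit : ∏ j, ((2 : ℝ) ^ I j) ^ 2 =
        (∏ j ∈ qn7_Oᶜ, ((2 : ℝ) ^ I j) ^ 2) * R := by
      rw [hR, mul_comm]
      exact (Finset.prod_mul_prod_compl qn7_O _).symm
    rw [hsplit]
    refine le_trans key ?_
    have h1 : x ^ q.ε * (∏ j ∈ qn7_Oᶜ, ((2 : ℝ) ^ I j) ^ 2) * (R / y ^ 150) =
        (x ^ q.ε / y ^ 150) * ((∏ j ∈ qn7_Oᶜ, ((2 : ℝ) ^ I j) ^ 2) * R) := by
      field_simp
    rw [h1]
    have h2 : x ^ q.ε / y ^ 150 = x ^ (-(2 * q.ε)) := by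
      rw [hy, ← qn7_pow hx0 150 (3 * q.ε) (by push_cast; ring), ← Real.rpow_sub hx0]
      congr 1
      ring
    rw [h2]
  · intro s hs
    obtain ⟨u, hu, rfl⟩ := Finset.mem_image.mp hs
    obtain ⟨hNP, hne⟩ := hV u hu
    exact qn7_MD hq hxg I (hS u hu).1 hNP.pu hNP.pv hne (h2nd u hNP.pu)
  · intro s hs
    obtain ⟨u, hu, rfl⟩ := Finset.mem_image.mp hs
    obtain ⟨hNP, hne⟩ := hV u hu
    have hpu := hNP.pu
    have hpv := hNP.pv
    obtain ⟨hsz, hI0, hI10⟩ := siz_bd hq hxg hpu (hS u hu).1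
    -- the image of w
    set A : ℕ := ⌊x ^ q.hi 1⌋₊ with hA
    have hA1 : 1 ≤ A := by
      rw [hA, Nat.one_le_floor_iff]
      exact Real.one_le_rpow hxg (le_trans (qn7_lo0 hq 1) (hq.le 1))
    have hfst : ∀ t : PolyK 11, IsPt q x t → (cb 0 t 10).1.natAbs ≤ A := by
      intro t ht
      rw [qn7_cb1 ht, Int.natAbs_neg, hA]
      apply Nat.le_floor
      have h1 : (((t 1).1.natAbs : ℕ) : ℝ) ≤ nr (t 1) := by
        have := qn7_fst_le (t 1)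
        rwa [← Int.cast_abs, ← Nat.cast_natAbs] at this
      exact le_trans h1 (ht.hi 1)
    have hsnd : ∀ t : PolyK 11, IsPt q x t → (cb 0 t 10).2.natAbs ≤ 1 := by
      intro t ht
      rw [qn7_cb2 ht, ht.f1]
      decide
    have h10 : (10 : Fin 11) ∈ nb 0 := by decide
    have hsf : Squarefree (qn7_g u (V u) 0) := (hpu.sq 0).squarefree_of_dvd (qn7_dvd hpv u 0)
    set W := ((S.image f).filter (fun t => fE qn7_O t = fE qn7_O (f u) ∧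
      fK qn7_O t = fK qn7_O (f u))).image (fun t => t.2.1) with hW
    have hWmem : ∀ w ∈ W, ∃ t ∈ S, w = cb 0 (V t) 10 ∧ t 0 = u 0 ∧ t 1 = u 1 ∧ t 10 = u 10 ∧
        qn7_g t (V t) 0 = qn7_g u (V u) 0 := by
      intro w hw
      rw [hW, Finset.mem_image] at hw
      obtain ⟨s', hs', rfl⟩ := hw
      rw [Finset.mem_filter] at hs'
      obtain ⟨hs1, hs2, hs3⟩ := hs'
      obtain ⟨t, ht, rfl⟩ := Finset.mem_image.mp hs1
      refine ⟨t, ht, rfl, ?_, ?_, ?_, ?_⟩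
      · exact congrFun hs2 0
      · exact congrFun hs2 1
      · exact congrFun hs2 10
      · exact congrFun hs3 0
    have hcb10 : ∀ t : PolyK 11, t 0 = u 0 → t 1 = u 1 → t 10 = u 10 →
        cb 0 t 10 = cb 0 u 10 := by
      intro t h0 h1 h2
      unfold cb
      rw [h0, h2]
      have : (0 : Fin 11) + 1 = 1 := by decide
      rw [this, h1]
    have hcard2 : (W.card : ℝ) ≤ 20 * A * (1 : ℕ) / (qn7_g u (V u) 0 : ℕ) := by
      refine card_par W A 1 (qn7_g u (V u) 0) hA1 le_rfl (cb 0 u 10) (cb_prim hpu 0 10 h10) hsf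
        (hfst u hpu) (hsnd u hpu) ?_ ?_ ?_ ?_
      · intro w hw
        obtain ⟨t, ht, rfl, -⟩ := hWmem w hw
        exact cb_prim (hV t ht).1.pv 0 10 h10
      · intro w hw
        obtain ⟨t, ht, rfl, -⟩ := hWmem w hw
        exact hfst _ (hV t ht).1.pv
      · intro w hw
        obtain ⟨t, ht, rfl, -⟩ := hWmem w hw
        exact hsnd _ (hV t ht).1.pv
      · intro w hw
        obtain ⟨t, ht, rfl, h0, h1, h2, h3⟩ := hWmem w hw
        obtain ⟨hNPt, hnet⟩ := hV t ht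
        rw [← hcb10 t h0 h1 h2, ← h3]
        exact ⟨qn7_dvd_dt hNPt.pv t 0 10 qn7_vx0,
          qn7_ne hNPt.pu hNPt.pv hnet (h2nd t hNPt.pu) 10 (Or.inl rfl)⟩
    -- sizes
    have hP1 : ∀ j, (1 : ℝ) ≤ 2 ^ I j := fun j => one_le_pow₀ (by norm_num)
    have hg0 : ∀ j, (0 : ℝ) < qn7_g u (V u) j := fun j => by exact_mod_cast qn7_pos u (V u) j
    have hgle : ∀ j, (qn7_g u (V u) j : ℝ) ≤ 4 * (2 ^ I j * 2 ^ I (j + 1)) := by
      intro j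
      have h1 : qn7_g u (V u) j ≤ dn u j := Nat.le_of_dvd (dn_pos hpu j) (qn7_dvd hpv u j)
      have h2 : (qn7_g u (V u) j : ℝ) ≤ (dn u j : ℝ) := by exact_mod_cast h1
      exact le_trans h2 (dn_siz hpu (hS u hu).1 j).2
    have hAle : (A : ℝ) ≤ 2 * 2 ^ I 1 * y := by
      have h1 : (A : ℝ) ≤ x ^ q.hi 1 := Nat.floor_le (by positivity)
      have h2 : x ^ q.hi 1 ≤ x ^ (q.lo 1 + q.ε / 50) :=
        Real.rpow_le_rpow_of_exponent_le hxg (hn 1)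
      rw [Real.rpow_add hx0] at h2
      have h3 := (hsz 1).1
      have h4 : x ^ q.lo 1 ≤ 2 * 2 ^ I 1 := by linarith
      have h5 : x ^ q.lo 1 * x ^ (q.ε / 50) ≤ 2 * 2 ^ I 1 * y :=
        mul_le_mul_of_nonneg_right h4 hy0.le
      linarith
    -- the product over O
    have hfac : ∀ i : Fin 11, 128 * ((2 : ℝ) ^ I i) ^ 2 /
        ((qn7_g u (V u) (i - 1) : ℝ) * qn7_g u (V u) i) + 6 ≤
        224 * (2 ^ I (i - 1) * 2 ^ I (i + 1) * (2 ^ I i) ^ 2) /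
          ((qn7_g u (V u) (i - 1) : ℝ) * qn7_g u (V u) i) := by
      intro i
      refine qn7_fac (hP1 i) (hP1 (i - 1)) (hP1 (i + 1)) (hg0 _) (hg0 _) ?_ (hgle i)
      have := hgle (i - 1)
      rwa [sub_add_cancel] at this
    have hfnn : ∀ i : Fin 11, 0 ≤ 128 * ((2 : ℝ) ^ I i) ^ 2 /
        ((qn7_g u (V u) (i - 1) : ℝ) * qn7_g u (V u) i) + 6 := fun i => by positivity
    have e3 : (3 : Fin 11) - 1 = 2 := by decide
    have e5 : (5 : Fin 11) - 1 = 4 := by decide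
    have e7 : (7 : Fin 11) - 1 = 6 := by decide
    have e9 : (9 : Fin 11) - 1 = 8 := by decide
    have a3 : (3 : Fin 11) + 1 = 4 := by decide
    have a5 : (5 : Fin 11) + 1 = 6 := by decide
    have a7 : (7 : Fin 11) + 1 = 8 := by decide
    have a9 : (9 : Fin 11) + 1 = 10 := by decide
    have f3 := hfac 3
    have f5 := hfac 5
    have f7 := hfac 7
    have f9 := hfac 9
    rw [e3, a3] at f3
    rw [e5, a5] at f5
    rw [e7, a7] at f7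
    rw [e9, a9, hI10, pow_zero] at f9
    have n3 := hfnn 3
    have n5 := hfnn 5
    have n7 := hfnn 7
    have n9 := hfnn 9
    rw [e3] at n3
    rw [e5] at n5
    rw [e7] at n7
    rw [e9] at n9
    set g2 : ℝ := (qn7_g u (V u) 2 : ℝ) with hg2
    set g3 : ℝ := (qn7_g u (V u) 3 : ℝ) with hg3
    set g4 : ℝ := (qn7_g u (V u) 4 : ℝ) with hg4
    set g5 : ℝ := (qn7_g u (V u) 5 : ℝ) with hg5
    set g6 : ℝ := (qn7_g u (V u) 6 : ℝ) with hg6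
    set g7 : ℝ := (qn7_g u (V u) 7 : ℝ) with hg7
    set g8 : ℝ := (qn7_g u (V u) 8 : ℝ) with hg8
    set g9 : ℝ := (qn7_g u (V u) 9 : ℝ) with hg9
    have p2 : 0 < g2 := hg0 2
    have p3 : 0 < g3 := hg0 3
    have p4 : 0 < g4 := hg0 4
    have p5 : 0 < g5 := hg0 5
    have p6 : 0 < g6 := hg0 6
    have p7 : 0 < g7 := hg0 7
    have p8 : 0 < g8 := hg0 8
    have p9 : 0 < g9 := hg0 9
    set F : ℝ := (128 * ((2 : ℝ) ^ I 3) ^ 2 / (g2 * g3) + 6) *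
      (128 * ((2 : ℝ) ^ I 5) ^ 2 / (g4 * g5) + 6) * (128 * ((2 : ℝ) ^ I 7) ^ 2 / (g6 * g7) + 6) *
      (128 * ((2 : ℝ) ^ I 9) ^ 2 / (g8 * g9) + 6) with hF
    have hprodF : ∏ i ∈ qn7_O, (128 * ((2 : ℝ) ^ I i) ^ 2 /
        (((f u).2.2 (i - 1) : ℝ) * (f u).2.2 i) + 6) = F := by
      rw [qn7_prodO]
      simp only [f]
      rw [e3, e5, e7, e9]
    have hF0 : 0 ≤ F := by
      rw [hF]
      exact mul_nonneg (mul_nonneg (mul_nonneg n3 n5) n7) n9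
    have hRval : R = ((2 : ℝ) ^ I 3) ^ 2 * (2 ^ I 5) ^ 2 * (2 ^ I 7) ^ 2 * (2 ^ I 9) ^ 2 := by
      rw [hR, qn7_prodO]
    have hFle : F ≤ 224 ^ 4 * ((2 : ℝ) ^ I 2 * (2 ^ I 4) ^ 2 * (2 ^ I 6) ^ 2 * (2 ^ I 8) ^ 2) * R /
        ((g2 * g3) * (g4 * g5) * (g6 * g7) * (g8 * g9)) := by
      have h1 : F ≤ (224 * ((2 : ℝ) ^ I 2 * 2 ^ I 4 * (2 ^ I 3) ^ 2) / (g2 * g3)) *
          (224 * ((2 : ℝ) ^ I 4 * 2 ^ I 6 * (2 ^ I 5) ^ 2) / (g4 * g5)) *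
          (224 * ((2 : ℝ) ^ I 6 * 2 ^ I 8 * (2 ^ I 7) ^ 2) / (g6 * g7)) *
          (224 * ((2 : ℝ) ^ I 8 * 1 * (2 ^ I 9) ^ 2) / (g8 * g9)) := by
        rw [hF]
        apply mul_le_mul _ f9 n9 (by positivity)
        apply mul_le_mul _ f7 n7 (by positivity)
        apply mul_le_mul f3 f5 n5 (by positivity)
      refine le_trans h1 (le_of_eq ?_)
      rw [hRval]
      field_simp
    -- the total of the `g`
    have htot := qn7_total hpu hpv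
    have hgl0 : (0 : ℝ) < gl 0 u (V u) 0 := by exact_mod_cast gl_pos 0 0 u (V u)
    have hgl9 : (0 : ℝ) < gl 0 u (V u) 9 := by exact_mod_cast gl_pos 0 9 u (V u)
    have hy5 : x ^ (q.ε / 10) = y ^ 5 := qn7_pow hx0 5 (q.ε / 10) (by push_cast; ring)
    have hlow : ∀ j : Fin 11, (2 : ℝ) ^ I j ≤ y * nr (V u j) := by
      intro j
      have h1 := (hsz j).2
      have h2 : x ^ q.hi j ≤ x ^ (q.lo j + q.ε / 50) :=
        Real.rpow_le_rpow_of_exponent_le hxg (hn j)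
      rw [Real.rpow_add hx0] at h2
      have h3 := hpv.lo j
      have h4 : x ^ q.lo j * x ^ (q.ε / 50) ≤ nr (V u j) * y :=
        mul_le_mul_of_nonneg_right h3 hy0.le
      linarith
    have hL2 : q.c3 ^ 2 * 2 ^ I 1 * 2 ^ I 9 ≤
        ((gl 0 u (V u) 0 : ℝ) * gl 0 u (V u) 9) * y ^ 12 := by
      have h0 := hNP.nv 0
      have h9 := hNP.nv 9
      have hd0 := dn_ge_nr hpv 0
      have hd9 := dn_ge_nr hpv 9
      rw [qn7_nr0 hpv] at hd0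
      have hz : (0 : Fin 11) + 1 = 1 := by decide
      rw [hz] at hd0
      rw [a9, qn7_nr10 hpv] at hd9
      have hl1 := hlow 1
      have hl9 := hlow 9
      rw [hy5] at h0 h9
      push_cast at hd0 hd9
      have k0 : q.c3 * (2 : ℝ) ^ I 1 ≤ y ^ 6 * gl 0 u (V u) 0 := by
        calc q.c3 * (2 : ℝ) ^ I 1 ≤ q.c3 * (y * nr (V u 1)) :=
              mul_le_mul_of_nonneg_left hl1 hc.le
          _ = y * (q.c3 * 1 * nr (V u 1)) := by ring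
          _ ≤ y * (y ^ 5 * gl 0 u (V u) 0) :=
              mul_le_mul_of_nonneg_left (le_trans hd0 h0) hy0.le
          _ = _ := by ring
      have k9 : q.c3 * (2 : ℝ) ^ I 9 ≤ y ^ 6 * gl 0 u (V u) 9 := by
        calc q.c3 * (2 : ℝ) ^ I 9 ≤ q.c3 * (y * nr (V u 9)) :=
              mul_le_mul_of_nonneg_left hl9 hc.le
          _ = y * (q.c3 * nr (V u 9) * 1) := by ring
          _ ≤ y * (y ^ 5 * gl 0 u (V u) 9) :=
              mul_le_mul_of_nonneg_left (le_trans hd9 h9) hy0.le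
          _ = _ := by ring
      calc q.c3 ^ 2 * 2 ^ I 1 * 2 ^ I 9 = (q.c3 * 2 ^ I 1) * (q.c3 * 2 ^ I 9) := by ring
        _ ≤ (y ^ 6 * gl 0 u (V u) 0) * (y ^ 6 * gl 0 u (V u) 9) := by
            apply mul_le_mul k0 k9 (by positivity) (by positivity)
        _ = _ := by ring
    have hE : ((2 : ℝ) ^ I 2 * 2 ^ I 4 * 2 ^ I 6 * 2 ^ I 8) ^ 2 * y ^ 200 ≤ 2 * 2 ^ I 9 := by
      have ht := hq.tiny 9 (by decide)
      have h2 := (hsz 2).2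
      have h4 := (hsz 4).2
      have h6 := (hsz 6).2
      have h8 := (hsz 8).2
      have h9 := (hsz 9).1
      have hhi0 : ∀ j, 0 ≤ q.hi j := fun j => le_trans (qn7_lo0 hq j) (hq.le j)
      have i2 := hhi0 2
      have i4 := hhi0 4
      have i6 := hhi0 6
      have i8 := hhi0 8
      have h10' : (2 : ℝ) ^ I 2 * 2 ^ I 4 * 2 ^ I 6 * 2 ^ I 8 ≤
          x ^ (q.hi 2 + q.hi 4 + q.hi 6 + q.hi 8) := by
        rw [Real.rpow_add hx0, Real.rpow_add hx0, Real.rpow_add hx0]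
        gcongr
      have h11 : ((2 : ℝ) ^ I 2 * 2 ^ I 4 * 2 ^ I 6 * 2 ^ I 8) ^ 2 ≤
          x ^ (2 * (q.hi 2 + q.hi 4 + q.hi 6 + q.hi 8)) := by
        calc ((2 : ℝ) ^ I 2 * 2 ^ I 4 * 2 ^ I 6 * 2 ^ I 8) ^ 2 ≤
              (x ^ (q.hi 2 + q.hi 4 + q.hi 6 + q.hi 8)) ^ 2 := by
              apply pow_le_pow_left₀ (by positivity) h10'
          _ = _ := by
              rw [← Real.rpow_natCast, ← Real.rpow_mul hx0.le]
              congr 1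
              push_cast
              ring
      have hy200 : y ^ 200 = x ^ (4 * q.ε) :=
        (qn7_pow hx0 200 (4 * q.ε) (by push_cast; ring)).symm
      calc ((2 : ℝ) ^ I 2 * 2 ^ I 4 * 2 ^ I 6 * 2 ^ I 8) ^ 2 * y ^ 200
          ≤ x ^ (2 * (q.hi 2 + q.hi 4 + q.hi 6 + q.hi 8)) * x ^ (4 * q.ε) := by
            rw [hy200]
            exact mul_le_mul_of_nonneg_right h11 (by positivity)
        _ = x ^ (2 * (q.hi 2 + q.hi 4 + q.hi 6 + q.hi 8) + 4 * q.ε) := by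
            rw [← Real.rpow_add hx0]
        _ ≤ x ^ q.lo 9 := by
            apply Real.rpow_le_rpow_of_exponent_le hxg
            linarith
        _ ≤ 2 * 2 ^ I 9 := by linarith
    rw [hprodF]
    refine qn7_fin (y := y) (c := q.c3) (P1 := 2 ^ I 1) (P2 := 2 ^ I 2) (P4 := 2 ^ I 4)
      (P6 := 2 ^ I 6) (P8 := 2 ^ I 8) (P9 := 2 ^ I 9) (G0 := (qn7_g u (V u) 0 : ℝ))
      (H := (g2 * g3) * (g4 * g5) * (g6 * g7) * (g8 * g9))
      (L := (gl 0 u (V u) 0 : ℝ) * gl 0 u (V u) 9) (R := R) (A := (A : ℝ)) hy1 hc hK (hP1 1)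
      (hP1 2) (hP1 4) (hP1 6) (hP1 8) (hP1 9) (hg0 0) (by positivity) hR0 (Nat.cast_nonneg _) ?_
      hAle hF0 hFle htot.symm hL2 hE
    have := hcard2
    rw [Nat.cast_one, mul_one] at this
    exact this

end Pool.Agent.PNI
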