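import Pool.Agent.Lib_helper96.PNI.Defs
import Pool.Agent.Lib_helper96.PNI.L.QA7
import Pool.Agent.Lib_helper96.PNI.L.QA8
import Pool.Agent.Lib_helper96.PNI.L.QC8
import Pool.Agent.Lib_helper96.PNI.L.QN11

set_option autoImplicit false

namespace Pool.Agent.PNI

open Finset Pool.Agent.PENT Pool.Agent.PENK

variable {q : Prm} {x : ℝ} {u v w : PolyK 11}

theorem qf1_pairs (S : Finset (PolyK 11 × PolyK 11)) (F : PolyK 11 → PolyK 11 → ℝ)
    (a : PolyK 11 → ℝ) (B : ℝ) (ha : ∀ u, 0 ≤ a u)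
    (h : ∀ u ∈ S.image Prod.fst, ∀ T : Finset (PolyK 11), (∀ v ∈ T, (u, v) ∈ S) →
      ∑ v ∈ T, F u v ≤ B) :
    ∑ s ∈ S, a s.1 * F s.1 s.2 ≤ B * ∑ u ∈ S.image Prod.fst, a u := by
  classical
  rw [← Finset.sum_fiberwise_of_maps_to (g := Prod.fst) (t := S.image Prod.fst)
    (fun s hs => Finset.mem_image_of_mem _ hs), Finset.mul_sum]
  apply Finset.sum_le_sum
  intro u hu
  have h1 : ∑ s ∈ S.filter (fun s => s.1 = u), a s.1 * F s.1 s.2 =
      a u * ∑ v ∈ (S.filter (fun s => s.1 = u)).image Prod.snd, F u v := by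
    rw [Finset.mul_sum, Finset.sum_image]
    · apply Finset.sum_congr rfl
      intro s hs
      rw [(Finset.mem_filter.1 hs).2]
    · intro s hs t ht hst
      have e1 := (Finset.mem_filter.1 (Finset.mem_coe.1 hs)).2
      have e2 := (Finset.mem_filter.1 (Finset.mem_coe.1 ht)).2
      exact Prod.ext (e1.trans e2.symm) hst
  rw [h1, mul_comm B]
  apply mul_le_mul_of_nonneg_left _ (ha u)
  apply h u hu
  intro v hv
  obtain ⟨s, hs, rfl⟩ := Finset.mem_image.1 hv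
  obtain ⟨h2, h3⟩ := Finset.mem_filter.1 hs
  rw [← h3]
  exact h2

theorem near_sum (hq : q.Ok) (h8 : q.E8) (b : Fin 11) (hb : b = 10 ∨ q.Nar) :
    ∃ c x₀ : ℝ, 0 < c ∧ 1 ≤ x₀ ∧ ∀ x ≥ x₀, ∀ S : Finset (PolyK 11 × PolyK 11),
    (∀ s ∈ S, IsPt q x s.1 ∧ IsPt q x s.2 ∧ s.1 ≠ s.2 ∧ x ^ (q.ε / 8) < (GI b s.1 s.2 : ℝ)) →
    ∑ s ∈ S, (GT b s.1 s.2 : ℝ) / ((DD s.1 : ℝ) * DD s.2) ≤ x ^ (-c) := by
  classical
  obtain ⟨c1, x1, hc1, hx1, H1⟩ := sum_crude hq
  obtain ⟨x2, hx2, H2⟩ := inv_sum hq (θ := c1 / 2) (by positivity)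
  obtain ⟨x3, hx3, H3⟩ := nf_sum hq h8 b hb
  have hε := hq.ε0
  obtain ⟨x4, hx4, H4⟩ := sum_all hq (θ := q.ε / 4) (by positivity)
  set c := min (c1 / 2) (q.ε / 4) with hc
  have hcpos : 0 < c := lt_min (by positivity) (by positivity)
  obtain ⟨x5, hx5, H5⟩ := x_large hq 3 (θ := c / 2) (by positivity)
  refine ⟨c / 2, max (max x1 x2) (max (max x3 x4) x5), by positivity,
    le_trans hx1 (le_trans (le_max_left _ _) (le_max_left _ _)), ?_⟩
  intro x hx S hS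
  have g1 : x ≥ x1 := le_trans (le_trans (le_max_left _ _) (le_max_left _ _)) hx
  have g2 : x ≥ x2 := le_trans (le_trans (le_max_right _ _) (le_max_left _ _)) hx
  have g3 : x ≥ x3 := le_trans (le_trans (le_trans (le_max_left _ _) (le_max_left _ _))
    (le_max_right _ _)) hx
  have g4 : x ≥ x4 := le_trans (le_trans (le_trans (le_max_right _ _) (le_max_left _ _))
    (le_max_right _ _)) hx
  have g5 : x ≥ x5 := le_trans (le_trans (le_max_right _ _) (le_max_right _ _)) hx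
  have hx1' : 1 ≤ x := le_trans hx1 g1
  have hx0 : 0 < x := by linarith
  have hform : ∀ s : PolyK 11 × PolyK 11, (GT b s.1 s.2 : ℝ) / ((DD s.1 : ℝ) * DD s.2) =
      (1 / (DD s.1 : ℝ)) * ((GT b s.1 s.2 : ℝ) / DD s.2) := by
    intro s
    rw [div_mul_div_comm, one_mul]
  -- the three parts
  set S1 := S.filter (fun s => ∃ l, x ^ (q.ε / 10) * (gl b s.1 s.2 l : ℝ) < dn s.2 l) with hS1
  set S' := S.filter (fun s => ¬ ∃ l, x ^ (q.ε / 10) * (gl b s.1 s.2 l : ℝ) < dn s.2 l) with hS'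
  set S2 := S'.filter (fun s => ∃ l, x ^ (q.ε / 10) * (gl b s.2 s.1 l : ℝ) < dn s.1 l) with hS2
  set S3 := S'.filter (fun s => ¬ ∃ l, x ^ (q.ε / 10) * (gl b s.2 s.1 l : ℝ) < dn s.1 l) with hS3
  have hsplit : ∀ f : PolyK 11 × PolyK 11 → ℝ,
      ∑ s ∈ S, f s = ∑ s ∈ S1, f s + (∑ s ∈ S2, f s + ∑ s ∈ S3, f s) := by
    intro f
    rw [hS2, hS3, Finset.sum_filter_add_sum_filter_not, hS1, hS',
      Finset.sum_filter_add_sum_filter_not]
  rw [hsplit]
  have hcc : x ^ (c1 / 2) * x ^ (-c1) ≤ x ^ (-c) := by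
    rw [← Real.rpow_add hx0]
    apply Real.rpow_le_rpow_of_exponent_le hx1'
    have := min_le_left (c1 / 2) (q.ε / 4)
    linarith
  have inv_nn : ∀ u : PolyK 11, (0 : ℝ) ≤ 1 / (DD u : ℝ) := fun u => by positivity
  -- part 1
  have P1 : ∑ s ∈ S1, (GT b s.1 s.2 : ℝ) / ((DD s.1 : ℝ) * DD s.2) ≤ x ^ (-c) := by
    simp only [hform]
    refine le_trans (qf1_pairs S1 (fun u v => (GT b u v : ℝ) / DD v) (fun u => 1 / (DD u : ℝ))
      (x ^ (-c1)) inv_nn ?_) ?_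
    · intro u hu T hT
      obtain ⟨s, hs, rfl⟩ := Finset.mem_image.1 hu
      have hs1 := (hS s (Finset.mem_filter.1 hs).1).1
      apply H1 x g1 b s.1 hs1 T
      intro v hv
      have h1 := hT v hv
      obtain ⟨h2, h3⟩ := Finset.mem_filter.1 h1
      have h4 := hS _ h2
      exact ⟨h4.2.1, h4.2.2.2, h3⟩
    · refine le_trans (mul_le_mul_of_nonneg_left (H2 x g2 _ ?_) (by positivity)) ?_
      · intro u hu
        obtain ⟨s, hs, rfl⟩ := Finset.mem_image.1 hu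
        exact (hS s (Finset.mem_filter.1 hs).1).1
      · rw [mul_comm]; exact hcc
  -- part 2
  have P2 : ∑ s ∈ S2, (GT b s.1 s.2 : ℝ) / ((DD s.1 : ℝ) * DD s.2) ≤ x ^ (-c) := by
    have hsub : ∀ s ∈ S2, s ∈ S := fun s hs => (Finset.mem_filter.1 (Finset.mem_filter.1 hs).1).1
    have e1 : ∑ s ∈ S2, (GT b s.1 s.2 : ℝ) / ((DD s.1 : ℝ) * DD s.2) =
        ∑ s ∈ S2.image Prod.swap, (1 / (DD s.1 : ℝ)) * ((GT b s.1 s.2 : ℝ) / DD s.2) := by
      rw [Finset.sum_image (fun s _ t _ h => Prod.swap_injective h)]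
      apply Finset.sum_congr rfl
      intro s hs
      have h4 := hS s (hsub s hs)
      rw [← hform, Prod.fst_swap, Prod.snd_swap, GT_symm h4.1 h4.2.1 b,
        mul_comm (DD s.1 : ℝ) (DD s.2)]
    rw [e1]
    refine le_trans (qf1_pairs (S2.image Prod.swap) (fun u v => (GT b u v : ℝ) / DD v)
      (fun u => 1 / (DD u : ℝ)) (x ^ (-c1)) inv_nn ?_) ?_
    · intro u hu T hT
      obtain ⟨t, ht, rfl⟩ := Finset.mem_image.1 hu
      obtain ⟨s, hs, rfl⟩ := Finset.mem_image.1 ht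
      have hs1 := (hS s (hsub s hs)).2.1
      apply H1 x g1 b _ hs1 T
      intro v hv
      obtain ⟨r, hr, hr2⟩ := Finset.mem_image.1 (hT v hv)
      have h4 := hS r (hsub r hr)
      have h5 := (Finset.mem_filter.1 hr).2
      have h6 : r.2 = s.2 := congrArg Prod.fst hr2
      have h7 : r.1 = v := congrArg Prod.snd hr2
      rw [GI_symm h4.1 h4.2.1 b, h6, h7] at h4
      rw [h6, h7] at h5
      exact ⟨h4.1, h4.2.2.2, h5⟩
    · refine le_trans (mul_le_mul_of_nonneg_left (H2 x g2 _ ?_) (by positivity)) ?_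
      · intro u hu
        obtain ⟨t, ht, rfl⟩ := Finset.mem_image.1 hu
        obtain ⟨s, hs, rfl⟩ := Finset.mem_image.1 ht
        exact (hS s (hsub s hs)).2.1
      · rw [mul_comm]; exact hcc
  -- part 3
  have P3 : ∑ s ∈ S3, (GT b s.1 s.2 : ℝ) / ((DD s.1 : ℝ) * DD s.2) ≤ x ^ (-c) := by
    simp only [hform]
    have hsub : ∀ s ∈ S3, s ∈ S := fun s hs => (Finset.mem_filter.1 (Finset.mem_filter.1 hs).1).1
    refine le_trans (qf1_pairs S3 (fun u v => (GT b u v : ℝ) / DD v) (fun u => 1 / (DD u : ℝ))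
      (x ^ (q.ε / 4)) inv_nn ?_) ?_
    · intro u hu T hT
      obtain ⟨s, hs, rfl⟩ := Finset.mem_image.1 hu
      apply H4 x g4 b s.1 (hS s (hsub s hs)).1 T
      intro v hv
      exact (hS _ (hsub _ (hT v hv))).2.1
    · refine le_trans (mul_le_mul_of_nonneg_left (H3 x g3 _ ?_) (by positivity)) ?_
      · intro u hu
        obtain ⟨s, hs, rfl⟩ := Finset.mem_image.1 hu
        have h4 := hS s (hsub s hs)
        have h5 := (Finset.mem_filter.1 hs).2
        have h6 := (Finset.mem_filter.1 (Finset.mem_filter.1 hs).1).2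
        push Not at h5 h6
        exact ⟨s.2, fun h => h4.2.2.1 h.symm, ⟨h4.1, h4.2.1, h5, h6⟩⟩
      · rw [← Real.rpow_add hx0]
        apply Real.rpow_le_rpow_of_exponent_le hx1'
        have := min_le_right (c1 / 2) (q.ε / 4)
        linarith
  have h3 : (3 : ℝ) ≤ x ^ (c / 2) := (H5 x g5).1
  have h4 : x ^ (-c) * x ^ (c / 2) = x ^ (-(c / 2)) := by
    rw [← Real.rpow_add hx0]; congr 1; ring
  have h5 : (0 : ℝ) < x ^ (-c) := by positivity
  calc _ ≤ x ^ (-c) + (x ^ (-c) + x ^ (-c)) := by linarith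
    _ = x ^ (-c) * 3 := by ring
    _ ≤ x ^ (-c) * x ^ (c / 2) := by gcongr
    _ = x ^ (-(c / 2)) := h4

end Pool.Agent.PNI
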