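import Pool.Agent.Lib_helper96.PNI.Defs
import Pool.Agent.Lib_helper96.PNI.L.QA1
import Pool.Agent.Lib_helper96.PNI.L.QA2

set_option autoImplicit false

namespace Pool.Agent.PNI

open Finset Pool.Agent.PENT Pool.Agent.PENK

variable {q : Prm} {x : ℝ} {u v w : PolyK 11}

theorem qf2_uniq (hu : IsPt q x u) {p : ℕ} (hp : p.Prime) {i j : Fin 11} (h1 : p ∣ dn u i)
    (h2 : p ∣ dn u j) : i = j := by
  by_contra h
  exact Nat.not_coprime_of_dvd_of_dvd hp.one_lt h1 h2 (hu.co i j h)

theorem qf2_dt_symm (a c : ℤ × ℤ) : dt a c = - dt c a := by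
  unfold dt
  ring

theorem qf2_flip {p : ℕ} {a c : ℤ × ℤ} (h : (p : ℤ) ∣ dt a c) : (p : ℤ) ∣ dt c a := by
  rw [qf2_dt_symm c a]
  exact (dvd_neg).mpr h

theorem qf2_prim {p : ℕ} (hp : p.Prime) {a : ℤ × ℤ} (h : Int.gcd a.1 a.2 = 1) :
    ¬ ((p : ℤ) ∣ a.1 ∧ (p : ℤ) ∣ a.2) := by
  rintro ⟨h1, h2⟩
  have h3 := Int.dvd_coe_gcd h1 h2
  rw [h] at h3
  have h4 : p ∣ 1 := by exact_mod_cast h3
  exact hp.one_lt.ne' (Nat.dvd_one.mp h4)

theorem rot_dn (b j : Fin 11) (u : PolyK 11) : dn (rot b u) j = dn u (j + b) := by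
  unfold dn dl rot
  rw [add_right_comm]

theorem rot_cv (b k : Fin 11) (u : PolyK 11) : cv (rot b u) k = cb b u (k + b) := by
  unfold cv cb rot
  rw [zero_add, add_comm 1 b]

theorem rot_Lv (hu : IsPt q x u) (b i : Fin 11) {p : ℕ} (hp : p.Prime) (hpi : p ∣ dn u i) :
    ¬ ((p : ℤ) ∣ (Lv (rot b u) p).1 ∧ (p : ℤ) ∣ (Lv (rot b u) p).2) ∧
      ∀ m ∈ vx b i, (p : ℤ) ∣ dt (Lv (rot b u) p) (cb b u m) := by
  classical
  have hp1 : ¬ ((p : ℤ) ∣ 1) := by
    intro h
    have h4 : p ∣ 1 := by exact_mod_cast h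
    exact hp.one_lt.ne' (Nat.dvd_one.mp h4)
  have hdl : ∀ j, p ∣ dn u j → (p : ℤ) ∣ dt (u j) (u (j + 1)) := by
    intro j hj
    have := Int.natCast_dvd.mpr hj
    exact this
  unfold Lv
  simp only [rot_dn, rot_cv, zero_add]
  split_ifs with h1 h2 h3 h4
  · -- p ∣ dn u (1 + b)
    have hi : i = 1 + b := qf2_uniq hu hp hpi h1
    refine ⟨fun h => hp1 h.2, ?_⟩
    intro m hm
    have hib : i ≠ b := by
      rw [hi]
      intro h
      have : (1 : Fin 11) = 0 := by
        have h5 : 1 + b = 0 + b := by rw [h, zero_add]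
        exact add_right_cancel h5
      exact absurd this (by decide)
    unfold vx at hm
    rw [if_neg hib] at hm
    rw [Finset.mem_insert, Finset.mem_singleton] at hm
    rcases hm with hm | hm
    · rw [hm, hi, add_comm 1 b, (cb_base b u).2]
      unfold dt
      simp
    · rw [hm]
      have h5 := hdl i hpi
      have e : dt ((0 : ℤ), (1 : ℤ)) (cb b u (i + 1)) = dt (u i) (u (i + 1)) := by
        have hb : b + 1 = i := by rw [hi, add_comm]
        unfold cb
        rw [hb]
        unfold dt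
        ring
      rw [e]
      exact h5
  · -- p ∣ dn u (-1 + b)
    have hi : i = -1 + b := qf2_uniq hu hp hpi h2
    refine ⟨fun h => hp1 h.1, ?_⟩
    intro m hm
    have hib : i ≠ b := by
      rw [hi]
      intro h
      have : (-1 : Fin 11) = 0 := by
        have h5 : -1 + b = 0 + b := by rw [h, zero_add]
        exact add_right_cancel h5
      exact absurd this (by decide)
    have hib1 : i + 1 = b := by
      rw [hi, add_assoc, add_comm b 1, ← add_assoc]
      have : (-1 : Fin 11) + 1 = 0 := by decide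
      rw [this, zero_add]
    unfold vx at hm
    rw [if_neg hib] at hm
    rw [Finset.mem_insert, Finset.mem_singleton] at hm
    rcases hm with hm | hm
    · rw [hm]
      have h5 := hdl i hpi
      have e : dt ((1 : ℤ), (0 : ℤ)) (cb b u i) = - dt (u i) (u (i + 1)) := by
        unfold cb
        rw [hib1]
        unfold dt
        ring
      rw [e]
      exact (dvd_neg).mpr h5
    · rw [hm, hib1, (cb_base b u).1]
      unfold dt
      simp
  · -- p ∣ dn u b
    have hi : i = b := qf2_uniq hu hp hpi h3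
    have hnb : 2 + b ∈ nb b := by
      unfold nb
      rw [Finset.mem_filter]
      refine ⟨Finset.mem_univ _, ?_, ?_⟩
      · intro h
        have h5 : 2 + b = 0 + b := by rw [h, zero_add]
        have : (2 : Fin 11) = 0 := add_right_cancel h5
        exact absurd this (by decide)
      · intro h
        have h5 : 2 + b = 1 + b := by rw [h, add_comm]
        have : (2 : Fin 11) = 1 := add_right_cancel h5
        exact absurd this (by decide)
    refine ⟨qf2_prim hp (cb_prim hu b _ hnb), ?_⟩
    intro m hm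
    refine on_line b i (2 + b) m u hpi ?_ hm
    rw [hi]
    unfold vx
    rw [if_pos rfl]
    exact Finset.mem_univ _
  · -- the other edges
    have hj := h4.choose_spec
    set j := h4.choose with hjdef
    have hi : i = j + b := qf2_uniq hu hp hpi hj.2.2
    have hjr := hj.1
    unfold inr at hjr
    rw [Finset.mem_filter] at hjr
    have hib : i ≠ b := by
      rw [hi]
      intro h
      have h5 : j + b = 0 + b := by rw [h, zero_add]
      exact hj.2.1 (add_right_cancel h5)
    have hib1 : i ≠ b + 1 := by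
      rw [hi]
      intro h
      have h5 : j + b = 1 + b := by rw [h, add_comm]
      exact hjr.2.1 (add_right_cancel h5)
    have hnb : j + b ∈ nb b := by
      rw [← hi]
      unfold nb
      rw [Finset.mem_filter]
      exact ⟨Finset.mem_univ _, hib, hib1⟩
    refine ⟨qf2_prim hp (cb_prim hu b _ hnb), ?_⟩
    intro m hm
    refine on_line b i (j + b) m u hpi ?_ hm
    rw [← hi]
    unfold vx
    rw [if_neg hib]
    exact Finset.mem_insert_self _ _
  · exfalso
    refine h4 ⟨i - b, ?_, ?_, ?_⟩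
    · unfold inr
      rw [Finset.mem_filter]
      refine ⟨Finset.mem_univ _, ?_, ?_⟩
      · intro h
        apply h1
        rw [← h, sub_add_cancel]
        exact hpi
      · intro h
        apply h2
        rw [← h, sub_add_cancel]
        exact hpi
    · intro h
      apply h3
      have : i = b := sub_eq_zero.mp h
      rw [← this]
      exact hpi
    · rw [sub_add_cancel]
      exact hpi

theorem rot_sameL (hu : IsPt q x u) (hv : IsPt q x v) (b i l : Fin 11) {p : ℕ} (hp : p.Prime)
    (hpi : p ∣ dn u i) (hpl : p ∣ dn v l) :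
    SameL (rot b u) (rot b v) p ↔ CL b u v i l p := by
  obtain ⟨n1, p1⟩ := rot_Lv hu b i hp hpi
  obtain ⟨n2, p2⟩ := rot_Lv hv b l hp hpl
  unfold SameL CL
  constructor
  · intro h
    refine ⟨hpi, hpl, ?_⟩
    intro m hm m' hm'
    have h1 : (p : ℤ) ∣ dt (cb b u m) (Lv (rot b v) p) := par_trans hp n1 (p1 m hm) h
    exact par_trans hp n2 (qf2_flip h1) (p2 m' hm')
  · rintro ⟨_, _, h⟩
    obtain ⟨m, hm, _, hn⟩ := some_ne hu hp b i
    obtain ⟨m', hm', _, hn'⟩ := some_ne hv hp b l
    have h1 := h m hm m' hm'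
    have h2 : (p : ℤ) ∣ dt (Lv (rot b u) p) (cb b v m') :=
      par_trans hp hn (qf2_flip (p1 m hm)) h1
    exact par_trans hp hn' (qf2_flip h2) (qf2_flip (p2 m' hm'))

end Pool.Agent.PNI
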