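import Pool.Agent.Lib_helper96.PNI.Defs
import Pool.Agent.Lib_helper96.PNI.L.QA8
import Pool.Agent.Lib_helper96.PNI.L.QF2

/-! Block QF3 -/

set_option autoImplicit false

namespace Pool.Agent.PNI

open Finset Pool.Agent.PENT Pool.Agent.PENK

variable {q : Prm} {x : ℝ} {u v w : PolyK 11}

lemma qf3_bad (b : Fin 11) (u : PolyK 11) : bad (rot b u) = ∏ l ∈ ib b, dn u l := by
  unfold bad
  refine Finset.prod_bij (fun j _ => j + b) ?_ ?_ ?_ ?_
  · intro j hj
    unfold inr at hj
    unfold ib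
    rw [Finset.mem_filter] at hj ⊢
    refine ⟨mem_univ _, ?_, ?_⟩
    · intro h
      apply hj.2.2
      calc j = j + b - b := by abel
        _ = -1 := by rw [h]; abel
    · intro h
      apply hj.2.1
      calc j = j + b - b := by abel
        _ = 1 := by rw [h]; abel
  · intro j _ j' _ h
    exact add_left_injective b h
  · intro l hl
    unfold ib at hl
    rw [Finset.mem_filter] at hl
    refine ⟨l - b, ?_, by abel⟩
    unfold inr
    rw [Finset.mem_filter]
    refine ⟨mem_univ _, ?_, ?_⟩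
    · intro h
      apply hl.2.2
      calc l = (l - b) + b := by abel
        _ = b + 1 := by rw [h]; abel
    · intro h
      apply hl.2.1
      calc l = (l - b) + b := by abel
        _ = b - 1 := by rw [h]; abel
  · intro j _
    exact rot_dn b j u

lemma qf3_dn_ne (h : IsPt q x u) (l : Fin 11) : dn u l ≠ 0 := (h.sq l).ne_zero

lemma qf3_uniq (h : IsPt q x u) {p : ℕ} (hp : p.Prime) {i l : Fin 11} (h1 : p ∣ dn u i)
    (h2 : p ∣ dn u l) : i = l := by
  by_contra hc
  exact Nat.Prime.not_coprime_iff_dvd.mpr ⟨p, hp, h1, h2⟩ (h.co i l hc)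

open Classical in
lemma qf3_GI (hv : IsPt q x v) (b : Fin 11) (L : Finset (Fin 11)) :
    ∏ l ∈ L, gl b u v l = ∏ p ∈ L.biUnion (fun l => (dn v l).primeFactors.filter
      (fun p => ∃ i, CL b u v i l p)), p := by
  rw [Finset.prod_biUnion]
  · rfl
  · intro i _ l _ hil
    show Disjoint _ _
    rw [Finset.disjoint_left]
    intro p hp1 hp2
    rw [Finset.mem_filter, Nat.mem_primeFactors] at hp1 hp2
    exact hil (qf3_uniq hv hp1.1.1 hp1.1.2.1 hp2.1.2.1)

theorem rot_Gc (hu : IsPt q x u) (hv : IsPt q x v) (b : Fin 11) :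
    Gc (rot b u) (rot b v) = GI b u v := by
  classical
  unfold Gc GI
  rw [qf3_GI hv b (ib b), qf3_bad, qf3_bad]
  have hne : ∏ l ∈ ib b, dn u l ≠ 0 := Finset.prod_ne_zero_iff.mpr fun l _ => qf3_dn_ne hu l
  have hne' : ∏ l ∈ ib b, dn v l ≠ 0 := Finset.prod_ne_zero_iff.mpr fun l _ => qf3_dn_ne hv l
  have hset : (Nat.gcd (∏ l ∈ ib b, dn u l) (∏ l ∈ ib b, dn v l)).primeFactors.filter
      (SameL (rot b u) (rot b v)) = (ib b).biUnion (fun l => (dn v l).primeFactors.filter
      (fun p => ∃ i, CL b u v i l p)) := by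
    ext p
    simp only [Finset.mem_filter, Finset.mem_biUnion, Nat.mem_primeFactors]
    constructor
    · rintro ⟨⟨hp, hd, _⟩, hS⟩
      obtain ⟨i, hi, hpi⟩ := (hp.prime.dvd_finsetProd_iff _).mp (hd.trans (Nat.gcd_dvd_left _ _))
      obtain ⟨l, hl, hpl⟩ := (hp.prime.dvd_finsetProd_iff _).mp (hd.trans (Nat.gcd_dvd_right _ _))
      exact ⟨l, hl, ⟨hp, hpl, qf3_dn_ne hv l⟩, i, (rot_sameL hu hv b i l hp hpi hpl).mp hS⟩
    · rintro ⟨l, hl, ⟨hp, hpl, _⟩, i, hC⟩
      have hs := CL_spec hu hv hp b i l hC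
      have hi : i ∈ ib b := by
        unfold ib at hl ⊢
        rw [Finset.mem_filter] at hl ⊢
        exact ⟨mem_univ _, fun h => hl.2.1 (hs.1.mp h), fun h => hl.2.2 (hs.2.mp h)⟩
      refine ⟨⟨hp, Nat.dvd_gcd (hC.1.trans (Finset.dvd_prod_of_mem _ hi))
        (hpl.trans (Finset.dvd_prod_of_mem _ hl)), ?_⟩, ?_⟩
      · exact Nat.gcd_ne_zero_left hne
      · exact (rot_sameL hu hv b i l hp hC.1 hpl).mpr hC
  rw [← hset]

open Classical in
lemma qf3_sp (hu : IsPt q x u) (hv : IsPt q x v) (b l : Fin 11)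
    (h1 : ∀ p : ℕ, p.Prime → ∀ i, CL b u v i l p → i = l)
    (h2 : ∀ p : ℕ, p.Prime → p ∣ dn u l → p ∣ dn v l → CL b u v l l p) :
    Nat.gcd (dn u l) (dn v l) = gl b u v l := by
  have hsq : Squarefree (Nat.gcd (dn u l) (dn v l)) :=
    (hu.sq l).squarefree_of_dvd (Nat.gcd_dvd_left _ _)
  rw [← Nat.prod_primeFactors_of_squarefree hsq]
  unfold gl
  refine Finset.prod_congr ?_ fun _ _ => rfl
  ext p
  simp only [Finset.mem_filter, Nat.mem_primeFactors]
  constructor
  · rintro ⟨hp, hd, _⟩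
    have ha := hd.trans (Nat.gcd_dvd_left _ _)
    have hb := hd.trans (Nat.gcd_dvd_right _ _)
    exact ⟨⟨hp, hb, qf3_dn_ne hv l⟩, l, h2 p hp ha hb⟩
  · rintro ⟨⟨hp, hd, _⟩, i, hC⟩
    obtain rfl := h1 p hp i hC
    exact ⟨hp, Nat.dvd_gcd hC.1 hd, Nat.gcd_ne_zero_left (qf3_dn_ne hu i)⟩

theorem rot_GT (hu : IsPt q x u) (hv : IsPt q x v) (b : Fin 11) :
    Gc (rot b u) (rot b v) * Nat.gcd (dn (rot b u) 1) (dn (rot b v) 1) *
      Nat.gcd (dn (rot b u) (-1)) (dn (rot b v) (-1)) = GT b u v := by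
  classical
  rw [rot_Gc hu hv b]
  have e1 : (1 : Fin 11) + b = b + 1 := by abel
  have e2 : (-1 : Fin 11) + b = b - 1 := by abel
  have hp1 : Nat.gcd (dn (rot b u) 1) (dn (rot b v) 1) = gl b u v (b + 1) := by
    rw [rot_dn, rot_dn, e1]
    apply qf3_sp hu hv
    · intro p hp i hC
      exact (CL_spec hu hv hp b i (b + 1) hC).2.mpr rfl
    · intro p hp ha hb
      rw [← rot_sameL hu hv b (b + 1) (b + 1) hp ha hb]
      unfold SameL Lv
      have c1 : p ∣ dn (rot b u) 1 := by rw [rot_dn, e1]; exact ha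
      have c2 : p ∣ dn (rot b v) 1 := by rw [rot_dn, e1]; exact hb
      rw [if_pos c1, if_pos c2]
      simp [dt]
  have hm1 : Nat.gcd (dn (rot b u) (-1)) (dn (rot b v) (-1)) = gl b u v (b - 1) := by
    rw [rot_dn, rot_dn, e2]
    apply qf3_sp hu hv
    · intro p hp i hC
      exact (CL_spec hu hv hp b i (b - 1) hC).1.mpr rfl
    · intro p hp ha hb
      rw [← rot_sameL hu hv b (b - 1) (b - 1) hp ha hb]
      have hbb : b + 1 ≠ b - 1 := by
        intro h
        have h3 : (1 : Fin 11) = -1 := by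
          calc (1 : Fin 11) = (b + 1) - b := by abel
            _ = (b - 1) - b := by rw [h]
            _ = -1 := by abel
        exact absurd h3 (by decide)
      unfold SameL Lv
      have c1 : ¬ p ∣ dn (rot b u) 1 := by
        rw [rot_dn, e1]; exact fun h => hbb (qf3_uniq hu hp h ha)
      have c2 : ¬ p ∣ dn (rot b v) 1 := by
        rw [rot_dn, e1]; exact fun h => hbb (qf3_uniq hv hp h hb)
      have c3 : p ∣ dn (rot b u) (-1) := by rw [rot_dn, e2]; exact ha
      have c4 : p ∣ dn (rot b v) (-1) := by rw [rot_dn, e2]; exact hb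
      rw [if_neg c1, if_neg c2, if_pos c3, if_pos c4]
      simp [dt]
  rw [hp1, hm1]
  unfold GI GT
  have hbb : b + 1 ≠ b - 1 := by
    intro h
    have h3 : (1 : Fin 11) = -1 := by
      calc (1 : Fin 11) = (b + 1) - b := by abel
        _ = (b - 1) - b := by rw [h]
        _ = -1 := by abel
    exact absurd h3 (by decide)
  have hun : (univ : Finset (Fin 11)) = insert (b + 1) (insert (b - 1) (ib b)) := by
    ext l
    simp only [Finset.mem_univ, Finset.mem_insert, true_iff]
    unfold ib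
    rw [Finset.mem_filter]
    by_cases h1 : l = b + 1
    · left; exact h1
    · right
      by_cases h2 : l = b - 1
      · left; exact h2
      · right; exact ⟨mem_univ _, h2, h1⟩
  rw [hun, Finset.prod_insert, Finset.prod_insert]
  · ring
  · unfold ib; simp
  · rw [Finset.mem_insert]
    unfold ib
    simp [hbb]

end Pool.Agent.PNI
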