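import Pool.Agent.Lib_helper96.PNI.Defs
import Pool.Agent.Lib_helper96.PNI.L.PD
import Pool.Agent.Lib_helper96.PNI.L.QA1
import Pool.Agent.Lib_helper96.PNI.L.QA2
import Pool.Agent.Lib_helper96.PNI.L.QA3
import Pool.Agent.Lib_helper96.PNI.L.QA4
import Pool.Agent.Lib_helper96.PNI.L.QA7
import Pool.Agent.Lib_helper96.PNI.L.QA8
import Pool.Agent.Lib_helper96.PNI.L.QN2

/-! PNI block QN9 (helper59): base `0`, `c_10`, `c_9` equal, `c_8` different -/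

set_option autoImplicit false

namespace Pool.Agent.PNI

open Finset Pool.Agent.PENT Pool.Agent.PENK

variable {q : Prm} {x : ℝ} {u v w : PolyK 11}

/-- the unit `t = x ^ (ε / 50)` -/
theorem qn9_t (hq : q.Ok) (C : ℝ) : ∃ x₀ : ℝ, 1 ≤ x₀ ∧ ∀ x ≥ x₀, C ≤ x ^ (q.ε / 50) ∧
    1 ≤ x ^ (q.ε / 50) := by
  obtain ⟨x₀, h1, h2⟩ := x_large hq C (θ := q.ε / 50) (by have := hq.ε0; positivity)
  refine ⟨x₀, h1, fun x hx => ⟨(h2 x hx).1, ?_⟩⟩
  exact Real.one_le_rpow (h1.trans hx) (by have := hq.ε0; positivity)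

theorem qn9_pw (hx : 0 < x) (n : ℕ) : x ^ ((n : ℝ) * (q.ε / 50)) = (x ^ (q.ε / 50)) ^ n := by
  rw [mul_comm, Real.rpow_mul hx.le, Real.rpow_natCast]

/-- sizes of the vertices of `v` -/
theorem qn9_le (hn : q.Nar) (hx : 1 ≤ x) (hu : IsPt q x u) (hv : IsPt q x v) {I : Fin 11 → ℕ}
    (hI : Siz I u) (j : Fin 11) : (nr (v j) : ℝ) ≤ 2 * x ^ (q.ε / 50) * 2 ^ I j := by
  have hx0 : 0 < x := by linarith
  have h1 : (nr (u j) : ℝ) ≤ 2 * 2 ^ I j := by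
    have h := (hI j).2
    have h2 : ((nr (u j) : ℕ) : ℝ) ≤ ((2 ^ (I j + 1) : ℕ) : ℝ) := by exact_mod_cast h.le
    rw [pow_succ] at h2
    push_cast at h2
    linarith
  calc (nr (v j) : ℝ) ≤ x ^ q.hi j := hv.hi j
    _ ≤ x ^ (q.lo j + q.ε / 50) := Real.rpow_le_rpow_of_exponent_le hx (hn j)
    _ = x ^ q.lo j * x ^ (q.ε / 50) := Real.rpow_add hx0 _ _
    _ ≤ (nr (u j) : ℝ) * x ^ (q.ε / 50) := mul_le_mul_of_nonneg_right (hu.lo j) (by positivity)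
    _ ≤ (2 * 2 ^ I j) * x ^ (q.ε / 50) := mul_le_mul_of_nonneg_right h1 (by positivity)
    _ = _ := by ring

theorem qn9_ge (hn : q.Nar) (hx : 1 ≤ x) (hu : IsPt q x u) (hv : IsPt q x v) {I : Fin 11 → ℕ}
    (hI : Siz I u) (j : Fin 11) : (2 : ℝ) ^ I j ≤ x ^ (q.ε / 50) * nr (v j) := by
  have hx0 : 0 < x := by linarith
  have h1 : (2 : ℝ) ^ I j ≤ (nr (u j) : ℝ) := by
    have h := (hI j).1
    exact_mod_cast h
  calc (2 : ℝ) ^ I j ≤ (nr (u j) : ℝ) := h1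
    _ ≤ x ^ q.hi j := hu.hi j
    _ ≤ x ^ (q.lo j + q.ε / 50) := Real.rpow_le_rpow_of_exponent_le hx (hn j)
    _ = x ^ (q.ε / 50) * x ^ q.lo j := by rw [Real.rpow_add hx0, mul_comm]
    _ ≤ x ^ (q.ε / 50) * nr (v j) := mul_le_mul_of_nonneg_left (hv.lo j) (by positivity)

/-- the common part is large -/
theorem qn9_gl (hx : 1 ≤ x) (hv : IsPt q x v) (l : Fin 11)
    (h : (dn v l : ℝ) ≤ x ^ (q.ε / 10) * gl 0 u v l) :
    q.c3 * nr (v l) * nr (v (l + 1)) ≤ (x ^ (q.ε / 50)) ^ 5 * gl 0 u v l := by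
  have h1 := dn_ge_nr hv l
  have h2 : x ^ (q.ε / 10) = (x ^ (q.ε / 50)) ^ 5 := by
    rw [← qn9_pw (by linarith)]
    congr 1
    push_cast
    ring
  rw [h2] at h
  exact h1.trans h

/-- the large vertices -/
theorem qn9_big (hq : q.Ok) (hx : 1 ≤ x) (hu : IsPt q x u) (hv : IsPt q x v) {I : Fin 11 → ℕ}
    (hI : Siz I u) (ht : 4 ≤ (x ^ (q.ε / 50)) ^ 200) (i o e : Fin 11) (hi : i = 3 ∨ i = 5 ∨ i = 7)
    (ho : o.val % 2 = 1) (he : e.val % 2 = 0) :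
    (nr (v o) : ℝ) * nr (v e) ≤ ((2 : ℝ) ^ I i) ^ 2 := by
  have hx0 : 0 < x := by linarith
  have h1 : (nr (u i) : ℝ) ≤ 2 * 2 ^ I i := by
    have h := (hI i).2
    have h2 : ((nr (u i) : ℕ) : ℝ) ≤ ((2 ^ (I i + 1) : ℕ) : ℝ) := by exact_mod_cast h.le
    rw [pow_succ] at h2
    push_cast at h2
    linarith
  have h4 : (x ^ (q.ε / 50)) ^ 200 = x ^ (4 * q.ε) := by
    rw [← qn9_pw hx0]
    congr 1
    push_cast
    ring
  have h2 : (nr (v o) : ℝ) * nr (v e) * (x ^ (q.ε / 50)) ^ 200 ≤ (2 * 2 ^ I i) ^ 2 := by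
    rw [h4]
    calc (nr (v o) : ℝ) * nr (v e) * x ^ (4 * q.ε) ≤ x ^ q.hi o * x ^ q.hi e * x ^ (4 * q.ε) := by
          apply mul_le_mul_of_nonneg_right _ (by positivity)
          exact mul_le_mul (hv.hi o) (hv.hi e) (Nat.cast_nonneg _) (by positivity)
      _ = x ^ (q.hi o + q.hi e + 4 * q.ε) := by rw [← Real.rpow_add hx0, ← Real.rpow_add hx0]
      _ ≤ x ^ (2 * q.lo i) := Real.rpow_le_rpow_of_exponent_le hx (hq.big i o e hi ho he)
      _ = (x ^ q.lo i) ^ 2 := by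
          rw [mul_comm, Real.rpow_mul hx0.le]
          norm_cast
      _ ≤ (nr (u i) : ℝ) ^ 2 := pow_le_pow_left₀ (by positivity) (hu.lo i) 2
      _ ≤ (2 * 2 ^ I i) ^ 2 := pow_le_pow_left₀ (by positivity) h1 2
  have h3 : (nr (v o) : ℝ) * nr (v e) * 4 ≤ (2 * 2 ^ I i) ^ 2 :=
    (mul_le_mul_of_nonneg_left ht (by positivity)).trans h2
  have h5 : (2 * (2 : ℝ) ^ I i) ^ 2 = 4 * ((2 : ℝ) ^ I i) ^ 2 := by ring
  linarith

/-- the even vertices of `u` are small against the vertex `9` of `v` -/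
theorem qn9_tiny (hq : q.Ok) (hx : 1 ≤ x) (hu : IsPt q x u) (hv : IsPt q x v) (e : Fin 11)
    (he : e = 2 ∨ e = 4 ∨ e = 6 ∨ e = 8) :
    (x ^ (q.ε / 50)) ^ 200 * nr (u e) ≤ (nr (v 9) : ℝ) := by
  have hx0 : 0 < x := by linarith
  have h4 : (x ^ (q.ε / 50)) ^ 200 = x ^ (4 * q.ε) := by
    rw [← qn9_pw hx0]
    congr 1
    push_cast
    ring
  have h9 := hq.tiny 9 (by decide)
  have hp : ∀ j : Fin 11, j ≠ 0 → j ≠ 10 → 0 ≤ q.hi j := by
    intro j h0 h10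
    have h1 := hq.pos j h0 h10
    have h2 := hq.le j
    have h3 := hq.ε0
    linarith
  have h2 := hp 2 (by decide) (by decide)
  have h4' := hp 4 (by decide) (by decide)
  have h6 := hp 6 (by decide) (by decide)
  have h8 := hp 8 (by decide) (by decide)
  have hs : 4 * q.ε + q.hi e ≤ q.lo 9 := by
    rcases he with rfl | rfl | rfl | rfl <;> linarith
  rw [h4]
  calc x ^ (4 * q.ε) * nr (u e) ≤ x ^ (4 * q.ε) * x ^ q.hi e :=
        mul_le_mul_of_nonneg_left (hu.hi e) (by positivity)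
    _ = x ^ (4 * q.ε + q.hi e) := by rw [← Real.rpow_add hx0]
    _ ≤ x ^ q.lo 9 := Real.rpow_le_rpow_of_exponent_le hx hs
    _ ≤ (nr (v 9) : ℝ) := hv.lo 9

/-- the second coordinate in the frame of the base `0` -/
theorem qn9_snd (hu : IsPt q x u) (k : Fin 11) : (cb 0 u k).2 = (u k).2 := by
  unfold cb dt
  rw [hu.f0]
  ring

theorem qn9_snd_pos (hu : IsPt q x u) (k : Fin 11) (h0 : k ≠ 0) : 0 < (cb 0 u k).2 := by
  rw [qn9_snd hu]
  by_cases h10 : k = 10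
  · rw [h10, hu.f1]
    norm_num
  · exact (coord_pos hu k h0 h10).2

/-- different primitive vectors with positive second coordinate are not parallel -/
theorem qn9_ne {a c : ℤ × ℤ} (ha : Int.gcd a.1 a.2 = 1) (hc : Int.gcd c.1 c.2 = 1)
    (ha2 : 0 < a.2) (hc2 : 0 < c.2) (hac : a ≠ c) : dt a c ≠ 0 := by
  intro h
  rcases par_eq ha hc h with h1 | h1
  · exact hac h1
  · rw [h1] at ha2
    simp only [Prod.snd_neg] at ha2
    linarith

/-- the numbers `g_j` -/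
noncomputable def qn9_G (u v : PolyK 11) (j : Fin 11) : ℕ :=
  if j = 0 then dil 0 u v 0 0
  else if j = 9 then dil 0 u v 9 0
  else if j = 8 then dil 0 u v 8 8
  else if j = 1 ∨ j = 10 then 1 else dil 0 u v j 7

theorem qn9_Gdvd (u v : PolyK 11) (j : Fin 11) : qn9_G u v j ∣ dn u j := by
  unfold qn9_G
  split_ifs with h0 h9 h8 h1
  · rw [h0]
    exact (dil_dvd 0 0 0 u v).1
  · rw [h9]
    exact (dil_dvd 0 9 0 u v).1
  · rw [h8]
    exact (dil_dvd 0 8 8 u v).1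
  · exact one_dvd _
  · exact (dil_dvd 0 j 7 u v).1

theorem qn9_Gpos (u v : PolyK 11) (j : Fin 11) : 0 < qn9_G u v j := by
  unfold qn9_G
  split_ifs
  · exact dil_pos _ _ _ _ _
  · exact dil_pos _ _ _ _ _
  · exact dil_pos _ _ _ _ _
  · exact one_pos
  · exact dil_pos _ _ _ _ _

theorem qn9_G_in (u v : PolyK 11) (j : Fin 11) (h : j ∈ ({2, 3, 4, 5, 6, 7} : Finset (Fin 11))) :
    qn9_G u v j = dil 0 u v j 7 := by
  unfold qn9_G
  fin_cases h <;> rfl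

theorem qn9_fin1 : ∀ i : Fin 11, i ∉ ({2, 3, 4, 5, 6, 7} : Finset (Fin 11)) →
    i = 0 ∨ i = 1 ∨ i = 8 ∨ i = 9 ∨ i = 10 := by decide

theorem qn9_fin2 : ∀ i : Fin 11, (10 : Fin 11) ∈ vx 0 i → i = 0 ∨ i = 9 ∨ i = 10 := by decide

theorem qn9_fin5 : ∀ i : Fin 11, (9 : Fin 11) ∈ vx 0 i → i = 0 ∨ i = 8 ∨ i = 9 := by decide

/-- the common part of the edge `7` -/
theorem qn9_gl7 (hu : IsPt q x u) (hv : IsPt q x v) (h10 : cb 0 v 10 = cb 0 u 10)
    (h9 : cb 0 v 9 = cb 0 u 9) :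
    gl 0 u v 7 = ∏ i ∈ ({2, 3, 4, 5, 6, 7} : Finset (Fin 11)), dil 0 u v i 7 := by
  rw [gl_eq hu hv]
  symm
  apply Finset.prod_subset (Finset.subset_univ _)
  intro i _ hi
  apply dil_one
  intro p hp hC
  have hi' := qn9_fin1 i hi
  rcases hi' with rfl | rfl | rfl | rfl | rfl
  · have h := CL_same (u := v) (v := u) hv hp 0 7 0 10 10 ((CL_symm 0 0 7 u v p).1 hC)
      (by decide) (Or.inl h10)
    revert h
    decide
  · have h := (CL_spec hu hv hp 0 1 7 hC).2.1 (by decide)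
    revert h
    decide
  · have h := CL_same (u := v) (v := u) hv hp 0 7 8 9 9 ((CL_symm 0 8 7 u v p).1 hC)
      (by decide) (Or.inl h9)
    revert h
    decide
  · have h := CL_same (u := v) (v := u) hv hp 0 7 9 10 10 ((CL_symm 0 9 7 u v p).1 hC)
      (by decide) (Or.inl h10)
    revert h
    decide
  · have h := hC.1
    rw [dn_ten hu] at h
    exact hp.one_lt.ne' (Nat.dvd_one.1 h)

/-- the common part of the edge `0` -/
theorem qn9_gl0 (hu : IsPt q x u) (hv : IsPt q x v) (h10 : cb 0 v 10 = cb 0 u 10) :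
    gl 0 u v 0 = qn9_G u v 0 * qn9_G u v 9 := by
  have h1 : gl 0 u v 0 = ∏ i ∈ ({0, 9} : Finset (Fin 11)), dil 0 u v i 0 := by
    rw [gl_eq hu hv]
    symm
    apply Finset.prod_subset (Finset.subset_univ _)
    intro i _ hi
    apply dil_one
    intro p hp hC
    have h := CL_same (u := u) (v := v) hu hp 0 i 0 10 10 hC (by decide) (Or.inl h10.symm)
    have hi' := qn9_fin2 i h
    rcases hi' with rfl | rfl | rfl
    · exact hi (by decide)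
    · exact hi (by decide)
    · have h := hC.1
      rw [dn_ten hu] at h
      exact hp.one_lt.ne' (Nat.dvd_one.1 h)
  rw [h1, Finset.prod_insert (by decide), Finset.prod_singleton]
  rfl

/-- the common part of the edge `8` -/
theorem qn9_gl8 (hu : IsPt q x u) (hv : IsPt q x v) (h10 : cb 0 v 10 = cb 0 u 10)
    (h9 : cb 0 v 9 = cb 0 u 9) : gl 0 u v 8 = qn9_G u v 8 := by
  have h1 : gl 0 u v 8 = ∏ i ∈ ({8} : Finset (Fin 11)), dil 0 u v i 8 := by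
    rw [gl_eq hu hv]
    symm
    apply Finset.prod_subset (Finset.subset_univ _)
    intro i _ hi
    apply dil_one
    intro p hp hC
    have h := CL_same (u := u) (v := v) hu hp 0 i 8 9 9 hC (by decide) (Or.inl h9.symm)
    have hi' := qn9_fin5 i h
    rcases hi' with rfl | rfl | rfl
    · have h := CL_same (u := v) (v := u) hv hp 0 8 0 10 10 ((CL_symm 0 0 8 u v p).1 hC)
        (by decide) (Or.inl h10)
      revert h
      decide
    · exact hi (by decide)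
    · have h := CL_same (u := v) (v := u) hv hp 0 8 9 10 10 ((CL_symm 0 9 8 u v p).1 hC)
        (by decide) (Or.inl h10)
      revert h
      decide
  rw [h1, Finset.prod_singleton]
  rfl

theorem qn9_gl7' (hu : IsPt q x u) (hv : IsPt q x v) (h10 : cb 0 v 10 = cb 0 u 10)
    (h9 : cb 0 v 9 = cb 0 u 9) :
    gl 0 u v 7 = qn9_G u v 2 * qn9_G u v 3 * qn9_G u v 4 * qn9_G u v 5 * qn9_G u v 6 *
      qn9_G u v 7 := by
  have h : ∏ i ∈ ({2, 3, 4, 5, 6, 7} : Finset (Fin 11)), dil 0 u v i 7 =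
      ∏ i ∈ ({2, 3, 4, 5, 6, 7} : Finset (Fin 11)), qn9_G u v i :=
    Finset.prod_congr rfl fun i hi => (qn9_G_in u v i hi).symm
  rw [qn9_gl7 hu hv h10 h9, h]
  rw [Finset.prod_insert (by decide), Finset.prod_insert (by decide),
    Finset.prod_insert (by decide), Finset.prod_insert (by decide),
    Finset.prod_insert (by decide), Finset.prod_singleton]
  ring

/-- the data of the master count -/
noncomputable def qn9_s (u v : PolyK 11) : PolyK 11 × (ℤ × ℤ) × (Fin 11 → ℕ) :=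
  (u, cb 0 v 8, qn9_G u v)

theorem qn9_fin3 : ∀ i ∈ ({3, 5, 7} : Finset (Fin 11)), (i - 1 ∈ ({2, 3, 4, 5, 6, 7} :
    Finset (Fin 11))) ∧ i ∈ ({2, 3, 4, 5, 6, 7} : Finset (Fin 11)) ∧ i ∈ vx 0 (i - 1) ∧
      i ∈ vx 0 i := by decide

theorem qn9_fin4 : ∀ i ∈ ({3, 5, 7} : Finset (Fin 11)), ∀ j, j = i - 1 ∨ j = i →
    ev j ∈ vx 0 j ∧ (ev j = 2 ∨ ev j = 4 ∨ ev j = 6 ∨ ev j = 8) ∧
      j ∈ ({2, 3, 4, 5, 6, 7} : Finset (Fin 11)) := by decide

/-- the even vertices are not parallel to `w` -/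
theorem qn9_ev (hu : IsPt q x u) (hv : IsPt q x v) (h10 : cb 0 v 10 = cb 0 u 10)
    (h9 : cb 0 v 9 = cb 0 u 9) (h8 : cb 0 v 8 ≠ cb 0 u 8) (hg : 1 < gl 0 u v 8) (e : Fin 11)
    (he : e = 2 ∨ e = 4 ∨ e = 6 ∨ e = 8) : dt (cb 0 u e) (cb 0 v 8) ≠ 0 := by
  have hnb : e ∈ nb 0 := by rcases he with rfl | rfl | rfl | rfl <;> decide
  have he0 : e ≠ 0 := by rcases he with rfl | rfl | rfl | rfl <;> decide
  apply qn9_ne (cb_prim hu 0 e hnb) (cb_prim hv 0 8 (by decide)) (qn9_snd_pos hu e he0)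
    (qn9_snd_pos hv 8 (by decide))
  intro h
  by_cases he8 : e = 8
  · rw [he8] at h
    exact h8 h.symm
  · obtain ⟨p, hp, hpd⟩ := Nat.exists_prime_and_dvd hg.ne'
    rw [qn9_gl8 hu hv h10 h9] at hpd
    have hC : CL 0 u v 8 8 p := (prime_dil hp hu 0 8 8 v).1 hpd
    have hm := CL_same (u := u) (v := v) hu hp 0 8 8 e 8 hC (by decide) (Or.inl h)
    rcases he with rfl | rfl | rfl | rfl
    · revert hm
      decide
    · revert hm
      decide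
    · revert hm
      decide
    · exact he8 rfl

/-- `x ^ (sum of exponents) ≤ x` -/
theorem qn9_wb (hq : q.Ok) (hx : 1 ≤ x) (hv : IsPt q x v) (k : Fin 11) (hk : k ≠ 1) :
    |((cb 0 v k).1 : ℝ)| ≤ x ∧ |((cb 0 v k).2 : ℝ)| ≤ x := by
  have hx0 : 0 < x := by linarith
  obtain ⟨h1, h2⟩ := cb_le 0 k v
  have hh : ∀ j, 0 ≤ q.hi j := by
    intro j
    have := hq.le j
    by_cases h0 : j = 0
    · rw [h0, hq.h0]
    by_cases h10 : j = 10
    · rw [h10, hq.h10]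
    have := hq.pos j h0 h10
    have := hq.ε0
    linarith
  have hsum : q.hi k + q.hi 1 ≤ 1 / 10 := by
    refine le_trans ?_ hq.sm
    rw [← Finset.sum_pair hk]
    exact Finset.sum_le_sum_of_subset_of_nonneg (Finset.subset_univ _) (fun i _ _ => hh i)
  have h3 : (nr (v k) : ℝ) * nr (v 1) ≤ x := by
    calc (nr (v k) : ℝ) * nr (v 1) ≤ x ^ q.hi k * x ^ q.hi 1 :=
          mul_le_mul (hv.hi k) (hv.hi 1) (Nat.cast_nonneg _) (by positivity)
      _ = x ^ (q.hi k + q.hi 1) := by rw [← Real.rpow_add hx0]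
      _ ≤ x ^ (1 : ℝ) := Real.rpow_le_rpow_of_exponent_le hx (by linarith)
      _ = x := Real.rpow_one x
  have h4 : (nr (v 0) : ℝ) * nr (v k) ≤ x := by
    calc (nr (v 0) : ℝ) * nr (v k) ≤ x ^ q.hi 0 * x ^ q.hi k :=
          mul_le_mul (hv.hi 0) (hv.hi k) (Nat.cast_nonneg _) (by positivity)
      _ = x ^ (q.hi 0 + q.hi k) := by rw [← Real.rpow_add hx0]
      _ ≤ x ^ (1 : ℝ) := by
          apply Real.rpow_le_rpow_of_exponent_le hx
          rw [hq.h0]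
          have := hh 1
          linarith
      _ = x := Real.rpow_one x
  exact ⟨h1.trans h3, h2.trans h4⟩

theorem qn9_MD (hq : q.Ok) (hx : 1 ≤ x) {I : Fin 11 → ℕ}
    (hI : Siz I u) (hu : IsPt q x u) (hv : IsPt q x v) (h10 : cb 0 v 10 = cb 0 u 10)
    (h9 : cb 0 v 9 = cb 0 u 9) (h8 : cb 0 v 8 ≠ cb 0 u 8) (hg : 1 < gl 0 u v 8) :
    MD q x 0 {3, 5, 7} I (qn9_s u v) where
  pt := hu
  siz := hI
  wp := cb_prim hv 0 8 (by decide)
  wb := qn9_wb hq hx hv 8 (by decide)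
  dv := fun j => qn9_Gdvd u v j
  par := by
    intro i hi
    obtain ⟨h1, h2, h3, h4⟩ := qn9_fin3 i hi
    unfold qn9_s
    simp only
    rw [qn9_G_in u v _ h1, qn9_G_in u v _ h2]
    exact ⟨dil_dvd_dt 0 (i - 1) 7 i 8 u v h3 (by decide), dil_dvd_dt 0 i 7 i 8 u v h4 (by decide)⟩
  evd := by
    intro i hi j hj
    obtain ⟨h1, h2, h3⟩ := qn9_fin4 i hi j hj
    unfold qn9_s
    simp only
    rw [qn9_G_in u v _ h3]
    exact ⟨dil_dvd_dt 0 j 7 (ev j) 8 u v h1 (by decide), qn9_ev hu hv h10 h9 h8 hg (ev j) h2⟩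

/-- the product over `O` -/
theorem qn9_prod (g : Fin 11 → ℕ) (U : Fin 11 → ℝ) (hg : ∀ j, 0 < g j)
    (h : ∀ i ∈ ({3, 5, 7} : Finset (Fin 11)), (g (i - 1) : ℝ) * g i ≤ U i ^ 2) :
    ∏ i ∈ ({3, 5, 7} : Finset (Fin 11)), (128 * U i ^ 2 / ((g (i - 1) : ℝ) * g i) + 6) ≤
      134 ^ 3 * (∏ i ∈ ({3, 5, 7} : Finset (Fin 11)), U i ^ 2) /
        ((g 2 : ℝ) * g 3 * g 4 * g 5 * g 6 * g 7) := by
  have h1 : ∀ i ∈ ({3, 5, 7} : Finset (Fin 11)), 128 * U i ^ 2 / ((g (i - 1) : ℝ) * g i) + 6 ≤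
      134 * (U i ^ 2 / ((g (i - 1) : ℝ) * g i)) := by
    intro i hi
    have h2 : (0 : ℝ) < (g (i - 1) : ℝ) * g i := by
      have := hg (i - 1)
      have := hg i
      positivity
    have h3 : 1 ≤ U i ^ 2 / ((g (i - 1) : ℝ) * g i) := by
      rw [one_le_div h2]
      exact h i hi
    have h4 : 128 * U i ^ 2 / ((g (i - 1) : ℝ) * g i) = 128 * (U i ^ 2 / ((g (i - 1) : ℝ) * g i)) := by
      ring
    rw [h4]
    linarith
  have h5 : ∏ i ∈ ({3, 5, 7} : Finset (Fin 11)), (128 * U i ^ 2 / ((g (i - 1) : ℝ) * g i) + 6) ≤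
      ∏ i ∈ ({3, 5, 7} : Finset (Fin 11)), (134 * (U i ^ 2 / ((g (i - 1) : ℝ) * g i))) :=
    Finset.prod_le_prod (fun i _ => by positivity) h1
  refine h5.trans (le_of_eq ?_)
  have e3 : (3 : Fin 11) - 1 = 2 := by decide
  have e5 : (5 : Fin 11) - 1 = 4 := by decide
  have e7 : (7 : Fin 11) - 1 = 6 := by decide
  have p : ∀ f : Fin 11 → ℝ, ∏ i ∈ ({3, 5, 7} : Finset (Fin 11)), f i = f 3 * (f 5 * f 7) := by
    intro f
    rw [Finset.prod_insert (by decide), Finset.prod_insert (by decide), Finset.prod_singleton]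
  rw [p, p, e3, e5, e7]
  have g2 : (g 2 : ℝ) ≠ 0 := by exact_mod_cast (hg 2).ne'
  have g3 : (g 3 : ℝ) ≠ 0 := by exact_mod_cast (hg 3).ne'
  have g4 : (g 4 : ℝ) ≠ 0 := by exact_mod_cast (hg 4).ne'
  have g5 : (g 5 : ℝ) ≠ 0 := by exact_mod_cast (hg 5).ne'
  have g6 : (g 6 : ℝ) ≠ 0 := by exact_mod_cast (hg 6).ne'
  have g7 : (g 7 : ℝ) ≠ 0 := by exact_mod_cast (hg 7).ne'
  field_simp

theorem qn9_nr0 (hu : IsPt q x u) : (nr (u 0) : ℝ) = 1 := by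
  rw [hu.f0]
  unfold nr
  norm_num

theorem qn9_nr10 (hu : IsPt q x u) : (nr (u 10) : ℝ) = 1 := by
  rw [hu.f1]
  unfold nr
  norm_num

theorem qn9_box (hn : q.Nar) (hx : 1 ≤ x) (hu : IsPt q x u) (hv : IsPt q x v) {I : Fin 11 → ℕ}
    (hI : Siz I u) (k : Fin 11) :
    (cb 0 v k).1.natAbs ≤ ⌊4 * (x ^ (q.ε / 50)) ^ 2 * (2 ^ I 1 * 2 ^ I k)⌋₊ ∧
      (cb 0 v k).2.natAbs ≤ ⌊2 * x ^ (q.ε / 50) * (2 : ℝ) ^ I k⌋₊ := by
  obtain ⟨h1, h2⟩ := cb_le 0 k v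
  have h3 := qn9_le hn hx hu hv hI k
  have h4 := qn9_le hn hx hu hv hI 1
  constructor
  · apply Nat.le_floor
    rw [Nat.cast_natAbs, Int.cast_abs]
    refine h1.trans ?_
    calc (nr (v k) : ℝ) * nr (v (0 + 1)) ≤
        (2 * x ^ (q.ε / 50) * 2 ^ I k) * (2 * x ^ (q.ε / 50) * 2 ^ I 1) :=
          mul_le_mul h3 h4 (Nat.cast_nonneg _) (by positivity)
      _ = _ := by ring
  · apply Nat.le_floor
    rw [Nat.cast_natAbs, Int.cast_abs]
    refine h2.trans ?_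
    rw [qn9_nr0 hv, one_mul]
    exact h3

/-- two vectors of a fibre are parallel modulo `g_0 g_8 g_9` -/
theorem qn9_par {u' v' : PolyK 11} (hu : IsPt q x u) (hv : IsPt q x v) (hu' : IsPt q x u')
    (hv' : IsPt q x v') (h10 : cb 0 v 10 = cb 0 u 10) (h9 : cb 0 v 9 = cb 0 u 9)
    (h10' : cb 0 v' 10 = cb 0 u' 10) (h9' : cb 0 v' 9 = cb 0 u' 9)
    (e10 : cb 0 u' 10 = cb 0 u 10) (e9 : cb 0 u' 9 = cb 0 u 9)
    (g0 : qn9_G u' v' 0 = qn9_G u v 0) (g8 : qn9_G u' v' 8 = qn9_G u v 8)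
    (g9 : qn9_G u' v' 9 = qn9_G u v 9) :
    ((qn9_G u v 0 * qn9_G u v 8 * qn9_G u v 9 : ℕ) : ℤ) ∣ dt (cb 0 v 8) (cb 0 v' 8) := by
  have c08 : Nat.Coprime (qn9_G u v 0) (qn9_G u v 8) :=
    Nat.Coprime.coprime_dvd_left (qn9_Gdvd u v 0)
      (Nat.Coprime.coprime_dvd_right (qn9_Gdvd u v 8) (hu.co 0 8 (by decide)))
  have c09 : Nat.Coprime (qn9_G u v 0) (qn9_G u v 9) :=
    Nat.Coprime.coprime_dvd_left (qn9_Gdvd u v 0)
      (Nat.Coprime.coprime_dvd_right (qn9_Gdvd u v 9) (hu.co 0 9 (by decide)))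
  have c89 : Nat.Coprime (qn9_G u v 8) (qn9_G u v 9) :=
    Nat.Coprime.coprime_dvd_left (qn9_Gdvd u v 8)
      (Nat.Coprime.coprime_dvd_right (qn9_Gdvd u v 9) (hu.co 8 9 (by decide)))
  have hsq : Squarefree (qn9_G u v 0 * qn9_G u v 8 * qn9_G u v 9) := by
    have s0 := (hu.sq 0).squarefree_of_dvd (qn9_Gdvd u v 0)
    have s8 := (hu.sq 8).squarefree_of_dvd (qn9_Gdvd u v 8)
    have s9 := (hu.sq 9).squarefree_of_dvd (qn9_Gdvd u v 9)
    rw [Nat.squarefree_mul (Nat.Coprime.mul_left c09 c89), Nat.squarefree_mul c08]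
    exact ⟨⟨s0, s8⟩, s9⟩
  have hprim : ∀ {a : ℤ × ℤ} {p : ℕ}, Int.gcd a.1 a.2 = 1 → p.Prime →
      ¬ ((p : ℤ) ∣ a.1 ∧ (p : ℤ) ∣ a.2) := by
    intro a p ha hp h
    have h1 : (p : ℤ) ∣ (Int.gcd a.1 a.2 : ℤ) := Int.dvd_coe_gcd h.1 h.2
    rw [ha] at h1
    have h2 : p ∣ 1 := by exact_mod_cast h1
    exact hp.one_lt.ne' (Nat.dvd_one.1 h2)
  apply sqf_dvd hsq
  intro p hp hpd
  have hcase : p ∣ qn9_G u v 8 ∨ p ∣ qn9_G u v 0 * qn9_G u v 9 := by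
    rw [hp.dvd_mul, hp.dvd_mul] at hpd
    rcases hpd with (h | h) | h
    · exact Or.inr (Dvd.dvd.mul_right h _)
    · exact Or.inl h
    · exact Or.inr (Dvd.dvd.mul_left h _)
  rcases hcase with h | h
  · -- the edge `8`
    have d1 : p ∣ dn v 8 := by
      rw [← qn9_gl8 hu hv h10 h9] at h
      exact h.trans (gl_dvd 0 8 u v)
    have d2 : p ∣ dn v' 8 := by
      rw [← g8, ← qn9_gl8 hu' hv' h10' h9'] at h
      exact h.trans (gl_dvd 0 8 u' v')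
    have k1 : (p : ℤ) ∣ dt (cb 0 v 9) (cb 0 v 8) :=
      on_line 0 8 9 8 v d1 (by decide) (by decide)
    have k2 : (p : ℤ) ∣ dt (cb 0 v' 9) (cb 0 v' 8) :=
      on_line 0 8 9 8 v' d2 (by decide) (by decide)
    rw [h9', e9, ← h9] at k2
    exact par_trans hp (hprim (cb_prim hv 0 9 (by decide)) hp) k1 k2
  · -- the edge `0`
    have d1 : p ∣ dn v 0 := by
      rw [← qn9_gl0 hu hv h10] at h
      exact h.trans (gl_dvd 0 0 u v)
    have d2 : p ∣ dn v' 0 := by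
      rw [← g0, ← g9, ← qn9_gl0 hu' hv' h10'] at h
      exact h.trans (gl_dvd 0 0 u' v')
    have k1 : (p : ℤ) ∣ dt (cb 0 v 10) (cb 0 v 8) :=
      on_line 0 0 10 8 v d1 (by decide) (by decide)
    have k2 : (p : ℤ) ∣ dt (cb 0 v' 10) (cb 0 v' 8) :=
      on_line 0 0 10 8 v' d2 (by decide) (by decide)
    rw [h10', e10, ← h10] at k2
    exact par_trans hp (hprim (cb_prim hv 0 10 (by decide)) hp) k1 k2

/-- the number of the vectors `w` in a fibre -/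
theorem qn9_fib (hn : q.Nar) (hx : 1 ≤ x) (ht : 1 ≤ x ^ (q.ε / 50)) (hu : IsPt q x u)
    {J : ℕ} (hJ0 : 0 < J)
    {I : Fin 11 → ℕ} (hI : Siz I u) (F : Finset (ℤ × ℤ))
    (hF : ∀ w ∈ F, ∃ v' : PolyK 11, IsPt q x v' ∧ w = cb 0 v' 8)
    (hF2 : ∀ w ∈ F, ∀ w' ∈ F, (J : ℤ) ∣ dt w w') :
    (F.card : ℝ) ≤ 64 * (x ^ (q.ε / 50)) ^ 3 * (2 ^ I 1 * (2 ^ I 8) ^ 2) / J + 6 := by
  have hx0 : 0 < x := by linarith
  have ht0 : 0 < x ^ (q.ε / 50) := by linarith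
  have hU : ∀ j, (1 : ℝ) ≤ 2 ^ I j := fun j => one_le_pow₀ (by norm_num)
  have hA : (1 : ℝ) ≤ 4 * (x ^ (q.ε / 50)) ^ 2 * (2 ^ I 1 * 2 ^ I 8) := by
    have h1 : (1 : ℝ) ≤ (x ^ (q.ε / 50)) ^ 2 := one_le_pow₀ ht
    have h2 : (1 : ℝ) ≤ 2 ^ I 1 * 2 ^ I 8 := one_le_mul_of_one_le_of_one_le (hU 1) (hU 8)
    have h3 := one_le_mul_of_one_le_of_one_le h1 h2
    linarith
  have hB : (1 : ℝ) ≤ 2 * x ^ (q.ε / 50) * (2 : ℝ) ^ I 8 := by
    have h3 := one_le_mul_of_one_le_of_one_le ht (hU 8)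
    linarith
  have key := lattice_lemma F ⌊4 * (x ^ (q.ε / 50)) ^ 2 * (2 ^ I 1 * 2 ^ I 8)⌋₊
    ⌊2 * x ^ (q.ε / 50) * (2 : ℝ) ^ I 8⌋₊ J
    (Nat.le_floor (by simpa using hA)) (Nat.le_floor (by simpa using hB)) hJ0
    (by
      intro w hw
      obtain ⟨v', hv', rfl⟩ := hF w hw
      exact cb_prim hv' 0 8 (by decide))
    (by
      intro w hw
      obtain ⟨v', hv', rfl⟩ := hF w hw
      exact (qn9_box hn hx hu hv' hI 8).1)
    (by
      intro w hw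
      obtain ⟨v', hv', rfl⟩ := hF w hw
      exact (qn9_box hn hx hu hv' hI 8).2)
    hF2
  refine key.trans ?_
  have hJ : (0 : ℝ) < (J : ℝ) := by exact_mod_cast hJ0
  apply add_le_add _ le_rfl
  apply div_le_div_of_nonneg_right _ hJ.le
  have f1 := Nat.floor_le (show 0 ≤ 4 * (x ^ (q.ε / 50)) ^ 2 * ((2 : ℝ) ^ I 1 * 2 ^ I 8) by linarith)
  have f2 := Nat.floor_le (show 0 ≤ 2 * x ^ (q.ε / 50) * (2 : ℝ) ^ I 8 by linarith)
  calc 8 * (⌊4 * (x ^ (q.ε / 50)) ^ 2 * ((2 : ℝ) ^ I 1 * 2 ^ I 8)⌋₊ : ℝ) *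
        (⌊2 * x ^ (q.ε / 50) * (2 : ℝ) ^ I 8⌋₊ : ℝ)
      ≤ 8 * (4 * (x ^ (q.ε / 50)) ^ 2 * ((2 : ℝ) ^ I 1 * 2 ^ I 8)) *
        (2 * x ^ (q.ε / 50) * (2 : ℝ) ^ I 8) := by
        apply mul_le_mul _ f2 (Nat.cast_nonneg _) (by positivity)
        exact mul_le_mul_of_nonneg_left f1 (by norm_num)
    _ = 64 * (x ^ (q.ε / 50)) ^ 3 * (2 ^ I 1 * (2 ^ I 8) ^ 2) := by ring

/-- the image is small -/
theorem qn9_seven {t c U1 U8 U9 J : ℝ} (ht : 1 ≤ t) (hc : 0 < c) (hct : 128 / c ^ 2 ≤ t)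
    (hU1 : 0 < U1) (hU8 : 0 < U8) (h9 : U8 * t ^ 200 / 2 ≤ U9)
    (hJ : c ^ 2 * (U1 * U8 * U9) ≤ t ^ 13 * J) (hJ0 : 0 < J) :
    64 * t ^ 3 * (U1 * U8 ^ 2) / J + 6 ≤ 7 := by
  have ht0 : 0 < t := by linarith
  have h1 : c ^ 2 * (U1 * U8 ^ 2) * (t ^ 187 / 2) ≤ J := by
    have h2 : t ^ 13 * (c ^ 2 * (U1 * U8 ^ 2) * (t ^ 187 / 2)) ≤ t ^ 13 * J := by
      calc t ^ 13 * (c ^ 2 * (U1 * U8 ^ 2) * (t ^ 187 / 2)) =
          c ^ 2 * (U1 * U8 * (U8 * t ^ 200 / 2)) := by ring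
        _ ≤ c ^ 2 * (U1 * U8 * U9) := by
            apply mul_le_mul_of_nonneg_left _ (by positivity)
            exact mul_le_mul_of_nonneg_left h9 (by positivity)
        _ ≤ t ^ 13 * J := hJ
    exact le_of_mul_le_mul_left h2 (by positivity)
  have h2 : 128 ≤ c ^ 2 * t ^ 184 := by
    have h5 : 128 ≤ t * c ^ 2 := (div_le_iff₀ (by positivity)).1 hct
    have h6 : t ≤ t ^ 184 := le_self_pow₀ ht (by norm_num)
    have h7 := mul_le_mul_of_nonneg_left h6 (show 0 ≤ c ^ 2 by positivity)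
    linarith
  have h3 : 64 * t ^ 3 * (U1 * U8 ^ 2) ≤ J := by
    refine le_trans ?_ h1
    have h4 := mul_le_mul_of_nonneg_right h2 (show 0 ≤ t ^ 3 * (U1 * U8 ^ 2) / 2 by positivity)
    calc 64 * t ^ 3 * (U1 * U8 ^ 2) = 128 * (t ^ 3 * (U1 * U8 ^ 2) / 2) := by ring
      _ ≤ c ^ 2 * t ^ 184 * (t ^ 3 * (U1 * U8 ^ 2) / 2) := h4
      _ = _ := by ring
  have h4 : 64 * t ^ 3 * (U1 * U8 ^ 2) / J ≤ 1 := by
    rw [div_le_one hJ0]
    exact h3
  linarith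

/-- the numbers -/
theorem qn9_num {t c P G7 R F : ℝ} (ht : 1 ≤ t) (hc : 0 < c)
    (hct : 7 * 134 ^ 3 / c ≤ t) (hP : 0 ≤ P) (h7 : c * t ^ 400 ≤ t ^ 5 * G7) (hG7 : 0 < G7)
    (hR : R ≤ 134 ^ 3 * P / G7) (hR0 : 0 ≤ R) (hF : F ≤ 7) :
    F * R ≤ P * (t ^ 150)⁻¹ := by
  have ht0 : 0 < t := by linarith
  have h1 : c * t ^ 395 ≤ G7 := by
    have h2 : t ^ 5 * (c * t ^ 395) ≤ t ^ 5 * G7 := by
      calc t ^ 5 * (c * t ^ 395) = c * t ^ 400 := by ring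
        _ ≤ _ := h7
    exact le_of_mul_le_mul_left h2 (by positivity)
  have h2 : 7 * 134 ^ 3 * t ^ 150 ≤ G7 := by
    refine le_trans ?_ h1
    have h5 : 7 * 134 ^ 3 ≤ t * c := (div_le_iff₀ (by positivity)).1 hct
    have h6 : t ≤ t ^ 245 := le_self_pow₀ ht (by norm_num)
    have h7 := mul_le_mul_of_nonneg_left h6 hc.le
    have h8 : 7 * 134 ^ 3 ≤ c * t ^ 245 := by linarith
    have h9 := mul_le_mul_of_nonneg_right h8 (show 0 ≤ t ^ 150 by positivity)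
    calc 7 * 134 ^ 3 * t ^ 150 ≤ c * t ^ 245 * t ^ 150 := h9
      _ = _ := by ring
  calc F * R ≤ 7 * R := mul_le_mul_of_nonneg_right hF hR0
    _ ≤ 7 * (134 ^ 3 * P / G7) := mul_le_mul_of_nonneg_left hR (by norm_num)
    _ = (7 * 134 ^ 3 * t ^ 150) * (P * (t ^ 150)⁻¹) / G7 := by
        field_simp
    _ ≤ G7 * (P * (t ^ 150)⁻¹) / G7 := by
        apply div_le_div_of_nonneg_right _ hG7.le
        exact mul_le_mul_of_nonneg_right h2 (by positivity)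
    _ = P * (t ^ 150)⁻¹ := by
        field_simp

theorem qn9_u_eq {u u' : PolyK 11} {w w' : ℤ × ℤ} {g g' : Fin 11 → ℕ}
    (h : fE ({3, 5, 7} : Finset (Fin 11)) (u', w', g') = fE ({3, 5, 7} : Finset (Fin 11)) (u, w, g))
    (j : Fin 11) (hj : j ∉ ({3, 5, 7} : Finset (Fin 11))) : u' j = u j := by
  have h1 := congrFun h j
  unfold fE at h1
  simp only [if_neg hj] at h1
  exact h1

theorem qn9_g_eq {u u' : PolyK 11} {w w' : ℤ × ℤ} {g g' : Fin 11 → ℕ}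
    (h : fK ({3, 5, 7} : Finset (Fin 11)) (u', w', g') = fK ({3, 5, 7} : Finset (Fin 11)) (u, w, g))
    (j : Fin 11) (hj : ¬ (j ∈ ({3, 5, 7} : Finset (Fin 11)) ∨ j + 1 ∈ ({3, 5, 7} : Finset (Fin 11)))) :
    g' j = g j := by
  have h1 := congrFun h j
  unfold fK at h1
  simp only [if_neg hj] at h1
  exact h1

/-- lower bound of the vertices -/
theorem qn9_lo (hq : q.Ok) (hx : 1 ≤ x) (hv : IsPt q x v) (j : Fin 11) (h0 : j ≠ 0)
    (h10 : j ≠ 10) : (x ^ (q.ε / 50)) ^ 200 ≤ (nr (v j) : ℝ) := by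
  have hx0 : 0 < x := by linarith
  refine le_trans ?_ (hv.lo j)
  rw [← qn9_pw hx0]
  apply Real.rpow_le_rpow_of_exponent_le hx
  have := hq.pos j h0 h10
  push_cast
  linarith

/-- the vertex `9` against the vertex `8` -/
theorem qn9_89 (hq : q.Ok) (hx : 1 ≤ x) (hu : IsPt q x u) {I : Fin 11 → ℕ} (hI : Siz I u) :
    (2 : ℝ) ^ I 8 * (x ^ (q.ε / 50)) ^ 200 / 2 ≤ 2 ^ I 9 := by
  have hx0 : 0 < x := by linarith
  obtain ⟨h1, -, -⟩ := siz_bd hq hx hu hI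
  have h8 := (h1 8).2
  have h9 := (h1 9).1
  have h4 : (x ^ (q.ε / 50)) ^ 200 = x ^ (4 * q.ε) := by
    rw [← qn9_pw hx0]
    congr 1
    push_cast
    ring
  have ht := hq.tiny 9 (by decide)
  have hp : ∀ j : Fin 11, j ≠ 0 → j ≠ 10 → 0 ≤ q.hi j := by
    intro j h0 h10
    have h1 := hq.pos j h0 h10
    have h2 := hq.le j
    have h3 := hq.ε0
    linarith
  have h2' := hp 2 (by decide) (by decide)
  have h4' := hp 4 (by decide) (by decide)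
  have h6' := hp 6 (by decide) (by decide)
  have h8' := hp 8 (by decide) (by decide)
  have h5 : (2 : ℝ) ^ I 8 * (x ^ (q.ε / 50)) ^ 200 ≤ x ^ q.lo 9 := by
    rw [h4]
    calc (2 : ℝ) ^ I 8 * x ^ (4 * q.ε) ≤ x ^ q.hi 8 * x ^ (4 * q.ε) :=
          mul_le_mul_of_nonneg_right h8 (by positivity)
      _ = x ^ (q.hi 8 + 4 * q.ε) := by rw [← Real.rpow_add hx0]
      _ ≤ x ^ q.lo 9 := Real.rpow_le_rpow_of_exponent_le hx (by linarith)
  linarith

/-- the common part of the edge `8` is not trivial -/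
theorem qn9_one (hq : q.Ok) (hx : 1 ≤ x) (hc : 2 / q.c3 ≤ x ^ (q.ε / 50)) (hv : IsPt q x v)
    (l8 : q.c3 * nr (v 8) * nr (v (8 + 1)) ≤ (x ^ (q.ε / 50)) ^ 5 * gl 0 u v 8) :
    1 < gl 0 u v 8 := by
  have h8 := qn9_lo hq hx hv 8 (by decide) (by decide)
  have h9 := qn9_lo hq hx hv (8 + 1) (by decide) (by decide)
  have hc0 := hq.c30
  obtain ⟨t, ht⟩ : ∃ t : ℝ, t = x ^ (q.ε / 50) := ⟨_, rfl⟩
  rw [← ht] at h8 h9 hc l8
  have ht1 : 1 ≤ t := by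
    rw [ht]
    exact Real.one_le_rpow hx (by have := hq.ε0; positivity)
  have ht0 : 0 < t := by linarith
  have h1 : t ^ 5 * (q.c3 * t ^ 395) ≤ t ^ 5 * gl 0 u v 8 := by
    calc t ^ 5 * (q.c3 * t ^ 395) = q.c3 * t ^ 200 * t ^ 200 := by ring
      _ ≤ q.c3 * nr (v 8) * nr (v (8 + 1)) := by
          apply mul_le_mul _ h9 (by positivity) (by positivity)
          exact mul_le_mul_of_nonneg_left h8 hc0.le
      _ ≤ _ := l8
  have h2 : q.c3 * t ^ 395 ≤ (gl 0 u v 8 : ℝ) := le_of_mul_le_mul_left h1 (by positivity)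
  have h3 : 2 ≤ q.c3 * t := by
    have := (div_le_iff₀ hc0).1 hc
    linarith
  have h4 : t ≤ t ^ 395 := le_self_pow₀ ht1 (by norm_num)
  have h5 := mul_le_mul_of_nonneg_left h4 hc0.le
  have h6 : (1 : ℝ) < (gl 0 u v 8 : ℝ) := by linarith
  exact_mod_cast h6

theorem cnt_0iii (hq : q.Ok) (hn : q.Nar) :
    ∃ x₀ : ℝ, 1 ≤ x₀ ∧ ∀ x ≥ x₀, ∀ (I : Fin 11 → ℕ) (S : Finset (PolyK 11)),
    (∀ u ∈ S, Siz I u ∧ ∃ v, NP q x 0 u v ∧ cb 0 v 10 = cb 0 u 10 ∧ cb 0 v 9 = cb 0 u 9 ∧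
      cb 0 v 8 ≠ cb 0 u 8) →
    (S.card : ℝ) ≤ x ^ (-(2 * q.ε)) * ∏ j, ((2 : ℝ) ^ I j) ^ 2 := by
  classical
  have hc := hq.c30
  obtain ⟨x₁, hx₁, hm⟩ := master hq hq.ε0
  obtain ⟨x₂, hx₂, ht⟩ := qn9_t hq (max 4 (max (2 / q.c3) (max (128 / q.c3 ^ 2)
    (7 * 134 ^ 3 / q.c3))))
  refine ⟨max x₁ x₂, hx₁.trans (le_max_left _ _), ?_⟩
  intro x hx I S hS
  have hxx₁ : x₁ ≤ x := (le_max_left _ _).trans hx
  have hxx₂ : x₂ ≤ x := (le_max_right _ _).trans hx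
  obtain ⟨ht1, ht2⟩ := ht x hxx₂
  have hx1 : 1 ≤ x := hx₁.trans hxx₁
  have hx0 : 0 < x := by linarith
  have ht4 : 4 ≤ x ^ (q.ε / 50) := (le_max_left _ _).trans ht1
  have htc : 2 / q.c3 ≤ x ^ (q.ε / 50) :=
    ((le_max_left _ _).trans (le_max_right _ _)).trans ht1
  have htD : 128 / q.c3 ^ 2 ≤ x ^ (q.ε / 50) :=
    ((le_max_left _ _).trans ((le_max_right _ _).trans (le_max_right _ _))).trans ht1
  have htC : 7 * 134 ^ 3 / q.c3 ≤ x ^ (q.ε / 50) :=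
    ((le_max_right _ _).trans ((le_max_right _ _).trans (le_max_right _ _))).trans ht1
  have hV : ∀ u : PolyK 11, ∃ v : PolyK 11, u ∈ S → (NP q x 0 u v ∧ cb 0 v 10 = cb 0 u 10 ∧
      cb 0 v 9 = cb 0 u 9 ∧ cb 0 v 8 ≠ cb 0 u 8) := by
    intro u
    by_cases hu : u ∈ S
    · obtain ⟨v, hv⟩ := (hS u hu).2
      exact ⟨v, fun _ => hv⟩
    · exact ⟨u, fun h => absurd h hu⟩
  choose V hV using hV
  obtain ⟨S', hS'⟩ : ∃ S' : Finset (PolyK 11 × (ℤ × ℤ) × (Fin 11 → ℕ)),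
    S' = S.image (fun u => qn9_s u (V u)) := ⟨_, rfl⟩
  have hcard : S'.card = S.card := by
    rw [hS']
    apply Finset.card_image_of_injOn
    intro a _ b _ hab
    have : (qn9_s a (V a)).1 = (qn9_s b (V b)).1 := by
      simp only at hab
      rw [hab]
    exact this
  obtain ⟨t, htd⟩ : ∃ t : ℝ, t = x ^ (q.ε / 50) := ⟨_, rfl⟩
  have key := hm x hxx₁ 0 {3, 5, 7} I (by decide) S'
    ((∏ i ∈ ({3, 5, 7} : Finset (Fin 11)), ((2 : ℝ) ^ I i) ^ 2) * (t ^ 150)⁻¹)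
    (mul_nonneg (Finset.prod_nonneg fun i _ => by positivity) (by rw [htd]; positivity))
    (by
      intro s hs
      rw [hS', Finset.mem_image] at hs
      obtain ⟨u, hu, rfl⟩ := hs
      obtain ⟨hNP, h10, h9, h8⟩ := hV u hu
      have l8 := qn9_gl hx1 hNP.pv 8 (hNP.nv 8)
      exact qn9_MD hq hx1 (hS u hu).1 hNP.pu hNP.pv h10 h9 h8 (qn9_one hq hx1 htc hNP.pv l8))
    (by
      intro s hs
      rw [hS', Finset.mem_image] at hs
      obtain ⟨u, hu, rfl⟩ := hs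
      obtain ⟨hNP, h10, h9, hne⟩ := hV u hu
      have hI := (hS u hu).1
      have hpu := hNP.pu
      have hpv := hNP.pv
      have hmem : ∀ w ∈ ((S'.filter (fun t => fE {3, 5, 7} t = fE {3, 5, 7} (qn9_s u (V u)) ∧
          fK {3, 5, 7} t = fK {3, 5, 7} (qn9_s u (V u)))).image (fun t => t.2.1)),
          ∃ u' : PolyK 11, IsPt q x u' ∧ IsPt q x (V u') ∧ w = cb 0 (V u') 8 ∧
            cb 0 (V u') 10 = cb 0 u' 10 ∧ cb 0 (V u') 9 = cb 0 u' 9 ∧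
            cb 0 u' 10 = cb 0 u 10 ∧ cb 0 u' 9 = cb 0 u 9 ∧
            qn9_G u' (V u') 0 = qn9_G u (V u) 0 ∧ qn9_G u' (V u') 8 = qn9_G u (V u) 8 ∧
            qn9_G u' (V u') 9 = qn9_G u (V u) 9 := by
        intro w hw
        rw [Finset.mem_image] at hw
        obtain ⟨t', ht', rfl⟩ := hw
        rw [Finset.mem_filter, hS', Finset.mem_image] at ht'
        obtain ⟨⟨u', hu', rfl⟩, hE, hK⟩ := ht'
        obtain ⟨hNP', h10', h9', hne'⟩ := hV u' hu'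
        have e0 := qn9_u_eq hE 0 (by decide)
        have e1 := qn9_u_eq hE 1 (by decide)
        have e9 := qn9_u_eq hE 9 (by decide)
        have e10 := qn9_u_eq hE 10 (by decide)
        refine ⟨u', hNP'.pu, hNP'.pv, rfl, h10', h9', ?_, ?_, ?_, ?_, ?_⟩
        · unfold cb
          rw [zero_add, e0, e1, e10]
        · unfold cb
          rw [zero_add, e0, e1, e9]
        · exact qn9_g_eq hK 0 (by decide)
        · exact qn9_g_eq hK 8 (by decide)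
        · exact qn9_g_eq hK 9 (by decide)
      have hJ0 : 0 < qn9_G u (V u) 0 * qn9_G u (V u) 8 * qn9_G u (V u) 9 :=
        Nat.mul_pos (Nat.mul_pos (qn9_Gpos _ _ _) (qn9_Gpos _ _ _)) (qn9_Gpos _ _ _)
      have hfib := qn9_fib hn hx1 ht2 hpu hJ0 hI
        ((S'.filter (fun t => fE {3, 5, 7} t = fE {3, 5, 7} (qn9_s u (V u)) ∧
          fK {3, 5, 7} t = fK {3, 5, 7} (qn9_s u (V u)))).image (fun t => t.2.1))
        (by
          intro w hw
          obtain ⟨u', -, hv', rfl, -⟩ := hmem w hw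
          exact ⟨V u', hv', rfl⟩)
        (by
          intro w hw w' hw'
          obtain ⟨u₁, hu₁, hv₁, rfl, a10, a9, b10, b9, c0, c8, c9⟩ := hmem w hw
          obtain ⟨u₂, hu₂, hv₂, rfl, a10', a9', b10', b9', c0', c8', c9'⟩ := hmem w' hw'
          rw [← c0, ← c8, ← c9]
          exact qn9_par hu₁ hv₁ hu₂ hv₂ a10 a9 a10' a9' (b10'.trans b10.symm)
            (b9'.trans b9.symm) (c0'.trans c0.symm) (c8'.trans c8.symm) (c9'.trans c9.symm))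
      have hprod := qn9_prod (qn9_G u (V u)) (fun i => (2 : ℝ) ^ I i)
        (fun j => qn9_Gpos u (V u) j)
        (by
          intro i hi
          have h1 : qn9_G u (V u) (i - 1) * qn9_G u (V u) i ∣ dn (V u) 7 := by
            refine dvd_trans ?_ (gl_dvd 0 7 u (V u))
            rw [qn9_gl7' hpu hpv h10 h9]
            have hi' : i = 3 ∨ i = 5 ∨ i = 7 := by simpa using hi
            rcases hi' with rfl | rfl | rfl
            · rw [show (3 : Fin 11) - 1 = 2 by decide]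
              exact ⟨qn9_G u (V u) 4 * qn9_G u (V u) 5 * qn9_G u (V u) 6 * qn9_G u (V u) 7,
                by ring⟩
            · rw [show (5 : Fin 11) - 1 = 4 by decide]
              exact ⟨qn9_G u (V u) 2 * qn9_G u (V u) 3 * qn9_G u (V u) 6 * qn9_G u (V u) 7,
                by ring⟩
            · rw [show (7 : Fin 11) - 1 = 6 by decide]
              exact ⟨qn9_G u (V u) 2 * qn9_G u (V u) 3 * qn9_G u (V u) 4 * qn9_G u (V u) 5,
                by ring⟩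
          have h2 := Nat.le_of_dvd (dn_pos hpv 7) h1
          have h3 : ((qn9_G u (V u) (i - 1) : ℕ) : ℝ) * (qn9_G u (V u) i : ℕ) ≤ (dn (V u) 7 : ℝ) := by
            exact_mod_cast h2
          refine h3.trans ((dn_le_nr (V u) 7).trans ?_)
          have h4 : (4 : ℝ) ≤ (x ^ (q.ε / 50)) ^ 200 :=
            ht4.trans (le_self_pow₀ ht2 (by norm_num))
          exact qn9_big hq hx1 hpu hpv hI h4 i 7 (7 + 1) (by simpa using hi) (by decide)
            (by decide))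
      have hg : ∀ j, (0 : ℝ) < (qn9_G u (V u) j : ℝ) := fun j => by
        exact_mod_cast qn9_Gpos u (V u) j
      have l7 := qn9_gl hx1 hpv 7 (hNP.nv 7)
      have l8 := qn9_gl hx1 hpv 8 (hNP.nv 8)
      have l0 := qn9_gl hx1 hpv 0 (hNP.nv 0)
      have g1 := qn9_ge hn hx1 hpu hpv hI 1
      have g8 := qn9_ge hn hx1 hpu hpv hI 8
      have g9 := qn9_ge hn hx1 hpu hpv hI 9
      have v7 := qn9_lo hq hx1 hpv 7 (by decide) (by decide)
      have v8 := qn9_lo hq hx1 hpv (7 + 1) (by decide) (by decide)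
      have u89 := qn9_89 hq hx1 hpu hI
      rw [← htd] at hfib ht2 htC htD l7 l8 l0 g1 g8 g9 v7 v8 u89
      have ht0 : 0 < t := by linarith
      have hU : ∀ j, (0 : ℝ) < 2 ^ I j := fun j => by positivity
      have L7 : q.c3 * t ^ 400 ≤ t ^ 5 * (gl 0 u (V u) 7 : ℝ) := by
        refine le_trans ?_ l7
        calc q.c3 * t ^ 400 = q.c3 * t ^ 200 * t ^ 200 := by ring
          _ ≤ q.c3 * nr (V u 7) * nr (V u (7 + 1)) := by
              apply mul_le_mul _ v8 (by positivity) (by positivity)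
              exact mul_le_mul_of_nonneg_left v7 hc.le
      have LJ : q.c3 ^ 2 * (2 ^ I 1 * 2 ^ I 8 * 2 ^ I 9) ≤
          t ^ 13 * ((gl 0 u (V u) 0 : ℝ) * gl 0 u (V u) 8) := by
        have l0' : q.c3 * nr (V u 1) ≤ t ^ 5 * gl 0 u (V u) 0 := by
          rw [qn9_nr0 hpv, mul_one, zero_add] at l0
          exact l0
        have l8' : q.c3 * nr (V u 8) * nr (V u 9) ≤ t ^ 5 * gl 0 u (V u) 8 := by
          rw [show (8 : Fin 11) + 1 = 9 by decide] at l8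
          exact l8
        calc q.c3 ^ 2 * (2 ^ I 1 * 2 ^ I 8 * 2 ^ I 9) ≤
            q.c3 ^ 2 * (((t * nr (V u 1)) * (t * nr (V u 8))) * (t * nr (V u 9))) := by
              apply mul_le_mul_of_nonneg_left _ (by positivity)
              apply mul_le_mul _ g9 (hU 9).le (by positivity)
              exact mul_le_mul g1 g8 (hU 8).le (by positivity)
          _ = t ^ 3 * ((q.c3 * nr (V u 1)) * (q.c3 * nr (V u 8) * nr (V u 9))) := by ring
          _ ≤ t ^ 3 * ((t ^ 5 * gl 0 u (V u) 0) * (t ^ 5 * gl 0 u (V u) 8)) := by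
              apply mul_le_mul_of_nonneg_left _ (by positivity)
              exact mul_le_mul l0' l8' (by positivity) (by positivity)
          _ = _ := by ring
      have hJe : ((qn9_G u (V u) 0 * qn9_G u (V u) 8 * qn9_G u (V u) 9 : ℕ) : ℝ) =
          (gl 0 u (V u) 0 : ℝ) * gl 0 u (V u) 8 := by
        rw [qn9_gl0 hpu hpv h10, qn9_gl8 hpu hpv h10 h9]
        push_cast
        ring
      have hfib2 : ((((S'.filter (fun t => fE {3, 5, 7} t = fE {3, 5, 7} (qn9_s u (V u)) ∧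
          fK {3, 5, 7} t = fK {3, 5, 7} (qn9_s u (V u)))).image (fun t => t.2.1)).card : ℕ) : ℝ)
          ≤ 7 := by
        refine hfib.trans ?_
        rw [hJe]
        exact qn9_seven ht2 hc htD (hU 1) (hU 8) u89 LJ (by
          have h0 := gl_pos 0 0 u (V u)
          have h8 := gl_pos 0 8 u (V u)
          positivity)
      have e7 : (gl 0 u (V u) 7 : ℝ) = (qn9_G u (V u) 2 : ℝ) * qn9_G u (V u) 3 *
            qn9_G u (V u) 4 * qn9_G u (V u) 5 * qn9_G u (V u) 6 * qn9_G u (V u) 7 := by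
        rw [qn9_gl7' hpu hpv h10 h9]
        push_cast
        ring
      rw [← e7] at hprod
      exact qn9_num ht2 hc htC (Finset.prod_nonneg fun i _ => by positivity) L7
        (by exact_mod_cast gl_pos 0 7 u (V u)) hprod
        (Finset.prod_nonneg fun i _ => by positivity) hfib2)
  rw [hcard] at key
  refine key.trans (le_of_eq ?_)
  have hε : x ^ q.ε = t ^ 50 := by
    rw [htd, ← qn9_pw hx0]
    congr 1
    push_cast
    ring
  have hε2 : x ^ (-(2 * q.ε)) = (t ^ 100)⁻¹ := by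
    rw [Real.rpow_neg hx0.le, htd, ← qn9_pw hx0]
    congr 2
    push_cast
    ring
  have ht0 : 0 < t := by
    rw [htd]
    positivity
  rw [hε, hε2]
  have hp : (∏ j ∈ ({3, 5, 7} : Finset (Fin 11))ᶜ, ((2 : ℝ) ^ I j) ^ 2) *
      ∏ i ∈ ({3, 5, 7} : Finset (Fin 11)), ((2 : ℝ) ^ I i) ^ 2 = ∏ j, ((2 : ℝ) ^ I j) ^ 2 :=
    Finset.prod_compl_mul_prod _ _
  rw [← hp]
  have e3 : t ^ 50 * (t ^ 150)⁻¹ = (t ^ 100)⁻¹ := by
    field_simp
  calc t ^ 50 * (∏ j ∈ ({3, 5, 7} : Finset (Fin 11))ᶜ, ((2 : ℝ) ^ I j) ^ 2) *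
      ((∏ i ∈ ({3, 5, 7} : Finset (Fin 11)), ((2 : ℝ) ^ I i) ^ 2) * (t ^ 150)⁻¹) =
      (t ^ 50 * (t ^ 150)⁻¹) * ((∏ j ∈ ({3, 5, 7} : Finset (Fin 11))ᶜ, ((2 : ℝ) ^ I j) ^ 2) *
        ∏ i ∈ ({3, 5, 7} : Finset (Fin 11)), ((2 : ℝ) ^ I i) ^ 2) := by ring
    _ = _ := by rw [e3]

end Pool.Agent.PNI
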